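import Mathlib

/-!
Vertex-centroid moves: the two-vertex lemma.
-/

set_option autoImplicit false

namespace Pool.Agent.U260.VC1

/-- an abstract reachability relation on pairs, closed under the two families of slides -/
structure Slides (μ : ℝ) (R : ℂ × ℂ → ℂ × ℂ → Prop) : Prop where
  refl : ∀ p, R p p
  trans : ∀ p q r, R p q → R q r → R p r
  h1 : ∀ (x y : ℂ) (a : ℝ), R (x, y) ((a : ℂ) * x + μ * (1 - a) * y, y)
  h2 : ∀ (x y : ℂ) (a : ℝ), R (x, y) (x, (a : ℂ) * y + μ * (1 - a) * x)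

theorem Slides.swap {μ : ℝ} {R : ℂ × ℂ → ℂ × ℂ → Prop} (h : Slides μ R) :
    Slides μ (fun p q => R (p.2, p.1) (q.2, q.1)) where
  refl p := h.refl _
  trans p q r h1 h2 := h.trans _ _ _ h1 h2
  h1 x y a := h.h2 y x a
  h2 x y a := h.h1 y x a

theorem Slides.neg {μ : ℝ} {R : ℂ × ℂ → ℂ × ℂ → Prop} (h : Slides μ R) :
    Slides (-μ) (fun p q => R (p.1, -p.2) (q.1, -q.2)) where
  refl p := h.refl _
  trans p q r h1 h2 := h.trans _ _ _ h1 h2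
  h1 x y a := by
    have := h.h1 x (-y) a
    convert this using 2
    push_cast
    ring
  h2 x y a := by
    have := h.h2 x (-y) a
    convert this using 2
    push_cast
    ring

/-- the parameter of the loop -/
noncomputable def cc (μ α : ℝ) : ℝ :=
  -(μ * (1 + μ) * α ^ 2) / ((1 - μ) * (1 - μ - μ * α) * (1 + α))

theorem loop {μ : ℝ} {R : ℂ × ℂ → ℂ × ℂ → Prop} (h : Slides μ R) {α : ℝ}
    (h1 : 1 - μ ≠ 0) (h2 : 1 - μ - μ * α ≠ 0) (h3 : 1 + α ≠ 0) (h4 : 1 - μ + α ≠ 0) (x y : ℂ) :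
    R (x, y) (x + cc μ α * (x - y), y + cc μ α * (x - y)) := by
  set a : ℝ := (1 - μ + α) / (1 - μ) with ha
  set d : ℝ := (1 + α) * (1 - μ) / (1 - μ - μ * α) with hd
  have g1 : (1 : ℂ) - μ ≠ 0 := by exact_mod_cast h1
  have g2 : (1 : ℂ) - μ - μ * α ≠ 0 := by exact_mod_cast h2
  have g3 : (1 : ℂ) + α ≠ 0 := by exact_mod_cast h3
  have g4 : (1 : ℂ) - μ + α ≠ 0 := by exact_mod_cast h4
  have e1 := h.h1 x y a
  have e2 := h.h2 ((a : ℂ) * x + μ * (1 - a) * y) y d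
  have e12 := h.trans _ _ _ e1 e2
  have e3 := h.h1 ((a : ℂ) * x + μ * (1 - a) * y)
    ((d : ℂ) * y + μ * (1 - d) * ((a : ℂ) * x + μ * (1 - a) * y)) (1 / d)
  have e123 := h.trans _ _ _ e12 e3
  have e4 := h.h2 ((((1 / d : ℝ)) : ℂ) * ((a : ℂ) * x + μ * (1 - a) * y) +
    μ * (1 - ((1 / d : ℝ) : ℂ)) * ((d : ℂ) * y + μ * (1 - d) * ((a : ℂ) * x + μ * (1 - a) * y)))
    ((d : ℂ) * y + μ * (1 - d) * ((a : ℂ) * x + μ * (1 - a) * y)) (1 / a)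
  have e := h.trans _ _ _ e123 e4
  have key : ((x + cc μ α * (x - y), y + cc μ α * (x - y)) : ℂ × ℂ) =
      ((((1 / d : ℝ)) : ℂ) * ((a : ℂ) * x + μ * (1 - a) * y) +
    μ * (1 - ((1 / d : ℝ) : ℂ)) * ((d : ℂ) * y + μ * (1 - d) * ((a : ℂ) * x + μ * (1 - a) * y)),
    ((1 / a : ℝ) : ℂ) * ((d : ℂ) * y + μ * (1 - d) * ((a : ℂ) * x + μ * (1 - a) * y)) +
      μ * (1 - ((1 / a : ℝ) : ℂ)) * ((((1 / d : ℝ)) : ℂ) * ((a : ℂ) * x + μ * (1 - a) * y) +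
    μ * (1 - ((1 / d : ℝ) : ℂ)) * ((d : ℂ) * y + μ * (1 - d) * ((a : ℂ) * x + μ * (1 - a) * y)))) := by
    rw [Prod.mk.injEq]
    constructor
    · simp only [cc, ha, hd]
      push_cast
      field_simp
      ring
    · simp only [cc, ha, hd]
      push_cast
      field_simp
      ring
  rw [key]
  exact e

theorem cc_cont {μ : ℝ} (hμ : |μ| ≤ 1 / 2) : ContinuousOn (cc μ) (Set.Icc (-(1 / 4)) 0) := by
  have hm := abs_le.1 hμ
  unfold cc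
  apply ContinuousOn.div (by fun_prop) (by fun_prop)
  intro α hα
  have hα1 := hα.1
  have hα2 := hα.2
  have h1 : 0 < 1 - μ := by linarith [hm.2]
  have h2 : 0 < 1 - μ - μ * α := by nlinarith [hm.1, hm.2]
  have h3 : 0 < 1 + α := by linarith
  positivity

/-- the set of admissible translation parameters -/
def PS (R : ℂ × ℂ → ℂ × ℂ → Prop) : Set ℝ :=
  {c | ∀ x y : ℂ, R (x, y) (x + c * (x - y), y + c * (x - y))}

theorem PS_add {μ : ℝ} {R : ℂ × ℂ → ℂ × ℂ → Prop} (h : Slides μ R) {c d : ℝ}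
    (hc : c ∈ PS R) (hd : d ∈ PS R) : c + d ∈ PS R := by
  intro x y
  have h1 := hc x y
  have h2 := hd (x + c * (x - y)) (y + c * (x - y))
  have h3 := h.trans _ _ _ h1 h2
  have key : ((x + ((c + d : ℝ) : ℂ) * (x - y), y + ((c + d : ℝ) : ℂ) * (x - y)) : ℂ × ℂ) =
      (x + c * (x - y) + d * (x + c * (x - y) - (y + c * (x - y))),
        y + c * (x - y) + d * (x + c * (x - y) - (y + c * (x - y)))) := by
    rw [Prod.mk.injEq]
    push_cast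
    constructor <;> ring
  rw [key]
  exact h3

theorem PS_zero {μ : ℝ} {R : ℂ × ℂ → ℂ × ℂ → Prop} (h : Slides μ R) : (0 : ℝ) ∈ PS R := by
  intro x y
  simpa using h.refl (x, y)

theorem PS_nsmul {μ : ℝ} {R : ℂ × ℂ → ℂ × ℂ → Prop} (h : Slides μ R) {c : ℝ}
    (hc : c ∈ PS R) (n : ℕ) : (n : ℝ) * c ∈ PS R := by
  induction n with
  | zero => simpa using PS_zero h
  | succ n ih =>
    have := PS_add h ih hc
    have e : ((n + 1 : ℕ) : ℝ) * c = (n : ℝ) * c + c := by push_cast; ring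
    rw [e]; exact this

theorem PS_cc {μ : ℝ} {R : ℂ × ℂ → ℂ × ℂ → Prop} (h : Slides μ R) (hμ : |μ| ≤ 1 / 2) {α : ℝ}
    (hα : α ∈ Set.Icc (-(1 / 4) : ℝ) 0) : cc μ α ∈ PS R := by
  have hm := abs_le.1 hμ
  have hα1 := hα.1
  have hα2 := hα.2
  have h1 : 0 < 1 - μ := by linarith [hm.2]
  have h2 : 0 < 1 - μ - μ * α := by nlinarith [hm.1, hm.2]
  have h3 : 0 < 1 + α := by linarith
  have h4 : 0 < 1 - μ + α := by linarith [hm.2]
  intro x y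
  exact loop h h1.ne' h2.ne' h3.ne' h4.ne' x y

theorem PS_neg {μ : ℝ} {R : ℂ × ℂ → ℂ × ℂ → Prop} (h : Slides μ R) (hμ : |μ| ≤ 1 / 2) {α : ℝ}
    (hα : α ∈ Set.Icc (-(1 / 4) : ℝ) 0) : -cc μ α ∈ PS R := by
  intro x y
  have := PS_cc h.swap hμ hα y x
  have key : ((x + ((-cc μ α : ℝ) : ℂ) * (x - y), y + ((-cc μ α : ℝ) : ℂ) * (x - y)) : ℂ × ℂ) =
      (x + (cc μ α : ℂ) * (y - x), y + (cc μ α : ℂ) * (y - x)) := by
    rw [Prod.mk.injEq]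
    push_cast
    constructor <;> ring
  rw [key]
  exact this

theorem PS_all {μ : ℝ} {R : ℂ × ℂ → ℂ × ℂ → Prop} (h : Slides μ R) (hμ0 : μ ≠ 0)
    (hμ : |μ| ≤ 1 / 2) (c : ℝ) : c ∈ PS R := by
  have hm := abs_le.1 hμ
  set δ : ℝ := |cc μ (-(1 / 4))| with hδ
  have hδ0 : 0 < δ := by
    rw [hδ, abs_pos]
    unfold cc
    have h1 : 0 < 1 - μ := by linarith [hm.2]
    have h2 : 0 < 1 - μ - μ * (-(1 / 4)) := by nlinarith [hm.1, hm.2]
    have h3 : (0 : ℝ) < 1 + -(1 / 4) := by norm_num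
    have h5 : 0 < 1 + μ := by linarith [hm.1]
    apply div_ne_zero
    · apply neg_ne_zero.2
      apply mul_ne_zero (mul_ne_zero hμ0 h5.ne')
      norm_num
    · positivity
  have h0 : cc μ 0 = 0 := by simp [cc]
  -- the small parameters
  have small : ∀ e : ℝ, |e| ≤ δ → e ∈ PS R := by
    intro e he
    have hcont := cc_cont hμ
    have hle : (-(1 / 4) : ℝ) ≤ 0 := by norm_num
    have he' := abs_le.1 he
    rcases le_total 0 (cc μ (-(1 / 4))) with hs | hs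
    · have hδe : δ = cc μ (-(1 / 4)) := by rw [hδ, abs_of_nonneg hs]
      have hivt := intermediate_value_Icc' hle hcont
      rw [h0] at hivt
      rcases le_total 0 e with he0 | he0
      · obtain ⟨α, hα, hα2⟩ := hivt ⟨he0, hδe ▸ he'.2⟩
        rw [← hα2]; exact PS_cc h hμ hα
      · obtain ⟨α, hα, hα2⟩ := hivt (show -e ∈ _ from ⟨by linarith, by rw [← hδe]; linarith [he'.1]⟩)
        have : e = - cc μ α := by linarith
        rw [this]; exact PS_neg h hμ hα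
    · have hδe : δ = -cc μ (-(1 / 4)) := by rw [hδ, abs_of_nonpos hs]
      have hivt := intermediate_value_Icc hle hcont
      rw [h0] at hivt
      rcases le_total 0 e with he0 | he0
      · obtain ⟨α, hα, hα2⟩ := hivt (show -e ∈ _ from ⟨by linarith [he'.2], by linarith⟩)
        have : e = - cc μ α := by linarith
        rw [this]; exact PS_neg h hμ hα
      · obtain ⟨α, hα, hα2⟩ := hivt (show e ∈ _ from ⟨by linarith [he'.1], he0⟩)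
        rw [← hα2]; exact PS_cc h hμ hα
  obtain ⟨n, hn⟩ := exists_nat_gt (|c| / δ)
  have hn0 : (0 : ℝ) < n := lt_of_le_of_lt (by positivity) hn
  have h1 : c / n ∈ PS R := by
    apply small
    rw [abs_div, abs_of_pos hn0, div_le_iff₀ hn0]
    rw [div_lt_iff₀ hδ0] at hn
    linarith
  have h2 := PS_nsmul h h1 n
  have e : (n : ℝ) * (c / n) = c := by field_simp
  rwa [e] at h2

theorem Slides.T {μ : ℝ} {R : ℂ × ℂ → ℂ × ℂ → Prop} (h : Slides μ R) (hμ0 : μ ≠ 0)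
    (hμ : |μ| ≤ 1 / 2) (c : ℝ) (x y : ℂ) : R (x, y) (x + c * (x - y), y + c * (x - y)) :=
  PS_all h hμ0 hμ c x y

theorem Slides.S {μ : ℝ} {R : ℂ × ℂ → ℂ × ℂ → Prop} (h : Slides μ R) (hμ0 : μ ≠ 0)
    (hμ : |μ| ≤ 1 / 2) (c : ℝ) (x y : ℂ) : R (x, y) (x + c * (x + y), y - c * (x + y)) := by
  have := h.neg.T (neg_ne_zero.2 hμ0) (by rwa [abs_neg]) c x (-y)
  simp only [neg_neg] at this
  have key : ((x + (c : ℂ) * (x + y), y - (c : ℂ) * (x + y)) : ℂ × ℂ) =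
      (x + (c : ℂ) * (x - -y), -(-y + (c : ℂ) * (x - -y))) := by
    rw [Prod.mk.injEq]
    constructor <;> ring
  rw [key]
  exact this

theorem Slides.E {μ : ℝ} {R : ℂ × ℂ → ℂ × ℂ → Prop} (h : Slides μ R) (hμ0 : μ ≠ 0)
    (hμ : |μ| ≤ 1 / 2) (β : ℝ) (x y : ℂ) : R (x, y) (x + β * y, y) := by
  have e1 := h.T hμ0 hμ (-(1 / 2)) x y
  have e2 := h.S hμ0 hμ (β / 4) (x + ((-(1 / 2) : ℝ) : ℂ) * (x - y)) (y + ((-(1 / 2) : ℝ) : ℂ) * (x - y))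
  have e3 := h.T hμ0 hμ (1 / 2)
    (x + ((-(1 / 2) : ℝ) : ℂ) * (x - y) + ((β / 4 : ℝ) : ℂ) * (x + ((-(1 / 2) : ℝ) : ℂ) * (x - y) +
      (y + ((-(1 / 2) : ℝ) : ℂ) * (x - y))))
    (y + ((-(1 / 2) : ℝ) : ℂ) * (x - y) - ((β / 4 : ℝ) : ℂ) * (x + ((-(1 / 2) : ℝ) : ℂ) * (x - y) +
      (y + ((-(1 / 2) : ℝ) : ℂ) * (x - y))))
  have e := h.trans _ _ _ (h.trans _ _ _ e1 e2) e3
  have key : ((x + (β : ℂ) * y, y) : ℂ × ℂ) =
      (x + ((-(1 / 2) : ℝ) : ℂ) * (x - y) + ((β / 4 : ℝ) : ℂ) * (x + ((-(1 / 2) : ℝ) : ℂ) * (x - y) +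
      (y + ((-(1 / 2) : ℝ) : ℂ) * (x - y))) + ((1 / 2 : ℝ) : ℂ) * (x + ((-(1 / 2) : ℝ) : ℂ) * (x - y) +
      ((β / 4 : ℝ) : ℂ) * (x + ((-(1 / 2) : ℝ) : ℂ) * (x - y) +
      (y + ((-(1 / 2) : ℝ) : ℂ) * (x - y))) - (y + ((-(1 / 2) : ℝ) : ℂ) * (x - y) - ((β / 4 : ℝ) : ℂ) *
      (x + ((-(1 / 2) : ℝ) : ℂ) * (x - y) +
      (y + ((-(1 / 2) : ℝ) : ℂ) * (x - y))))),
      y + ((-(1 / 2) : ℝ) : ℂ) * (x - y) - ((β / 4 : ℝ) : ℂ) * (x + ((-(1 / 2) : ℝ) : ℂ) * (x - y) +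
      (y + ((-(1 / 2) : ℝ) : ℂ) * (x - y))) + ((1 / 2 : ℝ) : ℂ) * (x + ((-(1 / 2) : ℝ) : ℂ) * (x - y) +
      ((β / 4 : ℝ) : ℂ) * (x + ((-(1 / 2) : ℝ) : ℂ) * (x - y) +
      (y + ((-(1 / 2) : ℝ) : ℂ) * (x - y))) - (y + ((-(1 / 2) : ℝ) : ℂ) * (x - y) - ((β / 4 : ℝ) : ℂ) *
      (x + ((-(1 / 2) : ℝ) : ℂ) * (x - y) +
      (y + ((-(1 / 2) : ℝ) : ℂ) * (x - y)))))) := by
    rw [Prod.mk.injEq]
    push_cast
    constructor <;> ring
  rw [key]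
  exact e

end Pool.Agent.U260.VC1
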