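import Mathlib
import Pool.Agent.U260.VC1

/-!
Vertex-centroid moves on tuples of points indexed by a finite type.
-/

set_option autoImplicit false

namespace Pool.Agent.U260.VC2

open Pool.Agent.U260.VC1

variable {ι : Type*} [Fintype ι] [DecidableEq ι]

/-- the vertex centroid -/
noncomputable def cen (v : ι → ℂ) : ℂ := (∑ i, v i) / (Fintype.card ι : ℂ)

/-- a vertex-centroid move -/
def Mv (v w : ι → ℂ) : Prop :=
  ∃ i, v i ≠ cen v ∧ ∃ z ∈ line[ℝ, v i, cen v], w = Function.update v i z

/-- reachability -/
def Rch (v w : ι → ℂ) : Prop := Relation.ReflTransGen Mv v w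

theorem Rch.refl (v : ι → ℂ) : Rch v v := Relation.ReflTransGen.refl

theorem Rch.trans {u v w : ι → ℂ} (h1 : Rch u v) (h2 : Rch v w) : Rch u w :=
  Relation.ReflTransGen.trans h1 h2

/-- mean of the other vertices -/
noncomputable def om (v : ι → ℂ) (i : ι) : ℂ := ((∑ j, v j) - v i) / ((Fintype.card ι : ℂ) - 1)

theorem slide (hn : 3 ≤ Fintype.card ι) (v : ι → ℂ) (i : ι) (a : ℝ) :
    Rch v (Function.update v i (om v i + a * (v i - om v i))) := by
  have hn' : (3 : ℝ) ≤ Fintype.card ι := by exact_mod_cast hn
  have n0 : ((Fintype.card ι : ℝ)) ≠ 0 := by linarith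
  have n1 : ((Fintype.card ι : ℝ)) - 1 ≠ 0 := by linarith
  have n0' : ((Fintype.card ι : ℂ)) ≠ 0 := by exact_mod_cast n0
  have n1' : ((Fintype.card ι : ℂ)) - 1 ≠ 0 := by exact_mod_cast n1
  have hrel : v i - cen v = ((Fintype.card ι : ℂ) - 1) / (Fintype.card ι : ℂ) * (v i - om v i) := by
    unfold cen om
    field_simp
    ring
  by_cases h : v i = cen v
  · have h1 : v i - om v i = 0 := by
      rw [h, sub_self] at hrel
      have := hrel.symm
      rw [mul_eq_zero] at this
      rcases this with h2 | h2
      · exfalso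
        exact div_ne_zero n1' n0' h2
      · rw [h]; exact h2
    have h2 : om v i + a * (v i - om v i) = v i := by
      rw [h1, mul_zero, add_zero]
      exact (sub_eq_zero.1 h1).symm
    rw [h2, Function.update_eq_self]
    exact Rch.refl v
  · apply Relation.ReflTransGen.single
    refine ⟨i, h, om v i + a * (v i - om v i), ?_, rfl⟩
    have : om v i + a * (v i - om v i) =
        AffineMap.lineMap (v i) (cen v) ((1 - a) * (Fintype.card ι : ℝ) / ((Fintype.card ι : ℝ) - 1)) := by
      rw [AffineMap.lineMap_apply]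
      simp only [vsub_eq_sub, vadd_eq_add, Complex.real_smul]
      have h3 : cen v = v i - ((Fintype.card ι : ℂ) - 1) / (Fintype.card ι : ℂ) * (v i - om v i) := by
        rw [← hrel]; ring
      rw [h3]
      push_cast
      field_simp
      ring
    rw [this]
    exact AffineMap.lineMap_mem_affineSpan_pair _ _ _

/-- sum after updating one coordinate -/
theorem sum_upd (v : ι → ℂ) (i : ι) (z : ℂ) :
    ∑ j, Function.update v i z j = (∑ j, v j) - v i + z := by
  rw [Finset.sum_update_of_mem (Finset.mem_univ i)]
  have : ∑ j, v j = v i + ∑ x ∈ Finset.univ \ {i}, v x := by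
    rw [← Finset.sum_sdiff (Finset.subset_univ {i})]
    simp [add_comm]
  rw [this]; ring

/-- centroid of all the points but `i`, `k` -/
noncomputable def oc (v : ι → ℂ) (i k : ι) : ℂ :=
  ((∑ j, v j) - v i - v k) / ((Fintype.card ι : ℂ) - 2)

/-- the state of the pair -/
noncomputable def st (v : ι → ℂ) (i k : ι) (p : ℂ × ℂ) : ι → ℂ :=
  Function.update (Function.update v i (oc v i k + p.1)) k (oc v i k + p.2)

theorem st_slides (hn : 3 ≤ Fintype.card ι) (v : ι → ℂ) {i k : ι} (hik : i ≠ k) :
    Slides (1 / ((Fintype.card ι : ℝ) - 1)) (fun p q => Rch (st v i k p) (st v i k q)) := by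
  have hn' : (3 : ℝ) ≤ Fintype.card ι := by exact_mod_cast hn
  have n1 : ((Fintype.card ι : ℝ)) - 1 ≠ 0 := by linarith
  have n2 : ((Fintype.card ι : ℝ)) - 2 ≠ 0 := by linarith
  have n1' : ((Fintype.card ι : ℂ)) - 1 ≠ 0 := by exact_mod_cast n1
  have n2' : ((Fintype.card ι : ℂ)) - 2 ≠ 0 := by exact_mod_cast n2
  have hS : (∑ j, v j) = ((Fintype.card ι : ℂ) - 2) * oc v i k + v i + v k := by
    unfold oc; field_simp; ring
  have hsum : ∀ p : ℂ × ℂ, ∑ j, st v i k p j = (Fintype.card ι : ℂ) * oc v i k + p.1 + p.2 := by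
    intro p
    unfold st
    rw [sum_upd, sum_upd, Function.update_of_ne hik.symm, hS]
    ring
  refine ⟨fun _ => Rch.refl _, fun _ _ _ h1 h2 => h1.trans h2, ?_, ?_⟩
  · intro x y a
    have e := slide hn (st v i k (x, y)) i a
    have h1 : st v i k (x, y) i = oc v i k + x := by
      unfold st
      rw [Function.update_of_ne hik, Function.update_self]
    have h2 : om (st v i k (x, y)) i = oc v i k + y / ((Fintype.card ι : ℂ) - 1) := by
      unfold om
      rw [hsum, h1]
      field_simp
      ring
    rw [h1, h2] at e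
    convert e using 1
    unfold st
    simp only
    rw [Function.update_comm hik]
    rw [Function.update_comm hik, Function.update_idem]
    have key : oc v i k + ((a : ℂ) * x + ((1 / ((Fintype.card ι : ℝ) - 1) : ℝ) : ℂ) * (1 - a) * y) =
        oc v i k + y / ((Fintype.card ι : ℂ) - 1) +
          a * (oc v i k + x - (oc v i k + y / ((Fintype.card ι : ℂ) - 1))) := by
      push_cast
      field_simp
      ring
    rw [key]
  · intro x y a
    have e := slide hn (st v i k (x, y)) k a
    have h1 : st v i k (x, y) k = oc v i k + y := by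
      unfold st
      rw [Function.update_self]
    have h2 : om (st v i k (x, y)) k = oc v i k + x / ((Fintype.card ι : ℂ) - 1) := by
      unfold om
      rw [hsum, h1]
      field_simp
      ring
    rw [h1, h2] at e
    convert e using 1
    unfold st
    simp only
    rw [Function.update_idem]
    congr 1
    push_cast
    field_simp
    ring

omit [DecidableEq ι] in
theorem mu_ok (hn : 3 ≤ Fintype.card ι) : (1 / ((Fintype.card ι : ℝ) - 1)) ≠ 0 ∧
    |1 / ((Fintype.card ι : ℝ) - 1)| ≤ 1 / 2 := by
  have hn' : (3 : ℝ) ≤ Fintype.card ι := by exact_mod_cast hn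
  have n1 : 0 < ((Fintype.card ι : ℝ)) - 1 := by linarith
  refine ⟨by positivity, ?_⟩
  rw [abs_of_pos (by positivity), div_le_div_iff₀ n1 (by norm_num)]
  linarith

theorem pair_move (hn : 3 ≤ Fintype.card ι) (v : ι → ℂ) {i k : ι} (hik : i ≠ k) (β : ℝ) :
    Rch v (Function.update v i (v i + β * (v k - oc v i k))) := by
  have h := (st_slides hn v hik).E (mu_ok hn).1 (mu_ok hn).2 β (v i - oc v i k) (v k - oc v i k)
  have h1 : st v i k (v i - oc v i k, v k - oc v i k) = v := by
    unfold st
    simp only [add_sub_cancel]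
    rw [Function.update_eq_self, Function.update_eq_self]
  have h2 : st v i k (v i - oc v i k + β * (v k - oc v i k), v k - oc v i k) =
      Function.update v i (v i + β * (v k - oc v i k)) := by
    unfold st
    simp only [add_sub_cancel]
    rw [Function.update_comm hik, Function.update_eq_self]
    congr 1
    ring
  simp only [h1, h2] at h
  exact h

theorem diff_move (hn : 3 ≤ Fintype.card ι) (v : ι → ℂ) {i k l : ι} (hik : i ≠ k) (hil : i ≠ l)
    (c : ℝ) : Rch v (Function.update v i (v i + c * (v k - v l))) := by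
  have hn' : (3 : ℝ) ≤ Fintype.card ι := by exact_mod_cast hn
  have n1 : ((Fintype.card ι : ℝ)) - 1 ≠ 0 := by linarith
  have n2 : ((Fintype.card ι : ℝ)) - 2 ≠ 0 := by linarith
  have n1' : ((Fintype.card ι : ℂ)) - 1 ≠ 0 := by exact_mod_cast n1
  have n2' : ((Fintype.card ι : ℂ)) - 2 ≠ 0 := by exact_mod_cast n2
  set β : ℝ := c * (((Fintype.card ι : ℝ)) - 2) / (((Fintype.card ι : ℝ)) - 1) with hβ
  have e1 := pair_move hn v hik β
  have e2 := pair_move hn (Function.update v i (v i + β * (v k - oc v i k))) hil (-β)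
  have e := e1.trans e2
  have h1 : oc (Function.update v i (v i + β * (v k - oc v i k))) i l = oc v i l := by
    unfold oc
    rw [sum_upd, Function.update_self, Function.update_of_ne hil.symm]
    congr 1
    ring
  rw [h1, Function.update_self, Function.update_of_ne hil.symm, Function.update_idem] at e
  have h2 : v i + (c : ℂ) * (v k - v l) =
      v i + (β : ℂ) * (v k - oc v i k) + ((-β : ℝ) : ℂ) * (v l - oc v i l) := by
    simp only [hβ, oc]
    push_cast
    field_simp
    ring
  rw [h2]
  exact e

end Pool.Agent.U260.VC2
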