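import Mathlib
import Pool.Agent.U260.VC2

/-!
Vertex-centroid moves: a vertex of a non-collinear tuple can be moved anywhere, and
any two non-collinear tuples are connected.
-/

set_option autoImplicit false

namespace Pool.Agent.U260.VC3

open Pool.Agent.U260.VC1 Pool.Agent.U260.VC2

/-- cross product -/
def cr (z w : ℂ) : ℝ := z.re * w.im - z.im * w.re

variable {ι : Type*} [Fintype ι] [DecidableEq ι]

/-- three vertices span a triangle -/
def Tri (v : ι → ℂ) (a b c : ι) : Prop := cr (v b - v a) (v c - v a) ≠ 0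

/-- non-collinear -/
def NC (v : ι → ℂ) : Prop := ∃ a b c, Tri v a b c

omit [Fintype ι] in
theorem solve2 {d e z : ℂ} (h : cr d e ≠ 0) : ∃ s t : ℝ, z = s * d + t * e := by
  refine ⟨cr z e / cr d e, cr d z / cr d e, ?_⟩
  have hK : cr d e = d.re * e.im - d.im * e.re := rfl
  set K := cr d e with hK'
  apply Complex.ext
  · simp only [Complex.add_re, Complex.mul_re, Complex.ofReal_re, Complex.ofReal_im, zero_mul,
      sub_zero]
    rw [div_mul_eq_mul_div, div_mul_eq_mul_div, ← add_div, eq_div_iff h, hK]
    unfold cr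
    ring
  · simp only [Complex.add_im, Complex.mul_im, Complex.ofReal_re, Complex.ofReal_im, zero_mul,
      add_zero]
    rw [div_mul_eq_mul_div, div_mul_eq_mul_div, ← add_div, eq_div_iff h, hK]
    unfold cr
    ring

/-- if three other vertices are non-collinear, the vertex is free -/
theorem freeA (hn : 3 ≤ Fintype.card ι) (v : ι → ℂ) {i a b c : ι} (ha : i ≠ a) (hb : i ≠ b)
    (hc : i ≠ c) (h : Tri v a b c) (z : ℂ) : Rch v (Function.update v i z) := by
  obtain ⟨s, t, hst⟩ := solve2 (z := z - v i) h
  have e1 := diff_move hn v hb ha s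
  have e2 := diff_move hn (Function.update v i (v i + s * (v b - v a))) hc ha t
  rw [Function.update_self, Function.update_of_ne hc.symm, Function.update_of_ne ha.symm,
    Function.update_idem] at e2
  have e := e1.trans e2
  have : z = v i + s * (v b - v a) + t * (v c - v a) := by
    have : z = v i + (z - v i) := by ring
    rw [this, hst]; ring
  rw [this]
  exact e

/-- if the vertex forms a triangle with two others, it is free -/
theorem freeB (hn : 3 ≤ Fintype.card ι) (v : ι → ℂ) {i b c : ι} (hb : i ≠ b)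
    (hc : i ≠ c) (h : Tri v i b c) (z : ℂ) : Rch v (Function.update v i z) := by
  have hn' : (3 : ℝ) ≤ Fintype.card ι := by exact_mod_cast hn
  have n1 : ((Fintype.card ι : ℝ)) - 1 ≠ 0 := by linarith
  have n1' : ((Fintype.card ι : ℂ)) - 1 ≠ 0 := by exact_mod_cast n1
  by_cases hex : ∃ j, j ≠ i ∧ Tri v b c j
  · obtain ⟨j, hj, hT⟩ := hex
    exact freeA hn v hb hc hj.symm hT z
  · push Not at hex
    have hz : ∀ j, j ≠ i → cr (v c - v b) (v j - v b) = 0 := by
      intro j hj
      have := hex j hj
      unfold Tri at this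
      push Not at this
      exact this
    -- the mean of the others is on the line `v b`, `v c`
    have hlin : ∀ (s : Finset ι), cr (v c - v b) (∑ j ∈ s, (v j - v b)) =
        ∑ j ∈ s, cr (v c - v b) (v j - v b) := by
      intro s
      unfold cr
      rw [Complex.re_sum, Complex.im_sum, Finset.mul_sum, Finset.mul_sum, ← Finset.sum_sub_distrib]
    have h1 : cr (v c - v b) (∑ j ∈ Finset.univ.erase i, (v j - v b)) = 0 := by
      rw [hlin]
      apply Finset.sum_eq_zero
      intro j hj
      exact hz j (Finset.ne_of_mem_erase hj)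
    have h2 : ∑ j ∈ Finset.univ.erase i, (v j - v b) =
        (((Fintype.card ι : ℝ) - 1 : ℝ) : ℂ) * (om v i - v b) := by
      rw [Finset.sum_sub_distrib, Finset.sum_const, Finset.card_erase_of_mem (Finset.mem_univ i)]
      have h3 : ∑ x ∈ Finset.univ.erase i, v x = (∑ x, v x) - v i := by
        rw [← Finset.sum_erase_add _ _ (Finset.mem_univ i)]; ring
      rw [h3]
      unfold om
      rw [Finset.card_univ, nsmul_eq_mul, Nat.cast_sub (by omega)]
      push_cast
      field_simp
    have hmul : ∀ (r : ℝ) (x y : ℂ), cr x ((r : ℂ) * y) = r * cr x y := by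
      intro r x y
      unfold cr
      simp only [Complex.mul_re, Complex.mul_im, Complex.ofReal_re, Complex.ofReal_im, zero_mul,
        sub_zero, add_zero]
      ring
    rw [h2, hmul] at h1
    have h3 : cr (v c - v b) (om v i - v b) = 0 := by
      rcases mul_eq_zero.1 h1 with h4 | h4
      · exact absurd h4 n1
      · exact h4
    have h4 : cr (v c - v b) (v i - om v i) ≠ 0 := by
      intro h5
      apply h
      have : cr (v b - v i) (v c - v i) =
          cr (v c - v b) (v i - om v i) + cr (v c - v b) (om v i - v b) := by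
        unfold cr
        simp only [Complex.sub_re, Complex.sub_im]
        ring
      rw [this, h5, h3, add_zero]
    obtain ⟨s, t, hst⟩ := solve2 (z := z - om v i) h4
    have e1 := slide hn v i t
    have e2 := diff_move hn (Function.update v i (om v i + t * (v i - om v i))) hc hb s
    rw [Function.update_self, Function.update_of_ne hc.symm, Function.update_of_ne hb.symm,
      Function.update_idem] at e2
    have e := e1.trans e2
    have : z = om v i + t * (v i - om v i) + s * (v c - v b) := by
      have : z = om v i + (z - om v i) := by ring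
      rw [this, hst]; ring
    rw [this]
    exact e

omit [Fintype ι] [DecidableEq ι] in
theorem Tri.rot {v : ι → ℂ} {a b c : ι} (h : Tri v a b c) : Tri v b c a := by
  unfold Tri cr at *
  intro h1
  apply h
  simp only [Complex.sub_re, Complex.sub_im] at *
  linarith

omit [Fintype ι] [DecidableEq ι] in
theorem Tri.ne1 {v : ι → ℂ} {a b c : ι} (h : Tri v a b c) : a ≠ b := by
  rintro rfl
  apply h
  simp [cr]

omit [Fintype ι] [DecidableEq ι] in
theorem Tri.ne2 {v : ι → ℂ} {a b c : ι} (h : Tri v a b c) : a ≠ c := by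
  rintro rfl
  apply h
  simp [cr]

/-- free move -/
theorem free (hn : 3 ≤ Fintype.card ι) (v : ι → ℂ) (h : NC v) (i : ι) (z : ℂ) :
    Rch v (Function.update v i z) := by
  obtain ⟨a, b, c, hT⟩ := h
  by_cases h1 : i = a
  · subst h1
    exact freeB hn v hT.ne1 hT.ne2 hT z
  by_cases h2 : i = b
  · subst h2
    exact freeB hn v hT.rot.ne1 hT.rot.ne2 hT.rot z
  by_cases h3 : i = c
  · subst h3
    exact freeB hn v hT.rot.rot.ne1 hT.rot.rot.ne2 hT.rot.rot z
  exact freeA hn v h1 h2 h3 hT z

/-- reversed free move -/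
theorem free_rev (hn : 3 ≤ Fintype.card ι) (v : ι → ℂ) (i : ι) (z : ℂ)
    (h : NC (Function.update v i z)) :
    Rch (Function.update v i z) v := by
  have := free hn _ h i (v i)
  rwa [Function.update_idem, Function.update_eq_self] at this

/-- avoid four lines -/
theorem avoid (d1 d2 d3 d4 : ℂ) (h1 : d1 ≠ 0) (h2 : d2 ≠ 0) (h3 : d3 ≠ 0) (h4 : d4 ≠ 0)
    (c1 c2 c3 c4 : ℝ) : ∃ z, cr d1 z ≠ c1 ∧ cr d2 z ≠ c2 ∧ cr d3 z ≠ c3 ∧ cr d4 z ≠ c4 := by
  have key : ∀ (d : ℂ) (c : ℝ), d ≠ 0 → (Polynomial.C d.re * Polynomial.X ^ 2 -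
      Polynomial.C d.im * Polynomial.X - Polynomial.C c : Polynomial ℝ) ≠ 0 := by
    intro d c hd h
    apply hd
    have e1 := congrArg (fun p => Polynomial.coeff p 2) h
    have e2 := congrArg (fun p => Polynomial.coeff p 1) h
    simp [Polynomial.coeff_C] at e1 e2
    apply Complex.ext
    · simpa using e1
    · simpa using e2
  have hne := mul_ne_zero (mul_ne_zero (mul_ne_zero (key d1 c1 h1) (key d2 c2 h2)) (key d3 c3 h3))
    (key d4 c4 h4)
  by_contra hcon
  push Not at hcon
  apply hne
  apply Polynomial.funext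
  intro t
  simp only [Polynomial.eval_mul, Polynomial.eval_sub, Polynomial.eval_C, Polynomial.eval_pow,
    Polynomial.eval_X, Polynomial.eval_zero]
  have h := hcon ⟨t, t ^ 2⟩
  simp only [cr] at h
  by_cases g1 : d1.re * t ^ 2 - d1.im * t = c1
  · rw [g1]; ring
  by_cases g2 : d2.re * t ^ 2 - d2.im * t = c2
  · rw [g2]; ring
  by_cases g3 : d3.re * t ^ 2 - d3.im * t = c3
  · rw [g3]; ring
  rw [h g1 g2 g3]; ring

/-- fill in all the vertices outside a triangle -/
theorem fill (hn : 3 ≤ Fintype.card ι) (v w : ι → ℂ) {a b c : ι} (h : Tri v a b c)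
    (s : Finset ι) (ha : a ∉ s) (hb : b ∉ s) (hc : c ∉ s) : Rch v (s.piecewise w v) := by
  induction s using Finset.induction_on with
  | empty => simpa using Rch.refl v
  | insert j s hj ih =>
    simp only [Finset.mem_insert, not_or] at ha hb hc
    have h1 := ih ha.2 hb.2 hc.2
    have h2 : Tri (s.piecewise w v) a b c := by
      unfold Tri
      rw [Finset.piecewise_eq_of_notMem _ _ _ ha.2, Finset.piecewise_eq_of_notMem _ _ _ hb.2,
        Finset.piecewise_eq_of_notMem _ _ _ hc.2]
      exact h
    have h3 := free hn _ ⟨a, b, c, h2⟩ j (w j)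
    rw [← Finset.piecewise_insert] at h3
    exact h1.trans h3

omit [Fintype ι] in
/-- two distinct values away from a given index -/
theorem NC.two {v : ι → ℂ} (h : NC v) (i : ι) : ∃ b c, b ≠ i ∧ c ≠ i ∧ v b ≠ v c := by
  obtain ⟨a, b, c, hT⟩ := h
  have hab : v a ≠ v b := by
    intro h; apply hT; rw [h]; simp [cr]
  have hac : v a ≠ v c := by
    intro h; apply hT; rw [h]; simp [cr]
  have hbc : v b ≠ v c := by
    intro h; apply hT; rw [h]; simp only [cr]; ring
  by_cases h1 : i = a
  · subst h1; exact ⟨b, c, hT.ne1.symm, hT.ne2.symm, hbc⟩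
  by_cases h2 : i = b
  · subst h2; exact ⟨a, c, hT.ne1, hT.rot.ne1.symm, hac⟩
  exact ⟨a, b, fun h => h1 h.symm, fun h => h2 h.symm, hab⟩

/-- the two-step normal form: `v` goes (both ways) to `v` with `i0 ↦ p`, `i1 ↦ q` -/
theorem step2 (hn : 3 ≤ Fintype.card ι) (v : ι → ℂ) {i0 i1 i2 b c : ι} (h01 : i0 ≠ i1)
    (h02 : i0 ≠ i2) (h12 : i1 ≠ i2) (hv : NC v) (hb : b ≠ i0) (hc : c ≠ i0)
    (p q : ℂ) (hp : cr (v c - v b) (p - v b) ≠ 0) (hq : cr (v i2 - p) (q - p) ≠ 0) :
    Rch v (Function.update (Function.update v i0 p) i1 q) ∧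
    Rch (Function.update (Function.update v i0 p) i1 q) v ∧
    Tri (Function.update (Function.update v i0 p) i1 q) i0 i2 i1 := by
  have hT1 : Tri (Function.update v i0 p) b c i0 := by
    unfold Tri
    rw [Function.update_self, Function.update_of_ne hb, Function.update_of_ne hc]
    exact hp
  have hT2 : Tri (Function.update (Function.update v i0 p) i1 q) i0 i2 i1 := by
    unfold Tri
    rw [Function.update_self, Function.update_of_ne h01, Function.update_self,
      Function.update_of_ne h12.symm, Function.update_of_ne h02.symm]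
    exact hq
  refine ⟨(free hn v hv i0 p).trans (free hn _ ⟨_, _, _, hT1⟩ i1 q), ?_, hT2⟩
  exact (free_rev hn _ i1 q ⟨_, _, _, hT2⟩).trans (free_rev hn v i0 p ⟨_, _, _, hT1⟩)

/-- any two non-collinear tuples are connected -/
theorem connected (hn : 3 ≤ Fintype.card ι) (v w : ι → ℂ) (hv : NC v) (hw : NC w) : Rch v w := by
  obtain ⟨i0, i1, i2, h01, h02, h12⟩ : ∃ i0 i1 i2 : ι, i0 ≠ i1 ∧ i0 ≠ i2 ∧ i1 ≠ i2 := by
    obtain ⟨a, b, c, hT⟩ := hv
    exact ⟨a, b, c, hT.ne1, hT.ne2, hT.rot.ne1⟩
  obtain ⟨b, c, hb, hc, hbc⟩ := hv.two i0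
  obtain ⟨b', c', hb', hc', hbc'⟩ := hw.two i0
  obtain ⟨p, hp1, hp2, hp3, hp4⟩ := avoid (v c - v b) (w c' - w b') 1 1
    (sub_ne_zero.2 hbc.symm) (sub_ne_zero.2 hbc'.symm) one_ne_zero one_ne_zero
    (cr (v c - v b) (v b)) (cr (w c' - w b') (w b')) (v i2).im (w i2).im
  have hp5 : v i2 - p ≠ 0 := by
    intro h
    apply hp3
    rw [sub_eq_zero] at h
    rw [h]; simp [cr]
  have hp6 : w i2 - p ≠ 0 := by
    intro h
    apply hp4
    rw [sub_eq_zero] at h
    rw [h]; simp [cr]
  obtain ⟨q, hq1, hq2, -, -⟩ := avoid (v i2 - p) (w i2 - p) 1 1 hp5 hp6 one_ne_zero one_ne_zero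
    (cr (v i2 - p) p) (cr (w i2 - p) p) 0 0
  have crsub : ∀ x y z : ℂ, cr x y ≠ cr x z → cr x (y - z) ≠ 0 := by
    intro x y z h h2
    apply h
    unfold cr at *
    simp only [Complex.sub_re, Complex.sub_im] at h2
    linarith
  obtain ⟨A1, -, A3⟩ := step2 hn v h01 h02 h12 hv hb hc p q (crsub _ _ _ hp1) (crsub _ _ _ hq1)
  obtain ⟨-, B2, B3⟩ := step2 hn w h01 h02 h12 hw hb' hc' p q (crsub _ _ _ hp2) (crsub _ _ _ hq2)
  -- first move `i2`
  have C1 := free hn _ ⟨_, _, _, A3⟩ i2 (w i2)
  set u := Function.update (Function.update (Function.update v i0 p) i1 q) i2 (w i2) with hu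
  have hTu : Tri u i0 i2 i1 := by
    have : Tri (Function.update (Function.update w i0 p) i1 q) i0 i2 i1 := B3
    unfold Tri at this ⊢
    rw [hu, Function.update_self, Function.update_of_ne h02, Function.update_of_ne h12,
      Function.update_self, Function.update_of_ne h01, Function.update_self]
    rw [Function.update_self, Function.update_of_ne h01, Function.update_self,
      Function.update_of_ne h12.symm, Function.update_of_ne h02.symm] at this
    exact this
  have C2 := fill hn u w hTu (Finset.univ \ {i0, i1, i2}) (by simp) (by simp) (by simp)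
  have C3 : (Finset.univ \ {i0, i1, i2} : Finset ι).piecewise w u =
      Function.update (Function.update w i0 p) i1 q := by
    funext j
    by_cases h0 : j = i0
    · subst h0
      rw [Finset.piecewise_eq_of_notMem _ _ _ (by simp), hu, Function.update_of_ne h02,
        Function.update_of_ne h01, Function.update_self, Function.update_of_ne h01,
        Function.update_self]
    by_cases h1 : j = i1
    · subst h1
      rw [Finset.piecewise_eq_of_notMem _ _ _ (by simp), hu, Function.update_of_ne h12,
        Function.update_self, Function.update_self]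
    by_cases h2 : j = i2
    · subst h2
      rw [Finset.piecewise_eq_of_notMem _ _ _ (by simp), hu, Function.update_self,
        Function.update_of_ne h1, Function.update_of_ne h0]
    rw [Finset.piecewise_eq_of_mem _ _ _ (by simp [h0, h1, h2]), Function.update_of_ne h1,
      Function.update_of_ne h0]
  rw [C3] at C2
  exact A1.trans (C1.trans (C2.trans B2))

omit [Fintype ι] [DecidableEq ι] in
theorem NC_of_not_collinear {v : ι → ℂ} (h : ¬ Collinear ℝ (Set.range v)) : NC v := by
  by_contra hNC
  apply h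
  unfold NC Tri at hNC
  push Not at hNC
  by_cases hall : ∃ a b, v a ≠ v b
  · obtain ⟨a, b, hab⟩ := hall
    rw [collinear_iff_of_mem (p₀ := v a) (Set.mem_range_self a)]
    refine ⟨v b - v a, ?_⟩
    rintro _ ⟨c, rfl⟩
    have h1 := hNC a b c
    have hd : v b - v a ≠ 0 := sub_ne_zero.2 hab.symm
    set d := v b - v a with hd'
    have hd2 : d.re ^ 2 + d.im ^ 2 ≠ 0 := by
      intro h2
      apply hd
      have h3 : d.re = 0 := by nlinarith [sq_nonneg d.re, sq_nonneg d.im]
      have h4 : d.im = 0 := by nlinarith [sq_nonneg d.re, sq_nonneg d.im]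
      exact Complex.ext h3 h4
    refine ⟨(d.re * (v c - v a).re + d.im * (v c - v a).im) / (d.re ^ 2 + d.im ^ 2), ?_⟩
    unfold cr at h1
    rw [vadd_eq_add, Complex.real_smul]
    have key : v c - v a = (((d.re * (v c - v a).re + d.im * (v c - v a).im) /
        (d.re ^ 2 + d.im ^ 2) : ℝ) : ℂ) * d := by
      apply Complex.ext
      · simp only [Complex.mul_re, Complex.ofReal_re, Complex.ofReal_im, zero_mul, sub_zero]
        field_simp
        linear_combination (-d.im) * h1
      · simp only [Complex.mul_im, Complex.ofReal_re, Complex.ofReal_im, zero_mul, add_zero]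
        field_simp
        linear_combination (d.re) * h1
    rw [← key]; ring
  · push Not at hall
    rcases isEmpty_or_nonempty ι with hι | ⟨⟨a⟩⟩
    · rw [Set.range_eq_empty]; exact collinear_empty ℝ ℂ
    · have : Set.range v = {v a} := by
        ext x
        constructor
        · rintro ⟨b, rfl⟩; exact hall b a
        · rintro rfl; exact ⟨a, rfl⟩
      rw [this]; exact collinear_singleton ℝ _

omit [Fintype ι] [DecidableEq ι] in
theorem not_collinear_of_NC {v : ι → ℂ} (h : NC v) : ¬ Collinear ℝ (Set.range v) := by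
  intro hcol
  obtain ⟨a, b, c, hT⟩ := h
  obtain ⟨p0, d, hd⟩ := (collinear_iff_exists_forall_eq_smul_vadd (k := ℝ) _).1 hcol
  obtain ⟨ra, ha⟩ := hd (v a) ⟨a, rfl⟩
  obtain ⟨rb, hb⟩ := hd (v b) ⟨b, rfl⟩
  obtain ⟨rc, hc⟩ := hd (v c) ⟨c, rfl⟩
  apply hT
  unfold cr
  rw [ha, hb, hc]
  simp only [vadd_eq_add, Complex.real_smul, Complex.sub_re, Complex.add_re, Complex.mul_re,
    Complex.ofReal_re, Complex.ofReal_im, zero_mul, sub_zero, Complex.sub_im, Complex.add_im,
    Complex.mul_im, add_zero]
  ring

end Pool.Agent.U260.VC3
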