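import Pool.Agent.Helper764.Cop_G
import Pool.Agent.Helper764.Cop_loc

set_option autoImplicit false
set_option maxHeartbeats 4000000

open Finset

namespace Pool.Agent.U260.CS

open Cop764 (G S phi G_eq)

theorem phi_nonneg (w : ℕ → ℝ) (i j : ℕ) : 0 ≤ phi w i j := by
  unfold Cop764.phi
  have := Real.exp_pos (S w i j)
  linarith

theorem half_le_phi (w : ℕ → ℝ) (i j : ℕ) : 1 / 2 ≤ phi w i j := by
  unfold Cop764.phi
  have := Real.exp_pos (S w i j)
  linarith

theorem half_exp_le_phi (w : ℕ → ℝ) (i j : ℕ) : Real.exp (S w i j) / 2 ≤ phi w i j := by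
  unfold Cop764.phi
  linarith

theorem exp_half_le_phi (w : ℕ → ℝ) (i j : ℕ) : Real.exp (S w i j / 2) ≤ phi w i j := by
  unfold Cop764.phi
  have h : Real.exp (S w i j) = Real.exp (S w i j / 2) ^ 2 := by
    rw [← Real.exp_nat_mul]
    congr 1
    push_cast
    ring
  rw [h]
  nlinarith [sq_nonneg (Real.exp (S w i j / 2) - 1)]

theorem S_add (w : ℕ → ℝ) {i j k : ℕ} (h1 : i ≤ j) (h2 : j ≤ k) :
    S w i k = S w i j + S w j k := by
  unfold Cop764.S
  rw [← Finset.sum_union (by
    rw [Finset.disjoint_left]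
    intro a ha hb
    rw [Finset.mem_Ioc] at ha hb
    omega)]
  congr 1
  ext a
  simp only [Finset.mem_Ioc, Finset.mem_union]
  omega

theorem S_self (w : ℕ → ℝ) (i : ℕ) : S w i i = 0 := by
  unfold Cop764.S
  simp

section
variable {K w : ℕ → ℝ}

theorem G_self (K w : ℕ → ℝ) (i : ℕ) : G K w i i = 1 := by
  rw [G_eq, if_pos rfl]

theorem G_nonneg (hK : ∀ n, 0 ≤ K n) (i j : ℕ) : 0 ≤ G K w i j :=
  (Cop764.M_G.J_G K w hK).2.1 i j

/-- decomposition according to the excursion which crosses `x` -/
theorem crossing (x : ℕ) : ∀ n i j : ℕ, x - i = n → i ≤ x → x < j →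
    ∑ a ∈ Icc i x, ∑ b ∈ Ioc x j, G K w i a * (K (b - a) * phi w a b) * G K w b j =
      G K w i j := by
  intro n
  induction n using Nat.strong_induction_on with
  | _ n ih =>
    intro i j hn hix hxj
    rcases eq_or_lt_of_le hix with rfl | hlt
    · rw [Finset.Icc_self, Finset.sum_singleton, G_eq K w i j, if_neg (by omega)]
      refine Finset.sum_congr rfl fun b _ => ?_
      rw [G_self, one_mul]
    · rw [G_eq K w i j, if_neg (by omega)]
      have hsplit : Finset.Ioc i j = Finset.Ioc i x ∪ Finset.Ioc x j := by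
        ext a
        simp only [Finset.mem_Ioc, Finset.mem_union]
        omega
      have hdisj : Disjoint (Finset.Ioc i x) (Finset.Ioc x j) := by
        rw [Finset.disjoint_left]
        intro a ha hb
        rw [Finset.mem_Ioc] at ha hb
        omega
      rw [hsplit, Finset.sum_union hdisj]
      have hsplit2 : Finset.Icc i x = insert i (Finset.Ioc i x) := by
        ext a
        simp only [Finset.mem_Icc, Finset.mem_insert, Finset.mem_Ioc]
        omega
      rw [hsplit2, Finset.sum_insert (by simp)]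
      rw [add_comm]
      congr 1
      · -- crossing later
        have h1 : ∀ k ∈ Finset.Ioc i x, K (k - i) * phi w i k * G K w k j =
            ∑ a ∈ Icc k x, ∑ b ∈ Ioc x j,
              K (k - i) * phi w i k * (G K w k a * (K (b - a) * phi w a b) * G K w b j) := by
          intro k hk
          rw [Finset.mem_Ioc] at hk
          rw [← ih (x - k) (by omega) k j rfl hk.2 hxj, Finset.mul_sum]
          refine Finset.sum_congr rfl fun a _ => ?_
          rw [Finset.mul_sum]
        rw [Finset.sum_congr rfl h1]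
        have h2 : ∑ k ∈ Finset.Ioc i x, ∑ a ∈ Icc k x, ∑ b ∈ Ioc x j,
              K (k - i) * phi w i k * (G K w k a * (K (b - a) * phi w a b) * G K w b j) =
            ∑ a ∈ Finset.Ioc i x, ∑ k ∈ Ioc i a, ∑ b ∈ Ioc x j,
              K (k - i) * phi w i k * (G K w k a * (K (b - a) * phi w a b) * G K w b j) := by
          apply Finset.sum_comm'
          intro a b
          simp only [Finset.mem_Ioc, Finset.mem_Icc]
          omega
        rw [h2]
        refine Finset.sum_congr rfl fun a ha => ?_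
        rw [Finset.mem_Ioc] at ha
        rw [Finset.sum_comm]
        refine Finset.sum_congr rfl fun b _ => ?_
        rw [G_eq K w i a, if_neg (by omega), Finset.sum_mul, Finset.sum_mul]
        refine Finset.sum_congr rfl fun k _ => ?_
        ring
      · refine Finset.sum_congr rfl fun b _ => ?_
        rw [G_self, one_mul]

/-- the renewal mass function -/
noncomputable def u (K : ℕ → ℝ) (n : ℕ) : ℝ := G K (fun _ => 0) 0 n

theorem phi_zero (i j : ℕ) : phi (fun _ => (0 : ℝ)) i j = 1 := by
  unfold Cop764.phi Cop764.S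
  simp

theorem G_zero_eq (K : ℕ → ℝ) {i j : ℕ} (h : i ≤ j) : G K (fun _ => 0) i j = u K (j - i) := by
  have := Cop764.M_loc.J_loc.1 K (fun _ => (0 : ℝ)) i 0 (j - i)
  rw [Nat.zero_add, Nat.sub_add_cancel h] at this
  exact this.symm

theorem u_zero (K : ℕ → ℝ) : u K 0 = 1 := G_self K _ 0

theorem u_nonneg (hK : ∀ n, 0 ≤ K n) (n : ℕ) : 0 ≤ u K n := G_nonneg hK 0 n

theorem u_rec (K : ℕ → ℝ) (n : ℕ) :
    u K (n + 1) = ∑ j ∈ range (n + 1), u K j * K (n + 1 - j) := by
  have h1 : u K (n + 1) = ∑ k ∈ Finset.Ioc 0 (n + 1), K k * u K (n + 1 - k) := by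
    unfold u
    rw [G_eq, if_neg (by omega)]
    refine Finset.sum_congr rfl fun k hk => ?_
    rw [Finset.mem_Ioc] at hk
    rw [phi_zero, mul_one, Nat.sub_zero, G_zero_eq K hk.2]
    rfl
  rw [h1]
  refine Finset.sum_bij' (fun k _ => n + 1 - k) (fun j _ => n + 1 - j) ?_ ?_ ?_ ?_ ?_
  · intro k hk
    rw [Finset.mem_Ioc] at hk
    rw [Finset.mem_range]
    omega
  · intro j hj
    rw [Finset.mem_range] at hj
    rw [Finset.mem_Ioc]
    omega
  · intro k hk
    rw [Finset.mem_Ioc] at hk
    omega
  · intro j hj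
    rw [Finset.mem_range] at hj
    omega
  · intro k hk
    rw [Finset.mem_Ioc] at hk
    have : n + 1 - (n + 1 - k) = k := by omega
    rw [this, mul_comm]

/-- lower bound by the homogeneous model -/
theorem G_ge (hK : ∀ n, 0 ≤ K n) (j : ℕ) : ∀ n i : ℕ, j - i = n → i ≤ j →
    Real.exp (S w i j / 2) * u K (j - i) ≤ G K w i j := by
  intro n
  induction n using Nat.strong_induction_on with
  | _ n ih =>
    intro i hn hij
    rcases eq_or_lt_of_le hij with rfl | hlt
    · rw [S_self, Nat.sub_self, u_zero, G_self]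
      simp
    · rw [← G_zero_eq K hij, G_eq K w i j, if_neg (by omega), G_eq K _ i j, if_neg (by omega),
        Finset.mul_sum]
      refine Finset.sum_le_sum fun k hk => ?_
      rw [Finset.mem_Ioc] at hk
      have h1 := ih (j - k) (by omega) k rfl hk.2
      rw [phi_zero, G_zero_eq K hk.2, S_add w hk.1.le hk.2, add_div, Real.exp_add]
      have h2 := exp_half_le_phi w i k
      have h3 : 0 ≤ Real.exp (S w k j / 2) * u K (j - k) :=
        mul_nonneg (Real.exp_pos _).le (u_nonneg hK _)
      calc Real.exp (S w i k / 2) * Real.exp (S w k j / 2) * (K (k - i) * 1 * u K (j - k))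
          = K (k - i) * Real.exp (S w i k / 2) * (Real.exp (S w k j / 2) * u K (j - k)) := by ring
        _ ≤ K (k - i) * phi w i k * (Real.exp (S w k j / 2) * u K (j - k)) := by
            refine mul_le_mul_of_nonneg_right ?_ h3
            exact mul_le_mul_of_nonneg_left h2 (hK _)
        _ ≤ K (k - i) * phi w i k * G K w k j :=
            mul_le_mul_of_nonneg_left h1 (mul_nonneg (hK _) (phi_nonneg _ _ _))

/-- renewal function -/
noncomputable def UU (K : ℕ → ℝ) (n : ℕ) : ℝ := ∑ k ∈ range (n + 1), u K k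

/-- tail of the gap law -/
noncomputable def TT (K : ℕ → ℝ) (n : ℕ) : ℝ := 1 - ∑ k ∈ Icc 1 n, K k

theorem TT_succ (K : ℕ → ℝ) (n : ℕ) : TT K (n + 1) = TT K n - K (n + 1) := by
  unfold TT
  rw [Finset.sum_Icc_succ_top (by omega)]
  ring

theorem renewal_identity (K : ℕ → ℝ) (m : ℕ) :
    ∑ j ∈ range (m + 1), u K j * TT K (m - j) = 1 := by
  induction m with
  | zero => simp [u_zero, TT]
  | succ m ih =>
    rw [Finset.sum_range_succ, Nat.sub_self]
    have h0 : TT K 0 = 1 := by simp [TT]
    rw [h0, mul_one, u_rec, ← Finset.sum_add_distrib]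
    rw [← ih]
    refine Finset.sum_congr rfl fun j hj => ?_
    rw [Finset.mem_range] at hj
    have e : m + 1 - j = (m - j) + 1 := by omega
    rw [e, TT_succ]
    ring

theorem UU_lower (hK : ∀ n, 0 ≤ K n) (hT : ∀ n, 0 ≤ TT K n) (n : ℕ) :
    (n : ℝ) + 1 ≤ UU K n * ∑ l ∈ range (n + 1), TT K l := by
  have h1 : ((n : ℝ) + 1) = ∑ m ∈ range (n + 1), ∑ j ∈ range (m + 1), u K j * TT K (m - j) := by
    simp only [renewal_identity]
    simp
  have h2 : ∑ m ∈ range (n + 1), ∑ j ∈ range (m + 1), u K j * TT K (m - j) =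
      ∑ j ∈ range (n + 1), ∑ m ∈ Ico j (n + 1), u K j * TT K (m - j) := by
    apply Finset.sum_comm'
    intro a b
    simp only [Finset.mem_range, Finset.mem_Ico]
    omega
  rw [h1, h2]
  unfold UU
  rw [Finset.sum_mul]
  refine Finset.sum_le_sum fun j hj => ?_
  rw [← Finset.mul_sum]
  refine mul_le_mul_of_nonneg_left ?_ (u_nonneg hK j)
  rw [Finset.sum_Ico_eq_sum_range]
  have e : ∀ i, j + i - j = i := fun i => by omega
  simp only [e]
  refine Finset.sum_le_sum_of_subset_of_nonneg ?_ (fun l _ _ => hT l)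
  intro a ha
  rw [Finset.mem_range] at ha ⊢
  omega

end

end Pool.Agent.U260.CS
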