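import Pool.Agent.U260.CS9d
import Pool.Agent.Helper764.Cop_hc
import Pool.Agent.Helper764.Cop_fe

set_option autoImplicit false
set_option maxHeartbeats 4000000

open MeasureTheory ProbabilityTheory Filter Topology

namespace Pool.Agent.U260.CS

/-- facts about the critical point of one model -/
theorem crit_facts (D : Cop764.Data) :
    (∀ h, 0 ≤ h → Tendsto (Cop764.feN D.κ D.ν D.lam h) atTop (𝓝 (D.f h))) ∧
    BddAbove {h : ℝ | 0 < D.f h} ∧ {h : ℝ | 0 ≤ h ∧ 0 < D.f h}.Nonempty ∧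
    sSup {h : ℝ | 0 < D.f h} = sSup {h : ℝ | 0 ≤ h ∧ 0 < D.f h} ∧
    (∀ h, 0 ≤ h → (0 < D.f h ↔ h < sSup {h : ℝ | 0 < D.f h})) ∧
    0 < sSup {h : ℝ | 0 < D.f h} := by
  obtain ⟨hc, hcpos, hiff, -⟩ := Cop764.M_hc.J_hc D
  have hub : ∀ h, 0 < D.f h → h ≤ hc := by
    intro h hh
    by_cases h0 : 0 ≤ h
    · exact ((hiff h h0).1 hh).le
    · linarith
  have hb : BddAbove {h : ℝ | 0 < D.f h} := ⟨hc, fun h hh => hub h hh⟩
  have hb2 : BddAbove {h : ℝ | 0 ≤ h ∧ 0 < D.f h} := ⟨hc, fun h hh => hub h hh.2⟩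
  have hne : {h : ℝ | 0 ≤ h ∧ 0 < D.f h}.Nonempty := ⟨0, le_rfl, (hiff 0 le_rfl).2 hcpos⟩
  have hne2 : {h : ℝ | 0 < D.f h}.Nonempty := ⟨0, (hiff 0 le_rfl).2 hcpos⟩
  have e1 : sSup {h : ℝ | 0 < D.f h} = hc := by
    refine le_antisymm (csSup_le hne2 fun h hh => hub h hh) ?_
    refine le_of_forall_lt fun y hy => ?_
    have h1 : max y 0 < hc := max_lt hy hcpos
    have h2 : (max y 0 + hc) / 2 ∈ {h : ℝ | 0 < D.f h} := by
      have h3 : 0 ≤ (max y 0 + hc) / 2 := by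
        have := le_max_right y 0
        linarith
      exact (hiff _ h3).2 (by linarith)
    have h4 := le_csSup hb h2
    have := le_max_left y 0
    linarith
  have e2 : sSup {h : ℝ | 0 ≤ h ∧ 0 < D.f h} = hc := by
    refine le_antisymm (csSup_le hne fun h hh => hub h hh.2) ?_
    refine le_of_forall_lt fun y hy => ?_
    have h1 : max y 0 < hc := max_lt hy hcpos
    have h3 : 0 ≤ (max y 0 + hc) / 2 := by
      have := le_max_right y 0
      linarith
    have h2 : (max y 0 + hc) / 2 ∈ {h : ℝ | 0 ≤ h ∧ 0 < D.f h} :=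
      ⟨h3, (hiff _ h3).2 (by linarith)⟩
    have h4 := le_csSup hb2 h2
    have := le_max_left y 0
    linarith
  refine ⟨fun h hh => (Cop764.M_fe.J_fe D h hh).1, hb, hne, by rw [e1, e2], ?_, by rw [e1]; exact hcpos⟩
  intro h hh
  rw [e1]
  exact hiff h hh

/-- if `h_c(λ)/λ` converges, then the limit exceeds every eventual lower slope -/
theorem limit_ge {g : ℝ → ℝ} {m m' : ℝ} (h1 : ∀ᶠ lam in 𝓝[>] (0 : ℝ), m * lam < g lam)
    (h2 : Tendsto (fun lam => g lam / lam) (𝓝[>] (0 : ℝ)) (𝓝 m')) : m ≤ m' := by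
  refine ge_of_tendsto h2 ?_
  filter_upwards [h1, self_mem_nhdsWithin] with lam hl hp
  rw [le_div_iff₀ hp]
  exact hl.le

end Pool.Agent.U260.CS
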