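import Pool.Agent.U260.CS1

set_option autoImplicit false
set_option maxHeartbeats 4000000

open Finset Filter Topology

namespace Pool.Agent.U260.CS

open Cop764 (G S phi G_eq)

lemma rpow_telescope {α : ℝ} (hα : 0 < α) {x : ℝ} (hx : 1 ≤ x) :
    x ^ (-(1 + α)) ≤ 2 ^ (1 + α) / α * (x ^ (-α) - (x + 1) ^ (-α)) := by
  have hx0 : 0 < x := by linarith
  have hx1 : 0 < x + 1 := by linarith
  -- x^{-α} ≥ (x+1)^{-α} (1 + α/(x+1))
  have h1 : (x + 1) ^ (-α) * (1 + α / (x + 1)) ≤ x ^ (-α) := by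
    have hlog : 1 / (x + 1) ≤ Real.log ((x + 1) / x) := by
      have := Real.one_sub_inv_le_log_of_pos (show 0 < (x + 1) / x by positivity)
      have e : 1 - ((x + 1) / x)⁻¹ = 1 / (x + 1) := by field_simp; ring
      rwa [e] at this
    have h2 : 1 + α / (x + 1) ≤ ((x + 1) / x) ^ α := by
      rw [Real.rpow_def_of_pos (by positivity)]
      calc 1 + α / (x + 1) ≤ Real.exp (α / (x + 1)) := by
            have := Real.add_one_le_exp (α / (x + 1)); linarith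
        _ ≤ Real.exp (Real.log ((x + 1) / x) * α) := by
            apply Real.exp_le_exp.2
            calc α / (x + 1) = 1 / (x + 1) * α := by ring
              _ ≤ _ := mul_le_mul_of_nonneg_right hlog hα.le
    calc (x + 1) ^ (-α) * (1 + α / (x + 1)) ≤ (x + 1) ^ (-α) * ((x + 1) / x) ^ α :=
          mul_le_mul_of_nonneg_left h2 (Real.rpow_nonneg hx1.le _)
      _ = x ^ (-α) := by
          rw [Real.div_rpow hx1.le hx0.le, Real.rpow_neg hx1.le, Real.rpow_neg hx0.le]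
          have : (x + 1) ^ α ≠ 0 := (Real.rpow_pos_of_pos hx1 _).ne'
          field_simp
  have h3 : (2 * x) ^ (-(1 + α)) ≤ (x + 1) ^ (-(1 + α)) :=
    Real.rpow_le_rpow_of_nonpos hx1 (by linarith) (by linarith)
  have h4 : (x + 1) ^ (-(1 + α)) = (x + 1) ^ (-α) / (x + 1) := by
    rw [show -(1 + α) = -α - 1 by ring, Real.rpow_sub_one hx1.ne']
  have h5 : (2 * x) ^ (-(1 + α)) = (2 ^ (1 + α))⁻¹ * x ^ (-(1 + α)) := by
    rw [Real.mul_rpow (by norm_num) hx0.le, Real.rpow_neg (by norm_num : (0 : ℝ) ≤ 2)]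
  have h2pos : (0 : ℝ) < 2 ^ (1 + α) := by positivity
  have h6 : x ^ (-(1 + α)) ≤ 2 ^ (1 + α) * (x + 1) ^ (-(1 + α)) := by
    rw [h5] at h3
    calc x ^ (-(1 + α)) = 2 ^ (1 + α) * ((2 ^ (1 + α))⁻¹ * x ^ (-(1 + α))) := by
          field_simp
      _ ≤ _ := mul_le_mul_of_nonneg_left h3 h2pos.le
  have h7 : α * (x + 1) ^ (-(1 + α)) ≤ x ^ (-α) - (x + 1) ^ (-α) := by
    rw [h4]
    have : (x + 1) ^ (-α) * (1 + α / (x + 1)) = (x + 1) ^ (-α) + α * ((x + 1) ^ (-α) / (x + 1)) := by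
      ring
    linarith
  calc x ^ (-(1 + α)) ≤ 2 ^ (1 + α) * (x + 1) ^ (-(1 + α)) := h6
    _ = 2 ^ (1 + α) / α * (α * (x + 1) ^ (-(1 + α))) := by field_simp
    _ ≤ _ := mul_le_mul_of_nonneg_left h7 (by positivity)

/-- `Σ_{l ≤ n} (l+1)^{-α} ≤ (n+1)^{1-α}/(1-α)` -/
lemma sum_rpow_le {α : ℝ} (hα : 0 < α) (hα1 : α < 1) (n : ℕ) :
    ∑ l ∈ range n, ((l : ℝ) + 1) ^ (-α) ≤ (n : ℝ) ^ (1 - α) / (1 - α) := by
  have h1α : 0 < 1 - α := by linarith
  induction n with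
  | zero =>
    simp
    positivity
  | succ n ih =>
    rw [Finset.sum_range_succ]
    have hn : (0 : ℝ) < (n : ℝ) + 1 := by positivity
    have h1 : (1 + (-1 / ((n : ℝ) + 1))) ^ (1 - α) ≤ 1 + (1 - α) * (-1 / ((n : ℝ) + 1)) := by
      apply _root_.rpow_one_add_le_one_add_mul_self
      · rw [neg_div]
        apply neg_le_neg
        rw [div_le_one hn]
        have : (0 : ℝ) ≤ n := Nat.cast_nonneg n
        linarith
      · linarith
      · linarith
    have h2 : (n : ℝ) = ((n : ℝ) + 1) * (1 + (-1 / ((n : ℝ) + 1))) := by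
      field_simp
      ring
    have h3 : (n : ℝ) ^ (1 - α) ≤ ((n : ℝ) + 1) ^ (1 - α) * (1 + (1 - α) * (-1 / ((n : ℝ) + 1))) := by
      have h0 : 0 ≤ 1 + (-1 / ((n : ℝ) + 1)) := by
        have : (1 : ℝ) / ((n : ℝ) + 1) ≤ 1 := by
          rw [div_le_one hn]
          have : (0 : ℝ) ≤ n := Nat.cast_nonneg n
          linarith
        have e : -1 / ((n : ℝ) + 1) = -(1 / ((n : ℝ) + 1)) := by ring
        rw [e]
        linarith
      calc (n : ℝ) ^ (1 - α) = (((n : ℝ) + 1) * (1 + (-1 / ((n : ℝ) + 1)))) ^ (1 - α) := by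
            rw [← h2]
        _ = ((n : ℝ) + 1) ^ (1 - α) * (1 + (-1 / ((n : ℝ) + 1))) ^ (1 - α) :=
            Real.mul_rpow hn.le h0
        _ ≤ _ := mul_le_mul_of_nonneg_left h1 (Real.rpow_nonneg hn.le _)
    have h4 : ((n : ℝ) + 1) ^ (-α) = ((n : ℝ) + 1) ^ (1 - α) / ((n : ℝ) + 1) := by
      rw [show -α = (1 - α) - 1 by ring, Real.rpow_sub_one hn.ne']
    have h5 : ((n + 1 : ℕ) : ℝ) = (n : ℝ) + 1 := by push_cast; ring
    rw [h5]
    have h6 : (n : ℝ) ^ (1 - α) / (1 - α) + ((n : ℝ) + 1) ^ (-α) ≤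
        ((n : ℝ) + 1) ^ (1 - α) / (1 - α) := by
      rw [h4]
      rw [div_add' _ _ _ h1α.ne', div_le_div_iff_of_pos_right h1α]
      have : ((n : ℝ) + 1) ^ (1 - α) * (1 + (1 - α) * (-1 / ((n : ℝ) + 1))) =
        ((n : ℝ) + 1) ^ (1 - α) - ((n : ℝ) + 1) ^ (1 - α) / ((n : ℝ) + 1) * (1 - α) := by
        field_simp
        ring
      linarith
    linarith

variable (κ : PMF ℕ)

theorem PMF_hasSum : HasSum (fun n => (κ n).toReal) 1 := by
  have h := κ.tsum_coe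
  have h1 : Summable (fun n => (κ n).toReal) := by
    apply ENNReal.summable_toReal
    rw [h]
    exact ENNReal.one_ne_top
  have h2 : ∑' n, (κ n).toReal = 1 := by
    rw [← ENNReal.tsum_toReal_eq (fun n => κ.apply_ne_top n), h]
    rfl
  rw [← h2]
  exact h1.hasSum

theorem TT_eq (h0 : κ 0 = 0) (n : ℕ) :
    TT (fun n => (κ n).toReal) n = 1 - ∑ k ∈ range (n + 1), (κ k).toReal := by
  unfold TT
  congr 1
  rw [Finset.range_eq_Ico, Finset.sum_eq_sum_Ico_succ_bot (by omega)]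
  rw [h0]
  simp only [ENNReal.toReal_zero, zero_add]
  rfl

theorem TT_nonneg (h0 : κ 0 = 0) (n : ℕ) : 0 ≤ TT (fun n => (κ n).toReal) n := by
  rw [TT_eq κ h0]
  have := sum_le_hasSum (range (n + 1)) (fun i _ => ENNReal.toReal_nonneg) (PMF_hasSum κ)
  linarith

theorem TT_le (h0 : κ 0 = 0) {α cK : ℝ} (hα : 0 < α) (hα1 : α < 1) (hcK : 0 < cK)
    {k0 : ℕ} (hk0 : 1 ≤ k0)
    (hK : ∀ n, k0 ≤ n → (κ n).toReal ≤ 2 * cK * (n : ℝ) ^ (-(1 + α)))
    {n : ℕ} (hn : k0 ≤ n) :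
    TT (fun n => (κ n).toReal) n ≤ 8 * cK / α * ((n : ℝ) + 1) ^ (-α) := by
  rw [TT_eq κ h0]
  have h4 : (2 : ℝ) ^ (1 + α) ≤ 4 := by
    calc (2 : ℝ) ^ (1 + α) ≤ 2 ^ (2 : ℝ) := Real.rpow_le_rpow_of_exponent_le (by norm_num) (by linarith)
      _ = 4 := by norm_num
  have key : ∀ M : ℕ, ∑ k ∈ range (n + 1 + M), (κ k).toReal ≤
      ∑ k ∈ range (n + 1), (κ k).toReal +
        8 * cK / α * (((n : ℝ) + 1) ^ (-α) - ((n : ℝ) + 1 + M) ^ (-α)) := by
    intro M
    induction M with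
    | zero => simp
    | succ M ih =>
      rw [← add_assoc, Finset.sum_range_succ]
      have h1 := hK (n + 1 + M) (by omega)
      have hx : (1 : ℝ) ≤ (n : ℝ) + 1 + M := by
        have : (0 : ℝ) ≤ n := Nat.cast_nonneg n
        have : (0 : ℝ) ≤ M := Nat.cast_nonneg M
        linarith
      have h2 := rpow_telescope hα hx
      have h3 : 0 ≤ ((n : ℝ) + 1 + M) ^ (-α) - ((n : ℝ) + 1 + M + 1) ^ (-α) := by
        have := Real.rpow_le_rpow_of_nonpos (show 0 < (n : ℝ) + 1 + M by linarith)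
          (show (n : ℝ) + 1 + M ≤ (n : ℝ) + 1 + M + 1 by linarith) (show -α ≤ 0 by linarith)
        linarith
      have h5 : (κ (n + 1 + M)).toReal ≤
          8 * cK / α * (((n : ℝ) + 1 + M) ^ (-α) - ((n : ℝ) + 1 + M + 1) ^ (-α)) := by
        push_cast at h1
        refine h1.trans ?_
        calc 2 * cK * ((n : ℝ) + 1 + M) ^ (-(1 + α))
            ≤ 2 * cK * (2 ^ (1 + α) / α * (((n : ℝ) + 1 + M) ^ (-α) - ((n : ℝ) + 1 + M + 1) ^ (-α))) :=
              mul_le_mul_of_nonneg_left h2 (by linarith)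
          _ = 2 * cK / α * (((n : ℝ) + 1 + M) ^ (-α) - ((n : ℝ) + 1 + M + 1) ^ (-α)) * 2 ^ (1 + α) := by
              ring
          _ ≤ 2 * cK / α * (((n : ℝ) + 1 + M) ^ (-α) - ((n : ℝ) + 1 + M + 1) ^ (-α)) * 4 := by
              refine mul_le_mul_of_nonneg_left h4 ?_
              exact mul_nonneg (by positivity) h3
          _ = _ := by ring
      push_cast
      have e : (n : ℝ) + 1 + (M + 1) = (n : ℝ) + 1 + M + 1 := by ring
      rw [e]
      have e2 : 8 * cK / α * (((n : ℝ) + 1) ^ (-α) - ((n : ℝ) + 1 + M + 1) ^ (-α)) =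
        8 * cK / α * (((n : ℝ) + 1) ^ (-α) - ((n : ℝ) + 1 + M) ^ (-α)) +
        8 * cK / α * (((n : ℝ) + 1 + M) ^ (-α) - ((n : ℝ) + 1 + M + 1) ^ (-α)) := by ring
      rw [e2]
      linarith
  have key2 : ∀ M : ℕ, ∑ k ∈ range (n + 1 + M), (κ k).toReal ≤
      ∑ k ∈ range (n + 1), (κ k).toReal + 8 * cK / α * ((n : ℝ) + 1) ^ (-α) := by
    intro M
    refine (key M).trans ?_
    have h1 : 0 ≤ ((n : ℝ) + 1 + M) ^ (-α) := Real.rpow_nonneg (by positivity) _
    have h2 : 0 ≤ 8 * cK / α := by positivity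
    nlinarith
  have hT : Tendsto (fun M : ℕ => ∑ k ∈ range (n + 1 + M), (κ k).toReal) atTop (𝓝 1) := by
    have h1 := (PMF_hasSum κ).tendsto_sum_nat
    have h2 : Tendsto (fun M : ℕ => n + 1 + M) atTop atTop :=
      tendsto_atTop_mono (fun M => (by simp : M ≤ n + 1 + M)) tendsto_id
    exact h1.comp h2
  have := le_of_tendsto' hT key2
  linarith

theorem tail_bounds (h0 : κ 0 = 0) {α cK : ℝ} (hα : 0 < α) (hα1 : α < 1) (hcK : 0 < cK)
    (htail : Tendsto (fun n : ℕ => (n : ℝ) ^ (1 + α) * (κ n).toReal) atTop (𝓝 cK)) :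
    ∃ n1 : ℕ, 1 ≤ n1 ∧ ∀ n, n1 ≤ n → cK / 2 * (n : ℝ) ^ (-(1 + α)) ≤ (κ n).toReal ∧
      α * (1 - α) / (16 * cK) * (n : ℝ) ^ α ≤ UU (fun n => (κ n).toReal) n := by
  have hev1 : ∀ᶠ n : ℕ in atTop, cK / 2 < (n : ℝ) ^ (1 + α) * (κ n).toReal :=
    htail.eventually (lt_mem_nhds (by linarith))
  have hev2 : ∀ᶠ n : ℕ in atTop, (n : ℝ) ^ (1 + α) * (κ n).toReal < 2 * cK :=
    htail.eventually (gt_mem_nhds (by linarith))
  obtain ⟨k1, hk1⟩ := eventually_atTop.mp (hev1.and hev2)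
  obtain ⟨k0, hk0⟩ : ∃ k0, k0 = max 1 k1 := ⟨_, rfl⟩
  have hk01 : 1 ≤ k0 := by omega
  have hlow : ∀ n, k0 ≤ n → cK / 2 * (n : ℝ) ^ (-(1 + α)) ≤ (κ n).toReal := by
    intro n hn
    have hnpos : (0 : ℝ) < n := by
      have : 1 ≤ n := by omega
      exact_mod_cast this
    have hx : (0 : ℝ) < (n : ℝ) ^ (1 + α) := Real.rpow_pos_of_pos hnpos _
    have h3 := (hk1 n (by omega)).1
    rw [Real.rpow_neg hnpos.le, ← div_eq_mul_inv, div_le_iff₀ hx]
    linarith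
  have hup : ∀ n, k0 ≤ n → (κ n).toReal ≤ 2 * cK * (n : ℝ) ^ (-(1 + α)) := by
    intro n hn
    have hnpos : (0 : ℝ) < n := by
      have : 1 ≤ n := by omega
      exact_mod_cast this
    have hx : (0 : ℝ) < (n : ℝ) ^ (1 + α) := Real.rpow_pos_of_pos hnpos _
    have h3 := (hk1 n (by omega)).2
    rw [Real.rpow_neg hnpos.le, ← div_eq_mul_inv, le_div_iff₀ hx]
    linarith
  have h1α : 0 < 1 - α := by linarith
  obtain ⟨B, hB⟩ : ∃ B : ℝ, B = 8 * cK / (α * (1 - α)) := ⟨_, rfl⟩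
  have hBpos : 0 < B := by rw [hB]; positivity
  have hdiv : Tendsto (fun n : ℕ => ((n : ℝ) + 1) ^ (1 - α)) atTop atTop :=
    (tendsto_rpow_atTop h1α).comp
      (tendsto_atTop_add_const_right _ 1 tendsto_natCast_atTop_atTop)
  obtain ⟨n2, hn2⟩ := eventually_atTop.mp (hdiv.eventually_ge_atTop (k0 / B))
  refine ⟨max k0 n2, by omega, fun n hn => ⟨hlow n (by omega), ?_⟩⟩
  have hnK : ∀ n, (0 : ℝ) ≤ (fun n => (κ n).toReal) n := fun n => ENNReal.toReal_nonneg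
  have hU := UU_lower hnK (TT_nonneg κ h0) n
  have hn1 : (0 : ℝ) < (n : ℝ) + 1 := by positivity
  -- bound on the sum of tails
  have hsum : ∑ l ∈ range (n + 1), TT (fun n => (κ n).toReal) l ≤
      2 * B * ((n : ℝ) + 1) ^ (1 - α) := by
    have h1 : ∀ l ∈ range (n + 1), TT (fun n => (κ n).toReal) l ≤
        (if l < k0 then 1 else 0) + 8 * cK / α * ((l : ℝ) + 1) ^ (-α) := by
      intro l _
      have hpos : 0 ≤ 8 * cK / α * ((l : ℝ) + 1) ^ (-α) :=
        mul_nonneg (by positivity) (Real.rpow_nonneg (by positivity) _)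
      split_ifs with hl
      · have : TT (fun n => (κ n).toReal) l ≤ 1 := by
          unfold TT
          have := Finset.sum_nonneg (s := Icc 1 l) (f := fun k => (κ k).toReal)
            (fun k _ => ENNReal.toReal_nonneg)
          linarith
        linarith
      · rw [zero_add]
        exact TT_le κ h0 hα hα1 hcK hk01 hup (by omega)
    refine (Finset.sum_le_sum h1).trans ?_
    rw [Finset.sum_add_distrib, ← Finset.mul_sum]
    have h2 : ∑ l ∈ range (n + 1), (if l < k0 then (1 : ℝ) else 0) ≤ k0 := by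
      rw [Finset.sum_ite, Finset.sum_const_zero, add_zero, Finset.sum_const, nsmul_eq_mul, mul_one]
      have : #{x ∈ range (n + 1) | x < k0} ≤ k0 := by
        calc #{x ∈ range (n + 1) | x < k0} ≤ #(range k0) := by
              apply Finset.card_le_card
              intro x hx
              rw [Finset.mem_filter] at hx
              exact Finset.mem_range.2 hx.2
          _ = k0 := Finset.card_range _
      exact_mod_cast this
    have h3 := sum_rpow_le hα hα1 (n + 1)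
    have h4 : 8 * cK / α * ∑ i ∈ range (n + 1), ((i : ℝ) + 1) ^ (-α) ≤
        B * ((n : ℝ) + 1) ^ (1 - α) := by
      calc 8 * cK / α * ∑ i ∈ range (n + 1), ((i : ℝ) + 1) ^ (-α)
          ≤ 8 * cK / α * (((n + 1 : ℕ) : ℝ) ^ (1 - α) / (1 - α)) :=
            mul_le_mul_of_nonneg_left h3 (by positivity)
        _ = B * ((n : ℝ) + 1) ^ (1 - α) := by
            rw [hB]; push_cast; field_simp
    have h5 : (k0 : ℝ) ≤ B * ((n : ℝ) + 1) ^ (1 - α) := by
      have := hn2 n (by omega)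
      rw [div_le_iff₀ hBpos] at this
      linarith
    linarith
  have hUnn : 0 ≤ UU (fun n => (κ n).toReal) n :=
    Finset.sum_nonneg fun k _ => u_nonneg hnK k
  have h6 : (n : ℝ) + 1 ≤ UU (fun n => (κ n).toReal) n * (2 * B * ((n : ℝ) + 1) ^ (1 - α)) :=
    hU.trans (mul_le_mul_of_nonneg_left hsum hUnn)
  have h7 : ((n : ℝ) + 1) ^ α * ((n : ℝ) + 1) ^ (1 - α) = (n : ℝ) + 1 := by
    rw [← Real.rpow_add hn1]
    simp
  have hp : 0 < ((n : ℝ) + 1) ^ (1 - α) := Real.rpow_pos_of_pos hn1 _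
  have h8 : ((n : ℝ) + 1) ^ α ≤ UU (fun n => (κ n).toReal) n * (2 * B) := by
    have : ((n : ℝ) + 1) ^ α * ((n : ℝ) + 1) ^ (1 - α) ≤
      (UU (fun n => (κ n).toReal) n * (2 * B)) * ((n : ℝ) + 1) ^ (1 - α) := by
      rw [h7]
      calc _ ≤ _ := h6
        _ = _ := by ring
    exact le_of_mul_le_mul_right this hp
  have h9 : (n : ℝ) ^ α ≤ ((n : ℝ) + 1) ^ α :=
    Real.rpow_le_rpow (Nat.cast_nonneg n) (by linarith) hα.le
  have h10 : α * (1 - α) / (16 * cK) = 1 / (2 * B) := by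
    rw [hB]; field_simp; ring
  rw [h10, div_mul_eq_mul_div, one_mul, div_le_iff₀ (by positivity)]
  linarith

end Pool.Agent.U260.CS
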