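import Pool.Agent.U260.CS1

set_option autoImplicit false
set_option maxHeartbeats 4000000

open Finset

namespace Pool.Agent.U260.CS

open Cop764 (G S phi G_eq)

/-- length of a cell: a junction of length `2 L0` and a bulk of length `D * 2 L0` -/
def HH (L0 D : ℕ) : ℕ := (D + 1) * (2 * L0)

/-- the partial sums of the weights in the junction at the beginning of cell `q` are at most `C` -/
def Good (w : ℕ → ℝ) (C : ℝ) (L0 D q : ℕ) : Prop :=
  ∀ x ∈ Icc (q * HH L0 D) (q * HH L0 D + 2 * L0), |S w (q * HH L0 D) x| ≤ C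

variable {K w : ℕ → ℝ}

theorem UU_mono (hK : ∀ n, 0 ≤ K n) {m n : ℕ} (h : m ≤ n) : UU K m ≤ UU K n := by
  unfold UU
  refine Finset.sum_le_sum_of_subset_of_nonneg ?_ (fun l _ _ => u_nonneg hK l)
  intro a ha
  rw [Finset.mem_range] at ha ⊢
  omega

theorem sum_u_eq (K : ℕ → ℝ) {c b : ℕ} (h : c ≤ b) :
    ∑ i ∈ Icc c b, u K (b - i) = UU K (b - c) := by
  unfold UU
  refine Finset.sum_bij' (fun i _ => b - i) (fun j _ => b - j) ?_ ?_ ?_ ?_ ?_
  · intro i hi
    rw [Finset.mem_Icc] at hi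
    rw [Finset.mem_range]
    omega
  · intro j hj
    rw [Finset.mem_range] at hj
    rw [Finset.mem_Icc]
    omega
  · intro i hi
    rw [Finset.mem_Icc] at hi
    omega
  · intro j hj
    rw [Finset.mem_range] at hj
    omega
  · intro i _
    rfl

theorem HH_pos {L0 D : ℕ} (hL0 : 1 ≤ L0) : 1 ≤ HH L0 D := by
  unfold HH
  have : 1 ≤ (D + 1) := by omega
  have : 1 ≤ 2 * L0 := by omega
  nlinarith

theorem HH_ge {L0 D : ℕ} (hD : 1 ≤ D) : 4 * L0 ≤ HH L0 D := by
  unfold HH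
  nlinarith

theorem step (hK : ∀ n, 0 ≤ K n) {α a0 b0 C : ℝ} (hα : 0 < α) (ha0 : 0 < a0) (hb0 : 0 < b0)
    {L0 D n1 : ℕ} (hL0 : 1 ≤ L0) (hD : 1 ≤ D) (hn1 : n1 ≤ L0)
    (hKlow : ∀ n, n1 ≤ n → a0 * (n : ℝ) ^ (-(1 + α)) ≤ K n)
    (hU : b0 * (L0 : ℝ) ^ α ≤ UU K L0) {p q : ℕ} (hpq : p < q) (hGq : Good w C L0 D q)
    {m : ℝ} (hm : 0 ≤ m)
    (hmin : ∀ a, p * HH L0 D + L0 ≤ a → a ≤ p * HH L0 D + 2 * L0 → m ≤ G K w 0 a)
    {E : ℝ} (hE0 : 0 ≤ E)
    (hE : ∀ a i, p * HH L0 D + L0 ≤ a → a ≤ p * HH L0 D + 2 * L0 → q * HH L0 D ≤ i →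
      i ≤ q * HH L0 D + 2 * L0 → E ≤ phi w a i)
    {b : ℕ} (hb1 : q * HH L0 D + L0 ≤ b) (hb2 : b ≤ q * HH L0 D + 2 * L0) :
    a0 * b0 * (4 * ((D : ℝ) + 1) * ((q - p : ℕ) : ℝ)) ^ (-(1 + α)) * Real.exp (-C) * E * m ≤
      G K w 0 b := by
  unfold Good at hGq
  set H := HH L0 D with hH
  clear_value H
  have hHL : 4 * L0 ≤ H := by rw [hH]; exact HH_ge hD
  obtain ⟨t, ht⟩ : ∃ t, t = q - p := ⟨_, rfl⟩
  have ht1 : 1 ≤ t := by omega
  have hq : q * H = p * H + t * H := by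
    rw [← add_mul]
    congr 1
    omega
  have htH : H ≤ t * H := Nat.le_mul_of_pos_left H ht1
  rw [← crossing (K := K) (w := w) (p * H + 2 * L0) _ 0 b rfl (Nat.zero_le _) (by omega)]
  -- lower bound of K
  obtain ⟨Km, hKm⟩ : ∃ Km : ℝ, Km = a0 * ((2 * t * H : ℕ) : ℝ) ^ (-(1 + α)) := ⟨_, rfl⟩
  have hKm0 : 0 ≤ Km := by rw [hKm]; positivity
  have hKle : ∀ a i, p * H + L0 ≤ a → a ≤ p * H + 2 * L0 → q * H ≤ i → i ≤ q * H + 2 * L0 →
      Km ≤ K (i - a) := by
    intro a i h1 h2 h3 h4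
    refine le_trans ?_ (hKlow (i - a) (by omega))
    rw [hKm]
    refine mul_le_mul_of_nonneg_left ?_ ha0.le
    have h5 : 0 < i - a := by omega
    have h6 : i - a ≤ 2 * t * H := by
      have : 2 * t * H = t * H + t * H := by ring
      omega
    exact Real.rpow_le_rpow_of_nonpos (by exact_mod_cast h5) (by exact_mod_cast h6) (by linarith)
  have hterm0 : ∀ a i, 0 ≤ G K w 0 a * (K (i - a) * phi w a i) * G K w i b := fun a i =>
    mul_nonneg (mul_nonneg (G_nonneg hK _ _) (mul_nonneg (hK _) (phi_nonneg _ _ _)))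
      (G_nonneg hK _ _)
  have hterm : ∀ a ∈ Icc (p * H + L0) (p * H + 2 * L0), ∀ i ∈ Icc (q * H) b,
      m * (Km * E) * (Real.exp (-C) * u K (b - i)) ≤
        G K w 0 a * (K (i - a) * phi w a i) * G K w i b := by
    intro a ha i hi
    rw [Finset.mem_Icc] at ha hi
    have h1 := hmin a ha.1 ha.2
    have h2 := hKle a i ha.1 ha.2 hi.1 (by omega)
    have h3 := hE a i ha.1 ha.2 hi.1 (by omega)
    have h4 : Real.exp (-C) * u K (b - i) ≤ G K w i b := by
      refine le_trans ?_ (G_ge hK b _ i rfl hi.2)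
      refine mul_le_mul_of_nonneg_right ?_ (u_nonneg hK _)
      apply Real.exp_le_exp.2
      have h5 := hGq b (by rw [Finset.mem_Icc]; omega)
      have h6 := hGq i (by rw [Finset.mem_Icc]; omega)
      have h7 := S_add w hi.1 hi.2
      rw [abs_le] at h5 h6
      linarith
    have h5 : Km * E ≤ K (i - a) * phi w a i := mul_le_mul h2 h3 hE0 (hK _)
    have h6 : m * (Km * E) ≤ G K w 0 a * (K (i - a) * phi w a i) :=
      mul_le_mul h1 h5 (mul_nonneg hKm0 hE0) (G_nonneg hK _ _)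
    exact mul_le_mul h6 h4 (mul_nonneg (Real.exp_pos _).le (u_nonneg hK _))
      (mul_nonneg (G_nonneg hK _ _) (mul_nonneg (hK _) (phi_nonneg _ _ _)))
  calc a0 * b0 * (4 * ((D : ℝ) + 1) * ((q - p : ℕ) : ℝ)) ^ (-(1 + α)) * Real.exp (-C) * E * m
      ≤ ∑ a ∈ Icc (p * H + L0) (p * H + 2 * L0), ∑ i ∈ Icc (q * H) b,
          m * (Km * E) * (Real.exp (-C) * u K (b - i)) := by
        have h1 : ∑ i ∈ Icc (q * H) b, m * (Km * E) * (Real.exp (-C) * u K (b - i)) =
            m * (Km * E) * Real.exp (-C) * UU K (b - q * H) := by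
          rw [← sum_u_eq K (by omega : q * H ≤ b), Finset.mul_sum]
          refine Finset.sum_congr rfl fun i _ => ?_
          ring
        rw [h1, Finset.sum_const, Nat.card_Icc, nsmul_eq_mul]
        have h2 : UU K L0 ≤ UU K (b - q * H) := UU_mono hK (by omega)
        have h3 : b0 * (L0 : ℝ) ^ α ≤ UU K (b - q * H) := hU.trans h2
        have h4 : (L0 : ℝ) ≤ ((p * H + 2 * L0 + 1 - (p * H + L0) : ℕ) : ℝ) := by
          have : L0 ≤ p * H + 2 * L0 + 1 - (p * H + L0) := by omega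
          exact_mod_cast this
        have hL0' : (0 : ℝ) < L0 := by exact_mod_cast hL0
        have h5 : m * (Km * E) * Real.exp (-C) * (b0 * (L0 : ℝ) ^ α) ≤
            m * (Km * E) * Real.exp (-C) * UU K (b - q * H) :=
          mul_le_mul_of_nonneg_left h3 (by positivity)
        have h6 : (L0 : ℝ) * (m * (Km * E) * Real.exp (-C) * (b0 * (L0 : ℝ) ^ α)) ≤
            ((p * H + 2 * L0 + 1 - (p * H + L0) : ℕ) : ℝ) *
              (m * (Km * E) * Real.exp (-C) * UU K (b - q * H)) :=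
          mul_le_mul h4 h5 (by positivity) (Nat.cast_nonneg _)
        refine le_trans (le_of_eq ?_) h6
        have h7 : ((2 * t * H : ℕ) : ℝ) = (4 * ((D : ℝ) + 1) * (t : ℝ)) * (L0 : ℝ) := by
          rw [hH]
          unfold HH
          push_cast
          ring
        rw [hKm, h7, ← ht]
        have ht' : (0 : ℝ) ≤ 4 * ((D : ℝ) + 1) * (t : ℝ) := by positivity
        rw [Real.mul_rpow ht' hL0'.le]
        have h8 : (L0 : ℝ) * (L0 : ℝ) ^ α * (L0 : ℝ) ^ (-(1 + α)) = 1 := by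
          rw [← Real.rpow_one_add' hL0'.le (by linarith), ← Real.rpow_add hL0']
          simp
        calc a0 * b0 * (4 * ((D : ℝ) + 1) * (t : ℝ)) ^ (-(1 + α)) * Real.exp (-C) * E * m
            = a0 * b0 * (4 * ((D : ℝ) + 1) * (t : ℝ)) ^ (-(1 + α)) * Real.exp (-C) * E * m *
              ((L0 : ℝ) * (L0 : ℝ) ^ α * (L0 : ℝ) ^ (-(1 + α))) := by rw [h8, mul_one]
          _ = _ := by ring
    _ ≤ ∑ a ∈ Icc (p * H + L0) (p * H + 2 * L0), ∑ i ∈ Icc (q * H) b,
          G K w 0 a * (K (i - a) * phi w a i) * G K w i b :=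
        Finset.sum_le_sum fun a ha => Finset.sum_le_sum fun i hi => hterm a ha i hi
    _ ≤ ∑ a ∈ Icc (p * H + L0) (p * H + 2 * L0), ∑ i ∈ Ioc (p * H + 2 * L0) b,
          G K w 0 a * (K (i - a) * phi w a i) * G K w i b := by
        refine Finset.sum_le_sum fun a _ => ?_
        refine Finset.sum_le_sum_of_subset_of_nonneg ?_ (fun i _ _ => hterm0 a i)
        intro i hi
        rw [Finset.mem_Icc] at hi
        rw [Finset.mem_Ioc]
        omega
    _ ≤ ∑ a ∈ Icc 0 (p * H + 2 * L0), ∑ i ∈ Ioc (p * H + 2 * L0) b,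
          G K w 0 a * (K (i - a) * phi w a i) * G K w i b := by
        refine Finset.sum_le_sum_of_subset_of_nonneg ?_
          (fun a _ _ => Finset.sum_nonneg fun i _ => hterm0 a i)
        intro a ha
        rw [Finset.mem_Icc] at ha ⊢
        omega

/-- energy factor below the interface -/
theorem phi_below {C : ℝ} {L0 D : ℕ} {p q : ℕ} (hpq : p < q) (hD : 1 ≤ D)
    (hGp : Good w C L0 D p) (hGq : Good w C L0 D q) (a i : ℕ)
    (h1 : p * HH L0 D + L0 ≤ a) (h2 : a ≤ p * HH L0 D + 2 * L0) (h3 : q * HH L0 D ≤ i)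
    (h4 : i ≤ q * HH L0 D + 2 * L0) :
    Real.exp (-3 * C) * Real.exp (S w (p * HH L0 D + 2 * L0) (q * HH L0 D)) / 2 ≤ phi w a i := by
  unfold Good at hGp hGq
  set H := HH L0 D with hH
  clear_value H
  have hHL : 4 * L0 ≤ H := by rw [hH]; exact HH_ge hD
  have ht1 : 1 ≤ q - p := by omega
  have hq : q * H = p * H + (q - p) * H := by
    rw [← add_mul]
    congr 1
    omega
  have htH : H ≤ (q - p) * H := Nat.le_mul_of_pos_left H ht1
  refine le_trans ?_ (half_exp_le_phi w a i)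
  rw [div_le_div_iff_of_pos_right (by norm_num), ← Real.exp_add]
  apply Real.exp_le_exp.2
  have e1 := S_add w (i := a) (j := p * H + 2 * L0) (k := i) h2 (by omega)
  have e2 := S_add w (i := p * H + 2 * L0) (j := q * H) (k := i) (by omega) h3
  have e3 := S_add w (i := p * H) (j := a) (k := p * H + 2 * L0) (by omega) h2
  have g1 := hGp (p * H + 2 * L0) (by rw [Finset.mem_Icc]; omega)
  have g2 := hGp a (by rw [Finset.mem_Icc]; omega)
  have g3 := hGq i (by rw [Finset.mem_Icc]; omega)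
  rw [abs_le] at g1 g2 g3
  linarith

end Pool.Agent.U260.CS
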