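import Pool.Agent.U260.CS2

set_option autoImplicit false
set_option maxHeartbeats 4000000

open Finset

namespace Pool.Agent.U260.CS

open Cop764 (G S phi G_eq)

/-- parameters of the multiscale strategy -/
structure Par where
  γ : ℝ
  κ : ℝ
  C : ℝ
  L0 : ℕ
  D : ℕ
  t0 : ℕ
  R : ℕ

namespace Par

/-- cell length -/
def H (P : Par) : ℕ := HH P.L0 P.D

/-- sum of the weights in the bulk of cell `c` -/
noncomputable def X (P : Par) (w : ℕ → ℝ) (c : ℕ) : ℝ := S w (c * P.H + 2 * P.L0) ((c + 1) * P.H)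

/-- sum of the weights in the bulks of the cells `u, ..., v - 1` -/
noncomputable def XI (P : Par) (w : ℕ → ℝ) (u v : ℕ) : ℝ := ∑ c ∈ Ico u v, P.X w c

/-- the environment in the cells `p, ..., q - 1` looks like a run of sign `s` -/
def E (P : Par) (w : ℕ → ℝ) (s : ℝ) (p q : ℕ) : Prop :=
  (∀ y, p < y → y ≤ q → 0 < s * P.XI w (max p (y - P.t0)) y) ∧
  (∀ j, 1 ≤ j → j ≤ P.t0 → 0 < s * P.XI w (q - j) q)

/-- sign of run number `k` -/
noncomputable def sg (k : ℕ) : ℝ := if Even k then -1 else 1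

/-- the exponent of the run: `0` above, the sum of the weights below the interface -/
noncomputable def V (P : Par) (w : ℕ → ℝ) (k p q : ℕ) : ℝ :=
  if Even k then 0 else S w (p * P.H + 2 * P.L0) (q * P.H)

open Classical in
/-- weight of a run -/
noncomputable def f (P : Par) (w : ℕ → ℝ) (k p q : ℕ) : ℝ :=
  if P.t0 ≤ q - p ∧ q - p ≤ P.R ∧ P.E w (sg k) p q ∧ Good w P.C P.L0 P.D q then
    P.κ / ((q - p : ℕ) : ℝ) * Real.exp (P.γ * P.V w k p q) else 0

/-- total weight of all sequences of `k` runs which end at `q` -/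
noncomputable def RR (P : Par) (w : ℕ → ℝ) : ℕ → ℕ → ℝ
  | 0, q => if q = 0 then 1 else 0
  | k + 1, q => ∑ p ∈ range q, P.RR w k p * P.f w k p q

variable {P : Par} {w : ℕ → ℝ}

theorem f_nonneg (hκ : 0 ≤ P.κ) (k p q : ℕ) : 0 ≤ P.f w k p q := by
  unfold f
  split_ifs
  · positivity
  · exact le_rfl

theorem RR_nonneg (hκ : 0 ≤ P.κ) (k q : ℕ) : 0 ≤ P.RR w k q := by
  induction k generalizing q with
  | zero =>
    unfold RR
    split_ifs <;> norm_num
  | succ k ih =>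
    unfold RR
    exact Finset.sum_nonneg fun p _ => mul_nonneg (ih p) (f_nonneg hκ _ _ _)

theorem f_ne {k p q : ℕ} (h : P.f w k p q ≠ 0) :
    P.t0 ≤ q - p ∧ q - p ≤ P.R ∧ P.E w (sg k) p q ∧ Good w P.C P.L0 P.D q := by
  unfold f at h
  by_contra h1
  rw [if_neg h1] at h
  exact h rfl

theorem RR_succ_ne {k q : ℕ} (h : P.RR w (k + 1) q ≠ 0) :
    ∃ p, p < q ∧ P.RR w k p ≠ 0 ∧ P.f w k p q ≠ 0 := by
  unfold RR at h
  obtain ⟨p, hp, hne⟩ := Finset.exists_ne_zero_of_sum_ne_zero h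
  exact ⟨p, Finset.mem_range.1 hp, left_ne_zero_of_mul hne, right_ne_zero_of_mul hne⟩

theorem contra (ht0 : 1 ≤ P.t0) {s : ℝ} {p p' p'' q : ℕ} (h1 : p < p') (h2 : p' ≤ q)
    (hE1 : P.E w s p q) (hE2 : P.E w (-s) p'' p') : False := by
  by_cases hd : p' - p ≤ P.t0
  · have g1 := hE1.1 p' h1 h2
    have g2 := hE2.2 (p' - p) (by omega) hd
    have e1 : max p (p' - P.t0) = p := by omega
    have e2 : p' - (p' - p) = p := by omega
    rw [e1] at g1
    rw [e2] at g2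
    linarith
  · have g1 := hE1.1 p' h1 h2
    have g2 := hE2.2 P.t0 ht0 le_rfl
    have e1 : max p (p' - P.t0) = p' - P.t0 := by omega
    rw [e1] at g1
    linarith

theorem sg_succ (k : ℕ) : sg (k + 1) = - sg k := by
  unfold sg
  by_cases h : Even k
  · have : ¬ Even (k + 1) := by
      rw [Nat.not_even_iff_odd]
      exact h.add_one
    simp [h, this]
  · have : Even (k + 1) := by
      rw [Nat.not_even_iff_odd] at h
      exact h.add_one
    simp [h, this]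

theorem unique (ht0 : 1 ≤ P.t0) {k q p p' : ℕ} (hpp : p < p')
    (h1 : P.f w k p q ≠ 0) (h2 : P.RR w k p' ≠ 0) (h3 : P.f w k p' q ≠ 0) : False := by
  cases k with
  | zero =>
    unfold RR at h2
    rw [if_neg (by omega)] at h2
    exact h2 rfl
  | succ k =>
    obtain ⟨p'', -, -, hf⟩ := RR_succ_ne h2
    have g1 := f_ne h1
    have g2 := f_ne hf
    have g3 := f_ne h3
    rw [sg_succ] at g1
    have h4 : p' ≤ q := by omega
    refine contra ht0 hpp h4 g1.2.2.1 (p'' := p'') ?_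
    rw [neg_neg]
    exact g2.2.2.1

theorem RR_succ_eq (ht0 : 1 ≤ P.t0) {k q : ℕ} (h : P.RR w (k + 1) q ≠ 0) :
    ∃ p, p < q ∧ P.RR w k p ≠ 0 ∧ P.f w k p q ≠ 0 ∧
      P.RR w (k + 1) q = P.RR w k p * P.f w k p q := by
  obtain ⟨p, hp, h1, h2⟩ := RR_succ_ne h
  refine ⟨p, hp, h1, h2, ?_⟩
  rw [RR]
  refine Finset.sum_eq_single_of_mem p (Finset.mem_range.2 hp) fun p' _ hne => ?_
  by_contra h3
  have h4 := left_ne_zero_of_mul h3
  have h5 := right_ne_zero_of_mul h3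
  rcases lt_or_gt_of_ne hne with h6 | h6
  · exact unique ht0 h6 h5 h1 h2
  · exact unique ht0 h6 h2 h4 h5

theorem good_of_RR {k q : ℕ} (hk : 1 ≤ k) (h : P.RR w k q ≠ 0) : Good w P.C P.L0 P.D q := by
  obtain ⟨k, rfl⟩ : ∃ j, k = j + 1 := ⟨k - 1, by omega⟩
  obtain ⟨p, -, -, hf⟩ := RR_succ_ne h
  exact (f_ne hf).2.2.2

/-- the deterministic bound -/
theorem det {K : ℕ → ℝ} (hK : ∀ n, 0 ≤ K n) {α a0 b0 : ℝ} (hα : 0 < α) (ha0 : 0 < a0)
    (hb0 : 0 < b0) (hγ : P.γ * (1 + α) = 1) (hC : 0 ≤ P.C)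
    {n1 : ℕ} (hL0 : 1 ≤ P.L0) (hD : 1 ≤ P.D) (hn1 : n1 ≤ P.L0) (ht0 : 1 ≤ P.t0)
    (hKlow : ∀ n, n1 ≤ n → a0 * (n : ℝ) ^ (-(1 + α)) ≤ K n)
    (hU : b0 * (P.L0 : ℝ) ^ α ≤ UU K P.L0) (hκ0 : 0 ≤ P.κ)
    (hκ : P.κ ≤ (a0 * b0 * (4 * ((P.D : ℝ) + 1)) ^ (-(1 + α)) * (Real.exp (-4 * P.C) / 2)) ^ P.γ)
    {m0 : ℝ} (hm0 : 0 ≤ m0) (h0 : ∀ a, P.L0 ≤ a → a ≤ 2 * P.L0 → m0 ≤ G K w 0 a) :
    ∀ k q b : ℕ, q * P.H + P.L0 ≤ b → b ≤ q * P.H + 2 * P.L0 →
      m0 ^ P.γ * P.RR w k q ≤ (G K w 0 b) ^ P.γ := by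
  have hγ0 : 0 < P.γ := by
    by_contra h
    push Not at h
    nlinarith
  intro k
  induction k with
  | zero =>
    intro q b hb1 hb2
    unfold RR
    split_ifs with hq
    · rw [mul_one]
      subst hq
      exact Real.rpow_le_rpow hm0 (h0 b (by omega) (by omega)) hγ0.le
    · rw [mul_zero]
      exact Real.rpow_nonneg (G_nonneg hK _ _) _
  | succ k ih =>
    intro q b hb1 hb2
    by_cases hne : P.RR w (k + 1) q = 0
    · rw [hne, mul_zero]
      exact Real.rpow_nonneg (G_nonneg hK _ _) _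
    · obtain ⟨p, hpq, hRp, hfp, heq⟩ := RR_succ_eq ht0 hne
      obtain ⟨g1, g2, g3, g4⟩ := f_ne hfp
      rw [heq]
      obtain ⟨A, hA⟩ : ∃ A : ℝ, A = m0 ^ P.γ * P.RR w k p := ⟨_, rfl⟩
      have hA0 : 0 ≤ A := by
        rw [hA]
        exact mul_nonneg (Real.rpow_nonneg hm0 _) (RR_nonneg hκ0 _ _)
      obtain ⟨m, hm⟩ : ∃ m : ℝ, m = A ^ (P.γ⁻¹) := ⟨_, rfl⟩
      have hm1 : 0 ≤ m := by rw [hm]; exact Real.rpow_nonneg hA0 _
      have hmA : m ^ P.γ = A := by
        rw [hm, ← Real.rpow_mul hA0, inv_mul_cancel₀ hγ0.ne', Real.rpow_one]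
      have hmin : ∀ a, p * HH P.L0 P.D + P.L0 ≤ a → a ≤ p * HH P.L0 P.D + 2 * P.L0 →
          m ≤ G K w 0 a := by
        intro a h1 h2
        have h3 := ih p a h1 h2
        rw [← hA, ← hmA] at h3
        exact (Real.rpow_le_rpow_iff hm1 (G_nonneg hK _ _) hγ0).1 h3
      obtain ⟨E0, hE0⟩ : ∃ E0 : ℝ, E0 = Real.exp (-3 * P.C) * Real.exp (P.V w k p q) / 2 :=
        ⟨_, rfl⟩
      have hE0' : 0 ≤ E0 := by rw [hE0]; positivity
      have hphi : ∀ a i, p * HH P.L0 P.D + P.L0 ≤ a → a ≤ p * HH P.L0 P.D + 2 * P.L0 →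
          q * HH P.L0 P.D ≤ i → i ≤ q * HH P.L0 P.D + 2 * P.L0 → E0 ≤ phi w a i := by
        intro a i h1 h2 h3 h4
        rw [hE0]
        unfold V
        by_cases hk : Even k
        · rw [if_pos hk, Real.exp_zero, mul_one]
          refine le_trans ?_ (half_le_phi w a i)
          rw [div_le_div_iff_of_pos_right (by norm_num)]
          rw [Real.exp_le_one_iff]
          linarith
        · rw [if_neg hk]
          have hk1 : 1 ≤ k := by
            rcases Nat.eq_zero_or_pos k with h | h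
            · rw [h] at hk
              simp at hk
            · exact h
          exact phi_below hpq hD (good_of_RR hk1 hRp) g4 a i h1 h2 h3 h4
      have hst := step hK hα ha0 hb0 hL0 hD hn1 hKlow hU hpq g4 hm1 hmin hE0' hphi hb1 hb2
      obtain ⟨t, ht⟩ : ∃ t : ℝ, t = ((q - p : ℕ) : ℝ) := ⟨_, rfl⟩
      have htpos : 0 < t := by
        rw [ht]
        have : 1 ≤ q - p := by omega
        exact_mod_cast this
      rw [← ht] at hst
      have hfeq : P.f w k p q = P.κ / t * Real.exp (P.γ * P.V w k p q) := by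
        unfold f
        rw [if_pos ⟨g1, g2, g3, g4⟩, ht]
      have hbig : 0 ≤ a0 * b0 * (4 * ((P.D : ℝ) + 1) * t) ^ (-(1 + α)) * Real.exp (-P.C) * E0 * m := by
        positivity
      have hfin := Real.rpow_le_rpow hbig hst hγ0.le
      refine le_trans ?_ hfin
      have e1 : a0 * b0 * (4 * ((P.D : ℝ) + 1) * t) ^ (-(1 + α)) * Real.exp (-P.C) * E0 * m =
          (a0 * b0 * (4 * ((P.D : ℝ) + 1)) ^ (-(1 + α)) * (Real.exp (-4 * P.C) / 2)) *
          (t ^ (-(1 + α)) * (Real.exp (P.V w k p q) * m)) := by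
        rw [Real.mul_rpow (by positivity) htpos.le, hE0]
        have : Real.exp (-4 * P.C) = Real.exp (-P.C) * Real.exp (-3 * P.C) := by
          rw [← Real.exp_add]
          congr 1
          ring
        rw [this]
        ring
      obtain ⟨Q, hQ⟩ : ∃ Q : ℝ, Q = a0 * b0 * (4 * ((P.D : ℝ) + 1)) ^ (-(1 + α)) *
        (Real.exp (-4 * P.C) / 2) := ⟨_, rfl⟩
      have hQ0 : 0 ≤ Q := by rw [hQ]; positivity
      rw [← hQ] at e1 hκ
      have htt : 0 ≤ t ^ (-(1 + α)) := Real.rpow_nonneg htpos.le _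
      have hem : 0 ≤ Real.exp (P.V w k p q) * m := mul_nonneg (Real.exp_pos _).le hm1
      rw [e1, Real.mul_rpow hQ0 (mul_nonneg htt hem), Real.mul_rpow htt hem,
        Real.mul_rpow (Real.exp_pos _).le hm1, hmA]
      have e2 : (t ^ (-(1 + α))) ^ P.γ = t⁻¹ := by
        rw [← Real.rpow_mul htpos.le]
        have : -(1 + α) * P.γ = -1 := by linarith
        rw [this, Real.rpow_neg_one]
      have e3 : (Real.exp (P.V w k p q)) ^ P.γ = Real.exp (P.γ * P.V w k p q) := by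
        rw [← Real.exp_mul, mul_comm]
      rw [e2, e3, hfeq, ← mul_assoc, ← hA]
      have h5 : 0 ≤ t⁻¹ * (Real.exp (P.γ * P.V w k p q) * A) := by positivity
      calc A * (P.κ / t * Real.exp (P.γ * P.V w k p q))
          = P.κ * (t⁻¹ * (Real.exp (P.γ * P.V w k p q) * A)) := by
            rw [div_eq_mul_inv]
            ring
        _ ≤ _ := mul_le_mul_of_nonneg_right hκ h5

end Par

end Pool.Agent.U260.CS
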