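import Pool.Agent.U260.CS3
import Pool.Agent.Helper764.Cop_absS
import Pool.Agent.Helper764.Cop_meas

set_option autoImplicit false
set_option maxHeartbeats 4000000

open Finset MeasureTheory ProbabilityTheory

namespace Pool.Agent.U260.CS

open Cop764 (G S phi G_eq)

/-- the moment generating function of the weight of a site -/
noncomputable def psi (D : Cop764.Data) (h θ : ℝ) : ℝ :=
  ∫ x, Real.exp (θ * (-2 * D.lam * (x + h))) ∂D.ν

theorem psi_integrable (D : Cop764.Data) (h θ : ℝ) :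
    Integrable (fun x => Real.exp (θ * (-2 * D.lam * (x + h)))) D.ν := by
  have h1 := (D.expm (-2 * D.lam * θ)).mul_const (Real.exp (-2 * D.lam * h * θ))
  refine h1.congr (Filter.Eventually.of_forall fun x => ?_)
  show Real.exp (-2 * D.lam * θ * x) * Real.exp (-2 * D.lam * h * θ) = _
  rw [← Real.exp_add]
  congr 1
  ring

theorem psi_pos (D : Cop764.Data) (h θ : ℝ) : 0 < psi D h θ :=
  integral_exp_pos (psi_integrable D h θ)

theorem psi_zero (D : Cop764.Data) (h : ℝ) : psi D h 0 = 1 := by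
  unfold psi
  simp

theorem exp_sum (D : Cop764.Data) (h : ℝ) (A : Finset ℕ) (θ : ℕ → ℝ) :
    Integrable (fun ω : ℕ → ℝ => Real.exp (∑ n ∈ A, θ n * D.w h ω n)) D.P ∧
    ∫ ω : ℕ → ℝ, Real.exp (∑ n ∈ A, θ n * D.w h ω n) ∂D.P = ∏ n ∈ A, psi D h (θ n) := by
  have hmeas : ∀ n, Measurable (fun x : ℝ => θ n * (-2 * D.lam * (x + h))) := fun n => by fun_prop
  have hind : iIndepFun (fun (n : ℕ) (ω : ℕ → ℝ) => θ n * (-2 * D.lam * (ω n + h))) D.P :=
    (Cop764.M_absS.J_absS_iind D).comp (fun n x => θ n * (-2 * D.lam * (x + h))) hmeas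
  have hm : ∀ n, Measurable (fun (ω : ℕ → ℝ) => θ n * (-2 * D.lam * (ω n + h))) := fun n =>
    (hmeas n).comp (measurable_pi_apply n)
  have hmgf : ∀ n, mgf (fun (ω : ℕ → ℝ) => θ n * (-2 * D.lam * (ω n + h))) D.P 1 =
      psi D h (θ n) := by
    intro n
    unfold mgf psi
    rw [← Cop764.M_absS.J_absS_int1 D n (fun x => Real.exp (θ n * (-2 * D.lam * (x + h))))
      (by fun_prop)]
    simp only [one_mul]
  have hint : ∀ n ∈ A, Integrable (fun (ω : ℕ → ℝ) =>
      Real.exp (1 * (θ n * (-2 * D.lam * (ω n + h))))) D.P := by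
    intro n _
    have := Cop764.M_absS.J_absS_int2 D n (fun x => Real.exp (θ n * (-2 * D.lam * (x + h))))
      (psi_integrable D h (θ n))
    simpa only [one_mul] using this
  constructor
  · have h1 := hind.integrable_exp_mul_sum (t := 1) (s := A) hm hint
    simpa only [Finset.sum_apply, one_mul, Cop764.Data.w] using h1
  · have h1 := hind.mgf_sum (t := 1) hm A
    rw [Finset.prod_congr rfl (fun n _ => hmgf n)] at h1
    rw [← h1]
    unfold mgf
    simp only [Finset.sum_apply, one_mul, Cop764.Data.w]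

namespace Par

variable (P : Par)

/-- sites of the bulks of the cells `u, ..., v - 1` -/
def Bk (u v : ℕ) : Finset ℕ := (Ico u v).biUnion fun c => Ioc (c * P.H + 2 * P.L0) ((c + 1) * P.H)

theorem two_L0_le_H : 2 * P.L0 ≤ P.H := by
  unfold H HH
  nlinarith

theorem H_sub : P.H - 2 * P.L0 = P.D * (2 * P.L0) := by
  unfold H HH
  rw [add_mul, one_mul, Nat.add_sub_cancel]

theorem Bk_disj (u v : ℕ) : (↑(Ico u v) : Set ℕ).PairwiseDisjoint
    fun c => Ioc (c * P.H + 2 * P.L0) ((c + 1) * P.H) := by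
  intro a _ b _ hab
  rw [Function.onFun, Finset.disjoint_left]
  intro n h1 h2
  rw [Finset.mem_Ioc] at h1 h2
  rcases lt_or_gt_of_ne hab with h | h
  · have : (a + 1) * P.H ≤ b * P.H := Nat.mul_le_mul_right _ h
    omega
  · have : (b + 1) * P.H ≤ a * P.H := Nat.mul_le_mul_right _ h
    omega

theorem XI_eq (w : ℕ → ℝ) (u v : ℕ) : P.XI w u v = ∑ n ∈ P.Bk u v, w n := by
  unfold XI Bk X S
  rw [Finset.sum_biUnion (P.Bk_disj u v)]

theorem Bk_card (u v : ℕ) : #(P.Bk u v) = (v - u) * (P.D * (2 * P.L0)) := by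
  unfold Bk
  rw [Finset.card_biUnion (P.Bk_disj u v)]
  have : ∀ c ∈ Ico u v, #(Ioc (c * P.H + 2 * P.L0) ((c + 1) * P.H)) = P.D * (2 * P.L0) := by
    intro c _
    rw [Nat.card_Ioc, ← P.H_sub]
    have : (c + 1) * P.H = c * P.H + P.H := by ring
    omega
  rw [Finset.sum_congr rfl this, Finset.sum_const, Nat.card_Ico, smul_eq_mul]

theorem Bk_subset {u v t : ℕ} (hv : v ≤ t) : P.Bk u v ⊆ Ioc (2 * P.L0) (t * P.H) := by
  intro n hn
  unfold Bk at hn
  rw [Finset.mem_biUnion] at hn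
  obtain ⟨c, hc, hn⟩ := hn
  rw [Finset.mem_Ico] at hc
  rw [Finset.mem_Ioc] at hn ⊢
  have : (c + 1) * P.H ≤ t * P.H := Nat.mul_le_mul_right _ (by omega)
  omega

/-- the exponent at the sites of the run -/
noncomputable def bet (k : ℕ) : ℝ := if Even k then 0 else P.γ

theorem V_eq (w : ℕ → ℝ) (k t : ℕ) :
    P.γ * P.V w k 0 t = ∑ n ∈ Ioc (2 * P.L0) (t * P.H), P.bet k * w n := by
  unfold V bet S
  split_ifs
  · simp
  · rw [Finset.mul_sum, zero_mul, zero_add]

theorem bad_eq (w : ℕ → ℝ) (k : ℕ) {u v t : ℕ} (hv : v ≤ t) :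
    P.γ * P.V w k 0 t - P.γ / 2 * (sg k * P.XI w u v) =
      ∑ n ∈ Ioc (2 * P.L0) (t * P.H), (if n ∈ P.Bk u v then P.γ / 2 else P.bet k) * w n := by
  rw [V_eq, XI_eq]
  have h1 : ∑ n ∈ P.Bk u v, w n =
      ∑ n ∈ Ioc (2 * P.L0) (t * P.H), if n ∈ P.Bk u v then w n else 0 := by
    rw [Finset.sum_ite_mem, Finset.inter_eq_right.2 (P.Bk_subset hv)]
  rw [h1, Finset.mul_sum, Finset.mul_sum, ← Finset.sum_sub_distrib]
  refine Finset.sum_congr rfl fun n _ => ?_
  unfold bet sg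
  split_ifs <;> ring

theorem bad_integral (D : Cop764.Data) (h : ℝ) (k : ℕ) {u v t : ℕ} (hv : v ≤ t) :
    Integrable (fun ω : ℕ → ℝ => Real.exp (P.γ * P.V (D.w h ω) k 0 t -
      P.γ / 2 * (sg k * P.XI (D.w h ω) u v))) D.P ∧
    ∫ ω : ℕ → ℝ, Real.exp (P.γ * P.V (D.w h ω) k 0 t - P.γ / 2 * (sg k * P.XI (D.w h ω) u v)) ∂D.P =
      psi D h (P.γ / 2) ^ #(P.Bk u v) *
        psi D h (P.bet k) ^ (t * P.H - 2 * P.L0 - #(P.Bk u v)) := by
  simp only [P.bad_eq _ k hv]
  obtain ⟨h1, h2⟩ := exp_sum D h (Ioc (2 * P.L0) (t * P.H))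
    (fun n => if n ∈ P.Bk u v then P.γ / 2 else P.bet k)
  refine ⟨h1, ?_⟩
  rw [h2]
  have h3 : ∀ n ∈ Ioc (2 * P.L0) (t * P.H), psi D h (if n ∈ P.Bk u v then P.γ / 2 else P.bet k) =
      if n ∈ P.Bk u v then psi D h (P.γ / 2) else psi D h (P.bet k) := by
    intro n _
    split_ifs <;> rfl
  rw [Finset.prod_congr rfl h3, Finset.prod_ite, Finset.prod_const, Finset.prod_const]
  have h4 : Finset.filter (fun n => n ∈ P.Bk u v) (Ioc (2 * P.L0) (t * P.H)) = P.Bk u v := by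
    rw [Finset.filter_mem_eq_inter, Finset.inter_eq_right.2 (P.Bk_subset hv)]
  have h5 : #(Finset.filter (fun n => n ∉ P.Bk u v) (Ioc (2 * P.L0) (t * P.H))) =
      t * P.H - 2 * P.L0 - #(P.Bk u v) := by
    have := Finset.card_filter_add_card_filter_not (s := Ioc (2 * P.L0) (t * P.H)) (fun n => n ∈ P.Bk u v)
    rw [h4, Nat.card_Ioc] at this
    omega
  rw [h4, h5]

end Par

end Pool.Agent.U260.CS
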