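import Pool.Agent.U260.CS4

set_option autoImplicit false
set_option maxHeartbeats 4000000

open Finset MeasureTheory ProbabilityTheory

namespace Pool.Agent.U260.CS

open Cop764 (G S phi G_eq)

namespace Par

variable (P : Par)

theorem H_pos (hL0 : 1 ≤ P.L0) : 1 ≤ P.H := HH_pos hL0

/-! ### measurability -/

section meas
variable (D : Cop764.Data) (h : ℝ)

theorem meas_S (a b : ℕ) : Measurable (fun ω : ℕ → ℝ => S (D.w h ω) a b) :=
  Cop764.M_meas.J_meas_S D h a b

theorem meas_XI (u v : ℕ) : Measurable (fun ω : ℕ → ℝ => P.XI (D.w h ω) u v) := by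
  unfold XI X
  exact Finset.measurable_fun_sum _ fun c _ => meas_S D h _ _

theorem meas_V (k p q : ℕ) : Measurable (fun ω : ℕ → ℝ => P.V (D.w h ω) k p q) := by
  unfold V
  split_ifs
  · exact measurable_const
  · exact meas_S D h _ _

theorem meas_E (s : ℝ) (p q : ℕ) : MeasurableSet {ω : ℕ → ℝ | P.E (D.w h ω) s p q} := by
  have e : {ω : ℕ → ℝ | P.E (D.w h ω) s p q} =
      (⋂ y : ℕ, ⋂ _ : p < y, ⋂ _ : y ≤ q,
        {ω : ℕ → ℝ | 0 < s * P.XI (D.w h ω) (max p (y - P.t0)) y}) ∩
      (⋂ j : ℕ, ⋂ _ : 1 ≤ j, ⋂ _ : j ≤ P.t0, {ω : ℕ → ℝ | 0 < s * P.XI (D.w h ω) (q - j) q}) := by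
    ext ω
    simp only [E, Set.mem_ofPred_eq, Set.mem_inter_iff, Set.mem_iInter]
  rw [e]
  refine MeasurableSet.inter ?_ ?_
  · refine MeasurableSet.iInter fun y => MeasurableSet.iInter fun _ => MeasurableSet.iInter fun _ => ?_
    exact measurableSet_lt measurable_const ((P.meas_XI D h _ _).const_mul s)
  · refine MeasurableSet.iInter fun y => MeasurableSet.iInter fun _ => MeasurableSet.iInter fun _ => ?_
    exact measurableSet_lt measurable_const ((P.meas_XI D h _ _).const_mul s)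

theorem meas_Good (C : ℝ) (L0 Dd q : ℕ) : MeasurableSet {ω : ℕ → ℝ | Good (D.w h ω) C L0 Dd q} := by
  have e : {ω : ℕ → ℝ | Good (D.w h ω) C L0 Dd q} =
      ⋂ x : ℕ, ⋂ _ : x ∈ Icc (q * HH L0 Dd) (q * HH L0 Dd + 2 * L0),
        {ω : ℕ → ℝ | |S (D.w h ω) (q * HH L0 Dd) x| ≤ C} := by
    ext ω
    simp only [Good, Set.mem_ofPred_eq, Set.mem_iInter]
  rw [e]
  refine MeasurableSet.iInter fun x => MeasurableSet.iInter fun _ => ?_
  exact measurableSet_le (meas_S D h _ _).abs measurable_const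

theorem meas_f (k p q : ℕ) : Measurable (fun ω : ℕ → ℝ => P.f (D.w h ω) k p q) := by
  unfold f
  refine Measurable.ite ?_ ?_ measurable_const
  · by_cases h1 : P.t0 ≤ q - p ∧ q - p ≤ P.R
    · have e : {ω : ℕ → ℝ | P.t0 ≤ q - p ∧ q - p ≤ P.R ∧ P.E (D.w h ω) (sg k) p q ∧
          Good (D.w h ω) P.C P.L0 P.D q} = {ω : ℕ → ℝ | P.E (D.w h ω) (sg k) p q} ∩
          {ω : ℕ → ℝ | Good (D.w h ω) P.C P.L0 P.D q} := by
        ext ω
        simp only [Set.mem_ofPred_eq, Set.mem_inter_iff]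
        tauto
      rw [e]
      exact (P.meas_E D h _ _ _).inter (meas_Good D h _ _ _ _)
    · have e : {ω : ℕ → ℝ | P.t0 ≤ q - p ∧ q - p ≤ P.R ∧ P.E (D.w h ω) (sg k) p q ∧
          Good (D.w h ω) P.C P.L0 P.D q} = ∅ := by
        ext ω
        simp only [Set.mem_ofPred_eq, Set.mem_empty_iff_false, iff_false]
        tauto
      rw [e]
      exact MeasurableSet.empty
  · exact ((P.meas_V D h k p q).const_mul P.γ).exp.const_mul _

theorem meas_RR (k q : ℕ) : Measurable (fun ω : ℕ → ℝ => P.RR (D.w h ω) k q) := by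
  induction k generalizing q with
  | zero =>
    unfold RR
    exact measurable_const
  | succ k ih =>
    unfold RR
    exact Finset.measurable_fun_sum _ fun p _ => (ih p).mul (P.meas_f D h _ _ _)

end meas

/-! ### locality -/

section loc
variable {P} {w w' : ℕ → ℝ}

theorem S_congr {a b : ℕ} (h : ∀ n ∈ Ioc a b, w n = w' n) : S w a b = S w' a b := by
  unfold Cop764.S
  exact Finset.sum_congr rfl h

theorem S_congr' {a b i j : ℕ} (hij : ∀ n ∈ Ioc i j, w n = w' n) (h1 : i ≤ a) (h2 : b ≤ j) :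
    S w a b = S w' a b := by
  apply S_congr
  intro n hn
  apply hij
  rw [Finset.mem_Ioc] at hn ⊢
  omega

theorem XI_congr {u v i j : ℕ} (hij : ∀ n ∈ Ioc i j, w n = w' n) (h1 : i ≤ u * P.H + 2 * P.L0)
    (h2 : v * P.H ≤ j) : P.XI w u v = P.XI w' u v := by
  unfold XI X
  refine Finset.sum_congr rfl fun c hc => ?_
  rw [Finset.mem_Ico] at hc
  refine S_congr' hij ?_ ?_
  · have : u * P.H ≤ c * P.H := Nat.mul_le_mul_right _ hc.1
    omega
  · have : (c + 1) * P.H ≤ v * P.H := Nat.mul_le_mul_right _ hc.2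
    omega

theorem E_congr {s : ℝ} {p q i j : ℕ} (hij : ∀ n ∈ Ioc i j, w n = w' n)
    (h1 : i ≤ p * P.H + 2 * P.L0) (h2 : q * P.H ≤ j) (hpq : p + P.t0 ≤ q) :
    P.E w s p q ↔ P.E w' s p q := by
  have g1 : ∀ y, p < y → y ≤ q →
      P.XI w (max p (y - P.t0)) y = P.XI w' (max p (y - P.t0)) y := by
    intro y _ hy
    apply XI_congr hij
    · have : p * P.H ≤ (max p (y - P.t0)) * P.H := Nat.mul_le_mul_right _ (le_max_left _ _)
      omega
    · exact (Nat.mul_le_mul_right _ hy).trans h2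
  have g2 : ∀ l, 1 ≤ l → l ≤ P.t0 → P.XI w (q - l) q = P.XI w' (q - l) q := by
    intro l _ hl
    apply XI_congr hij _ h2
    have : p * P.H ≤ (q - l) * P.H := Nat.mul_le_mul_right _ (by omega)
    omega
  unfold E
  constructor
  · rintro ⟨a1, a2⟩
    exact ⟨fun y hy1 hy2 => by rw [← g1 y hy1 hy2]; exact a1 y hy1 hy2,
      fun l hl1 hl2 => by rw [← g2 l hl1 hl2]; exact a2 l hl1 hl2⟩
  · rintro ⟨a1, a2⟩
    exact ⟨fun y hy1 hy2 => by rw [g1 y hy1 hy2]; exact a1 y hy1 hy2,
      fun l hl1 hl2 => by rw [g2 l hl1 hl2]; exact a2 l hl1 hl2⟩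

theorem Good_congr {C : ℝ} {L0 Dd q i j : ℕ} (hij : ∀ n ∈ Ioc i j, w n = w' n)
    (h1 : i ≤ q * HH L0 Dd) (h2 : q * HH L0 Dd + 2 * L0 ≤ j) :
    Good w C L0 Dd q ↔ Good w' C L0 Dd q := by
  have g : ∀ x ∈ Icc (q * HH L0 Dd) (q * HH L0 Dd + 2 * L0),
      S w (q * HH L0 Dd) x = S w' (q * HH L0 Dd) x := by
    intro x hx
    rw [Finset.mem_Icc] at hx
    exact S_congr' hij h1 (by omega)
  unfold Good
  constructor
  · intro a x hx
    rw [← g x hx]
    exact a x hx
  · intro a x hx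
    rw [g x hx]
    exact a x hx

theorem f_congr {k p q i j : ℕ} (ht0 : 1 ≤ P.t0) (hij : ∀ n ∈ Ioc i j, w n = w' n)
    (h1 : i ≤ p * P.H + 2 * P.L0) (h2 : q * P.H + 2 * P.L0 ≤ j) :
    P.f w k p q = P.f w' k p q := by
  by_cases ht : P.t0 ≤ q - p
  · have hpq : p + 1 ≤ q := by omega
    have hpq' : (p + 1) * P.H ≤ q * P.H := Nat.mul_le_mul_right _ hpq
    have hH := P.two_L0_le_H
    have e3 : (p + 1) * P.H = p * P.H + P.H := by ring
    have gE := E_congr (s := sg k) (w := w) (w' := w') hij h1 (by omega : q * P.H ≤ j)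
      (by omega : p + P.t0 ≤ q)
    have gG := Good_congr (C := P.C) (w := w) (w' := w') (q := q) (L0 := P.L0) (Dd := P.D) hij
      (by have : q * HH P.L0 P.D = q * P.H := rfl
          omega)
      (by have : q * HH P.L0 P.D = q * P.H := rfl
          omega)
    have gV : P.V w k p q = P.V w' k p q := by
      unfold V
      split_ifs
      · rfl
      · exact S_congr' hij h1 (by omega)
    unfold f
    rw [gV]
    classical
    exact if_congr (by rw [gE, gG]) rfl rfl
  · unfold f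
    rw [if_neg (by tauto), if_neg (by tauto)]

theorem RR_congr (ht0 : 1 ≤ P.t0) {j : ℕ} (hij : ∀ n ∈ Ioc 0 j, w n = w' n) :
    ∀ k q : ℕ, q * P.H + 2 * P.L0 ≤ j → P.RR w k q = P.RR w' k q := by
  intro k
  induction k with
  | zero =>
    intro q _
    unfold RR
    rfl
  | succ k ih =>
    intro q hq
    unfold RR
    refine Finset.sum_congr rfl fun p hp => ?_
    rw [Finset.mem_range] at hp
    have : p * P.H ≤ q * P.H := Nat.mul_le_mul_right _ hp.le
    rw [ih p (by omega), f_congr ht0 hij (Nat.zero_le _) hq]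

theorem S_shift (w : ℕ → ℝ) (m a b : ℕ) : S (fun n => w (n + m)) a b = S w (a + m) (b + m) :=
  Cop764.M_loc.J_loc.2.2.1 w m a b

theorem XI_shift (w : ℕ → ℝ) (p u v : ℕ) :
    P.XI (fun n => w (n + p * P.H)) u v = P.XI w (u + p) (v + p) := by
  unfold XI X
  rw [← Finset.sum_Ico_add' _ u v p]
  refine Finset.sum_congr rfl fun c _ => ?_
  rw [S_shift]
  congr 1 <;> ring

theorem E_shift (w : ℕ → ℝ) (s : ℝ) (p t : ℕ) (ht : P.t0 ≤ t) :
    P.E (fun n => w (n + p * P.H)) s 0 t ↔ P.E w s p (p + t) := by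
  unfold E
  constructor
  · rintro ⟨a1, a2⟩
    refine ⟨fun y hy1 hy2 => ?_, fun l hl1 hl2 => ?_⟩
    · have := a1 (y - p) (by omega) (by omega)
      rw [XI_shift] at this
      have e1 : max 0 (y - p - P.t0) + p = max p (y - P.t0) := by omega
      have e2 : y - p + p = y := by omega
      rw [e1, e2] at this
      exact this
    · have := a2 l hl1 hl2
      rw [XI_shift] at this
      have e1 : t - l + p = p + t - l := by omega
      have e2 : t + p = p + t := by omega
      rw [e1, e2] at this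
      exact this
  · rintro ⟨a1, a2⟩
    refine ⟨fun y hy1 hy2 => ?_, fun l hl1 hl2 => ?_⟩
    · rw [XI_shift]
      have := a1 (y + p) (by omega) (by omega)
      have e1 : max p (y + p - P.t0) = max 0 (y - P.t0) + p := by omega
      rw [e1] at this
      exact this
    · rw [XI_shift]
      have := a2 l hl1 hl2
      have e1 : p + t - l = t - l + p := by omega
      have e2 : p + t = t + p := by omega
      rw [e1, e2] at this
      exact this

theorem Good_shift (w : ℕ → ℝ) (C : ℝ) (p t : ℕ) :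
    Good (fun n => w (n + p * P.H)) C P.L0 P.D t ↔ Good w C P.L0 P.D (p + t) := by
  unfold Good
  have e0 : HH P.L0 P.D = P.H := rfl
  simp only [S_shift, e0]
  have e1 : (p + t) * P.H = t * P.H + p * P.H := by ring
  rw [e1]
  constructor
  · intro a x hx
    rw [Finset.mem_Icc] at hx
    have := a (x - p * P.H) (by rw [Finset.mem_Icc]; omega)
    have e2 : x - p * P.H + p * P.H = x := by omega
    rw [e2] at this
    exact this
  · intro a x hx
    rw [Finset.mem_Icc] at hx
    exact a (x + p * P.H) (by rw [Finset.mem_Icc]; omega)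

theorem f_shift (w : ℕ → ℝ) (k p t : ℕ) :
    P.f (fun n => w (n + p * P.H)) k 0 t = P.f w k p (p + t) := by
  by_cases ht : P.t0 ≤ t
  · have e1 : p + t - p = t := by omega
    have e2 : t - 0 = t := by omega
    have gV : P.V (fun n => w (n + p * P.H)) k 0 t = P.V w k p (p + t) := by
      unfold V
      split_ifs
      · rfl
      · rw [S_shift]
        congr 1 <;> ring
    unfold f
    rw [gV, e1, e2]
    classical
    exact if_congr (by rw [E_shift w (sg k) p t ht, Good_shift w P.C p t]) rfl rfl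
  · unfold f
    rw [if_neg (by omega), if_neg (by omega)]

end loc

end Par

end Pool.Agent.U260.CS
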