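import Pool.Agent.U260.CS5
import Pool.Agent.Helper764.Cop_indep
import Pool.Agent.Helper764.Cop_stat

set_option autoImplicit false
set_option maxHeartbeats 4000000

open Finset MeasureTheory ProbabilityTheory

namespace Pool.Agent.U260.CS

open Cop764 (G S phi G_eq)

theorem geom_small {δ : ℝ} (h0 : 0 ≤ δ) (h1 : δ ≤ 1 / 9) (n : ℕ) :
    ∑ j ∈ Icc 1 n, δ ^ j ≤ 1 / 8 := by
  have h : ∀ n : ℕ, ∑ j ∈ Icc 1 n, δ ^ j ≤ 1 / 8 * (1 - δ ^ n) := by
    intro n
    induction n with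
    | zero => simp
    | succ n ih =>
      rw [Finset.sum_Icc_succ_top (by omega)]
      have h2 : 0 ≤ δ ^ n := pow_nonneg h0 n
      have h3 : δ ^ (n + 1) = δ ^ n * δ := pow_succ δ n
      nlinarith
  refine (h n).trans ?_
  have := pow_nonneg h0 n
  linarith

namespace Par

variable (P : Par)

/-- assumptions on the parameters -/
structure Hyp (P : Par) (D : Cop764.Data) (h : ℝ) (δ : ℝ) : Prop where
  γ0 : 0 < P.γ
  κ0 : 0 ≤ P.κ
  δ0 : 0 ≤ δ
  δ1 : δ ≤ 1 / 9
  t01 : 1 ≤ P.t0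
  L01 : 1 ≤ P.L0
  Rδ : (P.R : ℝ) * δ ^ P.t0 ≤ 1 / 4
  ρ : ∀ k, psi D h (P.γ / 2) ^ (P.D * (2 * P.L0)) ≤ δ * psi D h (P.bet k) ^ (P.D * (2 * P.L0))
  ψ : ∀ k, ∀ n, n ≤ P.R * P.H → 1 / 2 ≤ psi D h (P.bet k) ^ n
  good : 1 / 2 ≤ D.P.real {ω | Good (D.w h ω) P.C P.L0 P.D 0}

variable {P} {D : Cop764.Data} {h δ : ℝ}

theorem bad_le (hy : P.Hyp D h δ) (k : ℕ) {u v t : ℕ} (huv : u ≤ v) (hv : v ≤ t) :
    ∫ ω : ℕ → ℝ, Real.exp (P.γ * P.V (D.w h ω) k 0 t -
      P.γ / 2 * (sg k * P.XI (D.w h ω) u v)) ∂D.P ≤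
      δ ^ (v - u) * psi D h (P.bet k) ^ (t * P.H - 2 * P.L0) := by
  rw [(P.bad_integral D h k hv).2]
  have h1 : #(P.Bk u v) ≤ t * P.H - 2 * P.L0 := by
    have := Finset.card_le_card (P.Bk_subset (u := u) hv)
    rwa [Nat.card_Ioc] at this
  have h2 : psi D h (P.bet k) ^ (t * P.H - 2 * P.L0) =
      psi D h (P.bet k) ^ #(P.Bk u v) * psi D h (P.bet k) ^ (t * P.H - 2 * P.L0 - #(P.Bk u v)) := by
    rw [← pow_add]
    congr 1
    omega
  rw [h2, ← mul_assoc]
  refine mul_le_mul_of_nonneg_right ?_ (pow_nonneg (psi_pos D h _).le _)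
  rw [P.Bk_card, mul_comm (v - u), pow_mul _ (P.D * (2 * P.L0)) (v - u),
    pow_mul _ (P.D * (2 * P.L0)) (v - u), ← mul_pow]
  exact pow_le_pow_left₀ (pow_nonneg (psi_pos D h _).le _) (hy.ρ k) _

theorem V_integrable (P : Par) (D : Cop764.Data) (h : ℝ) (k t : ℕ) :
    Integrable (fun ω : ℕ → ℝ => Real.exp (P.γ * P.V (D.w h ω) k 0 t)) D.P ∧
    ∫ ω : ℕ → ℝ, Real.exp (P.γ * P.V (D.w h ω) k 0 t) ∂D.P =
      psi D h (P.bet k) ^ (t * P.H - 2 * P.L0) := by
  simp only [P.V_eq]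
  obtain ⟨h1, h2⟩ := exp_sum D h (Ioc (2 * P.L0) (t * P.H)) (fun _ => P.bet k)
  refine ⟨h1, ?_⟩
  rw [h2, Finset.prod_const, Nat.card_Ioc]

/-- the weight of a run on the event that the environment looks like the run -/
noncomputable def gE (P : Par) (w : ℕ → ℝ) (k t : ℕ) : ℝ :=
  Set.indicator {w | P.E w (sg k) 0 t} (fun w => Real.exp (P.γ * P.V w k 0 t)) w

theorem gE_meas (P : Par) (D : Cop764.Data) (h : ℝ) (k t : ℕ) :
    Measurable (fun ω : ℕ → ℝ => P.gE (D.w h ω) k t) := by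
  have e : (fun ω : ℕ → ℝ => P.gE (D.w h ω) k t) =
      Set.indicator {ω : ℕ → ℝ | P.E (D.w h ω) (sg k) 0 t}
        (fun ω => Real.exp (P.γ * P.V (D.w h ω) k 0 t)) := by
    funext ω
    unfold gE
    by_cases hE : P.E (D.w h ω) (sg k) 0 t
    · rw [Set.indicator_of_mem (by exact hE), Set.indicator_of_mem (by exact hE)]
    · rw [Set.indicator_of_notMem (by exact hE), Set.indicator_of_notMem (by exact hE)]
  rw [e]
  exact (((P.meas_V D h k 0 t).const_mul P.γ).exp).indicator (P.meas_E D h _ _ _)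

theorem gE_bounds (P : Par) (w : ℕ → ℝ) (k t : ℕ) :
    0 ≤ P.gE w k t ∧ P.gE w k t ≤ Real.exp (P.γ * P.V w k 0 t) := by
  unfold gE
  by_cases hE : P.E w (sg k) 0 t
  · rw [Set.indicator_of_mem (by exact hE)]
    exact ⟨(Real.exp_pos _).le, le_rfl⟩
  · rw [Set.indicator_of_notMem (by exact hE)]
    exact ⟨le_rfl, (Real.exp_pos _).le⟩

theorem gE_integrable (P : Par) (D : Cop764.Data) (h : ℝ) (k t : ℕ) :
    Integrable (fun ω : ℕ → ℝ => P.gE (D.w h ω) k t) D.P := by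
  refine Integrable.mono' (P.V_integrable D h k t).1 (P.gE_meas D h k t).aestronglyMeasurable ?_
  refine Filter.Eventually.of_forall fun ω => ?_
  rw [Real.norm_of_nonneg (P.gE_bounds _ k t).1]
  exact (P.gE_bounds _ k t).2

theorem gE_lower (hy : P.Hyp D h δ) (k t : ℕ) (ht1 : P.t0 ≤ t) (ht2 : t ≤ P.R) :
    1 / 4 ≤ ∫ ω : ℕ → ℝ, P.gE (D.w h ω) k t ∂D.P := by
  obtain ⟨M, hM⟩ : ∃ M, M = psi D h (P.bet k) ^ (t * P.H - 2 * P.L0) := ⟨_, rfl⟩
  have hM1 : 1 / 2 ≤ M := by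
    rw [hM]
    refine hy.ψ k _ ?_
    have : t * P.H ≤ P.R * P.H := Nat.mul_le_mul_right _ ht2
    omega
  obtain ⟨B1, hB1⟩ : ∃ B1 : (ℕ → ℝ) → ℕ → ℝ, B1 = fun ω y => Real.exp (P.γ * P.V (D.w h ω) k 0 t -
      P.γ / 2 * (sg k * P.XI (D.w h ω) (y - P.t0) y)) := ⟨_, rfl⟩
  obtain ⟨B2, hB2⟩ : ∃ B2 : (ℕ → ℝ) → ℕ → ℝ, B2 = fun ω j => Real.exp (P.γ * P.V (D.w h ω) k 0 t -
      P.γ / 2 * (sg k * P.XI (D.w h ω) (t - j) t)) := ⟨_, rfl⟩
  have hpt : ∀ ω : ℕ → ℝ, Real.exp (P.γ * P.V (D.w h ω) k 0 t) ≤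
      P.gE (D.w h ω) k t + (∑ y ∈ Icc 1 t, B1 ω y + ∑ j ∈ Icc 1 P.t0, B2 ω j) := by
    intro ω
    have n1 : 0 ≤ ∑ y ∈ Icc 1 t, B1 ω y :=
      Finset.sum_nonneg fun y _ => by rw [hB1]; exact (Real.exp_pos _).le
    have n2 : 0 ≤ ∑ j ∈ Icc 1 P.t0, B2 ω j :=
      Finset.sum_nonneg fun y _ => by rw [hB2]; exact (Real.exp_pos _).le
    by_cases hE : P.E (D.w h ω) (sg k) 0 t
    · have : P.gE (D.w h ω) k t = Real.exp (P.γ * P.V (D.w h ω) k 0 t) := by
        unfold gE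
        rw [Set.indicator_of_mem (by exact hE)]
      rw [this]
      linarith
    · have n3 := (P.gE_bounds (D.w h ω) k t).1
      have hbad : ∀ z : ℝ, z ≤ 0 → Real.exp (P.γ * P.V (D.w h ω) k 0 t) ≤
          Real.exp (P.γ * P.V (D.w h ω) k 0 t - P.γ / 2 * z) := by
        intro z hz
        apply Real.exp_le_exp.2
        have := hy.γ0
        nlinarith
      unfold E at hE
      rw [not_and_or] at hE
      push Not at hE
      rcases hE with ⟨y, hy1, hy2, hy3⟩ | ⟨j, hj1, hj2, hj3⟩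
      · have e : max 0 (y - P.t0) = y - P.t0 := by omega
        rw [e] at hy3
        have g1 : B1 ω y ≤ ∑ y ∈ Icc 1 t, B1 ω y := by
          refine Finset.single_le_sum (f := fun y => B1 ω y) (fun y _ => ?_) ?_
          · rw [hB1]; exact (Real.exp_pos _).le
          · rw [Finset.mem_Icc]; omega
        have g2 : Real.exp (P.γ * P.V (D.w h ω) k 0 t) ≤ B1 ω y := by
          rw [hB1]; exact hbad _ hy3
        linarith
      · have g1 : B2 ω j ≤ ∑ j ∈ Icc 1 P.t0, B2 ω j := by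
          refine Finset.single_le_sum (f := fun y => B2 ω y) (fun y _ => ?_) ?_
          · rw [hB2]; exact (Real.exp_pos _).le
          · rw [Finset.mem_Icc]; omega
        have g2 : Real.exp (P.γ * P.V (D.w h ω) k 0 t) ≤ B2 ω j := by
          rw [hB2]; exact hbad _ hj3
        linarith
  have i1 : ∀ y ∈ Icc 1 t, Integrable (fun ω => B1 ω y) D.P := by
    intro y hy
    rw [Finset.mem_Icc] at hy
    rw [hB1]
    exact (P.bad_integral D h k hy.2).1
  have i2 : ∀ j ∈ Icc 1 P.t0, Integrable (fun ω => B2 ω j) D.P := by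
    intro j _
    rw [hB2]
    exact (P.bad_integral D h k le_rfl).1
  have I1 : Integrable (fun ω => ∑ y ∈ Icc 1 t, B1 ω y) D.P := integrable_finsetSum _ i1
  have I2 : Integrable (fun ω => ∑ j ∈ Icc 1 P.t0, B2 ω j) D.P := integrable_finsetSum _ i2
  have hint := integral_mono (P.V_integrable D h k t).1
    ((P.gE_integrable D h k t).add (I1.add I2)) hpt
  rw [(P.V_integrable D h k t).2, ← hM] at hint
  have e1 : ∫ ω, ((fun ω => P.gE (D.w h ω) k t) + ((fun ω => ∑ y ∈ Icc 1 t, B1 ω y) +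
      fun ω => ∑ j ∈ Icc 1 P.t0, B2 ω j)) ω ∂D.P = ∫ ω, P.gE (D.w h ω) k t ∂D.P +
      (∑ y ∈ Icc 1 t, ∫ ω, B1 ω y ∂D.P + ∑ j ∈ Icc 1 P.t0, ∫ ω, B2 ω j ∂D.P) := by
    rw [integral_add' (P.gE_integrable D h k t) (I1.add I2), integral_add' I1 I2,
      integral_finsetSum _ i1, integral_finsetSum _ i2]
  rw [e1] at hint
  have s1 : ∑ y ∈ Icc 1 t, ∫ ω, B1 ω y ∂D.P ≤ (3 / 8) * M := by
    have a1 : ∀ y ∈ Icc 1 t, ∫ ω, B1 ω y ∂D.P ≤ (δ ^ y + δ ^ P.t0) * M := by
      intro y hyy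
      rw [Finset.mem_Icc] at hyy
      rw [hB1, hM]
      refine (bad_le hy k (by omega : y - P.t0 ≤ y) hyy.2).trans ?_
      refine mul_le_mul_of_nonneg_right ?_ (pow_nonneg (psi_pos D h _).le _)
      have p1 := pow_nonneg hy.δ0 y
      have p2 := pow_nonneg hy.δ0 P.t0
      by_cases hc : y ≤ P.t0
      · have : y - (y - P.t0) = y := by omega
        rw [this]
        linarith
      · have : y - (y - P.t0) = P.t0 := by omega
        rw [this]
        linarith
    refine (Finset.sum_le_sum a1).trans ?_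
    rw [← Finset.sum_mul]
    refine mul_le_mul_of_nonneg_right ?_ (by linarith)
    rw [Finset.sum_add_distrib, Finset.sum_const, Nat.card_Icc, Nat.add_sub_cancel, nsmul_eq_mul]
    have a2 := geom_small hy.δ0 hy.δ1 t
    have a3 : (t : ℝ) * δ ^ P.t0 ≤ P.R * δ ^ P.t0 := by
      refine mul_le_mul_of_nonneg_right ?_ (pow_nonneg hy.δ0 _)
      exact_mod_cast ht2
    have a4 := hy.Rδ
    linarith
  have s2 : ∑ j ∈ Icc 1 P.t0, ∫ ω, B2 ω j ∂D.P ≤ (1 / 8) * M := by
    have a1 : ∀ j ∈ Icc 1 P.t0, ∫ ω, B2 ω j ∂D.P ≤ δ ^ j * M := by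
      intro j hj
      rw [Finset.mem_Icc] at hj
      rw [hB2, hM]
      have := bad_le hy k (by omega : t - j ≤ t) (le_refl t)
      have e : t - (t - j) = j := by omega
      rw [e] at this
      exact this
    refine (Finset.sum_le_sum a1).trans ?_
    rw [← Finset.sum_mul]
    exact mul_le_mul_of_nonneg_right (geom_small hy.δ0 hy.δ1 _) (by linarith)
  linarith

theorem good_prob (hy : P.Hyp D h δ) (t : ℕ) :
    1 / 2 ≤ D.P.real {ω | Good (D.w h ω) P.C P.L0 P.D t} := by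
  have hmp : MeasurePreserving (fun (ω : ℕ → ℝ) (n : ℕ) => ω (n + t * P.H)) D.P D.P :=
    Cop764.M_stat.J_stat D.ν (t * P.H)
  have h1 : {ω : ℕ → ℝ | Good (D.w h ω) P.C P.L0 P.D t} =
      (fun (ω : ℕ → ℝ) (n : ℕ) => ω (n + t * P.H)) ⁻¹' {ω | Good (D.w h ω) P.C P.L0 P.D 0} := by
    ext ω
    have := Good_shift (P := P) (D.w h ω) P.C t 0
    rw [Nat.add_zero] at this
    exact this.symm
  have h2 : D.P.real {ω | Good (D.w h ω) P.C P.L0 P.D t} =
      D.P.real {ω | Good (D.w h ω) P.C P.L0 P.D 0} := by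
    rw [h1]
    unfold Measure.real
    rw [hmp.measure_preimage (meas_Good D h _ _ _ _).nullMeasurableSet]
  rw [h2]
  exact hy.good

theorem f_eq (P : Par) (w : ℕ → ℝ) (k t : ℕ) (ht1 : P.t0 ≤ t) (ht2 : t ≤ P.R) :
    P.f w k 0 t = P.κ / t * (P.gE w k t *
      Set.indicator {w | Good w P.C P.L0 P.D t} (fun _ => (1 : ℝ)) w) := by
  unfold f gE
  by_cases h1 : P.E w (sg k) 0 t
  · by_cases h2 : Good w P.C P.L0 P.D t
    · rw [if_pos ⟨by omega, by omega, h1, h2⟩, Set.indicator_of_mem (by exact h1),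
        Set.indicator_of_mem (by exact h2), mul_one]
      rfl
    · rw [if_neg (by tauto), Set.indicator_of_notMem (s := {w | Good w P.C P.L0 P.D t})
        (by exact h2)]
      ring
  · rw [if_neg (by tauto), Set.indicator_of_notMem (s := {w | P.E w (sg k) 0 t}) (by exact h1)]
    ring

theorem kernel (hy : P.Hyp D h δ) (k t : ℕ) (ht1 : P.t0 ≤ t) (ht2 : t ≤ P.R) :
    P.κ / (8 * t) ≤ ∫ ω : ℕ → ℝ, P.f (D.w h ω) k 0 t ∂D.P := by
  simp only [P.f_eq _ k t ht1 ht2]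
  rw [integral_const_mul]
  have hind : IndepFun (fun ω : ℕ → ℝ => P.gE (D.w h ω) k t)
      (fun ω : ℕ → ℝ => Set.indicator {w | Good w P.C P.L0 P.D t} (fun _ => (1 : ℝ)) (D.w h ω))
      D.P := by
    refine Cop764.M_indep.J_indep D.ν (Ioc 0 (t * P.H)) (Ioc (t * P.H) (t * P.H + 2 * P.L0)) ?_ _ _
      (P.gE_meas D h k t) ?_ ?_ ?_
    · rw [Finset.disjoint_left]
      intro a ha hb
      rw [Finset.mem_Ioc] at ha hb
      omega
    · have e : (fun ω : ℕ → ℝ => Set.indicator {w | Good w P.C P.L0 P.D t} (fun _ => (1 : ℝ))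
          (D.w h ω)) = Set.indicator {ω : ℕ → ℝ | Good (D.w h ω) P.C P.L0 P.D t}
            (fun _ => (1 : ℝ)) := by
        funext ω
        by_cases hG : Good (D.w h ω) P.C P.L0 P.D t
        · rw [Set.indicator_of_mem (by exact hG), Set.indicator_of_mem (by exact hG)]
        · rw [Set.indicator_of_notMem (by exact hG), Set.indicator_of_notMem (by exact hG)]
      rw [e]
      exact measurable_const.indicator (meas_Good D h _ _ _ _)
    · intro ω ω' hωω
      have hw : ∀ n ∈ Ioc 0 (t * P.H), D.w h ω n = D.w h ω' n := by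
        intro n hn
        unfold Cop764.Data.w
        rw [hωω n hn]
      have hE := E_congr (P := P) (s := sg k) (p := 0) (q := t) hw (Nat.zero_le _) le_rfl (by omega)
      have hV : P.V (D.w h ω) k 0 t = P.V (D.w h ω') k 0 t := by
        unfold V
        split_ifs
        · rfl
        · exact S_congr' hw (Nat.zero_le _) le_rfl
      unfold gE
      by_cases h1 : P.E (D.w h ω) (sg k) 0 t
      · have h2 := hE.1 h1
        rw [Set.indicator_of_mem (by exact h1), Set.indicator_of_mem (by exact h2), hV]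
      · have h2 : ¬ P.E (D.w h ω') (sg k) 0 t := fun h3 => h1 (hE.2 h3)
        rw [Set.indicator_of_notMem (by exact h1), Set.indicator_of_notMem (by exact h2)]
    · intro ω ω' hωω
      have hw : ∀ n ∈ Ioc (t * P.H) (t * P.H + 2 * P.L0), D.w h ω n = D.w h ω' n := by
        intro n hn
        unfold Cop764.Data.w
        rw [hωω n hn]
      have hG := Good_congr (C := P.C) (L0 := P.L0) (Dd := P.D) (q := t) hw le_rfl le_rfl
      by_cases h1 : Good (D.w h ω) P.C P.L0 P.D t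
      · have h2 := hG.1 h1
        show Set.indicator _ _ _ = Set.indicator _ _ _
        rw [Set.indicator_of_mem (by exact h1), Set.indicator_of_mem (by exact h2)]
      · have h2 : ¬ Good (D.w h ω') P.C P.L0 P.D t := fun h3 => h1 (hG.2 h3)
        show Set.indicator _ _ _ = Set.indicator _ _ _
        rw [Set.indicator_of_notMem (by exact h1), Set.indicator_of_notMem (by exact h2)]
  have hgood : ∫ ω : ℕ → ℝ, Set.indicator {w | Good w P.C P.L0 P.D t} (fun _ => (1 : ℝ))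
      (D.w h ω) ∂D.P = D.P.real {ω | Good (D.w h ω) P.C P.L0 P.D t} := by
    have e : (fun ω : ℕ → ℝ => Set.indicator {w | Good w P.C P.L0 P.D t} (fun _ => (1 : ℝ))
        (D.w h ω)) = Set.indicator {ω : ℕ → ℝ | Good (D.w h ω) P.C P.L0 P.D t}
          (fun _ => (1 : ℝ)) := by
      funext ω
      by_cases hG : Good (D.w h ω) P.C P.L0 P.D t
      · rw [Set.indicator_of_mem (by exact hG), Set.indicator_of_mem (by exact hG)]
      · rw [Set.indicator_of_notMem (by exact hG), Set.indicator_of_notMem (by exact hG)]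
    rw [e, integral_indicator (meas_Good D h _ _ _ _)]
    simp
  have hgm : AEStronglyMeasurable (fun ω : ℕ → ℝ => Set.indicator {w | Good w P.C P.L0 P.D t}
      (fun _ => (1 : ℝ)) (D.w h ω)) D.P := by
    have e : (fun ω : ℕ → ℝ => Set.indicator {w | Good w P.C P.L0 P.D t} (fun _ => (1 : ℝ))
        (D.w h ω)) = Set.indicator {ω : ℕ → ℝ | Good (D.w h ω) P.C P.L0 P.D t}
          (fun _ => (1 : ℝ)) := by
      funext ω
      by_cases hG : Good (D.w h ω) P.C P.L0 P.D t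
      · rw [Set.indicator_of_mem (by exact hG), Set.indicator_of_mem (by exact hG)]
      · rw [Set.indicator_of_notMem (by exact hG), Set.indicator_of_notMem (by exact hG)]
    rw [e]
    exact (measurable_const.indicator (meas_Good D h _ _ _ _)).aestronglyMeasurable
  rw [hind.integral_fun_mul_eq_mul_integral (P.gE_meas D h k t).aestronglyMeasurable hgm, hgood]
  have g1 := gE_lower hy k t ht1 ht2
  have g2 := good_prob hy t
  have ht : (0 : ℝ) < t := by
    have := hy.t01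
    have : 1 ≤ t := by omega
    exact_mod_cast this
  have hκt : 0 ≤ P.κ / t := div_nonneg hy.κ0 ht.le
  have g3 : 1 / 4 * (1 / 2) ≤ (∫ ω : ℕ → ℝ, P.gE (D.w h ω) k t ∂D.P) *
      D.P.real {ω | Good (D.w h ω) P.C P.L0 P.D t} :=
    mul_le_mul g1 g2 (by norm_num) (by linarith)
  calc P.κ / (8 * t) = P.κ / t * (1 / 4 * (1 / 2)) := by field_simp; ring
    _ ≤ _ := mul_le_mul_of_nonneg_left g3 hκt

end Par

end Pool.Agent.U260.CS
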