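import Pool.Agent.U260.CS6

set_option autoImplicit false
set_option maxHeartbeats 4000000

open Finset MeasureTheory ProbabilityTheory

namespace Pool.Agent.U260.CS

open Cop764 (G S phi G_eq)

namespace Par

variable {P : Par} {D : Cop764.Data} {h δ : ℝ}

theorem f_zero_integrable (P : Par) (D : Cop764.Data) (h : ℝ) (hκ : 0 ≤ P.κ) (k t : ℕ) :
    Integrable (fun ω : ℕ → ℝ => P.f (D.w h ω) k 0 t) D.P := by
  refine Integrable.mono' (((P.V_integrable D h k t).1).const_mul (P.κ / ((t - 0 : ℕ) : ℝ)))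
    (P.meas_f D h k 0 t).aestronglyMeasurable ?_
  refine Filter.Eventually.of_forall fun ω => ?_
  rw [Real.norm_of_nonneg (f_nonneg hκ _ _ _)]
  unfold f
  split_ifs
  · exact le_rfl
  · positivity

theorem shift_mp (P : Par) (D : Cop764.Data) (p : ℕ) :
    MeasurePreserving (fun (ω : ℕ → ℝ) (n : ℕ) => ω (n + p * P.H)) D.P D.P :=
  Cop764.M_stat.J_stat D.ν (p * P.H)

theorem f_shift_ω (P : Par) (D : Cop764.Data) (h : ℝ) (k p t : ℕ) (ω : ℕ → ℝ) :
    P.f (D.w h (fun n => ω (n + p * P.H))) k 0 t = P.f (D.w h ω) k p (p + t) :=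
  f_shift (P := P) (D.w h ω) k p t

theorem f_integrable (P : Par) (D : Cop764.Data) (h : ℝ) (hκ : 0 ≤ P.κ) (k p t : ℕ) :
    Integrable (fun ω : ℕ → ℝ => P.f (D.w h ω) k p (p + t)) D.P ∧
    ∫ ω : ℕ → ℝ, P.f (D.w h ω) k p (p + t) ∂D.P = ∫ ω : ℕ → ℝ, P.f (D.w h ω) k 0 t ∂D.P := by
  have hmp := P.shift_mp D p
  have h1 := P.f_zero_integrable D h hκ k t
  constructor
  · have h2 := hmp.integrable_comp_of_integrable h1
    refine h2.congr (Filter.Eventually.of_forall fun ω => ?_)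
    exact P.f_shift_ω D h k p t ω
  · have h3 : ∫ ω : ℕ → ℝ, P.f (D.w h ω) k 0 t ∂(Measure.map
        (fun (ω : ℕ → ℝ) (n : ℕ) => ω (n + p * P.H)) D.P) =
        ∫ ω : ℕ → ℝ, P.f (D.w h (fun n => ω (n + p * P.H))) k 0 t ∂D.P :=
      integral_map hmp.measurable.aemeasurable
        (by rw [hmp.map_eq]; exact h1.aestronglyMeasurable)
    rw [hmp.map_eq] at h3
    rw [h3]
    refine integral_congr_ae (Filter.Eventually.of_forall fun ω => ?_)
    exact (P.f_shift_ω D h k p t ω).symm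

theorem indep_RR_f (P : Par) (D : Cop764.Data) (h : ℝ) (ht0 : 1 ≤ P.t0) (k p q : ℕ) :
    IndepFun (fun ω : ℕ → ℝ => P.RR (D.w h ω) k p) (fun ω : ℕ → ℝ => P.f (D.w h ω) k p q) D.P := by
  refine Cop764.M_indep.J_indep D.ν (Ioc 0 (p * P.H + 2 * P.L0))
    (Ioc (p * P.H + 2 * P.L0) (q * P.H + 2 * P.L0)) ?_ _ _ (P.meas_RR D h k p)
    (P.meas_f D h k p q) ?_ ?_
  · rw [Finset.disjoint_left]
    intro a ha hb
    rw [Finset.mem_Ioc] at ha hb
    omega
  · intro ω ω' hωω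
    refine RR_congr ht0 (j := p * P.H + 2 * P.L0) ?_ k p le_rfl
    intro n hn
    unfold Cop764.Data.w
    rw [hωω n hn]
  · intro ω ω' hωω
    refine f_congr ht0 (i := p * P.H + 2 * P.L0) (j := q * P.H + 2 * P.L0) ?_ le_rfl le_rfl
    intro n hn
    unfold Cop764.Data.w
    rw [hωω n hn]

theorem RR_integrable (P : Par) (D : Cop764.Data) (h : ℝ) (hκ : 0 ≤ P.κ) (ht0 : 1 ≤ P.t0) :
    ∀ k q : ℕ, Integrable (fun ω : ℕ → ℝ => P.RR (D.w h ω) k q) D.P := by
  intro k
  induction k with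
  | zero =>
    intro q
    unfold RR
    exact integrable_const _
  | succ k ih =>
    intro q
    unfold RR
    refine integrable_finsetSum _ fun p hp => ?_
    rw [Finset.mem_range] at hp
    have e : q = p + (q - p) := by omega
    have h1 := (P.f_integrable D h hκ k p (q - p)).1
    rw [← e] at h1
    exact (P.indep_RR_f D h ht0 k p q).integrable_mul (ih p) h1

/-- expected total weight -/
noncomputable def II (P : Par) (D : Cop764.Data) (h : ℝ) (k q : ℕ) : ℝ :=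
  ∫ ω : ℕ → ℝ, P.RR (D.w h ω) k q ∂D.P

theorem II_nonneg (hκ : 0 ≤ P.κ) (k q : ℕ) : 0 ≤ P.II D h k q :=
  integral_nonneg fun _ => RR_nonneg hκ _ _

theorem II_zero (P : Par) (D : Cop764.Data) (h : ℝ) : P.II D h 0 0 = 1 := by
  unfold II RR
  simp

theorem II_succ (P : Par) (D : Cop764.Data) (h : ℝ) (hκ : 0 ≤ P.κ) (ht0 : 1 ≤ P.t0) (k q : ℕ) :
    P.II D h (k + 1) q = ∑ p ∈ range q, P.II D h k p *
      ∫ ω : ℕ → ℝ, P.f (D.w h ω) k 0 (q - p) ∂D.P := by
  unfold II
  have e : ∀ ω : ℕ → ℝ, P.RR (D.w h ω) (k + 1) q =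
      ∑ p ∈ range q, P.RR (D.w h ω) k p * P.f (D.w h ω) k p q := fun ω => rfl
  simp only [e]
  have hi : ∀ p ∈ range q, Integrable (fun ω : ℕ → ℝ => P.RR (D.w h ω) k p *
      P.f (D.w h ω) k p q) D.P := by
    intro p hp
    rw [Finset.mem_range] at hp
    have e : q = p + (q - p) := by omega
    have h1 := (P.f_integrable D h hκ k p (q - p)).1
    rw [← e] at h1
    exact (P.indep_RR_f D h ht0 k p q).integrable_mul (P.RR_integrable D h hκ ht0 k p) h1
  rw [integral_finsetSum _ hi]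
  refine Finset.sum_congr rfl fun p hp => ?_
  rw [Finset.mem_range] at hp
  have e : q = p + (q - p) := by omega
  have h1 := P.f_integrable D h hκ k p (q - p)
  rw [← e] at h1
  rw [(P.indep_RR_f D h ht0 k p q).integral_fun_mul_eq_mul_integral
    (P.RR_integrable D h hκ ht0 k p).aestronglyMeasurable h1.1.aestronglyMeasurable, h1.2]

theorem II_growth (hy : P.Hyp D h δ) (hmass : 2 ≤ ∑ t ∈ Icc P.t0 P.R, P.κ / (8 * (t : ℝ))) :
    ∀ k : ℕ, (2 : ℝ) ^ k ≤ ∑ q ∈ range (k * P.R + 1), P.II D h k q := by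
  have hκ := hy.κ0
  have ht0 := hy.t01
  intro k
  induction k with
  | zero =>
    rw [pow_zero, Nat.zero_mul, Finset.sum_range_one, II_zero]
  | succ k ih =>
    have h1 : ∑ p ∈ range (k * P.R + 1), ∑ t ∈ Icc P.t0 P.R,
        P.II D h k p * ∫ ω : ℕ → ℝ, P.f (D.w h ω) k 0 t ∂D.P ≤
        ∑ q ∈ range ((k + 1) * P.R + 1), P.II D h (k + 1) q := by
      simp only [P.II_succ D h hκ ht0]
      have hfn : ∀ t, 0 ≤ ∫ ω : ℕ → ℝ, P.f (D.w h ω) k 0 t ∂D.P := fun t =>
        integral_nonneg fun _ => f_nonneg hκ _ _ _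
      have e1 : ∑ q ∈ range ((k + 1) * P.R + 1), ∑ p ∈ range q, P.II D h k p *
          ∫ ω : ℕ → ℝ, P.f (D.w h ω) k 0 (q - p) ∂D.P =
          ∑ p ∈ range ((k + 1) * P.R + 1), ∑ q ∈ Ioc p ((k + 1) * P.R), P.II D h k p *
          ∫ ω : ℕ → ℝ, P.f (D.w h ω) k 0 (q - p) ∂D.P := by
        apply Finset.sum_comm'
        intro a b
        simp only [Finset.mem_range, Finset.mem_Ioc]
        omega
      rw [e1]
      have hR : (k + 1) * P.R = k * P.R + P.R := by ring
      have h2 : ∑ p ∈ range (k * P.R + 1), ∑ q ∈ Ioc p ((k + 1) * P.R), P.II D h k p *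
          ∫ ω : ℕ → ℝ, P.f (D.w h ω) k 0 (q - p) ∂D.P ≤
          ∑ p ∈ range ((k + 1) * P.R + 1), ∑ q ∈ Ioc p ((k + 1) * P.R), P.II D h k p *
          ∫ ω : ℕ → ℝ, P.f (D.w h ω) k 0 (q - p) ∂D.P := by
        refine Finset.sum_le_sum_of_subset_of_nonneg ?_ (fun p _ _ =>
          Finset.sum_nonneg fun q _ => mul_nonneg (II_nonneg hκ _ _) (hfn _))
        intro a ha
        rw [Finset.mem_range] at ha ⊢
        omega
      refine le_trans ?_ h2
      refine Finset.sum_le_sum fun p hp => ?_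
      rw [Finset.mem_range] at hp
      have h3 : ∑ t ∈ Icc P.t0 P.R, P.II D h k p * ∫ ω : ℕ → ℝ, P.f (D.w h ω) k 0 t ∂D.P =
          ∑ q ∈ Icc (p + P.t0) (p + P.R), P.II D h k p *
            ∫ ω : ℕ → ℝ, P.f (D.w h ω) k 0 (q - p) ∂D.P := by
        refine Finset.sum_bij' (fun t _ => p + t) (fun q _ => q - p) ?_ ?_ ?_ ?_ ?_
        · intro t ht
          rw [Finset.mem_Icc] at ht ⊢
          omega
        · intro t ht
          rw [Finset.mem_Icc] at ht ⊢
          omega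
        · intro t ht
          omega
        · intro t ht
          rw [Finset.mem_Icc] at ht
          omega
        · intro t ht
          rw [Nat.add_sub_cancel_left]
      rw [h3]
      refine Finset.sum_le_sum_of_subset_of_nonneg ?_ (fun q _ _ =>
        mul_nonneg (II_nonneg hκ _ _) (hfn _))
      intro a ha
      rw [Finset.mem_Icc] at ha
      rw [Finset.mem_Ioc]
      omega
    refine le_trans ?_ h1
    have h4 : ∀ p ∈ range (k * P.R + 1), P.II D h k p * 2 ≤ ∑ t ∈ Icc P.t0 P.R,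
        P.II D h k p * ∫ ω : ℕ → ℝ, P.f (D.w h ω) k 0 t ∂D.P := by
      intro p _
      rw [← Finset.mul_sum]
      refine mul_le_mul_of_nonneg_left ?_ (II_nonneg hκ _ _)
      refine hmass.trans (Finset.sum_le_sum fun t ht => ?_)
      rw [Finset.mem_Icc] at ht
      exact kernel hy k t ht.1 ht.2
    refine le_trans ?_ (Finset.sum_le_sum h4)
    rw [← Finset.sum_mul, pow_succ]
    exact mul_le_mul_of_nonneg_right ih (by norm_num)

theorem II_exists (hy : P.Hyp D h δ) (hmass : 2 ≤ ∑ t ∈ Icc P.t0 P.R, P.κ / (8 * (t : ℝ)))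
    (k : ℕ) : ∃ q, q ≤ k * P.R ∧ (2 : ℝ) ^ k / ((k : ℝ) * P.R + 1) ≤ P.II D h k q := by
  by_contra hcon
  push Not at hcon
  have h1 := II_growth hy hmass k
  have h2 : ∑ q ∈ range (k * P.R + 1), P.II D h k q <
      ∑ q ∈ range (k * P.R + 1), (2 : ℝ) ^ k / ((k : ℝ) * P.R + 1) := by
    refine Finset.sum_lt_sum_of_nonempty ⟨0, by simp⟩ fun q hq => ?_
    rw [Finset.mem_range] at hq
    exact hcon q (by omega)
  rw [Finset.sum_const, Finset.card_range, nsmul_eq_mul] at h2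
  push_cast at h2
  have h3 : ((k : ℝ) * P.R + 1) * ((2 : ℝ) ^ k / ((k : ℝ) * P.R + 1)) = 2 ^ k := by
    field_simp
  linarith

end Par

end Pool.Agent.U260.CS
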