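import Pool.Agent.U260.CS7
import Pool.Agent.Helper764.Cop_strE
import Pool.Agent.Helper764.Cop_EF
import Pool.Agent.Helper764.Cop_int
import Pool.Agent.Helper764.Cop_Z
import Pool.Agent.Helper764.Cop_G
import Pool.Agent.Helper764.Cop_K

set_option autoImplicit false
set_option maxHeartbeats 4000000

open Finset MeasureTheory ProbabilityTheory

namespace Pool.Agent.U260.CS

open Cop764 (G S phi G_eq)

/-- pointwise bound of `e^{γ X}` by indicator functions -/
theorem exp_pointwise {a γ : ℝ} (ha : 1 < a) (hγ : γ * a = 1) (J : ℕ) (X : ℝ) :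
    Real.exp (γ * X) ≤ Real.exp γ + (∑ j ∈ range (J + 1), Real.exp (γ + (j + 1)) *
      (if a * j + 1 ≤ X then 1 else 0)) + Real.exp (X - (a - 1) * J) := by
  have ha0 : 0 < a := by linarith
  have hγ0 : 0 < γ := by
    by_contra h
    push Not at h
    nlinarith
  have hγ1 : γ < 1 := by
    by_contra h
    push Not at h
    nlinarith
  have hs : 0 ≤ ∑ j ∈ range (J + 1), Real.exp (γ + (j + 1)) *
      (if a * (j : ℝ) + 1 ≤ X then (1 : ℝ) else 0) := by
    refine Finset.sum_nonneg fun j _ => mul_nonneg (Real.exp_pos _).le ?_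
    split_ifs <;> norm_num
  by_cases h1 : X ≤ 1
  · have : Real.exp (γ * X) ≤ Real.exp γ := by
      apply Real.exp_le_exp.2
      nlinarith
    linarith [Real.exp_pos (X - (a - 1) * J)]
  · push Not at h1
    have hx : 0 ≤ (X - 1) / a := by
      apply div_nonneg <;> linarith
    have hf1 := Nat.floor_le hx
    have hf2 := Nat.lt_floor_add_one ((X - 1) / a)
    set j := ⌊(X - 1) / a⌋₊ with hj
    rw [le_div_iff₀ ha0] at hf1
    rw [div_lt_iff₀ ha0] at hf2
    by_cases h2 : j ≤ J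
    · have h3 : Real.exp (γ + ((j : ℝ) + 1)) * (if a * (j : ℝ) + 1 ≤ X then (1 : ℝ) else 0) ≤
          ∑ j ∈ range (J + 1), Real.exp (γ + (j + 1)) *
          (if a * (j : ℝ) + 1 ≤ X then (1 : ℝ) else 0) := by
        refine Finset.single_le_sum (f := fun j : ℕ => Real.exp (γ + ((j : ℝ) + 1)) *
          (if a * (j : ℝ) + 1 ≤ X then (1 : ℝ) else 0)) (fun j _ =>
          mul_nonneg (Real.exp_pos _).le ?_) (Finset.mem_range.2 (by omega))
        split_ifs <;> norm_num
      rw [if_pos (by linarith), mul_one] at h3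
      have h4 : Real.exp (γ * X) ≤ Real.exp (γ + ((j : ℝ) + 1)) := by
        apply Real.exp_le_exp.2
        have h5 : γ * (X - 1) ≤ γ * (((j : ℝ) + 1) * a) :=
          mul_le_mul_of_nonneg_left hf2.le hγ0.le
        have h6 : γ * (((j : ℝ) + 1) * a) = ((j : ℝ) + 1) := by
          calc γ * (((j : ℝ) + 1) * a) = (γ * a) * ((j : ℝ) + 1) := by ring
            _ = _ := by rw [hγ, one_mul]
        linarith
      linarith [Real.exp_pos (X - (a - 1) * J), Real.exp_pos γ]
    · push Not at h2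
      have h3 : ((J : ℝ) + 1) ≤ j := by exact_mod_cast h2
      have h4 : Real.exp (γ * X) ≤ Real.exp (X - (a - 1) * J) := by
        apply Real.exp_le_exp.2
        have h5 : a * (J : ℝ) ≤ X := by nlinarith
        have h6 : (1 - γ) * (a * (J : ℝ)) ≤ (1 - γ) * X :=
          mul_le_mul_of_nonneg_left h5 (by linarith)
        have h7 : (1 - γ) * (a * (J : ℝ)) = (a - 1) * J := by
          calc (1 - γ) * (a * (J : ℝ)) = (a - γ * a) * J := by ring
            _ = _ := by rw [hγ]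
        linarith
      linarith [Real.exp_pos γ]

/-- fractional moment from a logarithmic tail bound -/
theorem frac_moment {Ω : Type*} [MeasurableSpace Ω] (μ : Measure Ω) [IsProbabilityMeasure μ]
    {a γ : ℝ} (ha : 1 < a) (hγ : γ * a = 1) (X : Ω → ℝ) (hXm : Measurable X)
    (htail : ∀ j : ℕ, μ.real {ω | a * j + 1 ≤ X ω} ≤ a * Real.exp (-j))
    {B : ℝ} (hB : 0 ≤ B) (hi : Integrable (fun ω => Real.exp (X ω)) μ)
    (hE : ∫ ω, Real.exp (X ω) ∂μ ≤ Real.exp B) :
    Integrable (fun ω => Real.exp (γ * X ω)) μ ∧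
    ∫ ω, Real.exp (γ * X ω) ∂μ ≤ Real.exp γ + 1 + (B / (a - 1) + 2) * (a * Real.exp (γ + 1)) := by
  have ha0 : 0 < a := by linarith
  set J := ⌈B / (a - 1)⌉₊ with hJ
  have hJ1 : B / (a - 1) ≤ J := Nat.le_ceil _
  have hJ2 : (J : ℝ) < B / (a - 1) + 1 := Nat.ceil_lt_add_one (div_nonneg hB (by linarith))
  have hms : ∀ j : ℕ, MeasurableSet {ω | a * (j : ℝ) + 1 ≤ X ω} := fun j =>
    measurableSet_le measurable_const hXm
  have hind : ∀ j : ℕ, Integrable (fun ω => if a * (j : ℝ) + 1 ≤ X ω then (1 : ℝ) else 0) μ := by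
    intro j
    have : (fun ω => if a * (j : ℝ) + 1 ≤ X ω then (1 : ℝ) else 0) =
        Set.indicator {ω | a * (j : ℝ) + 1 ≤ X ω} (fun _ => (1 : ℝ)) := by
      ext ω
      rw [Set.indicator_apply]
      rfl
    rw [this]
    exact (integrable_const (1 : ℝ)).indicator (hms j)
  have hindE : ∀ j : ℕ, ∫ ω, (if a * (j : ℝ) + 1 ≤ X ω then (1 : ℝ) else 0) ∂μ =
      μ.real {ω | a * (j : ℝ) + 1 ≤ X ω} := by
    intro j
    have : (fun ω => if a * (j : ℝ) + 1 ≤ X ω then (1 : ℝ) else 0) =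
        Set.indicator {ω | a * (j : ℝ) + 1 ≤ X ω} (1 : Ω → ℝ) := by
      ext ω
      rw [Set.indicator_apply]
      rfl
    rw [this, integral_indicator_one (hms j)]
  have hsum : Integrable (fun ω => ∑ j ∈ range (J + 1), Real.exp (γ + (j + 1)) *
      (if a * (j : ℝ) + 1 ≤ X ω then (1 : ℝ) else 0)) μ :=
    integrable_finsetSum _ fun j _ => (hind j).const_mul _
  have htailint : Integrable (fun ω => Real.exp (X ω - (a - 1) * J)) μ := by
    have := hi.mul_const (Real.exp (-((a - 1) * J)))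
    refine this.congr (Filter.Eventually.of_forall fun ω => ?_)
    show Real.exp (X ω) * Real.exp (-((a - 1) * J)) = _
    rw [← Real.exp_add]
    rfl
  have hbig : Integrable (fun ω => Real.exp γ + (∑ j ∈ range (J + 1), Real.exp (γ + (j + 1)) *
      (if a * (j : ℝ) + 1 ≤ X ω then (1 : ℝ) else 0)) + Real.exp (X ω - (a - 1) * J)) μ :=
    ((integrable_const _).add hsum).add htailint
  have hint : Integrable (fun ω => Real.exp (γ * X ω)) μ := by
    refine hbig.mono' (by fun_prop) (Filter.Eventually.of_forall fun ω => ?_)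
    rw [Real.norm_of_nonneg (Real.exp_pos _).le]
    exact exp_pointwise ha hγ J (X ω)
  refine ⟨hint, ?_⟩
  refine (integral_mono hint hbig fun ω => exp_pointwise ha hγ J (X ω)).trans ?_
  have e1 : ∫ ω, (Real.exp γ + (∑ j ∈ range (J + 1), Real.exp (γ + (j + 1)) *
      (if a * (j : ℝ) + 1 ≤ X ω then (1 : ℝ) else 0)) + Real.exp (X ω - (a - 1) * J)) ∂μ =
      Real.exp γ + (∑ j ∈ range (J + 1), Real.exp (γ + (j + 1)) *
        μ.real {ω | a * (j : ℝ) + 1 ≤ X ω}) + ∫ ω, Real.exp (X ω - (a - 1) * J) ∂μ := by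
    have hcs : Integrable (fun ω => Real.exp γ + (∑ j ∈ range (J + 1),
        Real.exp (γ + (j + 1)) * (if a * (j : ℝ) + 1 ≤ X ω then (1 : ℝ) else 0))) μ :=
      (integrable_const _).add hsum
    rw [integral_add hcs htailint,
      integral_add (integrable_const _) hsum,
      integral_finsetSum _ (fun j _ => (hind j).const_mul _)]
    simp only [integral_const, probReal_univ, smul_eq_mul, one_mul]
    congr 2
    refine Finset.sum_congr rfl fun j _ => ?_
    rw [integral_const_mul, hindE]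
  rw [e1]
  have h1 : ∑ j ∈ range (J + 1), Real.exp (γ + ((j : ℝ) + 1)) *
      μ.real {ω | a * (j : ℝ) + 1 ≤ X ω} ≤ ∑ j ∈ range (J + 1), a * Real.exp (γ + 1) := by
    refine Finset.sum_le_sum fun j _ => ?_
    refine (mul_le_mul_of_nonneg_left (htail j) (Real.exp_pos _).le).trans (le_of_eq ?_)
    rw [show Real.exp (γ + ((j : ℝ) + 1)) * (a * Real.exp (-(j : ℝ))) =
      a * (Real.exp (γ + ((j : ℝ) + 1)) * Real.exp (-(j : ℝ))) by ring, ← Real.exp_add]
    congr 2
    ring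
  rw [Finset.sum_const, Finset.card_range, nsmul_eq_mul] at h1
  have h2 : ∫ ω, Real.exp (X ω - (a - 1) * J) ∂μ ≤ 1 := by
    have e2 : ∫ ω, Real.exp (X ω - (a - 1) * J) ∂μ =
        (∫ ω, Real.exp (X ω) ∂μ) * Real.exp (-((a - 1) * J)) := by
      rw [← integral_mul_const]
      refine integral_congr_ae (Filter.Eventually.of_forall fun ω => ?_)
      show _ = Real.exp (X ω) * Real.exp (-((a - 1) * J))
      rw [← Real.exp_add]
      rfl
    rw [e2]
    calc (∫ ω, Real.exp (X ω) ∂μ) * Real.exp (-((a - 1) * J)) ≤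
        Real.exp B * Real.exp (-((a - 1) * J)) :=
          mul_le_mul_of_nonneg_right hE (Real.exp_pos _).le
      _ = Real.exp (B - (a - 1) * J) := by rw [← Real.exp_add]; rfl
      _ ≤ 1 := by
          apply Real.exp_le_one_iff.2
          rw [div_le_iff₀ (by linarith)] at hJ1
          linarith
  have h3 : ((J + 1 : ℕ) : ℝ) * (a * Real.exp (γ + 1)) ≤
      (B / (a - 1) + 2) * (a * Real.exp (γ + 1)) := by
    refine mul_le_mul_of_nonneg_right ?_ (by positivity)
    push_cast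
    linarith
  linarith

/-- if the free energy vanishes, the fractional moment of order `1/(1+α)` of the constrained
partition function grows at most quadratically -/
theorem moment_bound (D : Cop764.Data) (c0 : ℝ) (n0 : ℕ) (hK : Cop764.KHyp D.K D.α c0 n0)
    {γ : ℝ} (hγ : γ * (1 + D.α) = 1) : ∃ C2 : ℝ, 0 < C2 ∧ ∀ h, 0 ≤ h → D.f h = 0 →
      ∀ ℓ : ℕ, n0 ≤ ℓ →
        Integrable (fun ω : ℕ → ℝ => (G D.K (D.w h ω) 0 ℓ) ^ γ) D.P ∧
        ∫ ω : ℕ → ℝ, (G D.K (D.w h ω) 0 ℓ) ^ γ ∂D.P ≤ C2 * (ℓ : ℝ) ^ 2 := by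
  obtain ⟨C1, hC1, hEF⟩ := Cop764.M_EF.J_EF D
  have hα := D.hα
  have ha : 1 < 1 + D.α := by linarith
  have hc0 := hK.c0_pos
  have hn0 := hK.n0_pos
  have hγ0 : 0 < γ := by
    by_contra h
    push Not at h
    nlinarith
  set M := Real.exp γ + 1 + (C1 / D.α + 2) * ((1 + D.α) * Real.exp (γ + 1)) with hM
  have hMpos : 0 < M := by positivity
  refine ⟨(2 / c0) ^ γ * M, by positivity, ?_⟩
  intro h hh hf ℓ hℓ
  have hℓ1 : 1 ≤ ℓ := hn0.trans hℓ
  have hℓr : (1 : ℝ) ≤ ℓ := by exact_mod_cast hℓ1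
  have hGK : ∀ ω, D.K ℓ * phi (D.w h ω) 0 ℓ ≤ G D.K (D.w h ω) 0 ℓ := by
    intro ω
    have := ((Cop764.M_G.J_G D.K (D.w h ω) hK.nonneg).2.2.1) 0 ℓ (by omega)
    simpa using this
  have hKpos : 0 < D.K ℓ := lt_of_lt_of_le (by positivity) (hK.lower ℓ hℓ)
  have hGpos : ∀ ω, 0 < G D.K (D.w h ω) 0 ℓ := by
    intro ω
    refine lt_of_lt_of_le (mul_pos hKpos ?_) (hGK ω)
    unfold phi
    positivity
  set b := Real.log (2 / c0) + (1 + D.α) * Real.log ℓ with hb
  have hb0 : 0 ≤ b := by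
    have h1 : 0 ≤ Real.log (2 / c0) := by
      apply Real.log_nonneg
      rw [le_div_iff₀ hc0]
      linarith [hK.c0_le]
    have h2 : 0 ≤ Real.log (ℓ : ℝ) := Real.log_nonneg hℓr
    have h3 : 0 ≤ (1 + D.α) * Real.log (ℓ : ℝ) := by positivity
    linarith
  set X : (ℕ → ℝ) → ℝ := fun ω => D.lG h 0 ℓ ω - b with hX
  have hmG : Measurable (fun ω : ℕ → ℝ => G D.K (D.w h ω) 0 ℓ) :=
    (Cop764.M_meas.J_meas D h 0 ℓ).1
  have hXm : Measurable X := by
    have : Measurable (fun ω : ℕ → ℝ => Real.log (G D.K (D.w h ω) 0 ℓ)) :=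
      Real.measurable_log.comp hmG
    exact this.sub_const b
  have hlGint : Integrable (D.lG h 0 ℓ) D.P :=
    (Cop764.M_int.J_int D c0 n0 hK h hh).2.1 0 ℓ (by omega)
  have hXint : Integrable X D.P := hlGint.sub (integrable_const b)
  have htail : ∀ j : ℕ, D.P.real {ω | (1 + D.α) * j + 1 ≤ X ω} ≤
      (1 + D.α) * Real.exp (-(j : ℝ)) := by
    intro j
    have h1 := Cop764.M_strE.J_strE D c0 n0 hK h hh ℓ hℓ (Real.exp (-(j : ℝ)))
      (Real.exp_pos _) (Real.exp_le_one_iff.2 (by simp))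
    rw [hf, mul_zero, zero_add, ← Real.exp_neg, neg_neg, Real.log_exp] at h1
    refine le_trans ?_ h1
    have hmi : Integrable (fun ω => max (D.lG h 0 ℓ ω - (Real.log (2 / c0) +
        (1 + D.α) * (Real.log ℓ + (j : ℝ)))) 0) D.P := by
      have := (hlGint.sub (integrable_const (Real.log (2 / c0) +
        (1 + D.α) * (Real.log ℓ + (j : ℝ)))))
      exact this.pos_part
    have h2 := mul_meas_ge_le_integral_of_nonneg (μ := D.P)
      (f := fun ω => max (D.lG h 0 ℓ ω - (Real.log (2 / c0) +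
        (1 + D.α) * (Real.log ℓ + (j : ℝ)))) 0)
      (Filter.Eventually.of_forall fun ω => le_max_right _ _) hmi 1
    rw [one_mul] at h2
    refine le_trans ?_ h2
    refine measureReal_mono ?_ (measure_ne_top _ _)
    intro ω hω
    simp only [Set.mem_ofPred_eq] at hω ⊢
    refine le_max_of_le_left ?_
    simp only [hX, hb] at hω
    linarith
  have heX : ∀ ω, Real.exp (X ω) = G D.K (D.w h ω) 0 ℓ * Real.exp (-b) := by
    intro ω
    simp only [hX]
    rw [sub_eq_add_neg, Real.exp_add]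
    unfold Cop764.Data.lG
    rw [Real.exp_log (hGpos ω)]
  have hGint : Integrable (fun ω : ℕ → ℝ => G D.K (D.w h ω) 0 ℓ) D.P ∧
      ∫ ω : ℕ → ℝ, G D.K (D.w h ω) 0 ℓ ∂D.P ≤ Real.exp (C1 * ℓ) := by
    have h1 := hEF h hh 0 ℓ hℓ1
    rw [Nat.zero_add] at h1
    have h2 : ∀ ω, G D.K (D.w h ω) 0 ℓ ≤ Cop764.F D.K (D.w h ω) 0 ℓ := fun ω =>
      (Cop764.M_Z.J_Z D h ω ℓ).1.trans (Cop764.M_Z.J_Z D h ω ℓ).2
    have h3 : Integrable (fun ω : ℕ → ℝ => G D.K (D.w h ω) 0 ℓ) D.P := by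
      refine h1.1.mono' hmG.aestronglyMeasurable (Filter.Eventually.of_forall fun ω => ?_)
      rw [Real.norm_of_nonneg (hGpos ω).le]
      exact h2 ω
    exact ⟨h3, (integral_mono h3 h1.1 h2).trans h1.2⟩
  have hiX : Integrable (fun ω => Real.exp (X ω)) D.P := by
    have := hGint.1.mul_const (Real.exp (-b))
    exact this.congr (Filter.Eventually.of_forall fun ω => (heX ω).symm)
  have hEX : ∫ ω, Real.exp (X ω) ∂D.P ≤ Real.exp (C1 * ℓ) := by
    have e1 : ∫ ω, Real.exp (X ω) ∂D.P = (∫ ω : ℕ → ℝ, G D.K (D.w h ω) 0 ℓ ∂D.P) *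
        Real.exp (-b) := by
      rw [← integral_mul_const]
      exact integral_congr_ae (Filter.Eventually.of_forall heX)
    rw [e1]
    calc (∫ ω : ℕ → ℝ, G D.K (D.w h ω) 0 ℓ ∂D.P) * Real.exp (-b) ≤
        Real.exp (C1 * ℓ) * 1 := by
          refine mul_le_mul hGint.2 (Real.exp_le_one_iff.2 (by linarith)) (Real.exp_pos _).le
            (Real.exp_pos _).le
      _ = _ := mul_one _
  obtain ⟨k1, k2⟩ := frac_moment D.P ha hγ X hXm htail (B := C1 * ℓ) (by positivity) hiX hEX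
  have hGγ : ∀ ω, (G D.K (D.w h ω) 0 ℓ) ^ γ = Real.exp (γ * b) * Real.exp (γ * X ω) := by
    intro ω
    rw [← Real.exp_add, Real.rpow_def_of_pos (hGpos ω)]
    congr 1
    simp only [hX, Cop764.Data.lG]
    ring
  constructor
  · have := k1.const_mul (Real.exp (γ * b))
    exact this.congr (Filter.Eventually.of_forall fun ω => (hGγ ω).symm)
  · have e1 : ∫ ω : ℕ → ℝ, (G D.K (D.w h ω) 0 ℓ) ^ γ ∂D.P =
        Real.exp (γ * b) * ∫ ω, Real.exp (γ * X ω) ∂D.P := by
      rw [← integral_const_mul]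
      exact integral_congr_ae (Filter.Eventually.of_forall hGγ)
    rw [e1]
    have e2 : Real.exp (γ * b) = (2 / c0) ^ γ * ℓ := by
      rw [hb, mul_add, Real.exp_add, Real.rpow_def_of_pos (by positivity)]
      have e3 : γ * ((1 + D.α) * Real.log (ℓ : ℝ)) = Real.log ℓ := by
        rw [← mul_assoc, hγ, one_mul]
      rw [e3, Real.exp_log (by linarith)]
      congr 2
      ring
    rw [e2]
    have h5 : Real.exp γ + 1 + (C1 * ℓ / (1 + D.α - 1) + 2) * ((1 + D.α) * Real.exp (γ + 1)) ≤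
        M * ℓ := by
      have e4 : (1 + D.α - 1) = D.α := by ring
      rw [e4, hM]
      have h6 : 0 ≤ Real.exp γ + 1 + 2 * ((1 + D.α) * Real.exp (γ + 1)) := by positivity
      have h7 : (Real.exp γ + 1 + (C1 / D.α + 2) * ((1 + D.α) * Real.exp (γ + 1))) * ℓ -
          (Real.exp γ + 1 + (C1 * ℓ / D.α + 2) * ((1 + D.α) * Real.exp (γ + 1))) =
          (Real.exp γ + 1 + 2 * ((1 + D.α) * Real.exp (γ + 1))) * (ℓ - 1) := by
        field_simp
        ring
      have h8 : 0 ≤ (Real.exp γ + 1 + 2 * ((1 + D.α) * Real.exp (γ + 1))) * ((ℓ : ℝ) - 1) :=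
        mul_nonneg h6 (by linarith)
      linarith
    calc (2 / c0) ^ γ * ℓ * ∫ ω, Real.exp (γ * X ω) ∂D.P ≤
        (2 / c0) ^ γ * ℓ * (M * ℓ) := by
          refine mul_le_mul_of_nonneg_left (k2.trans h5) (by positivity)
      _ = _ := by ring

end Pool.Agent.U260.CS
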