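import Pool.Agent.U260.CS8
import Pool.Agent.Helper764.Cop_fnn

set_option autoImplicit false
set_option maxHeartbeats 4000000

open Finset MeasureTheory ProbabilityTheory

namespace Pool.Agent.U260.CS

open Cop764 (G S phi G_eq)

theorem cube_contra {C : ℝ} (hC : 0 < C) (h : ∀ k : ℕ, (2 : ℝ) ^ k ≤ C * ((k : ℝ) + 1) ^ 3) :
    False := by
  have h1 := tendsto_pow_const_div_const_pow_of_one_lt 3 (r := (2 : ℝ)) (by norm_num)
  have h2 := (h1.comp (Filter.tendsto_add_atTop_nat 1)).eventually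
    (gt_mem_nhds (show (0 : ℝ) < 1 / (2 * C) by positivity))
  obtain ⟨k, hk⟩ := h2.exists
  simp only [Function.comp] at hk
  rw [div_lt_div_iff₀ (by positivity) (by positivity)] at hk
  have h3 := h k
  push_cast at hk
  have e : (2 : ℝ) ^ (k + 1) = 2 * 2 ^ k := by ring
  rw [e] at hk
  linarith

theorem pos_of_hyp (P : Par) (D : Cop764.Data) {h δ : ℝ} (hh : 0 ≤ h)
    (hy : P.Hyp D h δ) (hmass : 2 ≤ ∑ t ∈ Icc P.t0 P.R, P.κ / (8 * (t : ℝ)))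
    {c0 : ℝ} {n0 : ℕ} (hKH : Cop764.KHyp D.K D.α c0 n0)
    {a0 b0 : ℝ} (ha0 : 0 < a0)
    (hb0 : 0 < b0) (hγ : P.γ * (1 + D.α) = 1) (hC : 0 ≤ P.C)
    {n1 : ℕ} (hD : 1 ≤ P.D) (hn1 : n1 ≤ P.L0) (hn0 : n0 ≤ P.L0)
    (hKlow : ∀ n, n1 ≤ n → a0 * (n : ℝ) ^ (-(1 + D.α)) ≤ D.K n)
    (hU : b0 * (P.L0 : ℝ) ^ D.α ≤ UU D.K P.L0)
    (hκ : P.κ ≤ (a0 * b0 * (4 * ((P.D : ℝ) + 1)) ^ (-(1 + D.α)) *
      (Real.exp (-4 * P.C) / 2)) ^ P.γ) :
    0 < D.f h := by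
  by_contra hcon
  have hf : D.f h = 0 := le_antisymm (not_lt.1 hcon) (Cop764.M_fnn.J_fnn D h hh)
  obtain ⟨C2, hC2, hbd⟩ := moment_bound D c0 n0 hKH hγ
  have hL0 := hy.L01
  have hL0r : (1 : ℝ) ≤ P.L0 := by exact_mod_cast hL0
  have hc0 := hKH.c0_pos
  have hα := D.hα
  set m0 : ℝ := c0 * (2 * (P.L0 : ℝ)) ^ (-(1 + D.α)) / 2 with hm0
  have hm0pos : 0 < m0 := by positivity
  have hG0 : ∀ ω : ℕ → ℝ, ∀ a, P.L0 ≤ a → a ≤ 2 * P.L0 → m0 ≤ G D.K (D.w h ω) 0 a := by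
    intro ω a ha1 ha2
    have h1 : D.K a * phi (D.w h ω) 0 a ≤ G D.K (D.w h ω) 0 a := by
      have := ((Cop764.M_G.J_G D.K (D.w h ω) hKH.nonneg).2.2.1) 0 a (by omega)
      simpa using this
    have h2 := hKH.lower a (hn0.trans ha1)
    have har : (1 : ℝ) ≤ a := by exact_mod_cast hL0.trans ha1
    have har2 : (a : ℝ) ≤ 2 * P.L0 := by exact_mod_cast ha2
    have h3 : (2 * (P.L0 : ℝ)) ^ (-(1 + D.α)) ≤ (a : ℝ) ^ (-(1 + D.α)) :=
      Real.rpow_le_rpow_of_nonpos (by linarith) har2 (by linarith)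
    have h4 : (1 : ℝ) / 2 ≤ phi (D.w h ω) 0 a := by
      unfold phi
      have := Real.exp_pos (S (D.w h ω) 0 a)
      linarith
    calc m0 = (c0 * (2 * (P.L0 : ℝ)) ^ (-(1 + D.α))) * (1 / 2) := by rw [hm0]; ring
      _ ≤ D.K a * phi (D.w h ω) 0 a := by
        refine mul_le_mul ?_ h4 (by norm_num) (hKH.nonneg a)
        exact (mul_le_mul_of_nonneg_left h3 hc0.le).trans h2
      _ ≤ _ := h1
  have hγ0 : 0 < P.γ := hy.γ0
  have hm0γ : 0 < m0 ^ P.γ := Real.rpow_pos_of_pos hm0pos _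
  set A : ℝ := (P.R : ℝ) * P.H + 2 * P.L0 + P.R + 1 with hA
  have hApos : 0 < A := by positivity
  refine cube_contra (C := (m0 ^ P.γ)⁻¹ * C2 * A ^ 3) (by positivity) fun k => ?_
  obtain ⟨q, hq, hII⟩ := Par.II_exists hy hmass k
  have hdet : ∀ ω : ℕ → ℝ, m0 ^ P.γ * P.RR (D.w h ω) k q ≤
      (G D.K (D.w h ω) 0 (q * P.H + 2 * P.L0)) ^ P.γ := fun ω =>
    Par.det hKH.nonneg hα ha0 hb0 hγ hC hL0 hD hn1 hy.t01 hKlow hU hy.κ0 hκ hm0pos.le (hG0 ω)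
      k q (q * P.H + 2 * P.L0) (by omega) le_rfl
  obtain ⟨hi, hb⟩ := hbd h hh hf (q * P.H + 2 * P.L0) (by omega)
  have h1 : m0 ^ P.γ * P.II D h k q ≤ C2 * ((q * P.H + 2 * P.L0 : ℕ) : ℝ) ^ 2 := by
    unfold Par.II
    rw [← integral_const_mul]
    exact (integral_mono ((Par.RR_integrable P D h hy.κ0 hy.t01 k q).const_mul _) hi hdet).trans hb
  have hkr : (0 : ℝ) ≤ k := by positivity
  have h2 : ((q * P.H + 2 * P.L0 : ℕ) : ℝ) ≤ A * (k + 1) := by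
    push_cast
    have h3 : (q : ℝ) ≤ k * P.R := by exact_mod_cast hq
    have h4 : (q : ℝ) * P.H ≤ k * P.R * P.H := mul_le_mul_of_nonneg_right h3 (by positivity)
    have h5 : 0 ≤ (P.R : ℝ) * P.H := by positivity
    have h6 : 0 ≤ (P.R : ℝ) := by positivity
    have h7 : 0 ≤ (P.L0 : ℝ) * k := by positivity
    have h8 : 0 ≤ (P.R : ℝ) * k := by positivity
    rw [hA]
    nlinarith
  have h3 : (k : ℝ) * P.R + 1 ≤ A * (k + 1) := by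
    have h5 : 0 ≤ (P.R : ℝ) * P.H := by positivity
    have h55 : 0 ≤ (P.R : ℝ) * P.H * k := by positivity
    have h6 : 0 ≤ (P.R : ℝ) := by positivity
    have h7 : 0 ≤ (P.L0 : ℝ) * k := by positivity
    have h8 : 0 ≤ (P.R : ℝ) * k := by positivity
    rw [hA]
    nlinarith
  have h4 : (2 : ℝ) ^ k ≤ P.II D h k q * ((k : ℝ) * P.R + 1) := by
    rwa [div_le_iff₀ (by positivity)] at hII
  have h5 : P.II D h k q ≤ (m0 ^ P.γ)⁻¹ * (C2 * (A * (k + 1)) ^ 2) := by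
    rw [← div_eq_inv_mul, le_div_iff₀ hm0γ]
    calc P.II D h k q * m0 ^ P.γ = m0 ^ P.γ * P.II D h k q := mul_comm _ _
      _ ≤ C2 * ((q * P.H + 2 * P.L0 : ℕ) : ℝ) ^ 2 := h1
      _ ≤ C2 * (A * (k + 1)) ^ 2 := by gcongr
  calc (2 : ℝ) ^ k ≤ P.II D h k q * ((k : ℝ) * P.R + 1) := h4
    _ ≤ ((m0 ^ P.γ)⁻¹ * (C2 * (A * (k + 1)) ^ 2)) * (A * (k + 1)) := by
        refine mul_le_mul h5 h3 (by positivity) (by positivity)
    _ = _ := by ring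

end Pool.Agent.U260.CS
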