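import Pool.Agent.U260.CS8b
import Pool.Agent.Y944.LIS.AS

set_option autoImplicit false
set_option maxHeartbeats 4000000

open Finset MeasureTheory ProbabilityTheory

namespace Pool.Agent.U260.CS

open Cop764 (G phi G_eq)

theorem walk_disorder (D : Cop764.Data) :
    Pool.Agent.W844.LIS.Walk D.P (fun (i : ℕ) (ω : ℕ → ℝ) => ω (i + 1)) where
  prob := inferInstance
  meas := fun i => measurable_pi_apply (i + 1)
  indep := (Cop764.M_absS.J_absS_iind D).precomp (g := fun i : ℕ => i + 1)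
    (fun a b h => by simpa using h)
  ident := fun i => by
    refine ⟨(measurable_pi_apply (i + 1)).aemeasurable, (measurable_pi_apply (0 + 1)).aemeasurable,
      ?_⟩
    rw [Cop764.M_absS.J_absS_map D (i + 1), Cop764.M_absS.J_absS_map D (0 + 1)]
  sq := by
    rw [memLp_two_iff_integrable_sq (measurable_pi_apply (0 + 1)).aestronglyMeasurable]
    exact Cop764.M_absS.J_absS_int2 D (0 + 1) (fun x => x ^ 2) (Cop764.M_absS.J_absS_powx D 2)
  mean := by
    rw [Cop764.M_absS.J_absS_int1 D (0 + 1) (fun x => x) measurable_id]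
    exact D.mean
  var := by
    rw [Cop764.M_absS.J_absS_int1 D (0 + 1) (fun x => x ^ 2) (by fun_prop), D.var]
    norm_num

theorem vr_disorder (D : Cop764.Data) :
    Pool.Agent.W844.LIS.vr D.P (fun (i : ℕ) (ω : ℕ → ℝ) => ω (i + 1)) = 1 := by
  unfold Pool.Agent.W844.LIS.vr
  rw [Cop764.M_absS.J_absS_int1 D (0 + 1) (fun x => x ^ 2) (by fun_prop), D.var]

theorem sum_disorder (ω : ℕ → ℝ) (n : ℕ) :
    Pool.Agent.W844.LIS.S (fun (i : ℕ) (ω : ℕ → ℝ) => ω (i + 1)) n ω = ∑ i ∈ Ioc 0 n, ω i := by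
  unfold Pool.Agent.W844.LIS.S
  induction n with
  | zero => simp
  | succ n ih => rw [Finset.sum_range_succ, ih, Finset.sum_Ioc_succ_top (Nat.zero_le n)]

theorem good_prob (D : Cop764.Data) {m : ℝ} (hm0 : 0 ≤ m) (hm : m ≤ 2) (L0 Dd : ℕ)
    (hL0 : (L0 : ℝ) * D.lam ^ 2 ≤ 2) :
    1 / 2 ≤ D.P.real {ω | Good (D.w (m * D.lam) ω) 22 L0 Dd 0} := by
  have hlam := D.hlam
  have h1 := Pool.Agent.Y944.LIS.maximal_sq (walk_disorder D) (2 * L0) (3 / D.lam) (by positivity)
  rw [vr_disorder, mul_one] at h1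
  set B : Set (ℕ → ℝ) := {ω | ∃ t ≤ 2 * L0, 3 / D.lam ≤
    |Pool.Agent.W844.LIS.S (fun (i : ℕ) (ω : ℕ → ℝ) => ω (i + 1)) t ω|} with hB
  have h2 : D.P.real B ≤ 4 / 9 := by
    unfold Measure.real
    refine ENNReal.toReal_le_of_le_ofReal (by norm_num) (h1.trans (ENNReal.ofReal_le_ofReal ?_))
    rw [div_pow, div_div_eq_mul_div, div_le_iff₀ (by norm_num)]
    push_cast
    nlinarith
  have h3 : Bᶜ ⊆ {ω | Good (D.w (m * D.lam) ω) 22 L0 Dd 0} := by
    intro ω hω
    simp only [hB, Set.mem_compl_iff, Set.mem_ofPred_eq, not_exists, not_and, not_le] at hω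
    show Good (D.w (m * D.lam) ω) 22 L0 Dd 0
    unfold Good
    intro x hx
    rw [Finset.mem_Icc] at hx
    rw [Nat.zero_mul, Nat.zero_add] at hx
    have h4 := hω x hx.2
    rw [sum_disorder, lt_div_iff₀ hlam] at h4
    rw [Nat.zero_mul]
    have e : Cop764.S (D.w (m * D.lam) ω) 0 x =
        -(2 * (D.lam * ∑ i ∈ Ioc 0 x, ω i)) - 2 * m * (x * D.lam ^ 2) := by
      unfold Cop764.S Cop764.Data.w
      rw [← Finset.mul_sum, Finset.sum_add_distrib, Finset.sum_const, Nat.card_Ioc, nsmul_eq_mul]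
      simp only [Nat.sub_zero]
      ring
    rw [e]
    have h5 : (x : ℝ) ≤ 2 * L0 := by exact_mod_cast hx.2
    have h6 : (x : ℝ) * D.lam ^ 2 ≤ 4 := by
      have := mul_le_mul_of_nonneg_right h5 (sq_nonneg D.lam)
      linarith
    have h7 : 0 ≤ (x : ℝ) * D.lam ^ 2 := by positivity
    have h8 : |D.lam * ∑ i ∈ Ioc 0 x, ω i| ≤ 3 := by
      rw [abs_mul, abs_of_pos hlam]
      linarith
    rw [abs_le] at h8 ⊢
    constructor <;> nlinarith
  have h4 : D.P.real Bᶜ ≤ D.P.real {ω | Good (D.w (m * D.lam) ω) 22 L0 Dd 0} :=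
    measureReal_mono h3 (measure_ne_top _ _)
  have h5 : 1 ≤ D.P.real B + D.P.real Bᶜ := by
    have h6 : D.P.real (B ∪ Bᶜ) ≤ D.P.real B + D.P.real Bᶜ := measureReal_union_le _ _
    rw [Set.union_compl_self, probReal_univ] at h6
    exact h6
  linarith

end Pool.Agent.U260.CS
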