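import Pool.Agent.U260.CS9a

set_option autoImplicit false
set_option maxHeartbeats 4000000

open Finset MeasureTheory ProbabilityTheory

namespace Pool.Agent.U260.CS

theorem exp_taylor (y : ℝ) : |Real.exp y - (1 + y + y ^ 2 / 2)| ≤ |y| ^ 3 * Real.exp |y| := by
  have h := Complex.norm_exp_sub_sum_le_norm_mul_exp (y : ℂ) 3
  have e : Complex.exp (y : ℂ) - ∑ m ∈ range 3, (y : ℂ) ^ m / (m.factorial : ℂ) =
      ((Real.exp y - (1 + y + y ^ 2 / 2) : ℝ) : ℂ) := by
    simp only [Finset.sum_range_succ, Finset.sum_range_zero]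
    push_cast
    norm_num [Nat.factorial]
  rw [e, Complex.norm_real, Complex.norm_real] at h
  simpa [Real.norm_eq_abs] using h

theorem mgf_taylor (ν : Measure ℝ) [IsProbabilityMeasure ν] (mean : ∫ x, x ∂ν = 0)
    (var : ∫ x, x ^ 2 ∂ν = 1) (expm : ∀ t : ℝ, Integrable (fun x => Real.exp (t * x)) ν) :
    ∃ c : ℝ, 0 < c ∧ ∀ s : ℝ, |s| ≤ 1 →
      |(∫ x, Real.exp (s * x) ∂ν) - (1 + s ^ 2 / 2)| ≤ c * |s| ^ 3 := by
  have hpow : ∀ k : ℕ, Integrable (fun x : ℝ => x ^ k) ν := fun k =>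
    integrable_pow_of_integrable_exp_mul (X := fun x : ℝ => x) (t := 1) one_ne_zero
      (expm 1) (expm (-1)) k
  have hx1 : Integrable (fun x : ℝ => x) ν := by simpa using hpow 1
  have hx2 : Integrable (fun x : ℝ => x ^ 2) ν := hpow 2
  have hcint : Integrable (fun x => 6 * (Real.exp (2 * x) + Real.exp (-2 * x))) ν :=
    ((expm 2).add (expm (-2))).const_mul 6
  refine ⟨∫ x, 6 * (Real.exp (2 * x) + Real.exp (-2 * x)) ∂ν, ?_, ?_⟩
  · rw [integral_const_mul, integral_add (expm 2) (expm (-2))]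
    have h1 : 0 < ∫ x, Real.exp (2 * x) ∂ν := integral_exp_pos (expm 2)
    have h2 : 0 < ∫ x, Real.exp (-2 * x) ∂ν := integral_exp_pos (expm (-2))
    linarith
  · intro s hs
    have hpt : ∀ x : ℝ, |Real.exp (s * x) - (1 + s * x + (s * x) ^ 2 / 2)| ≤
        6 * (Real.exp (2 * x) + Real.exp (-2 * x)) * |s| ^ 3 := by
      intro x
      refine (exp_taylor (s * x)).trans ?_
      rw [abs_mul, mul_pow]
      have h1 : |x| ^ 3 ≤ 6 * Real.exp |x| := by
        have := Real.pow_div_factorial_le_exp |x| (abs_nonneg x) 3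
        rw [div_le_iff₀ (by positivity)] at this
        norm_num [Nat.factorial] at this
        linarith
      have h2 : Real.exp (|s| * |x|) ≤ Real.exp |x| := by
        apply Real.exp_le_exp.2
        nlinarith [abs_nonneg x]
      have h3 : Real.exp |x| * Real.exp |x| ≤ Real.exp (2 * x) + Real.exp (-2 * x) := by
        rw [← Real.exp_add]
        rcases abs_cases x with ⟨h, _⟩ | ⟨h, _⟩
        · rw [h]
          have := Real.exp_pos (-2 * x)
          rw [show x + x = 2 * x by ring]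
          linarith
        · rw [h]
          have := Real.exp_pos (2 * x)
          rw [show -x + -x = -2 * x by ring]
          linarith
      calc |s| ^ 3 * |x| ^ 3 * Real.exp (|s| * |x|) ≤
          |s| ^ 3 * (6 * Real.exp |x|) * Real.exp |x| := by gcongr
        _ = 6 * (Real.exp |x| * Real.exp |x|) * |s| ^ 3 := by ring
        _ ≤ _ := by gcongr
    have hq : Integrable (fun x => 1 + s * x + (s * x) ^ 2 / 2) ν := by
      have h1 : Integrable (fun x : ℝ => 1 + s * x) ν := (integrable_const 1).add (hx1.const_mul s)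
      have h2 : Integrable (fun x : ℝ => (s * x) ^ 2 / 2) ν := by
        refine (hx2.const_mul (s ^ 2 / 2)).congr (Filter.Eventually.of_forall fun x => ?_)
        show s ^ 2 / 2 * x ^ 2 = (s * x) ^ 2 / 2
        ring
      exact h1.add h2
    have hqE : ∫ x, (1 + s * x + (s * x) ^ 2 / 2) ∂ν = 1 + s ^ 2 / 2 := by
      have h1 : Integrable (fun x : ℝ => 1 + s * x) ν := (integrable_const 1).add (hx1.const_mul s)
      have h2 : Integrable (fun x : ℝ => s ^ 2 / 2 * x ^ 2) ν := hx2.const_mul _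
      have e : (fun x : ℝ => 1 + s * x + (s * x) ^ 2 / 2) =
          fun x => (1 + s * x) + s ^ 2 / 2 * x ^ 2 := by
        funext x
        ring
      rw [e, integral_add h1 h2, integral_add (integrable_const 1) (hx1.const_mul s),
        integral_const_mul, integral_const_mul, mean, var]
      simp
    rw [← hqE, ← integral_sub (expm s) hq, ← integral_mul_const]
    refine (abs_integral_le_integral_abs).trans ?_
    refine integral_mono ?_ ?_ hpt
    · exact ((expm s).sub hq).abs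
    · exact hcint.mul_const _

/-- Gaussian bounds for the moment generating function near `0` -/
theorem mgf_gauss (ν : Measure ℝ) [IsProbabilityMeasure ν] (mean : ∫ x, x ∂ν = 0)
    (var : ∫ x, x ^ 2 ∂ν = 1) (expm : ∀ t : ℝ, Integrable (fun x => Real.exp (t * x)) ν)
    {ε : ℝ} (hε : 0 < ε) (hε1 : ε ≤ 1) :
    ∃ s0 : ℝ, 0 < s0 ∧ ∀ s : ℝ, |s| ≤ s0 →
      Real.exp ((1 - ε) * (s ^ 2 / 2)) ≤ ∫ x, Real.exp (s * x) ∂ν ∧
      ∫ x, Real.exp (s * x) ∂ν ≤ Real.exp ((1 + ε) * (s ^ 2 / 2)) := by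
  obtain ⟨c, hc, h⟩ := mgf_taylor ν mean var expm
  refine ⟨min (min 1 ε) (ε / (4 * c)), by positivity, fun s hs => ?_⟩
  have hs1 : |s| ≤ 1 := hs.trans ((min_le_left _ _).trans (min_le_left _ _))
  have hs2 : |s| ≤ ε := hs.trans ((min_le_left _ _).trans (min_le_right _ _))
  have hs3 : |s| ≤ ε / (4 * c) := hs.trans (min_le_right _ _)
  rw [le_div_iff₀ (by positivity)] at hs3
  have hb := h s hs1
  have hs0 : 0 ≤ |s| := abs_nonneg s
  have hsq : s ^ 2 = |s| ^ 2 := (sq_abs s).symm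
  have h3 : c * |s| ^ 3 ≤ ε / 2 * (s ^ 2 / 2) := by
    have e : c * |s| ^ 3 = (|s| * (4 * c)) * (|s| ^ 2 / 4) := by ring
    rw [e, hsq]
    have : (|s| * (4 * c)) * (|s| ^ 2 / 4) ≤ ε * (|s| ^ 2 / 4) :=
      mul_le_mul_of_nonneg_right hs3 (by positivity)
    linarith
  rw [abs_le] at hb
  set M := ∫ x, Real.exp (s * x) ∂ν with hM
  have hs22 : 0 ≤ s ^ 2 / 2 := by positivity
  have hs23 : s ^ 2 ≤ ε := by
    rw [hsq]
    nlinarith
  constructor
  · set y := (1 - ε / 2) * (s ^ 2 / 2) with hy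
    have hy0 : 0 ≤ y := mul_nonneg (by linarith) hs22
    have hMy : 1 + y ≤ M := by
      have : y = s ^ 2 / 2 - ε / 2 * (s ^ 2 / 2) := by rw [hy]; ring
      linarith [hb.1]
    have hy1 : y ≤ ε / 2 := by nlinarith
    refine le_trans ?_ hMy
    rw [← Real.le_log_iff_exp_le (by linarith)]
    have h4 := Real.one_sub_inv_le_log_of_pos (show 0 < 1 + y by linarith)
    refine le_trans ?_ h4
    have h5 : y * (1 - y) ≤ 1 - (1 + y)⁻¹ := by
      have e : 1 - (1 + y)⁻¹ = y / (1 + y) := by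
        field_simp
        ring
      rw [e, le_div_iff₀ (by linarith)]
      have : 0 ≤ y ^ 3 := by positivity
      nlinarith
    refine le_trans ?_ h5
    have h6 : (1 - ε) * (s ^ 2 / 2) ≤ ((1 - ε / 2) * (1 - y)) * (s ^ 2 / 2) := by
      refine mul_le_mul_of_nonneg_right ?_ hs22
      nlinarith
    calc (1 - ε) * (s ^ 2 / 2) ≤ ((1 - ε / 2) * (1 - y)) * (s ^ 2 / 2) := h6
      _ = y * (1 - y) := by rw [hy]; ring
  · have h4 : M ≤ 1 + (1 + ε) * (s ^ 2 / 2) := by
      nlinarith [hb.2]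
    refine h4.trans ?_
    have := Real.add_one_le_exp ((1 + ε) * (s ^ 2 / 2))
    linarith

end Pool.Agent.U260.CS
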