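import Pool.Agent.U260.CS9b
import Pool.Agent.U260.CS1b

set_option autoImplicit false
set_option maxHeartbeats 4000000

open Finset MeasureTheory ProbabilityTheory

namespace Pool.Agent.U260.CS

theorem log_le_sum (m : ℕ) (hm : 1 ≤ m) (n : ℕ) (hn : m ≤ n) :
    Real.log (((n : ℝ) + 1) / m) ≤ ∑ t ∈ Icc m n, 1 / (t : ℝ) := by
  have hmr : (1 : ℝ) ≤ m := by exact_mod_cast hm
  induction n, hn using Nat.le_induction with
  | base =>
    rw [Finset.Icc_self, Finset.sum_singleton]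
    have h1 : ((m : ℝ) + 1) / m = 1 + 1 / m := by field_simp
    rw [h1]
    have := Real.log_le_sub_one_of_pos (show 0 < 1 + 1 / (m : ℝ) by positivity)
    linarith
  | succ n hn ih =>
    rw [← Finset.insert_Icc_right_eq_Icc_add_one (by omega : m ≤ n + 1),
      Finset.sum_insert (by simp)]
    have hnr : (1 : ℝ) ≤ n := by exact_mod_cast hm.trans hn
    have e : (((n + 1 : ℕ) : ℝ) + 1) / m = (((n : ℝ) + 1) / m) * (1 + 1 / ((n : ℝ) + 1)) := by
      push_cast
      field_simp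
    rw [e, Real.log_mul (by positivity) (by positivity)]
    have h2 := Real.log_le_sub_one_of_pos (show 0 < 1 + 1 / ((n : ℝ) + 1) by positivity)
    push_cast
    linarith

theorem exp_neg_five_half : Real.exp (-(5 / 2)) ≤ 1 / 9 := by
  rw [Real.exp_neg, ← one_div]
  have h1 : (9 : ℝ) ≤ Real.exp (5 / 2) := by
    have e : (5 / 2 : ℝ) = 1 + 1 + 1 / 2 := by norm_num
    rw [e, Real.exp_add, Real.exp_add]
    have h2 := Real.exp_one_gt_d9
    have h3 := Real.add_one_le_exp (1 / 2 : ℝ)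
    have h4 : (2.7 : ℝ) * 2.7 ≤ Real.exp 1 * Real.exp 1 :=
      mul_le_mul (by linarith) (by linarith) (by norm_num) (by linarith)
    calc (9 : ℝ) ≤ (2.7 * 2.7) * (3 / 2) := by norm_num
      _ ≤ _ := mul_le_mul h4 (by linarith) (by norm_num) (by positivity)
  gcongr

/-- choice of the scales `t0` and `R` -/
theorem scales (A : ℝ) : ∃ t0 R : ℕ, 1 ≤ t0 ∧ 1 ≤ R ∧
    (R : ℝ) * Real.exp (-(5 / 2)) ^ t0 ≤ 1 / 4 ∧ A ≤ ∑ t ∈ Icc t0 R, 1 / (t : ℝ) := by
  obtain ⟨t0, ht0⟩ := exists_nat_ge (max (A + 2) 3)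
  have h3 : (3 : ℝ) ≤ t0 := (le_max_right _ _).trans ht0
  have hA : A + 2 ≤ (t0 : ℝ) := (le_max_left _ _).trans ht0
  have ht1 : 1 ≤ t0 := by
    have : (1 : ℝ) ≤ t0 := by linarith
    exact_mod_cast this
  set E : ℝ := Real.exp (5 / 2 * t0) with hE
  have hE1 : Real.exp (-(5 / 2)) ^ t0 = E⁻¹ := by
    rw [← Real.exp_nat_mul, hE, ← Real.exp_neg]
    congr 1
    ring
  have hE2 : 0 < E := Real.exp_pos _
  have hEbig : 4 * ((t0 : ℝ) + 1) ≤ E := by
    have h4 : Real.exp (5 / 2 * t0) = Real.exp (t0 : ℝ) * Real.exp (3 / 2 * t0) := by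
      rw [← Real.exp_add]
      congr 1
      ring
    rw [hE, h4]
    have h5 := Real.add_one_le_exp (t0 : ℝ)
    have h6 := Real.add_one_le_exp (3 / 2 * (t0 : ℝ))
    have h7 : (4 : ℝ) ≤ Real.exp (3 / 2 * t0) := by linarith
    calc 4 * ((t0 : ℝ) + 1) = ((t0 : ℝ) + 1) * 4 := by ring
      _ ≤ _ := mul_le_mul h5 h7 (by norm_num) (Real.exp_pos _).le
  set R : ℕ := ⌊E / 4⌋₊ with hR
  have hR1 : (R : ℝ) ≤ E / 4 := Nat.floor_le (by positivity)
  have hR2 : E / 4 < R + 1 := Nat.lt_floor_add_one _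
  have hRt : t0 ≤ R := by
    apply Nat.le_floor
    linarith
  refine ⟨t0, R, ht1, ht1.trans hRt, ?_, ?_⟩
  · rw [hE1, ← div_eq_mul_inv, div_le_iff₀ hE2]
    linarith
  · refine le_trans ?_ (log_le_sum t0 ht1 R hRt)
    have ht0p : (0 : ℝ) < t0 := by linarith
    have h5 : E / 4 / t0 ≤ ((R : ℝ) + 1) / t0 := by gcongr
    have h6 := Real.log_le_log (by positivity) h5
    refine le_trans ?_ h6
    rw [Real.log_div (by positivity) (by positivity), Real.log_div (by positivity) (by norm_num),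
      hE, Real.log_exp]
    have h7 := Real.log_le_sub_one_of_pos ht0p
    have h8 : Real.log 4 ≤ 3 := by
      have := Real.log_le_sub_one_of_pos (show (0 : ℝ) < 4 by norm_num)
      linarith
    linarith

end Pool.Agent.U260.CS
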