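import Pool.Agent.U260.CS9c

set_option autoImplicit false
set_option maxHeartbeats 4000000

open Finset MeasureTheory ProbabilityTheory Filter Topology

namespace Pool.Agent.U260.CS

theorem psi_eq (D : Cop764.Data) (h θ : ℝ) :
    psi D h θ = Real.exp (-2 * D.lam * h * θ) * ∫ x, Real.exp ((-2 * D.lam * θ) * x) ∂D.ν := by
  unfold psi
  rw [← integral_const_mul]
  refine integral_congr_ae (Filter.Eventually.of_forall fun x => ?_)
  show Real.exp (θ * (-2 * D.lam * (x + h))) =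
    Real.exp (-2 * D.lam * h * θ) * Real.exp ((-2 * D.lam * θ) * x)
  rw [← Real.exp_add]
  congr 1
  ring

theorem psi_bounds (D : Cop764.Data) {ε s0 : ℝ}
    (hs0 : ∀ s : ℝ, |s| ≤ s0 →
      Real.exp ((1 - ε) * (s ^ 2 / 2)) ≤ ∫ x, Real.exp (s * x) ∂D.ν ∧
      ∫ x, Real.exp (s * x) ∂D.ν ≤ Real.exp ((1 + ε) * (s ^ 2 / 2)))
    {m θ : ℝ} (hθ0 : 0 ≤ θ) (hθ : 2 * D.lam * θ ≤ s0) :
    Real.exp (D.lam ^ 2 * (2 * θ ^ 2 * (1 - ε) - 2 * θ * m)) ≤ psi D (m * D.lam) θ ∧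
    psi D (m * D.lam) θ ≤ Real.exp (D.lam ^ 2 * (2 * θ ^ 2 * (1 + ε) - 2 * θ * m)) := by
  have hlam := D.hlam
  have h1 := hs0 (-2 * D.lam * θ) (by
    rw [show -2 * D.lam * θ = -(2 * D.lam * θ) by ring, abs_neg, abs_of_nonneg (by positivity)]
    exact hθ)
  rw [psi_eq]
  constructor
  · have h2 := mul_le_mul_of_nonneg_left h1.1 (Real.exp_pos (-2 * D.lam * (m * D.lam) * θ)).le
    rw [← Real.exp_add] at h2
    refine le_trans (le_of_eq ?_) h2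
    congr 1
    ring
  · have h2 := mul_le_mul_of_nonneg_left h1.2 (Real.exp_pos (-2 * D.lam * (m * D.lam) * θ)).le
    rw [← Real.exp_add] at h2
    refine le_trans h2 (le_of_eq ?_)
    congr 1
    ring

/-- the parameters -/
noncomputable def mkPar (α : ℝ) (L0 t0 R : ℕ) : Par where
  γ := 1 / (1 + α)
  κ := (α * (1 - α) / 32 * (4 * ((20 : ℕ) + 1 : ℝ)) ^ (-(1 + α)) *
      (Real.exp (-4 * 22) / 2)) ^ (1 / (1 + α))
  C := 22
  L0 := L0
  D := 20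
  t0 := t0
  R := R

theorem mkPar_hyp {α : ℝ} (hα : 0 < α) (hα1 : α < 1) {t0 R : ℕ} (ht0 : 1 ≤ t0) (hR : 1 ≤ R)
    (hRδ : (R : ℝ) * Real.exp (-(5 / 2)) ^ t0 ≤ 1 / 4) (D : Cop764.Data)
    {ε s0 : ℝ} (hε : 504 * (R : ℝ) * ε = 1) (hs0 : ∀ s : ℝ, |s| ≤ s0 →
      Real.exp ((1 - ε) * (s ^ 2 / 2)) ≤ ∫ x, Real.exp (s * x) ∂D.ν ∧
      ∫ x, Real.exp (s * x) ∂D.ν ≤ Real.exp ((1 + ε) * (s ^ 2 / 2)))
    (_hlam1 : D.lam ≤ 1) (hlam2 : 2 * D.lam ≤ s0) {L0 : ℕ} (hL0 : 1 ≤ L0)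
    (hL1 : 1 ≤ (L0 : ℝ) * D.lam ^ 2) (hL2 : (L0 : ℝ) * D.lam ^ 2 ≤ 2) :
    (mkPar α L0 t0 R).Hyp D (1 / (1 + α) * (1 + ε) * D.lam) (Real.exp (-(5 / 2))) := by
  have hlam := D.hlam
  set γ : ℝ := 1 / (1 + α) with hγ
  have hγ1 : γ < 1 := by
    rw [hγ, div_lt_one (by linarith)]
    linarith
  have hγ2 : 1 / 2 < γ := by
    rw [hγ, div_lt_div_iff₀ (by norm_num) (by linarith)]
    linarith
  have hRr : (1 : ℝ) ≤ R := by exact_mod_cast hR
  have hε0 : 0 < ε := by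
    by_contra hcon
    push Not at hcon
    nlinarith
  have hε1 : 504 * ε ≤ 1 := by nlinarith
  have hPγ : (mkPar α L0 t0 R).γ = γ := rfl
  have hx : 0 < D.lam ^ 2 := by positivity
  -- bounds of psi
  have hb1 := (psi_bounds D hs0 (m := γ * (1 + ε)) (θ := γ) (by linarith) (by nlinarith)).1
  have hb2 := (psi_bounds D hs0 (m := γ * (1 + ε)) (θ := γ / 2) (by linarith) (by nlinarith)).2
  have hlow : ∀ k, Real.exp (-(4 * ε * γ ^ 2 * D.lam ^ 2)) ≤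
      psi D (γ * (1 + ε) * D.lam) ((mkPar α L0 t0 R).bet k) := by
    intro k
    unfold Par.bet
    split_ifs
    · rw [psi_zero]
      apply Real.exp_le_one_iff.2
      have : 0 ≤ 4 * ε * γ ^ 2 * D.lam ^ 2 := by positivity
      linarith
    · rw [hPγ]
      refine le_trans (le_of_eq ?_) hb1
      congr 1
      ring
  have hup : psi D (γ * (1 + ε) * D.lam) (γ / 2) ≤
      Real.exp (-(γ ^ 2 * (1 + ε) / 2 * D.lam ^ 2)) := by
    refine le_trans hb2 (le_of_eq ?_)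
    congr 1
    ring
  have hγsq : 1 / 4 ≤ γ ^ 2 := by nlinarith
  have hγsq1 : γ ^ 2 ≤ 1 := by nlinarith
  refine ⟨by rw [hPγ]; linarith, ?_, (Real.exp_pos _).le, exp_neg_five_half, ht0, hL0, hRδ, ?_, ?_,
    ?_⟩
  · show 0 ≤ (α * (1 - α) / 32 * (4 * ((20 : ℕ) + 1 : ℝ)) ^ (-(1 + α)) *
      (Real.exp (-4 * 22) / 2)) ^ (1 / (1 + α))
    apply Real.rpow_nonneg
    have : 0 ≤ 1 - α := by linarith
    positivity
  · intro k
    have hn : (((mkPar α L0 t0 R).D * (2 * (mkPar α L0 t0 R).L0) : ℕ) : ℝ) = 40 * L0 := by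
      show ((20 * (2 * L0) : ℕ) : ℝ) = 40 * L0
      push_cast
      ring
    set n := (mkPar α L0 t0 R).D * (2 * (mkPar α L0 t0 R).L0) with hndef
    rw [hPγ]
    have h1 : psi D (γ * (1 + ε) * D.lam) (γ / 2) ^ n ≤
        Real.exp (-(γ ^ 2 * (1 + ε) / 2 * D.lam ^ 2)) ^ n :=
      pow_le_pow_left₀ (psi_pos _ _ _).le hup n
    have h2 : Real.exp (-(4 * ε * γ ^ 2 * D.lam ^ 2)) ^ n ≤
        psi D (γ * (1 + ε) * D.lam) ((mkPar α L0 t0 R).bet k) ^ n :=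
      pow_le_pow_left₀ (Real.exp_pos _).le (hlow k) n
    refine h1.trans (le_trans ?_ (mul_le_mul_of_nonneg_left h2 (Real.exp_pos _).le))
    rw [← Real.exp_nat_mul, ← Real.exp_nat_mul, ← Real.exp_add, hn]
    apply Real.exp_le_exp.2
    have h3 : (40 * (L0 : ℝ)) * -(γ ^ 2 * (1 + ε) / 2 * D.lam ^ 2) =
        -(20 * γ ^ 2 * (1 + ε) * (L0 * D.lam ^ 2)) := by ring
    have h4 : (40 * (L0 : ℝ)) * -(4 * ε * γ ^ 2 * D.lam ^ 2) =
        -(160 * ε * γ ^ 2 * (L0 * D.lam ^ 2)) := by ring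
    rw [h3, h4]
    have h5 : 5 / 2 ≤ (γ ^ 2 * (20 * (1 + ε) - 160 * ε)) * (L0 * D.lam ^ 2) := by
      have h6 : 5 / 2 ≤ γ ^ 2 * (20 * (1 + ε) - 160 * ε) := by nlinarith
      nlinarith
    linarith
  · intro k n hn
    have hnr : (n : ℝ) ≤ 42 * R * L0 := by
      have h1 : (mkPar α L0 t0 R).R * (mkPar α L0 t0 R).H = 42 * R * L0 := by
        show R * HH L0 20 = 42 * R * L0
        unfold HH
        ring
      rw [h1] at hn
      exact_mod_cast hn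
    have h2 : Real.exp (-(4 * ε * γ ^ 2 * D.lam ^ 2)) ^ n ≤
        psi D (γ * (1 + ε) * D.lam) ((mkPar α L0 t0 R).bet k) ^ n :=
      pow_le_pow_left₀ (Real.exp_pos _).le (hlow k) n
    refine le_trans ?_ h2
    rw [← Real.exp_nat_mul]
    have h3 : (n : ℝ) * D.lam ^ 2 ≤ 84 * R := by
      calc (n : ℝ) * D.lam ^ 2 ≤ 42 * R * L0 * D.lam ^ 2 :=
            mul_le_mul_of_nonneg_right hnr hx.le
        _ = 42 * R * (L0 * D.lam ^ 2) := by ring
        _ ≤ 42 * R * 2 := by gcongr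
        _ = _ := by ring
    have h4 : -(2 / 3) ≤ (n : ℝ) * -(4 * ε * γ ^ 2 * D.lam ^ 2) := by
      have h5 : (n : ℝ) * -(4 * ε * γ ^ 2 * D.lam ^ 2) = -((4 * ε * γ ^ 2) * (n * D.lam ^ 2)) := by
        ring
      rw [h5]
      have h6 : (4 * ε * γ ^ 2) * (n * D.lam ^ 2) ≤ (4 * ε * 1) * (84 * R) := by gcongr
      have h7 : (4 * ε * 1) * (84 * R) = 2 / 3 := by
        calc (4 * ε * 1) * (84 * R) = (504 * R * ε) * (2 / 3) := by ring
          _ = _ := by rw [hε]; norm_num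
      linarith
    have h8 : (1 : ℝ) / 2 ≤ Real.exp (-(2 / 3)) := by
      have h9 : (1 : ℝ) / 2 = Real.exp (-Real.log 2) := by
        rw [Real.exp_neg, Real.exp_log (by norm_num)]
        norm_num
      rw [h9]
      apply Real.exp_le_exp.2
      have := Real.log_two_gt_d9
      linarith
    exact h8.trans (Real.exp_le_exp.2 h4)
  · refine good_prob D (m := γ * (1 + ε)) ?_ ?_ L0 20 hL2
    · positivity
    · nlinarith

/-- **Main theorem.** For `0 < α < 1` there is a slope `m > 1/(1+α)`, depending only on `α`, such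
that for every copolymer model with exponent `α` the free energy at `h = mλ` is positive for all
sufficiently small `λ`. -/
theorem slope {α : ℝ} (hα : 0 < α) (hα1 : α < 1) : ∃ m : ℝ, 1 / (1 + α) < m ∧
    ∀ (κ : PMF ℕ), κ 0 = 0 → ∀ cK : ℝ, 0 < cK →
      Tendsto (fun n : ℕ => (n : ℝ) ^ (1 + α) * (κ n).toReal) atTop (𝓝 cK) →
    ∀ (ν : Measure ℝ) [IsProbabilityMeasure ν], ∫ x, x ∂ν = 0 → ∫ x, x ^ 2 ∂ν = 1 →
      (∀ t : ℝ, Integrable (fun x => Real.exp (t * x)) ν) →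
    ∃ lam0 : ℝ, 0 < lam0 ∧ ∀ D : Cop764.Data, D.κ = κ → D.α = α → D.ν = ν → D.lam < lam0 →
      0 < D.f (m * D.lam) := by
  set γ : ℝ := 1 / (1 + α) with hγ
  have hγpos : 0 < γ := by positivity
  set κv : ℝ := (α * (1 - α) / 32 * (4 * ((20 : ℕ) + 1 : ℝ)) ^ (-(1 + α)) *
      (Real.exp (-4 * 22) / 2)) ^ (1 / (1 + α)) with hκv
  have hκpos : 0 < κv := by
    apply Real.rpow_pos_of_pos
    have : 0 < 1 - α := by linarith
    positivity
  obtain ⟨t0, R, ht0, hR, hRδ, hsum⟩ := scales (16 / κv)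
  have hRr : (1 : ℝ) ≤ R := by exact_mod_cast hR
  set ε : ℝ := 1 / (504 * R) with hεdef
  have hε0 : 0 < ε := by positivity
  have hε : 504 * (R : ℝ) * ε = 1 := by
    rw [hεdef]
    field_simp
  have hε1 : ε ≤ 1 := by
    rw [hεdef, div_le_one (by positivity)]
    nlinarith
  refine ⟨γ * (1 + ε), by nlinarith, ?_⟩
  intro κ hκ0 cK hcK htail ν hν mean var expm
  obtain ⟨s0, hs0, hgauss⟩ := mgf_gauss ν mean var expm hε0 hε1
  obtain ⟨n1, hn1, htb⟩ := tail_bounds (κ := κ) hκ0 hα hα1 hcK htail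
  -- base data to obtain the constants of the gap law
  let D1 : Cop764.Data := ⟨κ, hκ0, α, cK, hα, hcK, htail, ν, hν, mean, var, expm, 1, one_pos⟩
  obtain ⟨c0, n0, hKH⟩ := Cop764.M_K.J_K D1
  set N : ℝ := ((max n0 n1 : ℕ) : ℝ) with hN
  refine ⟨min 1 (min (s0 / 2) (1 / Real.sqrt (N + 1))), by positivity, ?_⟩
  intro D hDκ hDα hDν hDlam
  have hlam := D.hlam
  have hl1 : D.lam ≤ 1 := (hDlam.trans_le (min_le_left _ _)).le
  have hl2 : 2 * D.lam ≤ s0 := by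
    have := (hDlam.trans_le ((min_le_right _ _).trans (min_le_left _ _))).le
    linarith
  have hl3 : D.lam < 1 / Real.sqrt (N + 1) :=
    hDlam.trans_le ((min_le_right _ _).trans (min_le_right _ _))
  have hN0 : 0 ≤ N := by positivity
  have hl4 : (N + 1) * D.lam ^ 2 < 1 := by
    have h1 : D.lam * Real.sqrt (N + 1) < 1 := by
      rwa [lt_div_iff₀ (by positivity)] at hl3
    have h2 : (D.lam * Real.sqrt (N + 1)) ^ 2 < 1 := by
      have : 0 ≤ D.lam * Real.sqrt (N + 1) := by positivity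
      nlinarith
    rw [mul_pow, Real.sq_sqrt (by linarith)] at h2
    linarith
  have hx : 0 < D.lam ^ 2 := by positivity
  set L0 : ℕ := ⌈1 / D.lam ^ 2⌉₊ with hL0
  have hLa : 1 / D.lam ^ 2 ≤ L0 := Nat.le_ceil _
  have hLb : (L0 : ℝ) < 1 / D.lam ^ 2 + 1 := Nat.ceil_lt_add_one (by positivity)
  have hL1 : 1 ≤ (L0 : ℝ) * D.lam ^ 2 := by rwa [div_le_iff₀ hx] at hLa
  have hL2 : (L0 : ℝ) * D.lam ^ 2 ≤ 2 := by
    have h1 : (L0 : ℝ) * D.lam ^ 2 ≤ (1 / D.lam ^ 2 + 1) * D.lam ^ 2 :=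
      mul_le_mul_of_nonneg_right hLb.le hx.le
    have h2 : (1 / D.lam ^ 2 + 1) * D.lam ^ 2 = 1 + D.lam ^ 2 := by field_simp
    have h3 : D.lam ^ 2 ≤ 1 := by nlinarith
    linarith
  have hNL : N ≤ L0 := by
    have h1 : N * D.lam ^ 2 ≤ L0 * D.lam ^ 2 := by nlinarith
    exact le_of_mul_le_mul_right h1 hx
  have hNL' : max n0 n1 ≤ L0 := by
    rw [hN] at hNL
    exact_mod_cast hNL
  have hn0L : n0 ≤ L0 := (le_max_left _ _).trans hNL'
  have hn1L : n1 ≤ L0 := (le_max_right _ _).trans hNL'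
  have hL01 : 1 ≤ L0 := hn1.trans hn1L
  have hKfun : D.K = fun n => (κ n).toReal := by
    funext n
    unfold Cop764.Data.K
    rw [hDκ]
  have hKH' : Cop764.KHyp D.K D.α c0 n0 := by
    rw [hKfun, hDα]
    exact hKH
  have hgauss' : ∀ s : ℝ, |s| ≤ s0 →
      Real.exp ((1 - ε) * (s ^ 2 / 2)) ≤ ∫ x, Real.exp (s * x) ∂D.ν ∧
      ∫ x, Real.exp (s * x) ∂D.ν ≤ Real.exp ((1 + ε) * (s ^ 2 / 2)) := by
    rw [hDν]
    exact hgauss
  have hyp := mkPar_hyp hα hα1 ht0 hR hRδ D hε hgauss' hl1 hl2 hL01 hL1 hL2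
  have h1α : 0 < 1 - α := by linarith
  refine pos_of_hyp (mkPar α L0 t0 R) D (by positivity) hyp ?_ hKH' (a0 := cK / 2)
    (b0 := α * (1 - α) / (16 * cK)) (by positivity) (by positivity) ?_ ?_ (n1 := n1) ?_ hn1L hn0L
    ?_ ?_ ?_
  · show 2 ≤ ∑ t ∈ Icc t0 R, κv / (8 * (t : ℝ))
    have e : ∀ t : ℕ, κv / (8 * (t : ℝ)) = κv / 8 * (1 / (t : ℝ)) := by
      intro t
      rw [div_mul_div_comm, mul_one]
    simp only [e]
    rw [← Finset.mul_sum]
    calc (2 : ℝ) = κv / 8 * (16 / κv) := by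
          field_simp
          norm_num
      _ ≤ _ := mul_le_mul_of_nonneg_left hsum (by positivity)
  · show 1 / (1 + α) * (1 + D.α) = 1
    rw [hDα]
    field_simp
  · show (0 : ℝ) ≤ 22
    norm_num
  · show 1 ≤ 20
    norm_num
  · intro n hn
    rw [hKfun, hDα]
    exact (htb n hn).1
  · rw [hKfun, hDα]
    exact (htb L0 hn1L).2
  · show κv ≤ (cK / 2 * (α * (1 - α) / (16 * cK)) * (4 * ((20 : ℕ) + 1 : ℝ)) ^ (-(1 + D.α)) *
      (Real.exp (-4 * 22) / 2)) ^ (1 / (1 + α))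
    rw [hDα, hκv]
    have e : cK / 2 * (α * (1 - α) / (16 * cK)) = α * (1 - α) / 32 := by
      field_simp
      ring
    rw [e]

end Pool.Agent.U260.CS
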