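import Pool.Agent.U260.CS10
import Pool.Agent.Helper764.Cop_loc

set_option autoImplicit false
set_option maxHeartbeats 4000000

open Finset MeasureTheory ProbabilityTheory

namespace Pool.Agent.U260.CS

open Cop764 (G S phi G_eq)

/-- Jensen's inequality for the concave power `x ^ γ` and a sub-probability vector -/
theorem sum_rpow_le_rpow {ι : Type*} (s : Finset ι) (p x : ι → ℝ) {γ : ℝ} (hγ : 0 < γ)
    (hγ1 : γ ≤ 1) (hp : ∀ i ∈ s, 0 ≤ p i) (hx : ∀ i ∈ s, 0 ≤ x i) (hsum : ∑ i ∈ s, p i ≤ 1) :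
    ∑ i ∈ s, p i * x i ^ γ ≤ (∑ i ∈ s, p i * x i) ^ γ := by
  have hs0 : 0 ≤ ∑ i ∈ s, p i := Finset.sum_nonneg hp
  have hpx : 0 ≤ ∑ i ∈ s, p i * x i := Finset.sum_nonneg fun i hi => mul_nonneg (hp i hi) (hx i hi)
  rcases hs0.eq_or_lt with h0 | h0
  · have h1 : ∀ i ∈ s, p i = 0 := (Finset.sum_eq_zero_iff_of_nonneg hp).1 h0.symm
    rw [Finset.sum_eq_zero fun i hi => by rw [h1 i hi, zero_mul]]
    exact Real.rpow_nonneg hpx _
  · set Q := ∑ i ∈ s, p i with hQ
    have hJ := (Real.concaveOn_rpow hγ.le hγ1).le_map_sum (t := s) (w := fun i => p i / Q)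
      (p := x) (fun i hi => div_nonneg (hp i hi) h0.le)
      (by rw [← Finset.sum_div, div_self h0.ne']) (fun i hi => hx i hi)
    simp only [smul_eq_mul] at hJ
    have e1 : ∑ i ∈ s, p i / Q * x i ^ γ = (∑ i ∈ s, p i * x i ^ γ) / Q := by
      rw [Finset.sum_div]
      exact Finset.sum_congr rfl fun i _ => by ring
    have e2 : ∑ i ∈ s, p i / Q * x i = (∑ i ∈ s, p i * x i) / Q := by
      rw [Finset.sum_div]
      exact Finset.sum_congr rfl fun i _ => by ring
    rw [e1, e2, Real.div_rpow hpx h0.le, div_le_div_iff₀ h0 (Real.rpow_pos_of_pos h0 _)] at hJ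
    have h2 : Q ≤ Q ^ γ := by
      calc Q = Q ^ (1 : ℝ) := (Real.rpow_one Q).symm
        _ ≤ Q ^ γ := Real.rpow_le_rpow_of_exponent_ge h0 hsum hγ1
    have h3 : 0 ≤ (∑ i ∈ s, p i * x i) ^ γ := Real.rpow_nonneg hpx _
    have h4 : (∑ i ∈ s, p i * x i ^ γ) * Q ^ γ ≤ (∑ i ∈ s, p i * x i) ^ γ * Q ^ γ :=
      hJ.trans (mul_le_mul_of_nonneg_left h2 h3)
    exact le_of_mul_le_mul_right h4 (Real.rpow_pos_of_pos h0 _)

/-- expected fractional moment of an excursion of length `n` -/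
noncomputable def AA (D : Cop764.Data) (h γ : ℝ) (n : ℕ) : ℝ :=
  ∫ ω : ℕ → ℝ, (phi (D.w h ω) 0 n) ^ γ ∂D.P

/-- expected fractional moment of the constrained partition function -/
noncomputable def WW (D : Cop764.Data) (h γ : ℝ) (n : ℕ) : ℝ :=
  ∫ ω : ℕ → ℝ, (G D.K (D.w h ω) 0 n) ^ γ ∂D.P

variable {D : Cop764.Data} {h γ : ℝ}

theorem phi_pos (w : ℕ → ℝ) (i j : ℕ) : 0 < phi w i j := by
  unfold phi
  positivity

theorem rpow_le_one_add {x γ : ℝ} (hx : 0 ≤ x) (hγ : 0 ≤ γ) (hγ1 : γ ≤ 1) : x ^ γ ≤ 1 + x := by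
  by_cases h1 : x ≤ 1
  · have := Real.rpow_le_one hx h1 hγ
    linarith
  · push Not at h1
    have : x ^ γ ≤ x ^ (1 : ℝ) := Real.rpow_le_rpow_of_exponent_le h1.le hγ1
    rw [Real.rpow_one] at this
    linarith

theorem meas_phi (D : Cop764.Data) (h : ℝ) (a b : ℕ) :
    Measurable (fun ω : ℕ → ℝ => phi (D.w h ω) a b) := by
  unfold phi
  have := (Cop764.M_meas.J_meas D h a b).2.2
  fun_prop

theorem phi_integrable (D : Cop764.Data) (h : ℝ) (n : ℕ) :
    Integrable (fun ω : ℕ → ℝ => phi (D.w h ω) 0 n) D.P := by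
  have h1 := (exp_sum D h (Ioc 0 n) (fun _ => 1)).1
  have h2 : Integrable (fun ω : ℕ → ℝ => Real.exp (S (D.w h ω) 0 n)) D.P := by
    refine h1.congr (Filter.Eventually.of_forall fun ω => ?_)
    show Real.exp (∑ n ∈ Ioc 0 n, 1 * D.w h ω n) = Real.exp (S (D.w h ω) 0 n)
    unfold S
    simp only [one_mul]
  unfold phi
  exact ((integrable_const 1).add h2).div_const 2

theorem phi_rpow_integrable (D : Cop764.Data) (h : ℝ) (hγ : 0 ≤ γ) (hγ1 : γ ≤ 1) (n : ℕ) :
    Integrable (fun ω : ℕ → ℝ => (phi (D.w h ω) 0 n) ^ γ) D.P := by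
  refine ((integrable_const 1).add (phi_integrable D h n)).mono'
    ((meas_phi D h 0 n).pow_const γ).aestronglyMeasurable
    (Filter.Eventually.of_forall fun ω => ?_)
  rw [Real.norm_of_nonneg (Real.rpow_nonneg (phi_pos _ _ _).le _)]
  exact rpow_le_one_add (phi_pos _ _ _).le hγ hγ1

theorem G_integrable (D : Cop764.Data) {h : ℝ} (hh : 0 ≤ h) (n : ℕ) :
    Integrable (fun ω : ℕ → ℝ => G D.K (D.w h ω) 0 n) D.P := by
  rcases Nat.eq_zero_or_pos n with h0 | h0
  · subst h0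
    have : (fun ω : ℕ → ℝ => G D.K (D.w h ω) 0 0) = fun _ => 1 := by
      funext ω
      rw [G_eq, if_pos rfl]
    rw [this]
    exact integrable_const 1
  · obtain ⟨C1, hC1, hEF⟩ := Cop764.M_EF.J_EF D
    have h1 := (hEF h hh 0 n h0).1
    rw [Nat.zero_add] at h1
    refine h1.mono' (Cop764.M_meas.J_meas D h 0 n).1.aestronglyMeasurable
      (Filter.Eventually.of_forall fun ω => ?_)
    have hK : ∀ n, 0 ≤ D.K n := fun n => ENNReal.toReal_nonneg
    rw [Real.norm_of_nonneg ((Cop764.M_G.J_G D.K (D.w h ω) hK).2.1 0 n)]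
    exact (Cop764.M_Z.J_Z D h ω n).1.trans (Cop764.M_Z.J_Z D h ω n).2

theorem K_nonneg (D : Cop764.Data) (n : ℕ) : 0 ≤ D.K n := ENNReal.toReal_nonneg

theorem G_nn (D : Cop764.Data) (h : ℝ) (ω : ℕ → ℝ) (a b : ℕ) : 0 ≤ G D.K (D.w h ω) a b :=
  (Cop764.M_G.J_G D.K (D.w h ω) (K_nonneg D)).2.1 a b

theorem G_rpow_integrable (D : Cop764.Data) {h : ℝ} (hh : 0 ≤ h) (hγ : 0 ≤ γ) (hγ1 : γ ≤ 1)
    (n : ℕ) : Integrable (fun ω : ℕ → ℝ => (G D.K (D.w h ω) 0 n) ^ γ) D.P := by
  refine ((integrable_const 1).add (G_integrable D hh n)).mono'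
    ((Cop764.M_meas.J_meas D h 0 n).1.pow_const γ).aestronglyMeasurable
    (Filter.Eventually.of_forall fun ω => ?_)
  rw [Real.norm_of_nonneg (Real.rpow_nonneg (G_nn D h ω 0 n) _)]
  exact rpow_le_one_add (G_nn D h ω 0 n) hγ hγ1

theorem K_sum_le (D : Cop764.Data) (n : ℕ) : ∑ k ∈ Ioc 0 n, D.K k ≤ 1 := by
  have h1 : ∑ k ∈ Ioc 0 n, D.K k ≤ ∑ k ∈ range (n + 1), D.K k := by
    refine Finset.sum_le_sum_of_subset_of_nonneg ?_ fun i _ _ => K_nonneg D i
    intro a ha
    rw [Finset.mem_Ioc] at ha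
    rw [Finset.mem_range]
    omega
  exact h1.trans (sum_le_hasSum (range (n + 1)) (fun i _ => K_nonneg D i) (PMF_hasSum D.κ))

theorem WW_rec (D : Cop764.Data) {h : ℝ} (hh : 0 ≤ h) (hγ : 0 < γ) (hγ1 : γ ≤ 1) (n : ℕ)
    (hn : 1 ≤ n) : ∑ k ∈ Ioc 0 n, D.K k * AA D h γ k * WW D h γ (n - k) ≤ WW D h γ n := by
  -- shifted moments
  have hsh : ∀ k ∈ Ioc 0 n,
      Integrable (fun ω : ℕ → ℝ => (G D.K (D.w h ω) k n) ^ γ) D.P ∧
      ∫ ω : ℕ → ℝ, (G D.K (D.w h ω) k n) ^ γ ∂D.P = WW D h γ (n - k) := by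
    intro k hk
    rw [Finset.mem_Ioc] at hk
    have hmp : MeasurePreserving (fun (ω : ℕ → ℝ) (m : ℕ) => ω (m + k)) D.P D.P :=
      Cop764.M_stat.J_stat D.ν k
    have e : ∀ ω : ℕ → ℝ, G D.K (D.w h (fun m => ω (m + k))) 0 (n - k) =
        G D.K (D.w h ω) k n := by
      intro ω
      have := Cop764.M_loc.J_loc.1 D.K (D.w h ω) k 0 (n - k)
      rw [Nat.zero_add, Nat.sub_add_cancel hk.2] at this
      rw [← this]
      rfl
    have h1 := G_rpow_integrable (γ := γ) D hh hγ.le hγ1 (n - k)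
    constructor
    · have h2 := hmp.integrable_comp_of_integrable h1
      refine h2.congr (Filter.Eventually.of_forall fun ω => ?_)
      show (G D.K (D.w h (fun m => ω (m + k))) 0 (n - k)) ^ γ = _
      rw [e ω]
    · have h3 : ∫ ω : ℕ → ℝ, (G D.K (D.w h ω) 0 (n - k)) ^ γ ∂(Measure.map
          (fun (ω : ℕ → ℝ) (m : ℕ) => ω (m + k)) D.P) =
          ∫ ω : ℕ → ℝ, (G D.K (D.w h (fun m => ω (m + k))) 0 (n - k)) ^ γ ∂D.P :=
        integral_map hmp.measurable.aemeasurable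
          (by rw [hmp.map_eq]; exact h1.aestronglyMeasurable)
      rw [hmp.map_eq] at h3
      unfold WW
      rw [h3]
      exact integral_congr_ae (Filter.Eventually.of_forall fun ω => by
        show _ = (G D.K (D.w h (fun m => ω (m + k))) 0 (n - k)) ^ γ
        rw [e ω])
  have hind : ∀ k ∈ Ioc 0 n, IndepFun (fun ω : ℕ → ℝ => (phi (D.w h ω) 0 k) ^ γ)
      (fun ω : ℕ → ℝ => (G D.K (D.w h ω) k n) ^ γ) D.P := by
    intro k hk
    rw [Finset.mem_Ioc] at hk
    refine Cop764.M_indep.J_indep D.ν (Ioc 0 k) (Ioc k n) ?_ _ _ ((meas_phi D h 0 k).pow_const γ)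
      ((Cop764.M_meas.J_meas D h k n).1.pow_const γ) ?_ ?_
    · rw [Finset.disjoint_left]
      intro a ha hb
      rw [Finset.mem_Ioc] at ha hb
      omega
    · intro ω ω' hωω
      have : S (D.w h ω) 0 k = S (D.w h ω') 0 k :=
        (Cop764.M_loc.J_loc.2.2.2 D.K _ _ 0 k fun m hm => by
          unfold Cop764.Data.w
          rw [hωω m hm]).2.2
      unfold phi
      rw [this]
    · intro ω ω' hωω
      have : G D.K (D.w h ω) k n = G D.K (D.w h ω') k n :=
        (Cop764.M_loc.J_loc.2.2.2 D.K _ _ k n fun m hm => by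
          unfold Cop764.Data.w
          rw [hωω m hm]).1
      simp only [this]
  have hterm : ∀ k ∈ Ioc 0 n, Integrable (fun ω : ℕ → ℝ => D.K k *
      ((phi (D.w h ω) 0 k) ^ γ * (G D.K (D.w h ω) k n) ^ γ)) D.P := fun k hk =>
    ((hind k hk).integrable_mul (phi_rpow_integrable D h hγ.le hγ1 k) (hsh k hk).1).const_mul _
  have e1 : ∑ k ∈ Ioc 0 n, D.K k * AA D h γ k * WW D h γ (n - k) =
      ∫ ω : ℕ → ℝ, ∑ k ∈ Ioc 0 n, D.K k *
        ((phi (D.w h ω) 0 k) ^ γ * (G D.K (D.w h ω) k n) ^ γ) ∂D.P := by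
    rw [integral_finsetSum _ hterm]
    refine Finset.sum_congr rfl fun k hk => ?_
    rw [integral_const_mul, (hind k hk).integral_fun_mul_eq_mul_integral
      (phi_rpow_integrable D h hγ.le hγ1 k).aestronglyMeasurable (hsh k hk).1.aestronglyMeasurable,
      (hsh k hk).2, mul_assoc]
    rfl
  rw [e1]
  unfold WW
  refine integral_mono (integrable_finsetSum _ hterm)
    (G_rpow_integrable D hh hγ.le hγ1 n) fun ω => ?_
  show ∑ k ∈ Ioc 0 n, D.K k * ((phi (D.w h ω) 0 k) ^ γ * (G D.K (D.w h ω) k n) ^ γ) ≤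
    (G D.K (D.w h ω) 0 n) ^ γ
  rw [G_eq D.K (D.w h ω) 0 n, if_neg (by omega)]
  have h2 := sum_rpow_le_rpow (Ioc 0 n) (fun k => D.K k)
    (fun k => phi (D.w h ω) 0 k * G D.K (D.w h ω) k n) hγ hγ1 (fun k _ => K_nonneg D k)
    (fun k _ => mul_nonneg (phi_pos _ _ _).le (G_nn D h ω k n)) (K_sum_le D n)
  refine le_trans (le_of_eq ?_) (h2.trans (le_of_eq ?_))
  · refine Finset.sum_congr rfl fun k _ => ?_
    rw [Real.mul_rpow (phi_pos _ _ _).le (G_nn D h ω k n)]
  · congr 1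
    refine Finset.sum_congr rfl fun k _ => ?_
    simp only [Nat.sub_zero]
    ring

theorem WW_zero (D : Cop764.Data) (h γ : ℝ) : WW D h γ 0 = 1 := by
  unfold WW
  have : ∀ ω : ℕ → ℝ, (G D.K (D.w h ω) 0 0) ^ γ = 1 := by
    intro ω
    rw [G_eq, if_pos rfl, Real.one_rpow]
  simp only [this]
  simp

theorem WW_nonneg (D : Cop764.Data) (h γ : ℝ) (n : ℕ) : 0 ≤ WW D h γ n :=
  integral_nonneg fun ω => Real.rpow_nonneg (G_nn D h ω 0 n) _

theorem AA_nonneg (D : Cop764.Data) (h γ : ℝ) (n : ℕ) : 0 ≤ AA D h γ n :=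
  integral_nonneg fun _ => Real.rpow_nonneg (phi_pos _ _ _).le _

/-- sums of the fractional moments grow geometrically -/
theorem WW_growth (D : Cop764.Data) {h : ℝ} (hh : 0 ≤ h) (hγ : 0 < γ) (hγ1 : γ ≤ 1) {N : ℕ}
    {r : ℝ} (hr : r ≤ ∑ k ∈ Ioc 0 N, D.K k * AA D h γ k) (hr0 : 0 ≤ r) (k : ℕ) :
    r ^ k ≤ ∑ n ∈ range (k * N + 1), WW D h γ n := by
  induction k with
  | zero =>
    rw [pow_zero, Nat.zero_mul, Finset.sum_range_one, WW_zero]
  | succ k ih =>
    have h1 : ∑ j ∈ Ioc 0 N, ∑ p ∈ range (k * N + 1), D.K j * AA D h γ j * WW D h γ p ≤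
        ∑ n ∈ range ((k + 1) * N + 1), WW D h γ n := by
      have hm : ∀ n ∈ range ((k + 1) * N + 1), ∑ j ∈ (Ioc 0 N).filter (fun j => j ≤ n ∧
          n - j < k * N + 1), D.K j * AA D h γ j * WW D h γ (n - j) ≤ WW D h γ n := by
        intro n _
        rcases Nat.eq_zero_or_pos n with h0 | h0
        · subst h0
          rw [Finset.filter_false_of_mem]
          · rw [Finset.sum_empty]
            exact WW_nonneg D h γ 0
          · intro j hj
            rw [Finset.mem_Ioc] at hj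
            omega
        · refine le_trans ?_ (WW_rec D hh hγ hγ1 n h0)
          refine Finset.sum_le_sum_of_subset_of_nonneg ?_ fun j _ _ =>
            mul_nonneg (mul_nonneg (K_nonneg D j) (AA_nonneg D h γ j)) (WW_nonneg D h γ _)
          intro j hj
          rw [Finset.mem_filter, Finset.mem_Ioc] at hj
          rw [Finset.mem_Ioc]
          omega
      refine le_trans ?_ (Finset.sum_le_sum hm)
      have hswap : ∑ n ∈ range ((k + 1) * N + 1), ∑ j ∈ (Ioc 0 N).filter (fun j => j ≤ n ∧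
          n - j < k * N + 1), D.K j * AA D h γ j * WW D h γ (n - j) =
          ∑ j ∈ Ioc 0 N, ∑ n ∈ (range ((k + 1) * N + 1)).filter (fun n => j ≤ n ∧
          n - j < k * N + 1), D.K j * AA D h γ j * WW D h γ (n - j) := by
        apply Finset.sum_comm'
        intro n j
        simp only [Finset.mem_filter, Finset.mem_range, Finset.mem_Ioc]
        tauto
      rw [hswap]
      refine Finset.sum_le_sum fun j hj => ?_
      rw [Finset.mem_Ioc] at hj
      refine le_of_eq ?_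
      refine Finset.sum_bij' (fun p _ => p + j) (fun n _ => n - j) ?_ ?_ ?_ ?_ ?_
      · intro p hp
        rw [Finset.mem_range] at hp
        rw [Finset.mem_filter, Finset.mem_range]
        have : (k + 1) * N = k * N + N := by ring
        omega
      · intro n hn
        rw [Finset.mem_filter, Finset.mem_range] at hn
        rw [Finset.mem_range]
        omega
      · intro p _
        omega
      · intro n hn
        rw [Finset.mem_filter, Finset.mem_range] at hn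
        omega
      · intro p _
        rw [Nat.add_sub_cancel]
    refine le_trans ?_ h1
    have e : ∑ j ∈ Ioc 0 N, ∑ p ∈ range (k * N + 1), D.K j * AA D h γ j * WW D h γ p =
        (∑ j ∈ Ioc 0 N, D.K j * AA D h γ j) * ∑ p ∈ range (k * N + 1), WW D h γ p := by
      rw [Finset.sum_mul]
      exact Finset.sum_congr rfl fun j _ => by rw [Finset.mul_sum]
    rw [e, pow_succ, mul_comm]
    refine mul_le_mul hr ih (pow_nonneg hr0 _) (le_trans hr0 hr)

theorem cube_contra' {C r : ℝ} (hC : 0 < C) (hr : 1 < r)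
    (h : ∀ k : ℕ, r ^ k ≤ C * ((k : ℝ) + 1) ^ 3) : False := by
  have h1 := tendsto_pow_const_div_const_pow_of_one_lt 3 (r := r) hr
  have h2 := (h1.comp (Filter.tendsto_add_atTop_nat 1)).eventually
    (gt_mem_nhds (show (0 : ℝ) < 1 / (r * C) by positivity))
  obtain ⟨k, hk⟩ := h2.exists
  simp only [Function.comp] at hk
  have hr0 : 0 < r := by linarith
  rw [div_lt_div_iff₀ (by positivity) (by positivity)] at hk
  have h3 := h k
  push_cast at hk
  have e : r ^ (k + 1) = r * r ^ k := by ring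
  rw [e] at hk
  have h4 : r * r ^ k ≤ r * (C * ((k : ℝ) + 1) ^ 3) := mul_le_mul_of_nonneg_left h3 hr0.le
  linarith

/-- **Averaged criterion**: if the expected fractional moments of the excursions add up to more
than `1`, the free energy is positive -/
theorem pos_of_sum (D : Cop764.Data) {h : ℝ} (hh : 0 ≤ h) (hγ : γ * (1 + D.α) = 1) {N : ℕ}
    (hN : 1 < ∑ k ∈ Ioc 0 N, D.K k * AA D h γ k) : 0 < D.f h := by
  by_contra hcon
  have hf : D.f h = 0 := le_antisymm (not_lt.1 hcon) (Cop764.M_fnn.J_fnn D h hh)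
  obtain ⟨c0, n0, hKH⟩ := Cop764.M_K.J_K D
  obtain ⟨C2, hC2, hbd⟩ := moment_bound D c0 n0 hKH hγ
  have hα := D.hα
  have hγ0 : 0 < γ := by
    by_contra hcon
    push Not at hcon
    nlinarith
  have hγ1 : γ ≤ 1 := by
    by_contra hcon
    push Not at hcon
    nlinarith
  set r := ∑ k ∈ Ioc 0 N, D.K k * AA D h γ k with hr
  set B0 : ℝ := ∑ n ∈ range n0, WW D h γ n with hB0
  have hB0n : 0 ≤ B0 := Finset.sum_nonneg fun n _ => WW_nonneg D h γ n
  have hW : ∀ n, WW D h γ n ≤ B0 + C2 * (n : ℝ) ^ 2 := by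
    intro n
    by_cases hn : n0 ≤ n
    · have := (hbd h hh hf n hn).2
      unfold WW
      linarith
    · push Not at hn
      have h1 := Finset.single_le_sum (f := fun n => WW D h γ n) (fun n _ => WW_nonneg D h γ n)
        (Finset.mem_range.2 hn)
      have h2 : 0 ≤ C2 * (n : ℝ) ^ 2 := by positivity
      show WW D h γ n ≤ B0 + C2 * (n : ℝ) ^ 2
      have h3 : WW D h γ n ≤ B0 := h1
      linarith
  refine cube_contra' (C := (B0 + C2) * ((N : ℝ) + 1) ^ 3) (r := r) (by positivity) hN fun k => ?_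
  refine (WW_growth D hh hγ0 hγ1 le_rfl (by linarith) k).trans ?_
  have h1 : ∑ n ∈ range (k * N + 1), WW D h γ n ≤
      ∑ n ∈ range (k * N + 1), (B0 + C2) * ((k : ℝ) * N + 1) ^ 2 := by
    refine Finset.sum_le_sum fun n hn => (hW n).trans ?_
    rw [Finset.mem_range] at hn
    have h2 : (n : ℝ) ≤ (k : ℝ) * N := by
      have : n ≤ k * N := by omega
      exact_mod_cast this
    have h3 : (n : ℝ) ^ 2 ≤ ((k : ℝ) * N + 1) ^ 2 := by
      have : (0 : ℝ) ≤ n := Nat.cast_nonneg n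
      exact pow_le_pow_left₀ this (by linarith) 2
    have h4 : (1 : ℝ) ≤ ((k : ℝ) * N + 1) ^ 2 := by
      have : (0 : ℝ) ≤ (k : ℝ) * N := by positivity
      nlinarith
    nlinarith
  refine h1.trans ?_
  rw [Finset.sum_const, Finset.card_range, nsmul_eq_mul]
  push_cast
  have h5 : (k : ℝ) * N + 1 ≤ ((N : ℝ) + 1) * ((k : ℝ) + 1) := by
    have : (0 : ℝ) ≤ k := Nat.cast_nonneg k
    have : (0 : ℝ) ≤ N := Nat.cast_nonneg N
    nlinarith
  have h6 : 0 ≤ (k : ℝ) * N + 1 := by positivity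
  calc ((k : ℝ) * N + 1) * ((B0 + C2) * ((k : ℝ) * N + 1) ^ 2) =
      (B0 + C2) * ((k : ℝ) * N + 1) ^ 3 := by ring
    _ ≤ (B0 + C2) * (((N : ℝ) + 1) * ((k : ℝ) + 1)) ^ 3 := by gcongr
    _ = _ := by ring

end Pool.Agent.U260.CS
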