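import Pool.Agent.U260.CT1

set_option autoImplicit false
set_option maxHeartbeats 4000000

open Finset MeasureTheory ProbabilityTheory Filter Topology

namespace Pool.Agent.U260.CS

open Cop764 (G S phi G_eq)

theorem sq_one_sub_exp {t : ℝ} (h1 : |t| ≤ 1) : t ^ 2 / 4 ≤ (1 - Real.exp t) ^ 2 := by
  have h0 := Real.add_one_le_exp t
  rcases le_or_gt 0 t with ht | ht
  · have : t ≤ Real.exp t - 1 := by linarith
    nlinarith
  · have h2 : Real.exp t ≤ 1 + t / 2 := by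
      have h3 := Real.add_one_le_exp (-t)
      have h4 : Real.exp t * Real.exp (-t) = 1 := by
        rw [← Real.exp_add]
        simp
      have h5 : 0 < Real.exp t := Real.exp_pos t
      have h6 : -1 ≤ t := (abs_le.1 h1).1
      have h7 : Real.exp t * (1 - t) ≤ 1 := by
        rw [← h4]
        refine mul_le_mul_of_nonneg_left ?_ h5.le
        linarith
      have h8 : 1 ≤ (1 + t / 2) * (1 - t) := by nlinarith
      have h9 : 0 < 1 - t := by linarith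
      exact le_of_mul_le_mul_right (h7.trans h8) h9
    nlinarith

/-- pointwise lower bound of the fractional power of the weight of an excursion -/
theorem phi_rpow_ge {γ : ℝ} (hγ : 0 < γ) (hγ1 : γ ≤ 1 / 2) (s : ℝ) :
    (1 + Real.exp (γ * s)) / 2 + γ ^ 2 / 64 * (s ^ 2 - s ^ 4) ≤ ((1 + Real.exp s) / 2) ^ γ := by
  set φ := (1 + Real.exp s) / 2 with hφ
  have hφ0 : 0 < φ := by positivity
  set x := Real.exp (γ * s) with hx
  have hx0 : 0 < x := Real.exp_pos _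
  -- power mean
  have h1 : (1 + x ^ 2) / 2 ≤ (φ ^ γ) ^ 2 := by
    have h2 := sum_rpow_le_rpow (univ : Finset Bool) (fun _ => (1 : ℝ) / 2)
      (fun b => if b then 1 else Real.exp s) (γ := 2 * γ) (by linarith) (by linarith)
      (fun _ _ => by norm_num) (fun b _ => by cases b <;> simp [Real.exp_nonneg])
      (by simp)
    simp only [Fintype.sum_bool, if_true, Real.one_rpow] at h2
    simp only [Bool.false_eq_true, if_false] at h2
    have e1 : Real.exp s ^ (2 * γ) = x ^ 2 := by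
      rw [← Real.exp_mul, hx, ← Real.exp_nat_mul]
      congr 1
      push_cast
      ring
    have e2 : (1 / 2 * 1 + 1 / 2 * Real.exp s : ℝ) ^ (2 * γ) = (φ ^ γ) ^ 2 := by
      rw [← Real.rpow_natCast, ← Real.rpow_mul hφ0.le, hφ]
      push_cast
      congr 1 <;> ring
    rw [e1, e2] at h2
    linarith
  have hy0 : 0 ≤ φ ^ γ := Real.rpow_nonneg hφ0.le _
  have hs2 : 0 ≤ s ^ 2 := sq_nonneg s
  have hs4 : s ^ 4 = (s ^ 2) ^ 2 := by ring
  rcases le_or_gt |s| 1 with hs | hs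
  · have hsq : s ^ 2 ≤ 1 := by
      rw [← sq_abs]
      nlinarith [abs_nonneg s]
    have ht : |γ * s| ≤ 1 / 2 := by
      rw [abs_mul, abs_of_pos hγ]
      nlinarith [abs_nonneg s]
    have h3 := sq_one_sub_exp (t := γ * s) (by linarith)
    rw [← hx] at h3
    have hx2 : x ≤ 2 := by
      have h4 : x ≤ Real.exp (1 / 2) := Real.exp_le_exp.2 ((abs_le.1 ht).2)
      have h5 : Real.exp (1 / 2) ≤ 2 := by
        have h6 := Real.exp_one_lt_d9
        have h7 : Real.exp (1 / 2) * Real.exp (1 / 2) = Real.exp 1 := by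
          rw [← Real.exp_add]
          norm_num
        have h8 : 0 < Real.exp (1 / 2) := Real.exp_pos _
        nlinarith
      linarith
    have hc : γ ^ 2 / 64 * (s ^ 2 - s ^ 4) ≤ γ ^ 2 / 64 * s ^ 2 := by
      have : 0 ≤ s ^ 4 := by positivity
      have : 0 ≤ γ ^ 2 / 64 := by positivity
      nlinarith
    set c := γ ^ 2 / 64 * s ^ 2 with hcdef
    have hc0 : 0 ≤ c := by positivity
    have hγ2 : γ ^ 2 ≤ 1 / 4 := by nlinarith
    have hc1 : c ≤ 1 := by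
      have : γ ^ 2 * s ^ 2 ≤ 1 / 4 * 1 := mul_le_mul hγ2 hsq hs2 (by norm_num)
      rw [hcdef]
      linarith
    have h5 : (γ * s) ^ 2 = 64 * c := by rw [hcdef]; ring
    rw [h5] at h3
    have h6 : ((1 + x) / 2 + c) ^ 2 ≤ (φ ^ γ) ^ 2 := by
      refine le_trans ?_ h1
      nlinarith
    have h7 : (1 + x) / 2 + c ≤ φ ^ γ := by
      refine le_of_sq_le_sq h6 hy0
    linarith
  · have hsq : 1 ≤ s ^ 2 := by
      rw [← sq_abs]
      nlinarith [abs_nonneg s]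
    have hneg : γ ^ 2 / 64 * (s ^ 2 - s ^ 4) ≤ 0 := by
      have h2 : s ^ 2 - s ^ 4 ≤ 0 := by rw [hs4]; nlinarith
      have h3 : 0 ≤ γ ^ 2 / 64 := by positivity
      exact mul_nonpos_of_nonneg_of_nonpos h3 h2
    have h6 : ((1 + x) / 2) ^ 2 ≤ (φ ^ γ) ^ 2 := by
      refine le_trans ?_ h1
      nlinarith [sq_nonneg (1 - x)]
    have h7 : (1 + x) / 2 ≤ φ ^ γ := le_of_sq_le_sq h6 hy0
    linarith

theorem S_eq (D : Cop764.Data) (h : ℝ) (ω : ℕ → ℝ) (n : ℕ) :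
    S (D.w h ω) 0 n = -2 * D.lam * (∑ i ∈ Ioc 0 n, ω i + h * n) := by
  unfold Cop764.S Cop764.Data.w
  rw [← Finset.mul_sum, Finset.sum_add_distrib, Finset.sum_const, Nat.card_Ioc, nsmul_eq_mul]
  simp only [Nat.sub_zero]
  ring

/-- second moment minus fourth moment of the weight of an excursion -/
theorem moment_diff (D : Cop764.Data) {h : ℝ} (hh : 0 ≤ h) (hh1 : h ≤ D.lam) {n : ℕ}
    {ε : ℝ} (hε1 : ε ≤ 1) (hε : ε * (128 * (∫ x, x ^ 4 ∂D.ν + 4)) ≤ 1)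
    (hn : (n : ℝ) * D.lam ^ 2 ≤ ε) :
    Integrable (fun ω : ℕ → ℝ => (S (D.w h ω) 0 n) ^ 2 - (S (D.w h ω) 0 n) ^ 4) D.P ∧
    3 * D.lam ^ 2 * n ≤
      ∫ ω : ℕ → ℝ, ((S (D.w h ω) 0 n) ^ 2 - (S (D.w h ω) 0 n) ^ 4) ∂D.P := by
  have hlam := D.hlam
  have hM : 0 ≤ ∫ x, x ^ 4 ∂D.ν := integral_nonneg fun x => by positivity
  have i1 := Cop764.M_absS.J_absS_powT D n 1
  simp only [pow_one] at i1
  have i2 := Cop764.M_absS.J_absS_powT D n 2
  have i3 := Cop764.M_absS.J_absS_powT D n 3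
  have i4 := Cop764.M_absS.J_absS_powT D n 4
  -- second moment
  have e2 : ∀ ω : ℕ → ℝ, (S (D.w h ω) 0 n) ^ 2 = 4 * D.lam ^ 2 * (∑ i ∈ Ioc 0 n, ω i) ^ 2 +
      8 * D.lam ^ 2 * h * n * (∑ i ∈ Ioc 0 n, ω i) + 4 * D.lam ^ 2 * h ^ 2 * (n : ℝ) ^ 2 := by
    intro ω
    rw [S_eq]
    ring
  have j2 : Integrable (fun ω : ℕ → ℝ => (S (D.w h ω) 0 n) ^ 2) D.P := by
    simp only [e2]
    exact ((i2.const_mul _).add (i1.const_mul _)).add (integrable_const _)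
  have j2E : 4 * D.lam ^ 2 * n ≤ ∫ ω : ℕ → ℝ, (S (D.w h ω) 0 n) ^ 2 ∂D.P := by
    simp only [e2]
    have k1 : Integrable (fun ω : ℕ → ℝ => 4 * D.lam ^ 2 * (∑ i ∈ Ioc 0 n, ω i) ^ 2 +
      8 * D.lam ^ 2 * h * n * (∑ i ∈ Ioc 0 n, ω i)) D.P := (i2.const_mul _).add (i1.const_mul _)
    rw [integral_add k1 (integrable_const _), integral_add (i2.const_mul _) (i1.const_mul _),
      integral_const_mul, integral_const_mul, Cop764.M_absS.J_absS_T2, Cop764.M_absS.J_absS_T1,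
      integral_const]
    simp only [probReal_univ, one_smul, mul_zero, add_zero]
    have : 0 ≤ 4 * D.lam ^ 2 * h ^ 2 * (n : ℝ) ^ 2 := by positivity
    linarith
  -- fourth moment
  have b4 : ∀ ω : ℕ → ℝ, (S (D.w h ω) 0 n) ^ 4 ≤ 128 * D.lam ^ 4 * (∑ i ∈ Ioc 0 n, ω i) ^ 4 +
      128 * D.lam ^ 4 * (h * n) ^ 4 := by
    intro ω
    rw [S_eq]
    set T := ∑ i ∈ Ioc 0 n, ω i
    set y := h * (n : ℝ)
    have h1 : (T + y) ^ 4 ≤ 8 * (T ^ 4 + y ^ 4) := by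
      have h2 : (T + y) ^ 2 ≤ 2 * (T ^ 2 + y ^ 2) := by nlinarith [sq_nonneg (T - y)]
      have h3 : (T + y) ^ 4 = ((T + y) ^ 2) ^ 2 := by ring
      have h4 : ((T + y) ^ 2) ^ 2 ≤ (2 * (T ^ 2 + y ^ 2)) ^ 2 :=
        pow_le_pow_left₀ (sq_nonneg _) h2 2
      rw [h3]
      nlinarith [sq_nonneg (T ^ 2 - y ^ 2)]
    have e : (-2 * D.lam * (T + y)) ^ 4 = 16 * D.lam ^ 4 * (T + y) ^ 4 := by ring
    rw [e]
    have h5 : 0 ≤ 16 * D.lam ^ 4 := by positivity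
    have h6 := mul_le_mul_of_nonneg_left h1 h5
    linarith
  have k4 : Integrable (fun ω : ℕ → ℝ => 128 * D.lam ^ 4 * (∑ i ∈ Ioc 0 n, ω i) ^ 4 +
      128 * D.lam ^ 4 * (h * n) ^ 4) D.P := (i4.const_mul _).add (integrable_const _)
  have j4 : Integrable (fun ω : ℕ → ℝ => (S (D.w h ω) 0 n) ^ 4) D.P := by
    refine k4.mono' ((Cop764.M_meas.J_meas D h 0 n).2.2.pow_const 4).aestronglyMeasurable
      (Filter.Eventually.of_forall fun ω => ?_)
    rw [Real.norm_of_nonneg (by positivity)]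
    exact b4 ω
  have j4E : ∫ ω : ℕ → ℝ, (S (D.w h ω) 0 n) ^ 4 ∂D.P ≤ D.lam ^ 2 * n := by
    refine (integral_mono j4 k4 b4).trans ?_
    rw [integral_add (i4.const_mul _) (integrable_const _), integral_const_mul, integral_const]
    simp only [probReal_univ, one_smul]
    have h1 := Cop764.M_absS.J_absS_T4 D n
    have h2 : 0 ≤ 128 * D.lam ^ 4 := by positivity
    have h3 := mul_le_mul_of_nonneg_left h1 h2
    set y := (n : ℝ) * D.lam ^ 2 with hy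
    have hy0 : 0 ≤ y := by positivity
    have h4 : 128 * D.lam ^ 4 * ((∫ x, x ^ 4 ∂D.ν + 3) * (n : ℝ) ^ 2) =
        128 * (∫ x, x ^ 4 ∂D.ν + 3) * (y * y) := by
      rw [hy]
      ring
    have h5 : 128 * D.lam ^ 4 * (h * n) ^ 4 ≤ 128 * (y * y * (y * y)) := by
      have h6 : (h * n) ^ 4 ≤ (D.lam * n) ^ 4 := by gcongr
      calc 128 * D.lam ^ 4 * (h * n) ^ 4 ≤ 128 * D.lam ^ 4 * (D.lam * n) ^ 4 := by gcongr
        _ = _ := by rw [hy]; ring
    have hyy : y * y ≤ ε * y := mul_le_mul_of_nonneg_right hn hy0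
    have hε0 : 0 ≤ ε := hy0.trans hn
    have hy1 : y * y ≤ 1 := by nlinarith
    have h7 : y * y * (y * y) ≤ y * y := by nlinarith [mul_nonneg hy0 hy0]
    have h8 : 128 * (∫ x, x ^ 4 ∂D.ν + 3) * (y * y) + 128 * (y * y * (y * y)) ≤
        128 * (∫ x, x ^ 4 ∂D.ν + 4) * (y * y) := by nlinarith
    have h9 : 128 * (∫ x, x ^ 4 ∂D.ν + 4) * (y * y) ≤ y := by
      calc 128 * (∫ x, x ^ 4 ∂D.ν + 4) * (y * y) ≤ 128 * (∫ x, x ^ 4 ∂D.ν + 4) * (ε * y) := by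
            gcongr
        _ = (ε * (128 * (∫ x, x ^ 4 ∂D.ν + 4))) * y := by ring
        _ ≤ 1 * y := by gcongr
        _ = y := one_mul y
    have h10 : D.lam ^ 2 * n = y := by rw [hy]; ring
    rw [h10]
    linarith
  refine ⟨j2.sub j4, ?_⟩
  rw [integral_sub j2 j4]
  linarith

/-- lower bound of the expected fractional moment of a short excursion -/
theorem AA_lower (D : Cop764.Data) {γ : ℝ} (hγ : 0 < γ) (hγ1 : γ ≤ 1 / 2) {s0 : ℝ}
    (hs0 : ∀ s : ℝ, |s| ≤ s0 →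
      Real.exp ((1 - 1 / 64) * (s ^ 2 / 2)) ≤ ∫ x, Real.exp (s * x) ∂D.ν ∧
      ∫ x, Real.exp (s * x) ∂D.ν ≤ Real.exp ((1 + 1 / 64) * (s ^ 2 / 2)))
    (hlam2 : 2 * D.lam ≤ s0) {n : ℕ}
    {ε : ℝ} (hε1 : ε ≤ 1) (hε : ε * (128 * (∫ x, x ^ 4 ∂D.ν + 4)) ≤ 1)
    (hn : (n : ℝ) * D.lam ^ 2 ≤ ε) :
    1 + γ ^ 2 / 64 * D.lam ^ 2 * n ≤ AA D (γ * (1 + 1 / 64) * D.lam) γ n := by
  have hlam := D.hlam
  set h := γ * (1 + 1 / 64) * D.lam with hh
  have hh0 : 0 ≤ h := by positivity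
  have hh1 : h ≤ D.lam := by
    have : γ * (1 + 1 / 64) ≤ 1 := by nlinarith
    calc h = γ * (1 + 1 / 64) * D.lam := rfl
      _ ≤ 1 * D.lam := mul_le_mul_of_nonneg_right this hlam.le
      _ = _ := one_mul _
  obtain ⟨m1, m2⟩ := moment_diff D hh0 hh1 hε1 hε hn
  have hb1 := (psi_bounds D hs0 (m := γ * (1 + 1 / 64)) (θ := γ) hγ.le (by nlinarith)).1
  have hpsi : 1 - 4 * (1 / 64) * γ ^ 2 * D.lam ^ 2 * n ≤ psi D h γ ^ n := by
    have h1 : Real.exp (-(4 * (1 / 64) * γ ^ 2 * D.lam ^ 2)) ≤ psi D h γ := by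
      refine le_trans (le_of_eq ?_) hb1
      congr 1
      ring
    have h2 : Real.exp (-(4 * (1 / 64) * γ ^ 2 * D.lam ^ 2)) ^ n ≤ psi D h γ ^ n :=
      pow_le_pow_left₀ (Real.exp_pos _).le h1 n
    refine le_trans ?_ h2
    rw [← Real.exp_nat_mul]
    have h3 := Real.add_one_le_exp ((n : ℝ) * -(4 * (1 / 64) * γ ^ 2 * D.lam ^ 2))
    linarith
  obtain ⟨x1, x2⟩ := exp_sum D h (Ioc 0 n) (fun _ => γ)
  have e1 : ∀ ω : ℕ → ℝ, Real.exp (∑ i ∈ Ioc 0 n, γ * D.w h ω i) =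
      Real.exp (γ * S (D.w h ω) 0 n) := by
    intro ω
    unfold Cop764.S
    rw [Finset.mul_sum]
  simp only [e1] at x1 x2
  rw [Finset.prod_const, Nat.card_Ioc, Nat.sub_zero] at x2
  unfold AA
  have hint : Integrable (fun ω : ℕ → ℝ => (1 + Real.exp (γ * S (D.w h ω) 0 n)) / 2 +
      γ ^ 2 / 64 * ((S (D.w h ω) 0 n) ^ 2 - (S (D.w h ω) 0 n) ^ 4)) D.P :=
    (((integrable_const 1).add x1).div_const 2).add (m1.const_mul _)
  have hmono := integral_mono hint (phi_rpow_integrable (γ := γ) D h hγ.le (by linarith) n)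
    (fun ω => by
      show _ ≤ (phi (D.w h ω) 0 n) ^ γ
      unfold Cop764.phi
      exact phi_rpow_ge hγ hγ1 _)
  refine le_trans ?_ hmono
  have y1 : Integrable (fun ω : ℕ → ℝ => (1 + Real.exp (γ * S (D.w h ω) 0 n)) / 2) D.P :=
    ((integrable_const 1).add x1).div_const 2
  rw [integral_add y1 (m1.const_mul _), integral_div, integral_add (integrable_const 1) x1,
    integral_const_mul, x2, integral_const]
  simp only [probReal_univ, one_smul]
  have h4 : γ ^ 2 / 64 * (3 * D.lam ^ 2 * n) ≤ γ ^ 2 / 64 *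
      ∫ ω : ℕ → ℝ, ((S (D.w h ω) 0 n) ^ 2 - (S (D.w h ω) 0 n) ^ 4) ∂D.P :=
    mul_le_mul_of_nonneg_left m2 (by positivity)
  linarith

end Pool.Agent.U260.CS
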