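import Pool.Agent.U260.CT2

set_option autoImplicit false
set_option maxHeartbeats 4000000

open Finset MeasureTheory ProbabilityTheory Filter Topology

namespace Pool.Agent.U260.CS

/-- tail of a gap law with exponent `α ≥ 1` -/
theorem tail_le (κ : PMF ℕ) (h0 : κ 0 = 0) {α cK : ℝ} (hα : 1 ≤ α) (hcK : 0 < cK)
    (htail : Tendsto (fun n : ℕ => (n : ℝ) ^ (1 + α) * (κ n).toReal) atTop (𝓝 cK)) :
    ∃ k0 : ℕ, 1 ≤ k0 ∧ ∀ n, k0 ≤ n → (n : ℝ) * TT (fun n => (κ n).toReal) n ≤ 2 * cK := by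
  have hev2 : ∀ᶠ n : ℕ in atTop, (n : ℝ) ^ (1 + α) * (κ n).toReal < 2 * cK :=
    htail.eventually (gt_mem_nhds (by linarith))
  obtain ⟨k1, hk1⟩ := eventually_atTop.mp hev2
  refine ⟨max 1 k1, le_max_left _ _, fun n hn => ?_⟩
  have hn1 : 1 ≤ n := (le_max_left _ _).trans hn
  have hnk : k1 ≤ n := (le_max_right _ _).trans hn
  have hnr : (1 : ℝ) ≤ n := by exact_mod_cast hn1
  rw [TT_eq κ h0]
  have hK : ∀ m, n ≤ m → (κ m).toReal ≤ 2 * cK / (m : ℝ) ^ 2 := by
    intro m hm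
    have h1 := hk1 m (by omega)
    have hmr : (1 : ℝ) ≤ m := hnr.trans (by exact_mod_cast hm)
    have h2 : (m : ℝ) ^ 2 ≤ (m : ℝ) ^ (1 + α) := by
      rw [← Real.rpow_natCast]
      exact Real.rpow_le_rpow_of_exponent_le hmr (by push_cast; linarith)
    rw [le_div_iff₀ (by positivity)]
    have h3 : 0 ≤ (κ m).toReal := ENNReal.toReal_nonneg
    nlinarith
  have key : ∀ M : ℕ, ∑ k ∈ range (n + 1 + M), (κ k).toReal ≤
      ∑ k ∈ range (n + 1), (κ k).toReal + 2 * cK * (1 / (n : ℝ) - 1 / ((n : ℝ) + M)) := by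
    intro M
    induction M with
    | zero => simp
    | succ M ih =>
      rw [← add_assoc, Finset.sum_range_succ]
      have h1 := hK (n + 1 + M) (by omega)
      have hM : (0 : ℝ) ≤ M := Nat.cast_nonneg M
      have h2 : 1 / ((n : ℝ) + M + 1) ^ 2 ≤ 1 / ((n : ℝ) + M) - 1 / ((n : ℝ) + M + 1) := by
        rw [div_sub_div _ _ (by positivity) (by positivity), div_le_div_iff₀ (by positivity)
          (by positivity)]
        nlinarith
      push_cast at h1 ⊢
      have e1 : (n : ℝ) + 1 + M = (n : ℝ) + M + 1 := by ring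
      have e2 : (n : ℝ) + (M + 1) = (n : ℝ) + M + 1 := by ring
      rw [e1] at h1
      rw [e2]
      have h3 : 2 * cK / ((n : ℝ) + M + 1) ^ 2 = 2 * cK * (1 / ((n : ℝ) + M + 1) ^ 2) := by ring
      rw [h3] at h1
      have h4 := mul_le_mul_of_nonneg_left h2 (show 0 ≤ 2 * cK by linarith)
      linarith
  have key2 : ∀ M : ℕ, ∑ k ∈ range (n + 1 + M), (κ k).toReal ≤
      ∑ k ∈ range (n + 1), (κ k).toReal + 2 * cK * (1 / (n : ℝ)) := by
    intro M
    refine (key M).trans ?_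
    have h1 : 0 ≤ 1 / ((n : ℝ) + M) := by positivity
    nlinarith
  have hT : Tendsto (fun M : ℕ => ∑ k ∈ range (n + 1 + M), (κ k).toReal) atTop (𝓝 1) := by
    have h1 := (PMF_hasSum κ).tendsto_sum_nat
    have h2 : Tendsto (fun M : ℕ => n + 1 + M) atTop atTop :=
      tendsto_atTop_mono (fun M => (by simp : M ≤ n + 1 + M)) tendsto_id
    exact h1.comp h2
  have h5 := le_of_tendsto' hT key2
  have h6 : 1 - ∑ k ∈ range (n + 1), (κ k).toReal ≤ 2 * cK * (1 / (n : ℝ)) := by linarith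
  calc (n : ℝ) * (1 - ∑ k ∈ range (n + 1), (κ k).toReal) ≤ n * (2 * cK * (1 / (n : ℝ))) :=
        mul_le_mul_of_nonneg_left h6 (by linarith)
    _ = 2 * cK := by field_simp

/-- truncated mean -/
noncomputable def mu1 (κ : PMF ℕ) (L : ℕ) : ℝ := ∑ k ∈ range (L + 1), (k : ℝ) * (κ k).toReal

/-- for `α ≥ 1`, `L P(τ > L)` is negligible with respect to the truncated mean -/
theorem tail_vs_mean (κ : PMF ℕ) (h0 : κ 0 = 0) {α cK : ℝ} (hα : 1 ≤ α) (hcK : 0 < cK)
    (htail : Tendsto (fun n : ℕ => (n : ℝ) ^ (1 + α) * (κ n).toReal) atTop (𝓝 cK))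
    {δ : ℝ} (hδ : 0 < δ) :
    ∃ L1 : ℕ, 1 ≤ L1 ∧ ∀ L, L1 ≤ L → (L : ℝ) * TT (fun n => (κ n).toReal) L < δ * mu1 κ L := by
  have hnn : ∀ k : ℕ, 0 ≤ (k : ℝ) * (κ k).toReal := fun k =>
    mul_nonneg (Nat.cast_nonneg k) ENNReal.toReal_nonneg
  have hmono : ∀ a b : ℕ, a ≤ b → mu1 κ a ≤ mu1 κ b := by
    intro a b hab
    unfold mu1
    refine Finset.sum_le_sum_of_subset_of_nonneg ?_ fun i _ _ => hnn i
    intro x hx
    rw [Finset.mem_range] at hx ⊢
    omega
  by_cases hs : Summable (fun k : ℕ => (k : ℝ) * (κ k).toReal)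
  · -- finite mean
    -- a positive lower bound for the truncated mean
    have hpos : ∃ L2, 0 < mu1 κ L2 := by
      have hev1 : ∀ᶠ n : ℕ in atTop, 0 < (n : ℝ) ^ (1 + α) * (κ n).toReal :=
        htail.eventually (lt_mem_nhds hcK)
      obtain ⟨n, hn, hn1⟩ := (hev1.and (eventually_ge_atTop 1)).exists
      have hnr : (1 : ℝ) ≤ n := by exact_mod_cast hn1
      refine ⟨n, ?_⟩
      have h1 : 0 < (κ n).toReal := by
        by_contra hcon
        have : (κ n).toReal = 0 := le_antisymm (not_lt.1 hcon) ENNReal.toReal_nonneg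
        rw [this, mul_zero] at hn
        exact lt_irrefl _ hn
      have h2 : (n : ℝ) * (κ n).toReal ≤ mu1 κ n :=
        Finset.single_le_sum (f := fun k : ℕ => (k : ℝ) * (κ k).toReal) (fun i _ => hnn i)
          (Finset.mem_range.2 (by omega))
      have h3 : 0 < (n : ℝ) * (κ n).toReal := by positivity
      linarith
    obtain ⟨L2, hL2⟩ := hpos
    -- the tail of the mean tends to zero
    set T : ℝ := ∑' k : ℕ, (k : ℝ) * (κ k).toReal with hT
    have hlim : Tendsto (fun L : ℕ => mu1 κ L) atTop (𝓝 T) :=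
      (tendsto_add_atTop_iff_nat 1).2 hs.hasSum.tendsto_sum_nat
    have hlow : ∀ L : ℕ, (L : ℝ) * TT (fun n => (κ n).toReal) L ≤ T - mu1 κ L := by
      intro L
      rw [TT_eq κ h0]
      have hM : ∀ M : ℕ, (L : ℝ) * (∑ k ∈ range (L + 1 + M), (κ k).toReal -
          ∑ k ∈ range (L + 1), (κ k).toReal) ≤ T - mu1 κ L := by
        intro M
        have h1 : ∑ k ∈ range (L + 1 + M), (k : ℝ) * (κ k).toReal ≤ T :=
          sum_le_hasSum _ (fun i _ => hnn i) hs.hasSum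
        have h2 : (L : ℝ) * (∑ k ∈ range (L + 1 + M), (κ k).toReal -
            ∑ k ∈ range (L + 1), (κ k).toReal) ≤
            ∑ k ∈ range (L + 1 + M), (k : ℝ) * (κ k).toReal - mu1 κ L := by
          unfold mu1
          rw [Finset.sum_range_add (fun k => (κ k).toReal) (L + 1) M,
            Finset.sum_range_add (fun k : ℕ => (k : ℝ) * (κ k).toReal) (L + 1) M,
            add_sub_cancel_left, add_sub_cancel_left, Finset.mul_sum]
          refine Finset.sum_le_sum fun x _ => ?_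
          refine mul_le_mul_of_nonneg_right ?_ ENNReal.toReal_nonneg
          push_cast
          have : (0 : ℝ) ≤ x := Nat.cast_nonneg x
          linarith
        linarith
      have h3 : Tendsto (fun M : ℕ => (L : ℝ) * (∑ k ∈ range (L + 1 + M), (κ k).toReal -
          ∑ k ∈ range (L + 1), (κ k).toReal)) atTop
          (𝓝 ((L : ℝ) * (1 - ∑ k ∈ range (L + 1), (κ k).toReal))) := by
        have h1 := (PMF_hasSum κ).tendsto_sum_nat
        have h2 : Tendsto (fun M : ℕ => L + 1 + M) atTop atTop :=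
          tendsto_atTop_mono (fun M => (by simp : M ≤ L + 1 + M)) tendsto_id
        exact ((h1.comp h2).sub_const _).const_mul _
      exact le_of_tendsto' h3 hM
    have hev : ∀ᶠ L : ℕ in atTop, T - δ * mu1 κ L2 < mu1 κ L := by
      refine hlim.eventually (lt_mem_nhds ?_)
      have : 0 < δ * mu1 κ L2 := by positivity
      linarith
    obtain ⟨L3, hL3⟩ := eventually_atTop.mp hev
    refine ⟨max 1 (max L2 L3), le_max_left _ _, fun L hL => ?_⟩
    have hLL2 : L2 ≤ L := (le_max_left _ _).trans ((le_max_right _ _).trans hL)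
    have hLL3 : L3 ≤ L := (le_max_right _ _).trans ((le_max_right _ _).trans hL)
    have h1 := hlow L
    have h2 := hL3 L hLL3
    have h3 := mul_le_mul_of_nonneg_left (hmono L2 L hLL2) hδ.le
    linarith
  · -- infinite mean
    obtain ⟨k0, hk0, hk⟩ := tail_le κ h0 hα hcK htail
    have hlim : Tendsto (fun L : ℕ => mu1 κ L) atTop atTop := by
      have h1 := not_summable_iff_tendsto_nat_atTop_of_nonneg hnn |>.1 hs
      exact (tendsto_add_atTop_iff_nat 1).2 h1
    obtain ⟨L3, hL3⟩ := eventually_atTop.mp (hlim.eventually_gt_atTop (2 * cK / δ))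
    refine ⟨max k0 L3, hk0.trans (le_max_left _ _), fun L hL => ?_⟩
    have h1 := hk L ((le_max_left _ _).trans hL)
    have h2 := hL3 L ((le_max_right _ _).trans hL)
    rw [div_lt_iff₀ hδ] at h2
    linarith

/-- **Slope for `α ≥ 1`.** -/
theorem slope_ge_one {α : ℝ} (hα1 : 1 ≤ α) :
    ∀ (κ : PMF ℕ), κ 0 = 0 → ∀ cK : ℝ, 0 < cK →
      Tendsto (fun n : ℕ => (n : ℝ) ^ (1 + α) * (κ n).toReal) atTop (𝓝 cK) →
    ∀ (ν : Measure ℝ) [IsProbabilityMeasure ν], ∫ x, x ∂ν = 0 → ∫ x, x ^ 2 ∂ν = 1 →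
      (∀ t : ℝ, Integrable (fun x => Real.exp (t * x)) ν) →
    ∃ lam0 : ℝ, 0 < lam0 ∧ ∀ D : Cop764.Data, D.κ = κ → D.α = α → D.ν = ν → D.lam < lam0 →
      0 < D.f (1 / (1 + α) * (1 + 1 / 64) * D.lam) := by
  intro κ hκ0 cK hcK htail ν hν mean var expm
  set γ : ℝ := 1 / (1 + α) with hγ
  have hγpos : 0 < γ := by positivity
  have hγ2 : γ ≤ 1 / 2 := by
    rw [hγ, div_le_div_iff₀ (by linarith) (by norm_num)]
    linarith
  obtain ⟨s0, hs0, hgauss⟩ := mgf_gauss ν mean var expm (ε := 1 / 64) (by norm_num) (by norm_num)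
  have hM : 0 ≤ ∫ x, x ^ 4 ∂ν := integral_nonneg fun x => by positivity
  set ε : ℝ := 1 / (128 * (∫ x, x ^ 4 ∂ν + 4)) with hε
  have hε0 : 0 < ε := by positivity
  have hε1 : ε ≤ 1 := by
    rw [hε, div_le_one (by positivity)]
    linarith
  have hεm : ε * (128 * (∫ x, x ^ 4 ∂ν + 4)) ≤ 1 := by
    rw [hε, div_mul_cancel₀ _ (by positivity)]
  set c : ℝ := γ ^ 2 / 64 with hc
  have hc0 : 0 < c := by positivity
  obtain ⟨L1, hL1, htm⟩ := tail_vs_mean κ hκ0 hα1 hcK htail (δ := c * (ε / 2)) (by positivity)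
  have hL1r : (1 : ℝ) ≤ L1 := by exact_mod_cast hL1
  refine ⟨min (s0 / 2) (Real.sqrt (ε / (L1 + 1))), by positivity, ?_⟩
  intro D hDκ hDα hDν hDlam
  have hlam := D.hlam
  have hl2 : 2 * D.lam ≤ s0 := by
    have := (hDlam.trans_le (min_le_left _ _)).le
    linarith
  have hl3 : D.lam < Real.sqrt (ε / (L1 + 1)) := hDlam.trans_le (min_le_right _ _)
  have hx : 0 < D.lam ^ 2 := by positivity
  have hl4 : D.lam ^ 2 * (L1 + 1) ≤ ε := by
    have h1 : D.lam ^ 2 ≤ ε / (L1 + 1) := by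
      have h2 : (0 : ℝ) ≤ ε / (L1 + 1) := by positivity
      rw [← Real.sq_sqrt h2]
      exact pow_le_pow_left₀ hlam.le hl3.le 2
    rwa [le_div_iff₀ (by positivity)] at h1
  set L : ℕ := ⌊ε / D.lam ^ 2⌋₊ with hL
  have hLa : (L : ℝ) ≤ ε / D.lam ^ 2 := Nat.floor_le (by positivity)
  have hLb : ε / D.lam ^ 2 < L + 1 := Nat.lt_floor_add_one _
  have hLL1 : L1 ≤ L := by
    apply Nat.le_floor
    rw [le_div_iff₀ hx]
    nlinarith
  have hL1' : (1 : ℝ) ≤ L := hL1r.trans (by exact_mod_cast hLL1)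
  have hLa' : (L : ℝ) * D.lam ^ 2 ≤ ε := by rwa [le_div_iff₀ hx] at hLa
  have hLb' : ε ≤ 2 * (L : ℝ) * D.lam ^ 2 := by
    rw [div_lt_iff₀ hx] at hLb
    nlinarith
  have hγα : γ * (1 + D.α) = 1 := by
    rw [hDα, hγ]
    field_simp
  have hgauss' : ∀ s : ℝ, |s| ≤ s0 →
      Real.exp ((1 - 1 / 64) * (s ^ 2 / 2)) ≤ ∫ x, Real.exp (s * x) ∂D.ν ∧
      ∫ x, Real.exp (s * x) ∂D.ν ≤ Real.exp ((1 + 1 / 64) * (s ^ 2 / 2)) := by
    rw [hDν]
    exact hgauss
  have hεm' : ε * (128 * (∫ x, x ^ 4 ∂D.ν + 4)) ≤ 1 := by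
    rw [hDν]
    exact hεm
  have hKfun : ∀ n, D.K n = (κ n).toReal := by
    intro n
    unfold Cop764.Data.K
    rw [hDκ]
  refine pos_of_sum D (γ := γ) (N := L) (by positivity) hγα ?_
  have h1 : ∑ k ∈ Ioc 0 L, D.K k * (1 + c * D.lam ^ 2 * k) ≤
      ∑ k ∈ Ioc 0 L, D.K k * AA D (γ * (1 + 1 / 64) * D.lam) γ k := by
    refine Finset.sum_le_sum fun k hk => ?_
    rw [Finset.mem_Ioc] at hk
    refine mul_le_mul_of_nonneg_left ?_ (K_nonneg D k)
    refine AA_lower D hγpos hγ2 hgauss' hl2 hε1 hεm' ?_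
    have : (k : ℝ) ≤ L := by exact_mod_cast hk.2
    nlinarith
  refine lt_of_lt_of_le ?_ h1
  have e1 : ∑ k ∈ Ioc 0 L, D.K k * (1 + c * D.lam ^ 2 * k) =
      (1 - TT (fun n => (κ n).toReal) L) + c * D.lam ^ 2 * mu1 κ L := by
    rw [TT_eq κ hκ0]
    unfold mu1
    have e2 : ∀ g : ℕ → ℝ, ∑ k ∈ range (L + 1), g k = g 0 + ∑ k ∈ Ioc 0 L, g k := by
      intro g
      rw [Finset.sum_range_succ']
      rw [add_comm]
      congr 1
      refine Finset.sum_bij' (fun i _ => i + 1) (fun i _ => i - 1) ?_ ?_ ?_ ?_ ?_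
      · intro i hi
        rw [Finset.mem_range] at hi
        rw [Finset.mem_Ioc]
        omega
      · intro i hi
        rw [Finset.mem_Ioc] at hi
        rw [Finset.mem_range]
        omega
      · intro i _
        omega
      · intro i hi
        rw [Finset.mem_Ioc] at hi
        omega
      · intro i _
        rfl
    rw [e2, e2, hκ0]
    simp only [ENNReal.toReal_zero, Nat.cast_zero, zero_mul, zero_add, mul_zero]
    rw [Finset.mul_sum]
    have e3 : (1 : ℝ) - (1 - ∑ k ∈ Ioc 0 L, (κ k).toReal) = ∑ k ∈ Ioc 0 L, (κ k).toReal := by ring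
    rw [e3, ← Finset.sum_add_distrib]
    refine Finset.sum_congr rfl fun k _ => ?_
    rw [hKfun]
    ring
  rw [e1]
  have h2 := htm L hLL1
  have h3 : TT (fun n => (κ n).toReal) L < c * D.lam ^ 2 * mu1 κ L := by
    have hLpos : (0 : ℝ) < L := by linarith
    have hmu : 0 ≤ mu1 κ L := Finset.sum_nonneg fun k _ =>
      mul_nonneg (Nat.cast_nonneg k) ENNReal.toReal_nonneg
    have h4 : c * (ε / 2) * mu1 κ L ≤ c * (L * D.lam ^ 2) * mu1 κ L := by
      refine mul_le_mul_of_nonneg_right ?_ hmu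
      refine mul_le_mul_of_nonneg_left ?_ hc0.le
      linarith
    have h5 : (L : ℝ) * TT (fun n => (κ n).toReal) L < L * (c * D.lam ^ 2 * mu1 κ L) := by
      calc (L : ℝ) * TT (fun n => (κ n).toReal) L < c * (ε / 2) * mu1 κ L := h2
        _ ≤ c * (L * D.lam ^ 2) * mu1 κ L := h4
        _ = _ := by ring
    exact lt_of_mul_lt_mul_left h5 hLpos.le
  linarith

end Pool.Agent.U260.CS
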