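import Pool.Agent.U260.CT3

set_option autoImplicit false
set_option maxHeartbeats 4000000

open MeasureTheory ProbabilityTheory Filter Topology

namespace Pool.Agent.U260.CS

/-- **Main theorem, all exponents.** -/
theorem slope_all {α : ℝ} (hα : 0 < α) : ∃ m : ℝ, 1 / (1 + α) < m ∧
    ∀ (κ : PMF ℕ), κ 0 = 0 → ∀ cK : ℝ, 0 < cK →
      Tendsto (fun n : ℕ => (n : ℝ) ^ (1 + α) * (κ n).toReal) atTop (𝓝 cK) →
    ∀ (ν : Measure ℝ) [IsProbabilityMeasure ν], ∫ x, x ∂ν = 0 → ∫ x, x ^ 2 ∂ν = 1 →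
      (∀ t : ℝ, Integrable (fun x => Real.exp (t * x)) ν) →
    ∃ lam0 : ℝ, 0 < lam0 ∧ ∀ D : Cop764.Data, D.κ = κ → D.α = α → D.ν = ν → D.lam < lam0 →
      0 < D.f (m * D.lam) := by
  rcases lt_or_ge α 1 with h1 | h1
  · exact slope hα h1
  · refine ⟨1 / (1 + α) * (1 + 1 / 64), ?_, slope_ge_one h1⟩
    have : 0 < 1 / (1 + α) := by positivity
    nlinarith

end Pool.Agent.U260.CS
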