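import Pool.Agent.U260.CT4

set_option autoImplicit false
set_option maxHeartbeats 4000000

open Finset

namespace Pool.Agent.U260.CS

/-- weighted geometric mean `p^{1-γ} y^γ` -/
noncomputable def hol (γ p y : ℝ) : ℝ := p ^ (1 - γ) * y ^ γ

theorem hol_nonneg {γ p y : ℝ} (hp : 0 ≤ p) (hy : 0 ≤ y) : 0 ≤ hol γ p y :=
  mul_nonneg (Real.rpow_nonneg hp _) (Real.rpow_nonneg hy _)

theorem hol_mul {γ c p y : ℝ} (hγ : 0 < γ) (hγ1 : γ < 1) (hc : 0 ≤ c) (hp : 0 ≤ p) (hy : 0 ≤ y) :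
    hol γ (c * p) (c * y) = c * hol γ p y := by
  unfold hol
  rw [Real.mul_rpow hc hp, Real.mul_rpow hc hy]
  have h1 : c ^ (1 - γ) * c ^ γ = c := by
    rw [← Real.rpow_add_of_nonneg hc (by linarith) hγ.le]
    rw [sub_add_cancel, Real.rpow_one]
  calc c ^ (1 - γ) * p ^ (1 - γ) * (c ^ γ * y ^ γ) =
      (c ^ (1 - γ) * c ^ γ) * (p ^ (1 - γ) * y ^ γ) := by ring
    _ = _ := by rw [h1]

theorem hol_mono {γ p y p' y' : ℝ} (hγ : 0 < γ) (hγ1 : γ < 1) (hp : 0 ≤ p) (hy : 0 ≤ y)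
    (h1 : p ≤ p') (h2 : y ≤ y') : hol γ p y ≤ hol γ p' y' := by
  unfold hol
  refine mul_le_mul (Real.rpow_le_rpow hp h1 (by linarith)) (Real.rpow_le_rpow hy h2 hγ.le)
    (Real.rpow_nonneg hy _) (Real.rpow_nonneg (hp.trans h1) _)

theorem hol_self {γ c : ℝ} (hγ : 0 < γ) (hγ1 : γ < 1) (hc : 0 ≤ c) : hol γ c c = c := by
  have := hol_mul hγ hγ1 hc (p := 1) (y := 1) (by norm_num) (by norm_num)
  rw [mul_one] at this
  rw [this]
  unfold hol
  simp

/-- Hölder's inequality -/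
theorem holder {ι : Type*} (s : Finset ι) (p y : ι → ℝ) {γ : ℝ} (hγ : 0 < γ) (hγ1 : γ < 1)
    (hp : ∀ i ∈ s, 0 ≤ p i) (hy : ∀ i ∈ s, 0 ≤ y i) :
    ∑ i ∈ s, hol γ (p i) (y i) ≤ hol γ (∑ i ∈ s, p i) (∑ i ∈ s, y i) := by
  have h1γ : 0 < 1 - γ := by linarith
  have hconj : Real.HolderConjugate (1 / (1 - γ)) (1 / γ) := by
    rw [Real.holderConjugate_iff]
    constructor
    · rw [lt_div_iff₀ h1γ]
      linarith
    · rw [one_div, one_div, inv_inv, inv_inv]
      ring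
  have h := Real.inner_le_Lp_mul_Lq_of_nonneg s hconj (f := fun i => p i ^ (1 - γ))
    (g := fun i => y i ^ γ) (fun i hi => Real.rpow_nonneg (hp i hi) _)
    (fun i hi => Real.rpow_nonneg (hy i hi) _)
  unfold hol
  refine h.trans (le_of_eq ?_)
  have e1 : ∑ i ∈ s, (p i ^ (1 - γ)) ^ (1 / (1 - γ)) = ∑ i ∈ s, p i :=
    Finset.sum_congr rfl fun i hi => by
      rw [← Real.rpow_mul (hp i hi), mul_one_div_cancel h1γ.ne', Real.rpow_one]
  have e2 : ∑ i ∈ s, (y i ^ γ) ^ (1 / γ) = ∑ i ∈ s, y i :=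
    Finset.sum_congr rfl fun i hi => by
      rw [← Real.rpow_mul (hy i hi), mul_one_div_cancel hγ.ne', Real.rpow_one]
  rw [e1, e2, one_div_one_div, one_div_one_div]

theorem holder2 {γ p1 p2 y1 y2 : ℝ} (hγ : 0 < γ) (hγ1 : γ < 1)
    (hp1 : 0 ≤ p1) (hp2 : 0 ≤ p2) (hy1 : 0 ≤ y1) (hy2 : 0 ≤ y2) :
    hol γ p1 y1 + hol γ p2 y2 ≤ hol γ (p1 + p2) (y1 + y2) := by
  have h := holder (univ : Finset Bool) (fun b => if b then p1 else p2)
    (fun b => if b then y1 else y2) hγ hγ1 (fun b _ => by cases b <;> simp [hp1, hp2])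
    (fun b _ => by cases b <;> simp [hy1, hy2])
  simpa [Fintype.sum_bool] using h

/-- refined inequality of the arithmetic and geometric means -/
theorem hol_refined {γ p a : ℝ} (hγ : 1 / 2 ≤ γ) (hγ1 : γ < 1) (hp : 0 ≤ p) (ha : 0 ≤ a) :
    hol γ p a ≤ (1 - γ) * p + γ * a - (1 - γ) * (Real.sqrt p - Real.sqrt a) ^ 2 := by
  have h1 := Real.geom_mean_le_arith_mean2_weighted (w₁ := 2 * γ - 1) (w₂ := 2 - 2 * γ) (p₁ := a)
    (p₂ := Real.sqrt (p * a)) (by linarith) (by linarith) ha (Real.sqrt_nonneg _) (by ring)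
  have e1 : a ^ (2 * γ - 1) * Real.sqrt (p * a) ^ (2 - 2 * γ) = hol γ p a := by
    unfold hol
    rw [Real.sqrt_eq_rpow, ← Real.rpow_mul (by positivity)]
    have e2 : 1 / 2 * (2 - 2 * γ) = 1 - γ := by ring
    rw [e2, Real.mul_rpow hp ha]
    have e3 : a ^ (2 * γ - 1) * a ^ (1 - γ) = a ^ γ := by
      rw [← Real.rpow_add_of_nonneg ha (by linarith) (by linarith)]
      congr 1
      ring
    calc a ^ (2 * γ - 1) * (p ^ (1 - γ) * a ^ (1 - γ)) =
        p ^ (1 - γ) * (a ^ (2 * γ - 1) * a ^ (1 - γ)) := by ring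
      _ = _ := by rw [e3]
  rw [e1] at h1
  refine h1.trans (le_of_eq ?_)
  rw [Real.sqrt_mul hp, sub_sq, Real.sq_sqrt hp, Real.sq_sqrt ha]
  ring

theorem frac_dist {p a c : ℝ} (ha : 0 ≤ a) (ha1 : a ≤ 1) (hc : 0 < c)
    (h1 : c ≤ p) (h2 : c ≤ 1 - p)
    (hr : 2 * (p * (1 - a)) ≤ a * (1 - p) ∨ 2 * (a * (1 - p)) ≤ p * (1 - a)) :
    c ^ 2 / 64 ≤ (Real.sqrt p - Real.sqrt a) ^ 2 := by
  have hp : 0 < p := by linarith
  have hp1 : p < 1 := by linarith
  have hpp : c / 2 ≤ p * (1 - p) := by nlinarith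
  have hd : c ^ 2 / 16 ≤ (p - a) ^ 2 := by
    rcases hr with hr | hr
    · have h3 : p * (1 - p) / 2 ≤ a - p := by
        have h4 : 2 * p ≤ a * (1 + p) := by nlinarith
        have h5 : p * (1 - p) ≤ (a - p) * (1 + p) := by nlinarith
        have h6 : 0 ≤ a - p := by
          by_contra hcon
          push Not at hcon
          nlinarith [mul_pos hp (show 0 < 1 - p by linarith)]
        nlinarith
      have h7 : c / 4 ≤ a - p := by linarith
      nlinarith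
    · have h3 : p * (1 - p) / 2 ≤ p - a := by
        have h4 : a * (2 - p) ≤ p := by nlinarith
        have h5 : p * (1 - p) ≤ (p - a) * (2 - p) := by nlinarith
        have h6 : 0 ≤ p - a := by
          by_contra hcon
          push Not at hcon
          nlinarith [mul_pos hp (show 0 < 1 - p by linarith)]
        nlinarith
      have h7 : c / 4 ≤ p - a := by linarith
      nlinarith
  have hsp : Real.sqrt p ^ 2 = p := Real.sq_sqrt hp.le
  have hsa : Real.sqrt a ^ 2 = a := Real.sq_sqrt ha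
  have hs1 : Real.sqrt p ≤ 1 := Real.sqrt_le_one.2 hp1.le
  have hs2 : Real.sqrt a ≤ 1 := Real.sqrt_le_one.2 ha1
  have hs3 : 0 ≤ Real.sqrt p := Real.sqrt_nonneg _
  have hs4 : 0 ≤ Real.sqrt a := Real.sqrt_nonneg _
  have e : (p - a) ^ 2 = (Real.sqrt p - Real.sqrt a) ^ 2 * (Real.sqrt p + Real.sqrt a) ^ 2 := by
    rw [← mul_pow]
    congr 1
    nlinarith
  have h8 : (Real.sqrt p + Real.sqrt a) ^ 2 ≤ 4 := by nlinarith
  have h9 : (p - a) ^ 2 ≤ (Real.sqrt p - Real.sqrt a) ^ 2 * 4 := by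
    rw [e]
    exact mul_le_mul_of_nonneg_left h8 (sq_nonneg _)
  linarith

/-- gain in Hölder's inequality for two groups with different ratios -/
theorem gap_ineq {γ c P1 P2 Y1 Y2 : ℝ} (hγ : 1 / 2 ≤ γ) (hγ1 : γ < 1) (hc : 0 < c)
    (hP1 : 0 < P1) (hP2 : 0 < P2) (hY1 : 0 < Y1) (hY2 : 0 < Y2)
    (h1 : c * (P1 + P2) ≤ P1) (h2 : c * (P1 + P2) ≤ P2)
    (hr : 2 * (P1 * Y2) ≤ Y1 * P2 ∨ 2 * (Y1 * P2) ≤ P1 * Y2) :
    hol γ P1 Y1 + hol γ P2 Y2 + (1 - γ) * (c ^ 2 / 64) * hol γ (P1 + P2) (Y1 + Y2) ≤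
      hol γ (P1 + P2) (Y1 + Y2) := by
  have hγ0 : 0 < γ := by linarith
  set P := P1 + P2 with hP
  set Y := Y1 + Y2 with hY
  have hPp : 0 < P := by positivity
  have hYp : 0 < Y := by positivity
  set p := P1 / P with hp
  set a := Y1 / Y with ha
  have e1 : P1 = P * p := by rw [hp]; field_simp
  have e2 : P2 = P * (1 - p) := by rw [hp]; field_simp; linarith
  have e3 : Y1 = Y * a := by rw [ha]; field_simp
  have e4 : Y2 = Y * (1 - a) := by rw [ha]; field_simp; linarith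
  have hp0 : 0 < p := by positivity
  have ha0 : 0 < a := by positivity
  have hp1 : 0 < 1 - p := by
    by_contra hcon
    push Not at hcon
    nlinarith
  have ha1 : 0 < 1 - a := by
    by_contra hcon
    push Not at hcon
    nlinarith
  have hcp : c ≤ p := by
    rw [hp, le_div_iff₀ hPp]
    exact h1
  have hcp1 : c ≤ 1 - p := by
    have : c * P ≤ (1 - p) * P := by
      calc c * P ≤ P2 := h2
        _ = (1 - p) * P := by rw [e2]; ring
    exact le_of_mul_le_mul_right this hPp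
  have hPY : 0 < P * Y := by positivity
  have hr' : 2 * (p * (1 - a)) ≤ a * (1 - p) ∨ 2 * (a * (1 - p)) ≤ p * (1 - a) := by
    rcases hr with hr | hr
    · left
      have h3 : (P * Y) * (2 * (p * (1 - a))) ≤ (P * Y) * (a * (1 - p)) := by
        calc (P * Y) * (2 * (p * (1 - a))) = 2 * ((P * p) * (Y * (1 - a))) := by ring
          _ = 2 * (P1 * Y2) := by rw [← e1, ← e4]
          _ ≤ Y1 * P2 := hr
          _ = (Y * a) * (P * (1 - p)) := by rw [← e3, ← e2]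
          _ = _ := by ring
      exact le_of_mul_le_mul_left h3 hPY
    · right
      have h3 : (P * Y) * (2 * (a * (1 - p))) ≤ (P * Y) * (p * (1 - a)) := by
        calc (P * Y) * (2 * (a * (1 - p))) = 2 * ((Y * a) * (P * (1 - p))) := by ring
          _ = 2 * (Y1 * P2) := by rw [← e3, ← e2]
          _ ≤ P1 * Y2 := hr
          _ = (P * p) * (Y * (1 - a)) := by rw [← e1, ← e4]
          _ = _ := by ring
      exact le_of_mul_le_mul_left h3 hPY
  have hdist := frac_dist ha0.le (by linarith) hc hcp hcp1 hr'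
  have hfac : ∀ q b : ℝ, 0 ≤ q → 0 ≤ b → hol γ (P * q) (Y * b) = hol γ P Y * hol γ q b := by
    intro q b hq hb
    unfold hol
    rw [Real.mul_rpow hPp.le hq, Real.mul_rpow hYp.le hb]
    ring
  rw [e1, e2, e3, e4, hfac p a hp0.le ha0.le, hfac (1 - p) (1 - a) hp1.le ha1.le]
  have h5 := hol_refined hγ hγ1 hp0.le ha0.le
  have h6 : hol γ (1 - p) (1 - a) ≤ (1 - γ) * (1 - p) + γ * (1 - a) := by
    have := Real.geom_mean_le_arith_mean2_weighted (w₁ := 1 - γ) (w₂ := γ) (p₁ := 1 - p)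
      (p₂ := 1 - a) (by linarith) hγ0.le hp1.le ha1.le (by ring)
    exact this
  have h7 : (1 - γ) * (c ^ 2 / 64) ≤ (1 - γ) * (Real.sqrt p - Real.sqrt a) ^ 2 :=
    mul_le_mul_of_nonneg_left hdist (by linarith)
  have h8 : hol γ p a + hol γ (1 - p) (1 - a) + (1 - γ) * (c ^ 2 / 64) ≤ 1 := by linarith
  have h9 : 0 ≤ hol γ P Y := hol_nonneg hPp.le hYp.le
  nlinarith

end Pool.Agent.U260.CS
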