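import Pool.Agent.U260.CU9

set_option autoImplicit false
set_option maxHeartbeats 4000000

open Finset MeasureTheory ProbabilityTheory Filter Topology

namespace Pool.Agent.U260.CS

open Cop764 (G S phi G_eq)


theorem UV_bound (D : Cop764.Data) {h γ x θ cK α : ℝ} {L : ℕ}
    (hx : 0 ≤ x) (hLu : x * L ≤ 2 * θ)
    (hAAe : ∀ k : ℕ, AA D h γ k ≤ Real.exp (3 * x * k))
    (hU : UU D.K L ≤ 8 / cK * (L : ℝ) ^ α) :
    ∑ i ∈ range (L + 1), u (KA D h γ) i ≤ Real.exp (6 * θ) * (8 / cK * (L : ℝ) ^ α) := by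
  have h1 : ∀ i ∈ range (L + 1), u (KA D h γ) i ≤ Real.exp (6 * θ) * u D.K i := by
    intro i hi
    rw [Finset.mem_range] at hi
    refine (V_le_exp D hAAe i).trans ?_
    refine mul_le_mul_of_nonneg_right (Real.exp_le_exp.2 ?_) (u_nonneg (K_nonneg D) i)
    have h2 : (i : ℝ) ≤ L := by
      have : i ≤ L := by omega
      exact_mod_cast this
    have h3 : x * (i : ℝ) ≤ x * L := mul_le_mul_of_nonneg_left h2 hx
    linarith
  refine (Finset.sum_le_sum h1).trans ?_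
  rw [← Finset.mul_sum]
  exact mul_le_mul_of_nonneg_left hU (Real.exp_pos _).le

theorem tail_prod {α cK θ Γ : ℝ} (hcK : 0 < cK) {Q L : ℕ} (hQ : 1 ≤ Q) (hL : 1 ≤ L)
    (h : 128 / α * Real.exp (6 * θ) * (Q : ℝ) ^ (-α) ≤ Γ / 4) :
    2 * (8 * cK / α * ((Q * L : ℕ) : ℝ) ^ (-α)) * (Real.exp (6 * θ) * (8 / cK * (L : ℝ) ^ α)) ≤
      Γ / 4 := by
  refine le_trans (le_of_eq ?_) h
  push_cast
  have hQpos : (0 : ℝ) < Q := by exact_mod_cast hQ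
  have hLp : (0 : ℝ) < L := by exact_mod_cast hL
  rw [Real.mul_rpow hQpos.le hLp.le]
  have e : (L : ℝ) ^ (-α) * (L : ℝ) ^ α = 1 := by
    rw [← Real.rpow_add hLp]
    simp
  calc 2 * (8 * cK / α * ((Q : ℝ) ^ (-α) * (L : ℝ) ^ (-α))) *
        (Real.exp (6 * θ) * (8 / cK * (L : ℝ) ^ α))
      = 2 * (8 * cK / α) * (8 / cK) * Real.exp (6 * θ) * (Q : ℝ) ^ (-α) *
        ((L : ℝ) ^ (-α) * (L : ℝ) ^ α) := by ring
    _ = _ := by
      rw [e]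
      field_simp
      norm_num

/-- the final step: passing from `h` to `h + ε λ` -/
theorem final_step (D : Cop764.Data) {h γ ε θ Γ : ℝ} (hh : 0 ≤ h) (hγ0 : 0 < γ) (hγ1 : γ < 1)
    (hγα : γ * (1 + D.α) = 1) (hε : 0 < ε) (hθ : 0 < θ) {Q L : ℕ}
    (hLu : D.lam ^ 2 * L ≤ 2 * θ) (hεΓ : ε * (16 * ((Q : ℝ) + 1) * θ) ≤ Γ) (hΓ0 : 0 < Γ)
    (hΓ1 : Γ ≤ 1)
    (hsum : 1 + 3 / 4 * Γ ≤ ∑ j ∈ Ioc L ((Q + 1) * L), BB D h γ L j) :
    0 < D.f (h + ε * D.lam) := by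
  have hlam := D.hlam
  have hx : 0 < D.lam ^ 2 := by positivity
  refine pos_of_macro D (γ := γ) (L := L) (M := (Q + 1) * L) (by positivity) hγα ?_
  have hdrop : ∑ j ∈ Ioc L ((Q + 1) * L), Real.exp (-(Γ / 4)) * BB D h γ L j ≤
      ∑ j ∈ Ioc L ((Q + 1) * L), BB D (h + ε * D.lam) γ L j := by
    refine Finset.sum_le_sum fun j hj => ?_
    rw [Finset.mem_Ioc] at hj
    have h1 := BB_drop D hh (show h ≤ h + ε * D.lam by
      have : 0 ≤ ε * D.lam := by positivity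
      linarith) hγ0 hγ1 hj.1
    refine le_trans ?_ h1
    refine mul_le_mul_of_nonneg_right (Real.exp_le_exp.2 ?_) (BB_nonneg D h γ L j)
    have hjr : (j : ℝ) ≤ ((Q : ℝ) + 1) * L := by exact_mod_cast hj.2
    have h3 : 2 * D.lam * (h + ε * D.lam - h) * j ≤ Γ / 4 := by
      have e : 2 * D.lam * (h + ε * D.lam - h) * j = 2 * ε * (D.lam ^ 2 * j) := by ring
      rw [e]
      have h4 : D.lam ^ 2 * (j : ℝ) ≤ ((Q : ℝ) + 1) * (2 * θ) := by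
        have h5 : D.lam ^ 2 * (j : ℝ) ≤ D.lam ^ 2 * (((Q : ℝ) + 1) * L) :=
          mul_le_mul_of_nonneg_left hjr hx.le
        have h6 : ((Q : ℝ) + 1) * (D.lam ^ 2 * L) ≤ ((Q : ℝ) + 1) * (2 * θ) :=
          mul_le_mul_of_nonneg_left hLu (by positivity)
        linarith
      have h7 : 2 * ε * (D.lam ^ 2 * j) ≤ 2 * ε * (((Q : ℝ) + 1) * (2 * θ)) :=
        mul_le_mul_of_nonneg_left h4 (by positivity)
      linarith
    linarith
  refine lt_of_lt_of_le ?_ hdrop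
  rw [← Finset.mul_sum]
  have h1 : 1 - Γ / 4 ≤ Real.exp (-(Γ / 4)) := by
    have := Real.add_one_le_exp (-(Γ / 4))
    linarith
  have h2 : (1 - Γ / 4) * (1 + 3 / 4 * Γ) ≤
      Real.exp (-(Γ / 4)) * ∑ j ∈ Ioc L ((Q + 1) * L), BB D h γ L j :=
    mul_le_mul h1 hsum (by positivity) (Real.exp_pos _).le
  refine lt_of_lt_of_le ?_ h2
  nlinarith

/-- bounds which follow from the size of `h` -/
theorem h_facts (D : Cop764.Data) {h γ m0 ε1 s0 : ℝ} (hh : 0 ≤ h) (hγ2 : 1 / 2 < γ)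
    (hγ1 : γ < 1) (hm0 : γ < m0) (hhlow : (m0 + γ) / 2 * D.lam ≤ h)
    (hε10 : 0 < ε1) (hε1 : ε1 ≤ (m0 - γ) / (2 * γ)) (hl : 2 * D.lam ≤ s0)
    (hgauss1 : ∀ s : ℝ, |s| ≤ s0 →
      Real.exp ((1 - 1 / 2) * (s ^ 2 / 2)) ≤ ∫ x, Real.exp (s * x) ∂D.ν ∧
      ∫ x, Real.exp (s * x) ∂D.ν ≤ Real.exp ((1 + 1 / 2) * (s ^ 2 / 2)))
    (hgauss2 : ∀ s : ℝ, |s| ≤ s0 →
      Real.exp ((1 - ε1) * (s ^ 2 / 2)) ≤ ∫ x, Real.exp (s * x) ∂D.ν ∧
      ∫ x, Real.exp (s * x) ∂D.ν ≤ Real.exp ((1 + ε1) * (s ^ 2 / 2)))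
    {N : ℕ} (hN : 1 < ∑ k ∈ Ioc 0 N, D.K k * AA D h γ k) :
    D.lam / 2 ≤ h ∧ h ≤ 2 * D.lam ∧ (∀ k : ℕ, AA D h γ k ≤ Real.exp (3 * D.lam ^ 2 * k)) ∧
    (∀ k : ℕ, AA D h γ k ≤ 2) := by
  have hlam := D.hlam
  have hγ0 : 0 < γ := by linarith
  have hhγ : γ * D.lam ≤ h := by
    have : γ * D.lam ≤ (m0 + γ) / 2 * D.lam := mul_le_mul_of_nonneg_right (by linarith) hlam.le
    linarith
  have hm1 : D.lam / 2 ≤ h := by
    have : 1 / 2 * D.lam ≤ γ * D.lam := mul_le_mul_of_nonneg_right hγ2.le hlam.le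
    linarith
  have hpsi1 := (psi_bounds' D hgauss1 (h := h) (θ := 1) (by norm_num) (by linarith)).2
  have hpsiγ := (psi_bounds' D hgauss2 (h := h) (θ := γ) hγ0.le (by nlinarith)).2
  have hpγ1 : psi D h γ ≤ 1 := by
    refine hpsiγ.trans (Real.exp_le_one_iff.2 ?_)
    have h1 : γ * (1 + ε1) ≤ (m0 + γ) / 2 := by
      have h3 : γ * ε1 ≤ γ * ((m0 - γ) / (2 * γ)) := mul_le_mul_of_nonneg_left hε1 hγ0.le
      have h4 : γ * ((m0 - γ) / (2 * γ)) = (m0 - γ) / 2 := by field_simp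
      linarith
    have h5 : γ * (1 + ε1) * D.lam ≤ h := by
      have := mul_le_mul_of_nonneg_right h1 hlam.le
      linarith
    have h6 : 0 ≤ 2 * D.lam * γ := by positivity
    have h7 := mul_le_mul_of_nonneg_left h5 h6
    have e : 2 * D.lam ^ 2 * γ ^ 2 * (1 + ε1) - 2 * D.lam * h * γ =
        2 * D.lam * γ * (γ * (1 + ε1) * D.lam) - 2 * D.lam * γ * h := by ring
    rw [e]
    linarith
  have hx : 0 < D.lam ^ 2 := by positivity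
  have hp1 : psi D h 1 ≤ Real.exp (3 * D.lam ^ 2) := by
    refine hpsi1.trans (Real.exp_le_exp.2 ?_)
    have : 0 ≤ D.lam * h := by positivity
    linarith
  have hm2 : h ≤ 2 * D.lam := by
    by_contra hcon
    push Not at hcon
    have h1 : psi D h 1 ≤ 1 := by
      refine hpsi1.trans (Real.exp_le_one_iff.2 ?_)
      have h2 : D.lam * (2 * D.lam) ≤ D.lam * h := mul_le_mul_of_nonneg_left hcon.le hlam.le
      linarith
    have h2 : ∑ k ∈ Ioc 0 N, D.K k * AA D h γ k ≤ ∑ k ∈ Ioc 0 N, D.K k := by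
      refine Finset.sum_le_sum fun k _ => ?_
      have := mul_le_mul_of_nonneg_left (AA_le_one D h hγ0.le hγ1.le h1 k) (K_nonneg D k)
      linarith
    have h3 := K_sum_le D N
    linarith
  exact ⟨hm1, hm2, AA_le_exp D h hγ0.le hγ1.le (by positivity) hp1,
    AA_le_two D h hγ0.le hγ1.le hpγ1⟩

/-- **Strict improvement of the averaged lower bound** -/
theorem strict {α : ℝ} (hα : 0 < α) (hα1 : α < 1) : ∃ ε : ℝ, 0 < ε ∧
    ∀ (κ : PMF ℕ), κ 0 = 0 → ∀ cK : ℝ, 0 < cK →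
      Tendsto (fun n : ℕ => (n : ℝ) ^ (1 + α) * (κ n).toReal) atTop (𝓝 cK) →
    ∀ (ν : Measure ℝ) [IsProbabilityMeasure ν], ∫ x, x ∂ν = 0 → ∫ x, x ^ 2 ∂ν = 1 →
      (∀ t : ℝ, Integrable (fun x => Real.exp (t * x)) ν) →
    ∃ lam0 : ℝ, 0 < lam0 ∧ ∀ D : Cop764.Data, D.κ = κ → D.α = α → D.ν = ν → D.lam < lam0 →
      ∀ h : ℝ, 0 ≤ h → (∃ N : ℕ, 1 < ∑ k ∈ Ioc 0 N, D.K k * AA D h (1 / (1 + α)) k) →
        0 < D.f (h + ε * D.lam) := by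
  obtain ⟨m0, hm0, hslope⟩ := slope hα hα1
  obtain ⟨γ, hγ⟩ : ∃ γ : ℝ, γ = 1 / (1 + α) := ⟨_, rfl⟩
  rw [← hγ] at hm0
  have hγ1 : γ < 1 := by
    rw [hγ, div_lt_one (by linarith)]
    linarith
  have hγ2 : 1 / 2 < γ := by
    rw [hγ, div_lt_div_iff₀ (by norm_num) (by linarith)]
    linarith
  have hγ0 : 0 < γ := by linarith
  have hγmul : γ * (1 + α) = 1 := by
    rw [hγ]
    field_simp
  obtain ⟨cl, η2, θ, ρ, η, Γ, gc, cB, c, ε, Q, hcl, hcl0, hcl1, hη20, hη21, hη2α, hθ1, hρ0,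
    hρ256, hη2θ, hρθ, hρ2, hηeq, hη0, hη1, hc, hc0, hgc, hgc0, hcB, hcB0, hΓ, hΓ0, hΓ1, hQ2,
    hQ, hε0, hεm, hεΓ⟩ := consts hα hα1 hγ2 hγ1 hm0
  refine ⟨ε, hε0, ?_⟩
  intro κ hκ0 cK hcK htail ν hν mean var expm
  obtain ⟨lam1, hlam1, hsl⟩ := hslope κ hκ0 cK hcK htail ν mean var expm
  obtain ⟨n1, hn1, hrb⟩ := ren_bounds κ hκ0 hα hα1 hcK htail
  obtain ⟨ε1, hε1⟩ : ∃ ε1 : ℝ, ε1 = min (1 / 2) ((m0 - γ) / (2 * γ)) := ⟨_, rfl⟩
  have hm0γ : 0 < m0 - γ := by linarith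
  have hε10 : 0 < ε1 := by
    rw [hε1]
    exact lt_min (by norm_num) (by positivity)
  have hε11 : ε1 ≤ 1 / 2 := by rw [hε1]; exact min_le_left _ _
  have hε12 : ε1 ≤ (m0 - γ) / (2 * γ) := by rw [hε1]; exact min_le_right _ _
  obtain ⟨s1, hs1, hg1⟩ := mgf_gauss ν mean var expm (ε := 1 / 2) (by norm_num) (by norm_num)
  obtain ⟨s2, hs2, hg2⟩ := mgf_gauss ν mean var expm hε10 (hε11.trans (by norm_num))
  obtain ⟨s0, hs0⟩ : ∃ s0 : ℝ, s0 = min s1 s2 := ⟨_, rfl⟩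
  have hs00 : 0 < s0 := by rw [hs0]; exact lt_min hs1 hs2
  have hs01 : s0 ≤ s1 := by rw [hs0]; exact min_le_left _ _
  have hs02 : s0 ≤ s2 := by rw [hs0]; exact min_le_right _ _
  refine ⟨min (min lam1 (1 / 16)) (min (s0 / 56) (1 / Real.sqrt (256 * ((n1 : ℝ) + 1)))),
    by positivity, ?_⟩
  intro D hDκ hDα hDν hDlam h hh hN
  rw [← hγ] at hN
  have hlam := D.hlam
  have hl1 : D.lam < lam1 := hDlam.trans_le ((min_le_left _ _).trans (min_le_left _ _))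
  have hl2 : D.lam < 1 / 16 := hDlam.trans_le ((min_le_left _ _).trans (min_le_right _ _))
  have hl3 : 56 * D.lam ≤ s0 := by
    have := hDlam.trans_le ((min_le_right _ _).trans (min_le_left _ _))
    linarith
  have hl4 : D.lam < 1 / Real.sqrt (256 * ((n1 : ℝ) + 1)) :=
    hDlam.trans_le ((min_le_right _ _).trans (min_le_right _ _))
  have hx : 0 < D.lam ^ 2 := by positivity
  have hn1r : (1 : ℝ) ≤ n1 := by exact_mod_cast hn1
  have hl5 : 256 * (n1 : ℝ) * D.lam ^ 2 ≤ 1 := by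
    have h1 : D.lam * Real.sqrt (256 * ((n1 : ℝ) + 1)) < 1 := by
      rwa [lt_div_iff₀ (by positivity)] at hl4
    have h2 : (D.lam * Real.sqrt (256 * ((n1 : ℝ) + 1))) ^ 2 < 1 := by
      have : 0 ≤ D.lam * Real.sqrt (256 * ((n1 : ℝ) + 1)) := by positivity
      nlinarith
    rw [mul_pow, Real.sq_sqrt (by positivity)] at h2
    linarith
  have hx1 : D.lam ^ 2 ≤ 1 / 256 := by nlinarith
  -- first case: `h` small
  by_cases hcase : h + ε * D.lam ≤ m0 * D.lam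
  · have hpos := hsl D hDκ hDα hDν hl1
    have := (Cop764.M_fanti.J_fanti D (h + ε * D.lam) (m0 * D.lam) (by positivity) hcase).1
    linarith
  push Not at hcase
  have hhlow : (m0 + γ) / 2 * D.lam ≤ h := by
    have : ε * D.lam ≤ (m0 - γ) / 2 * D.lam := mul_le_mul_of_nonneg_right hεm hlam.le
    linarith
  have hgauss1 : ∀ s : ℝ, |s| ≤ s0 →
      Real.exp ((1 - 1 / 2) * (s ^ 2 / 2)) ≤ ∫ x, Real.exp (s * x) ∂D.ν ∧
      ∫ x, Real.exp (s * x) ∂D.ν ≤ Real.exp ((1 + 1 / 2) * (s ^ 2 / 2)) := by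
    rw [hDν]
    exact fun s hs => hg1 s (hs.trans hs01)
  have hgauss2 : ∀ s : ℝ, |s| ≤ s0 →
      Real.exp ((1 - ε1) * (s ^ 2 / 2)) ≤ ∫ x, Real.exp (s * x) ∂D.ν ∧
      ∫ x, Real.exp (s * x) ∂D.ν ≤ Real.exp ((1 + ε1) * (s ^ 2 / 2)) := by
    rw [hDν]
    exact fun s hs => hg2 s (hs.trans hs02)
  obtain ⟨N, hN⟩ := hN
  obtain ⟨hm1, hm2, hAAe, hAA2⟩ := h_facts D hh hγ2 hγ1 hm0 hhlow hε10 hε12 (by linarith)
    hgauss1 hgauss2 hN
  obtain ⟨L, L1, L2, hLl, hLu, hL1u, hL1n, hL2l, h12, h2L, hηL, hL2α⟩ :=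
    scale_facts hα hη20 hη21 hη2α hθ1 hρ256 hη2θ hηeq hη0 hx hx1 hn1 hl5
  have hn1L : n1 ≤ L := hL1n.trans (h12.trans h2L)
  have hLpos : 1 ≤ L := hn1.trans hn1L
  have hKfun : D.K = fun n => (κ n).toReal := by
    funext n
    unfold Cop764.Data.K
    rw [hDκ]
  have hKb : ∀ n, n1 ≤ n → cK / 2 * (n : ℝ) ^ (-(1 + α)) ≤ D.K n ∧
      D.K n ≤ 2 * cK * (n : ℝ) ^ (-(1 + α)) := by
    intro n hn
    rw [hKfun]
    exact (hrb n hn).1
  have hUb : ∀ n, n1 ≤ n → cl / cK * (n : ℝ) ^ α ≤ UU D.K n ∧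
      UU D.K n ≤ 8 / cK * (n : ℝ) ^ α := by
    intro n hn
    rw [hKfun, hcl]
    exact (hrb n hn).2.2
  have hTb : ∀ n, n1 ≤ n → TT D.K n ≤ 8 * cK / α * (n : ℝ) ^ (-α) := by
    intro n hn
    rw [hKfun]
    exact (hrb n hn).2.1
  have hLrpos : (0 : ℝ) < L := by exact_mod_cast hLpos
  -- gain
  have hgain : ∀ j, 2 * L < j → j ≤ 3 * L →
      bj (KA D h γ) L j + gc * (cl / 36 / L) * cB ≤ BB D h γ L j := by
    intro j hj1 hj2
    obtain ⟨p1, p2, p3, p4⟩ := group_bounds (K_nonneg D) hα hα1 hcK hcl0 hKb hUb hn1 hL1n h12 h2L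
      hη0 hη1 hηL hL2α hj1 hj2
    rw [← hc] at p3 p4
    have hP2pos : 0 < PP D.K j (Ico (L2 + 1) (L + 1)) := lt_of_lt_of_le (by positivity) p1
    have h1 := BB_gain D hh hm1 hm2 hγ2.le hγ1 hgauss1 hl3 h12 h2L hLu hLl hL1u
      hL2l hρ0 hρθ hρ2 (by linarith) hc0 p2 hP2pos p3 p4 hj1 hj2
    rw [← hgc, ← hcB] at h1
    refine le_trans ?_ h1
    have h2 : gc * (cl / 36 / L) * cB ≤ gc * PP D.K j (Ico (L2 + 1) (L + 1)) * cB := by
      refine mul_le_mul_of_nonneg_right ?_ hcB0.le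
      exact mul_le_mul_of_nonneg_left p1 hgc0.le
    linarith
  have hΓL : Γ ≤ (L : ℝ) * (gc * (cl / 36 / L) * cB) := by
    apply le_of_eq
    rw [hΓ]
    field_simp
  have hMsub : (Q + 1) * L - L = Q * L := by
    rw [add_mul, one_mul, Nat.add_sub_cancel]
  have h3LM : 3 * L ≤ (Q + 1) * L := Nat.mul_le_mul_right L (by omega)
  have hQL : n1 ≤ Q * L := hn1L.trans (Nat.le_mul_of_pos_left L (by omega))
  have hτb : TT (KA D h γ) ((Q + 1) * L - L) ≤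
      2 * (8 * cK / α * ((Q * L : ℕ) : ℝ) ^ (-α)) := by
    rw [hMsub]
    refine (tilted_tail D hAA2 (N := N) hN (Q * L)).trans ?_
    exact mul_le_mul_of_nonneg_left (hTb (Q * L) hQL) (by norm_num)
  have hUVb := UV_bound D hx.le hLu hAAe (hUb L hn1L).2
  have hτUV := tail_prod (α := α) hcK (show 1 ≤ Q by omega) hLpos hQ
  have hsum := macro_sum D hh hγ2.le hγ1 h3LM (by positivity) hτb hUVb hgain hΓL
  refine final_step D hh hγ0 hγ1 (by rw [hDα]; exact hγmul) hε0 (by linarith) hLu hεΓ hΓ0 hΓ1 ?_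
  linarith

end Pool.Agent.U260.CS
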