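import Pool.Agent.U260.CU1

set_option autoImplicit false
set_option maxHeartbeats 4000000

open Finset MeasureTheory ProbabilityTheory

namespace Pool.Agent.U260.CS

open Cop764 (G S phi G_eq)

/-- weight of the first macroscopic step, which ends at the first renewal `j` beyond `L` -/
noncomputable def Bj (K w : ℕ → ℝ) (L j : ℕ) : ℝ :=
  ∑ i ∈ range (L + 1), G K w 0 i * (K (j - i) * phi w i j)

/-- law of the first renewal point beyond `L` -/
noncomputable def bj (K : ℕ → ℝ) (L j : ℕ) : ℝ := ∑ i ∈ range (L + 1), u K i * K (j - i)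

section
variable {K w : ℕ → ℝ}

theorem Bj_nonneg (hK : ∀ n, 0 ≤ K n) (L j : ℕ) : 0 ≤ Bj K w L j :=
  Finset.sum_nonneg fun i _ => mul_nonneg (G_nonneg hK _ _)
    (mul_nonneg (hK _) (phi_nonneg _ _ _))

theorem bj_nonneg (hK : ∀ n, 0 ≤ K n) (L j : ℕ) : 0 ≤ bj K L j :=
  Finset.sum_nonneg fun i _ => mul_nonneg (u_nonneg hK _) (hK _)

theorem G_over {L l : ℕ} (h : L < l) :
    ∑ j ∈ Ioc L l, Bj K w L j * G K w j l = G K w 0 l := by
  rw [← crossing L L 0 l (by omega) (Nat.zero_le _) h, Finset.sum_comm]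
  refine Finset.sum_congr rfl fun j _ => ?_
  unfold Bj
  rw [Finset.sum_mul]
  refine Finset.sum_congr ?_ fun i _ => rfl
  ext a
  simp only [Finset.mem_range, Finset.mem_Icc]
  omega

theorem Bj_le_G (hK : ∀ n, 0 ≤ K n) {L j : ℕ} (h : L < j) : Bj K w L j ≤ G K w 0 j := by
  rw [← G_over h]
  have h1 := Finset.single_le_sum (f := fun i => Bj K w L i * G K w i j)
    (fun i _ => mul_nonneg (Bj_nonneg hK L i) (G_nonneg hK _ _)) (Finset.mem_Ioc.2 ⟨h, le_rfl⟩)
  simp only [G_self, mul_one] at h1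
  exact h1

theorem TT_sub (K : ℕ → ℝ) {n m : ℕ} (h : n ≤ m) : ∑ k ∈ Ioc n m, K k = TT K n - TT K m := by
  unfold TT
  have h1 : ∑ k ∈ Icc 1 m, K k = ∑ k ∈ Icc 1 n, K k + ∑ k ∈ Ioc n m, K k := by
    rw [← Finset.sum_union]
    · congr 1
      ext a
      simp only [Finset.mem_union, Finset.mem_Icc, Finset.mem_Ioc]
      omega
    · rw [Finset.disjoint_left]
      intro a ha hb
      rw [Finset.mem_Icc] at ha
      rw [Finset.mem_Ioc] at hb
      omega
  rw [h1]
  ring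

theorem sum_shift (K : ℕ → ℝ) {L M i : ℕ} (hi : i ≤ L) :
    ∑ j ∈ Ioc L M, K (j - i) = ∑ k ∈ Ioc (L - i) (M - i), K k := by
  refine Finset.sum_bij' (fun j _ => j - i) (fun k _ => k + i) ?_ ?_ ?_ ?_ ?_
  · intro j hj
    rw [Finset.mem_Ioc] at hj ⊢
    omega
  · intro k hk
    rw [Finset.mem_Ioc] at hk ⊢
    omega
  · intro j hj
    rw [Finset.mem_Ioc] at hj
    omega
  · intro k _
    omega
  · intro j _
    rfl

/-- total mass of the overshoot law up to `M` -/
theorem over_mass (K : ℕ → ℝ) {L M : ℕ} (h : L ≤ M) :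
    ∑ j ∈ Ioc L M, bj K L j = 1 - ∑ i ∈ range (L + 1), u K i * TT K (M - i) := by
  unfold bj
  rw [Finset.sum_comm]
  rw [← renewal_identity K L, ← Finset.sum_sub_distrib]
  refine Finset.sum_congr rfl fun i hi => ?_
  rw [Finset.mem_range] at hi
  rw [← Finset.mul_sum, sum_shift K (show i ≤ L by omega), TT_sub K (by omega)]
  ring

theorem over_le (hK : ∀ n, 0 ≤ K n) (hT : ∀ n, 0 ≤ TT K n) (L M : ℕ) :
    ∑ j ∈ Ioc L M, bj K L j ≤ 1 := by
  rcases le_or_gt L M with h | h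
  · rw [over_mass K h]
    have : 0 ≤ ∑ i ∈ range (L + 1), u K i * TT K (M - i) :=
      Finset.sum_nonneg fun i _ => mul_nonneg (u_nonneg hK i) (hT _)
    linarith
  · rw [Finset.Ioc_eq_empty (by omega), Finset.sum_empty]
    norm_num

end

/-- growth of a sequence which satisfies a supercritical renewal inequality -/
theorem growth_abs {W a : ℕ → ℝ} (hW0 : W 0 = 1) (hW : ∀ n, 0 ≤ W n) (ha : ∀ n, 0 ≤ a n)
    (hrec : ∀ n, 1 ≤ n → ∑ k ∈ Ioc 0 n, a k * W (n - k) ≤ W n) {N : ℕ} {r : ℝ}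
    (hr : r ≤ ∑ k ∈ Ioc 0 N, a k) (hr0 : 0 ≤ r) (k : ℕ) :
    r ^ k ≤ ∑ n ∈ range (k * N + 1), W n := by
  induction k with
  | zero =>
    rw [pow_zero, Nat.zero_mul, Finset.sum_range_one, hW0]
  | succ k ih =>
    have h1 : ∑ j ∈ Ioc 0 N, ∑ p ∈ range (k * N + 1), a j * W p ≤
        ∑ n ∈ range ((k + 1) * N + 1), W n := by
      have hm : ∀ n ∈ range ((k + 1) * N + 1), ∑ j ∈ (Ioc 0 N).filter (fun j => j ≤ n ∧
          n - j < k * N + 1), a j * W (n - j) ≤ W n := by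
        intro n _
        rcases Nat.eq_zero_or_pos n with h0 | h0
        · subst h0
          rw [Finset.filter_false_of_mem]
          · rw [Finset.sum_empty]
            exact hW 0
          · intro j hj
            rw [Finset.mem_Ioc] at hj
            omega
        · refine le_trans ?_ (hrec n h0)
          refine Finset.sum_le_sum_of_subset_of_nonneg ?_ fun j _ _ => mul_nonneg (ha j) (hW _)
          intro j hj
          rw [Finset.mem_filter, Finset.mem_Ioc] at hj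
          rw [Finset.mem_Ioc]
          omega
      refine le_trans ?_ (Finset.sum_le_sum hm)
      have hswap : ∑ n ∈ range ((k + 1) * N + 1), ∑ j ∈ (Ioc 0 N).filter (fun j => j ≤ n ∧
          n - j < k * N + 1), a j * W (n - j) =
          ∑ j ∈ Ioc 0 N, ∑ n ∈ (range ((k + 1) * N + 1)).filter (fun n => j ≤ n ∧
          n - j < k * N + 1), a j * W (n - j) := by
        apply Finset.sum_comm'
        intro n j
        simp only [Finset.mem_filter, Finset.mem_range, Finset.mem_Ioc]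
        tauto
      rw [hswap]
      refine Finset.sum_le_sum fun j hj => ?_
      rw [Finset.mem_Ioc] at hj
      refine le_of_eq ?_
      refine Finset.sum_bij' (fun p _ => p + j) (fun n _ => n - j) ?_ ?_ ?_ ?_ ?_
      · intro p hp
        rw [Finset.mem_range] at hp
        rw [Finset.mem_filter, Finset.mem_range]
        have : (k + 1) * N = k * N + N := by ring
        omega
      · intro n hn
        rw [Finset.mem_filter, Finset.mem_range] at hn
        rw [Finset.mem_range]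
        omega
      · intro p _
        omega
      · intro n hn
        rw [Finset.mem_filter, Finset.mem_range] at hn
        omega
      · intro p _
        rw [Nat.add_sub_cancel]
    refine le_trans ?_ h1
    have e : ∑ j ∈ Ioc 0 N, ∑ p ∈ range (k * N + 1), a j * W p =
        (∑ j ∈ Ioc 0 N, a j) * ∑ p ∈ range (k * N + 1), W p := by
      rw [Finset.sum_mul]
      exact Finset.sum_congr rfl fun j _ => by rw [Finset.mul_sum]
    rw [e, pow_succ, mul_comm]
    refine mul_le_mul hr ih (pow_nonneg hr0 _) (le_trans hr0 hr)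

variable {D : Cop764.Data} {h γ : ℝ}

/-- abstract criterion -/
theorem pos_of_rec (D : Cop764.Data) {h : ℝ} (hh : 0 ≤ h) (hγ : γ * (1 + D.α) = 1) {a : ℕ → ℝ}
    (ha : ∀ n, 0 ≤ a n)
    (hrec : ∀ n, 1 ≤ n → ∑ k ∈ Ioc 0 n, a k * WW D h γ (n - k) ≤ WW D h γ n) {N : ℕ}
    (hN : 1 < ∑ k ∈ Ioc 0 N, a k) : 0 < D.f h := by
  by_contra hcon
  have hf : D.f h = 0 := le_antisymm (not_lt.1 hcon) (Cop764.M_fnn.J_fnn D h hh)
  obtain ⟨c0, n0, hKH⟩ := Cop764.M_K.J_K D
  obtain ⟨C2, hC2, hbd⟩ := moment_bound D c0 n0 hKH hγ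
  set r := ∑ k ∈ Ioc 0 N, a k with hr
  set B0 : ℝ := ∑ n ∈ range n0, WW D h γ n with hB0
  have hB0n : 0 ≤ B0 := Finset.sum_nonneg fun n _ => WW_nonneg D h γ n
  have hW : ∀ n, WW D h γ n ≤ B0 + C2 * (n : ℝ) ^ 2 := by
    intro n
    by_cases hn : n0 ≤ n
    · have := (hbd h hh hf n hn).2
      unfold WW
      linarith
    · push Not at hn
      have h1 := Finset.single_le_sum (f := fun n => WW D h γ n) (fun n _ => WW_nonneg D h γ n)
        (Finset.mem_range.2 hn)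
      have h2 : 0 ≤ C2 * (n : ℝ) ^ 2 := by positivity
      have h3 : WW D h γ n ≤ B0 := h1
      linarith
  refine cube_contra' (C := (B0 + C2) * ((N : ℝ) + 1) ^ 3) (r := r) (by positivity) hN fun k => ?_
  refine (growth_abs (WW_zero D h γ) (WW_nonneg D h γ) ha hrec le_rfl (by linarith) k).trans ?_
  have h1 : ∑ n ∈ range (k * N + 1), WW D h γ n ≤
      ∑ n ∈ range (k * N + 1), (B0 + C2) * ((k : ℝ) * N + 1) ^ 2 := by
    refine Finset.sum_le_sum fun n hn => (hW n).trans ?_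
    rw [Finset.mem_range] at hn
    have h2 : (n : ℝ) ≤ (k : ℝ) * N := by
      have : n ≤ k * N := by omega
      exact_mod_cast this
    have h3 : (n : ℝ) ^ 2 ≤ ((k : ℝ) * N + 1) ^ 2 := by
      have : (0 : ℝ) ≤ n := Nat.cast_nonneg n
      exact pow_le_pow_left₀ this (by linarith) 2
    have h4 : (1 : ℝ) ≤ ((k : ℝ) * N + 1) ^ 2 := by
      have : (0 : ℝ) ≤ (k : ℝ) * N := by positivity
      nlinarith
    nlinarith
  refine h1.trans ?_
  rw [Finset.sum_const, Finset.card_range, nsmul_eq_mul]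
  push_cast
  have h5 : (k : ℝ) * N + 1 ≤ ((N : ℝ) + 1) * ((k : ℝ) + 1) := by
    have : (0 : ℝ) ≤ k := Nat.cast_nonneg k
    have : (0 : ℝ) ≤ N := Nat.cast_nonneg N
    nlinarith
  have h6 : 0 ≤ (k : ℝ) * N + 1 := by positivity
  calc ((k : ℝ) * N + 1) * ((B0 + C2) * ((k : ℝ) * N + 1) ^ 2) =
      (B0 + C2) * ((k : ℝ) * N + 1) ^ 3 := by ring
    _ ≤ (B0 + C2) * (((N : ℝ) + 1) * ((k : ℝ) + 1)) ^ 3 := by gcongr
    _ = _ := by ring

theorem shifted_moment (D : Cop764.Data) {h : ℝ} (hh : 0 ≤ h) (hγ : 0 < γ) (hγ1 : γ ≤ 1)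
    {k n : ℕ} (hk : k ≤ n) :
    Integrable (fun ω : ℕ → ℝ => (G D.K (D.w h ω) k n) ^ γ) D.P ∧
    ∫ ω : ℕ → ℝ, (G D.K (D.w h ω) k n) ^ γ ∂D.P = WW D h γ (n - k) := by
  have hmp : MeasurePreserving (fun (ω : ℕ → ℝ) (m : ℕ) => ω (m + k)) D.P D.P :=
    Cop764.M_stat.J_stat D.ν k
  have e : ∀ ω : ℕ → ℝ, G D.K (D.w h (fun m => ω (m + k))) 0 (n - k) =
      G D.K (D.w h ω) k n := by
    intro ω
    have := Cop764.M_loc.J_loc.1 D.K (D.w h ω) k 0 (n - k)
    rw [Nat.zero_add, Nat.sub_add_cancel hk] at this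
    rw [← this]
    rfl
  have h1 := G_rpow_integrable (γ := γ) D hh hγ.le hγ1 (n - k)
  constructor
  · have h2 := hmp.integrable_comp_of_integrable h1
    refine h2.congr (Filter.Eventually.of_forall fun ω => ?_)
    show (G D.K (D.w h (fun m => ω (m + k))) 0 (n - k)) ^ γ = _
    rw [e ω]
  · have h3 : ∫ ω : ℕ → ℝ, (G D.K (D.w h ω) 0 (n - k)) ^ γ ∂(Measure.map
        (fun (ω : ℕ → ℝ) (m : ℕ) => ω (m + k)) D.P) =
        ∫ ω : ℕ → ℝ, (G D.K (D.w h (fun m => ω (m + k))) 0 (n - k)) ^ γ ∂D.P :=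
      integral_map hmp.measurable.aemeasurable
        (by rw [hmp.map_eq]; exact h1.aestronglyMeasurable)
    rw [hmp.map_eq] at h3
    unfold WW
    rw [h3]
    exact integral_congr_ae (Filter.Eventually.of_forall fun ω => by
      show _ = (G D.K (D.w h (fun m => ω (m + k))) 0 (n - k)) ^ γ
      rw [e ω])

theorem meas_Bj (D : Cop764.Data) (h : ℝ) (L j : ℕ) :
    Measurable (fun ω : ℕ → ℝ => Bj D.K (D.w h ω) L j) := by
  unfold Bj
  refine Finset.measurable_sum _ fun i _ => ?_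
  exact (Cop764.M_meas.J_meas D h 0 i).1.mul ((meas_phi D h i j).const_mul _)

theorem w_congr (D : Cop764.Data) (h : ℝ) {ω ω' : ℕ → ℝ} {s : Finset ℕ}
    (hω : ∀ n ∈ s, ω n = ω' n) : ∀ n ∈ s, D.w h ω n = D.w h ω' n := by
  intro n hn
  unfold Cop764.Data.w
  rw [hω n hn]

theorem loc_G (K : ℕ → ℝ) {w w' : ℕ → ℝ} {i j a b : ℕ} (hw : ∀ n ∈ Ioc i j, w n = w' n)
    (h1 : i ≤ a) (h2 : b ≤ j) : G K w a b = G K w' a b :=
  (Cop764.M_loc.J_loc.2.2.2 K w w' a b fun n hn => hw n (by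
    rw [Finset.mem_Ioc] at hn ⊢
    omega)).1

theorem loc_S {w w' : ℕ → ℝ} {i j a b : ℕ} (hw : ∀ n ∈ Ioc i j, w n = w' n)
    (h1 : i ≤ a) (h2 : b ≤ j) : S w a b = S w' a b :=
  (Cop764.M_loc.J_loc.2.2.2 (fun _ => 0) w w' a b fun n hn => hw n (by
    rw [Finset.mem_Ioc] at hn ⊢
    omega)).2.2

theorem loc_phi {w w' : ℕ → ℝ} {i j a b : ℕ} (hw : ∀ n ∈ Ioc i j, w n = w' n)
    (h1 : i ≤ a) (h2 : b ≤ j) : phi w a b = phi w' a b := by
  unfold Cop764.phi
  rw [loc_S hw h1 h2]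

theorem loc_Bj (K : ℕ → ℝ) {w w' : ℕ → ℝ} {L j : ℕ} (hLj : L < j)
    (hw : ∀ n ∈ Ioc 0 j, w n = w' n) : Bj K w L j = Bj K w' L j := by
  unfold Bj
  refine Finset.sum_congr rfl fun i hi => ?_
  rw [Finset.mem_range] at hi
  rw [loc_G K hw (Nat.zero_le _) (show i ≤ j by omega),
    loc_phi hw (Nat.zero_le _) le_rfl]

/-- expected fractional weight of a macroscopic step -/
noncomputable def BB (D : Cop764.Data) (h γ : ℝ) (L j : ℕ) : ℝ :=
  ∫ ω : ℕ → ℝ, hol γ (bj D.K L j) (Bj D.K (D.w h ω) L j) ∂D.P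

theorem BB_nonneg (D : Cop764.Data) (h γ : ℝ) (L j : ℕ) : 0 ≤ BB D h γ L j :=
  integral_nonneg fun ω => hol_nonneg (bj_nonneg (K_nonneg D) L j) (Bj_nonneg (K_nonneg D) L j)

theorem Bj_rpow_integrable (D : Cop764.Data) {h : ℝ} (hh : 0 ≤ h) (hγ : 0 < γ) (hγ1 : γ ≤ 1)
    {L j : ℕ} (hLj : L < j) : Integrable (fun ω : ℕ → ℝ => (Bj D.K (D.w h ω) L j) ^ γ) D.P := by
  refine (G_rpow_integrable (γ := γ) D hh hγ.le hγ1 j).mono'
    ((meas_Bj D h L j).pow_const γ).aestronglyMeasurable (Filter.Eventually.of_forall fun ω => ?_)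
  rw [Real.norm_of_nonneg (Real.rpow_nonneg (Bj_nonneg (K_nonneg D) L j) _)]
  exact Real.rpow_le_rpow (Bj_nonneg (K_nonneg D) L j) (Bj_le_G (K_nonneg D) hLj) hγ.le

theorem TT_nn (D : Cop764.Data) (n : ℕ) : 0 ≤ TT D.K n := TT_nonneg D.κ D.κ0 n

theorem macro_rec (D : Cop764.Data) {h : ℝ} (hh : 0 ≤ h) (hγ : 0 < γ) (hγ1 : γ < 1) (L n : ℕ)
    (_hn : 1 ≤ n) : ∑ k ∈ Ioc 0 n, (if L < k then BB D h γ L k else 0) * WW D h γ (n - k) ≤
      WW D h γ n := by
  rcases le_or_gt n L with hnL | hnL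
  · rw [Finset.sum_eq_zero]
    · exact WW_nonneg D h γ n
    · intro k hk
      rw [Finset.mem_Ioc] at hk
      rw [if_neg (by omega), zero_mul]
  · have e0 : ∑ k ∈ Ioc 0 n, (if L < k then BB D h γ L k else 0) * WW D h γ (n - k) =
        ∑ k ∈ Ioc L n, BB D h γ L k * WW D h γ (n - k) := by
      symm
      refine Finset.sum_subset_zero_on_sdiff ?_ ?_ ?_
      · intro k hk
        rw [Finset.mem_Ioc] at hk ⊢
        omega
      · intro k hk
        rw [Finset.mem_sdiff, Finset.mem_Ioc, Finset.mem_Ioc] at hk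
        rw [if_neg (by omega), zero_mul]
      · intro k hk
        rw [Finset.mem_Ioc] at hk
        rw [if_pos hk.1]
    rw [e0]
    have hind : ∀ k ∈ Ioc L n, IndepFun (fun ω : ℕ → ℝ => (Bj D.K (D.w h ω) L k) ^ γ)
        (fun ω : ℕ → ℝ => (G D.K (D.w h ω) k n) ^ γ) D.P := by
      intro k hk
      rw [Finset.mem_Ioc] at hk
      refine Cop764.M_indep.J_indep D.ν (Ioc 0 k) (Ioc k n) ?_ _ _
        ((meas_Bj D h L k).pow_const γ)
        ((Cop764.M_meas.J_meas D h k n).1.pow_const γ) ?_ ?_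
      · rw [Finset.disjoint_left]
        intro a ha hb
        rw [Finset.mem_Ioc] at ha hb
        omega
      · intro ω ω' hωω
        simp only [loc_Bj D.K hk.1 (w_congr D h hωω)]
      · intro ω ω' hωω
        simp only [loc_G D.K (w_congr D h hωω) le_rfl le_rfl]
    have hterm : ∀ k ∈ Ioc L n, Integrable (fun ω : ℕ → ℝ => (bj D.K L k) ^ (1 - γ) *
        ((Bj D.K (D.w h ω) L k) ^ γ * (G D.K (D.w h ω) k n) ^ γ)) D.P := fun k hk =>
      ((hind k hk).integrable_mul (Bj_rpow_integrable D hh hγ hγ1.le (Finset.mem_Ioc.1 hk).1)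
        (shifted_moment D hh hγ hγ1.le (Finset.mem_Ioc.1 hk).2).1).const_mul _
    have e1 : ∑ k ∈ Ioc L n, BB D h γ L k * WW D h γ (n - k) =
        ∫ ω : ℕ → ℝ, ∑ k ∈ Ioc L n, (bj D.K L k) ^ (1 - γ) *
          ((Bj D.K (D.w h ω) L k) ^ γ * (G D.K (D.w h ω) k n) ^ γ) ∂D.P := by
      rw [integral_finsetSum _ hterm]
      refine Finset.sum_congr rfl fun k hk => ?_
      rw [integral_const_mul, (hind k hk).integral_fun_mul_eq_mul_integral
        (Bj_rpow_integrable D hh hγ hγ1.le (Finset.mem_Ioc.1 hk).1).aestronglyMeasurable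
        (shifted_moment D hh hγ hγ1.le (Finset.mem_Ioc.1 hk).2).1.aestronglyMeasurable,
        (shifted_moment D hh hγ hγ1.le (Finset.mem_Ioc.1 hk).2).2, ← mul_assoc]
      congr 1
      unfold BB hol
      rw [integral_const_mul]
    rw [e1]
    unfold WW
    refine integral_mono (integrable_finsetSum _ hterm)
      (G_rpow_integrable D hh hγ.le hγ1.le n) fun ω => ?_
    show ∑ k ∈ Ioc L n, (bj D.K L k) ^ (1 - γ) *
          ((Bj D.K (D.w h ω) L k) ^ γ * (G D.K (D.w h ω) k n) ^ γ) ≤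
      (G D.K (D.w h ω) 0 n) ^ γ
    have h2 := holder (Ioc L n) (fun k => bj D.K L k)
      (fun k => Bj D.K (D.w h ω) L k * G D.K (D.w h ω) k n) hγ hγ1
      (fun k _ => bj_nonneg (K_nonneg D) L k)
      (fun k _ => mul_nonneg (Bj_nonneg (K_nonneg D) L k) (G_nn D h ω k n))
    rw [G_over hnL] at h2
    have h3 : hol γ (∑ k ∈ Ioc L n, bj D.K L k) (G D.K (D.w h ω) 0 n) ≤
        (G D.K (D.w h ω) 0 n) ^ γ := by
      have h4 := hol_mono hγ hγ1 (Finset.sum_nonneg fun k _ => bj_nonneg (K_nonneg D) L k)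
        (G_nn D h ω 0 n) (over_le (K_nonneg D) (TT_nn D) L n) (le_refl (G D.K (D.w h ω) 0 n))
      refine h4.trans (le_of_eq ?_)
      unfold hol
      rw [Real.one_rpow, one_mul]
    refine le_trans (le_of_eq ?_) (h2.trans h3)
    refine Finset.sum_congr rfl fun k _ => ?_
    unfold hol
    rw [Real.mul_rpow (Bj_nonneg (K_nonneg D) L k) (G_nn D h ω k n)]

/-- **Macroscopic criterion** -/
theorem pos_of_macro (D : Cop764.Data) {h : ℝ} (hh : 0 ≤ h) (hγ : γ * (1 + D.α) = 1) {L M : ℕ}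
    (hM : 1 < ∑ j ∈ Ioc L M, BB D h γ L j) : 0 < D.f h := by
  have hα := D.hα
  have hγ0 : 0 < γ := by
    by_contra hcon
    push Not at hcon
    nlinarith
  have hγ1 : γ < 1 := by
    by_contra hcon
    push Not at hcon
    nlinarith
  refine pos_of_rec D hh hγ (a := fun k => if L < k then BB D h γ L k else 0) (N := M) ?_
    (fun n hn => macro_rec D hh hγ0 hγ1 L n hn) ?_
  · intro n
    split_ifs
    · exact BB_nonneg D h γ L n
    · exact le_rfl
  · refine lt_of_lt_of_le hM (le_of_eq ?_)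
    refine Finset.sum_subset_zero_on_sdiff ?_ ?_ ?_
    · intro k hk
      rw [Finset.mem_Ioc] at hk ⊢
      omega
    · intro k hk
      rw [Finset.mem_sdiff, Finset.mem_Ioc, Finset.mem_Ioc] at hk
      rw [if_neg (by omega)]
    · intro k hk
      rw [Finset.mem_Ioc] at hk
      rw [if_pos hk.1]

end Pool.Agent.U260.CS
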