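import Pool.Agent.U260.CU2

set_option autoImplicit false
set_option maxHeartbeats 4000000

open Finset MeasureTheory ProbabilityTheory

namespace Pool.Agent.U260.CS

open Cop764 (G S phi G_eq)

/-- the tilted kernel -/
noncomputable def KA (D : Cop764.Data) (h γ : ℝ) (k : ℕ) : ℝ := D.K k * AA D h γ k

theorem KA_nonneg (D : Cop764.Data) (h γ : ℝ) (k : ℕ) : 0 ≤ KA D h γ k :=
  mul_nonneg (K_nonneg D k) (AA_nonneg D h γ k)

theorem u_eq (K : ℕ → ℝ) {n : ℕ} (hn : 1 ≤ n) :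
    u K n = ∑ k ∈ Ioc 0 n, K k * u K (n - k) := by
  unfold u
  rw [G_eq, if_neg (by omega)]
  refine Finset.sum_congr rfl fun k hk => ?_
  rw [Finset.mem_Ioc] at hk
  rw [phi_zero, mul_one, Nat.sub_zero, G_zero_eq K hk.2]
  rfl

variable {γ h : ℝ}

theorem meas_G (D : Cop764.Data) (h : ℝ) (a b : ℕ) :
    Measurable (fun ω : ℕ → ℝ => G D.K (D.w h ω) a b) := (Cop764.M_meas.J_meas D h a b).1

theorem prod_moment (D : Cop764.Data) {h : ℝ} (hh : 0 ≤ h) (hγ : 0 < γ) (hγ1 : γ ≤ 1)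
    {k n : ℕ} (hk : k ≤ n) :
    Integrable (fun ω : ℕ → ℝ => (phi (D.w h ω) 0 k) ^ γ * (G D.K (D.w h ω) k n) ^ γ) D.P ∧
    ∫ ω : ℕ → ℝ, (phi (D.w h ω) 0 k) ^ γ * (G D.K (D.w h ω) k n) ^ γ ∂D.P =
      AA D h γ k * WW D h γ (n - k) := by
  have hind : IndepFun (fun ω : ℕ → ℝ => (phi (D.w h ω) 0 k) ^ γ)
      (fun ω : ℕ → ℝ => (G D.K (D.w h ω) k n) ^ γ) D.P := by
    refine Cop764.M_indep.J_indep D.ν (Ioc 0 k) (Ioc k n) ?_ _ _ ((meas_phi D h 0 k).pow_const γ)
      ((meas_G D h k n).pow_const γ) ?_ ?_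
    · rw [Finset.disjoint_left]
      intro a ha hb
      rw [Finset.mem_Ioc] at ha hb
      omega
    · intro ω ω' hωω
      simp only [loc_phi (w_congr D h hωω) le_rfl le_rfl]
    · intro ω ω' hωω
      simp only [loc_G D.K (w_congr D h hωω) le_rfl le_rfl]
  have h1 := phi_rpow_integrable (γ := γ) D h hγ.le hγ1 k
  have h2 := shifted_moment D hh hγ hγ1 hk
  refine ⟨hind.integrable_mul h1 h2.1, ?_⟩
  rw [hind.integral_fun_mul_eq_mul_integral h1.aestronglyMeasurable h2.1.aestronglyMeasurable,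
    h2.2]
  rfl

theorem shifted_phi (D : Cop764.Data) (h : ℝ) (hγ : 0 ≤ γ) (hγ1 : γ ≤ 1)
    {k n : ℕ} (hk : k ≤ n) :
    Integrable (fun ω : ℕ → ℝ => (phi (D.w h ω) k n) ^ γ) D.P ∧
    ∫ ω : ℕ → ℝ, (phi (D.w h ω) k n) ^ γ ∂D.P = AA D h γ (n - k) := by
  have hmp : MeasurePreserving (fun (ω : ℕ → ℝ) (m : ℕ) => ω (m + k)) D.P D.P :=
    Cop764.M_stat.J_stat D.ν k
  have e : ∀ ω : ℕ → ℝ, phi (D.w h (fun m => ω (m + k))) 0 (n - k) = phi (D.w h ω) k n := by
    intro ω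
    unfold Cop764.phi
    have := Cop764.M_loc.J_loc.2.2.1 (D.w h ω) k 0 (n - k)
    rw [Nat.zero_add, Nat.sub_add_cancel hk] at this
    rw [← this]
    rfl
  have h1 := phi_rpow_integrable (γ := γ) D h hγ hγ1 (n - k)
  constructor
  · have h2 := hmp.integrable_comp_of_integrable h1
    refine h2.congr (Filter.Eventually.of_forall fun ω => ?_)
    show (phi (D.w h (fun m => ω (m + k))) 0 (n - k)) ^ γ = _
    rw [e ω]
  · have h3 : ∫ ω : ℕ → ℝ, (phi (D.w h ω) 0 (n - k)) ^ γ ∂(Measure.map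
        (fun (ω : ℕ → ℝ) (m : ℕ) => ω (m + k)) D.P) =
        ∫ ω : ℕ → ℝ, (phi (D.w h (fun m => ω (m + k))) 0 (n - k)) ^ γ ∂D.P :=
      integral_map hmp.measurable.aemeasurable
        (by rw [hmp.map_eq]; exact h1.aestronglyMeasurable)
    rw [hmp.map_eq] at h3
    unfold AA
    rw [h3]
    exact integral_congr_ae (Filter.Eventually.of_forall fun ω => by
      show _ = (phi (D.w h (fun m => ω (m + k))) 0 (n - k)) ^ γ
      rw [e ω])

theorem prod_moment2 (D : Cop764.Data) {h : ℝ} (hh : 0 ≤ h) (hγ : 0 < γ) (hγ1 : γ ≤ 1)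
    {i j : ℕ} (hij : i ≤ j) :
    Integrable (fun ω : ℕ → ℝ => (G D.K (D.w h ω) 0 i) ^ γ * (phi (D.w h ω) i j) ^ γ) D.P ∧
    ∫ ω : ℕ → ℝ, (G D.K (D.w h ω) 0 i) ^ γ * (phi (D.w h ω) i j) ^ γ ∂D.P =
      WW D h γ i * AA D h γ (j - i) := by
  have hind : IndepFun (fun ω : ℕ → ℝ => (G D.K (D.w h ω) 0 i) ^ γ)
      (fun ω : ℕ → ℝ => (phi (D.w h ω) i j) ^ γ) D.P := by
    refine Cop764.M_indep.J_indep D.ν (Ioc 0 i) (Ioc i j) ?_ _ _ ((meas_G D h 0 i).pow_const γ)
      ((meas_phi D h i j).pow_const γ) ?_ ?_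
    · rw [Finset.disjoint_left]
      intro a ha hb
      rw [Finset.mem_Ioc] at ha hb
      omega
    · intro ω ω' hωω
      simp only [loc_G D.K (w_congr D h hωω) le_rfl le_rfl]
    · intro ω ω' hωω
      simp only [loc_phi (w_congr D h hωω) le_rfl le_rfl]
  have h1 := G_rpow_integrable (γ := γ) D hh hγ.le hγ1 i
  have h2 := shifted_phi D h hγ.le hγ1 hij
  refine ⟨hind.integrable_mul h1 h2.1, ?_⟩
  rw [hind.integral_fun_mul_eq_mul_integral h1.aestronglyMeasurable h2.1.aestronglyMeasurable,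
    h2.2]
  rfl

/-- the tilted renewal mass function is a lower bound -/
theorem V_le (D : Cop764.Data) {h : ℝ} (hh : 0 ≤ h) (hγ : 0 < γ) (hγ1 : γ < 1) (n : ℕ) :
    u (KA D h γ) n ≤ (u D.K n) ^ (1 - γ) * WW D h γ n := by
  induction n using Nat.strong_induction_on with
  | _ n ih =>
    rcases Nat.eq_zero_or_pos n with h0 | h0
    · subst h0
      rw [u_zero, u_zero, WW_zero, Real.one_rpow, mul_one]
    · rw [u_eq (KA D h γ) h0]
      have hterm : ∀ k ∈ Ioc 0 n, Integrable (fun ω : ℕ → ℝ => D.K k * ((u D.K (n - k)) ^ (1 - γ) *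
          ((phi (D.w h ω) 0 k) ^ γ * (G D.K (D.w h ω) k n) ^ γ))) D.P := fun k hk =>
        ((prod_moment D hh hγ hγ1.le (Finset.mem_Ioc.1 hk).2).1.const_mul _).const_mul _
      have h1 : ∑ k ∈ Ioc 0 n, D.K k * ((u D.K (n - k)) ^ (1 - γ) *
          (AA D h γ k * WW D h γ (n - k))) ≤ (u D.K n) ^ (1 - γ) * WW D h γ n := by
        have e1 : ∑ k ∈ Ioc 0 n, D.K k * ((u D.K (n - k)) ^ (1 - γ) *
            (AA D h γ k * WW D h γ (n - k))) = ∫ ω : ℕ → ℝ, ∑ k ∈ Ioc 0 n,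
              D.K k * ((u D.K (n - k)) ^ (1 - γ) *
              ((phi (D.w h ω) 0 k) ^ γ * (G D.K (D.w h ω) k n) ^ γ)) ∂D.P := by
          rw [integral_finsetSum _ hterm]
          refine Finset.sum_congr rfl fun k hk => ?_
          rw [integral_const_mul, integral_const_mul,
            (prod_moment D hh hγ hγ1.le (Finset.mem_Ioc.1 hk).2).2]
        rw [e1]
        unfold WW
        rw [← integral_const_mul]
        refine integral_mono (integrable_finsetSum _ hterm)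
          ((G_rpow_integrable D hh hγ.le hγ1.le n).const_mul _) fun ω => ?_
        show ∑ k ∈ Ioc 0 n, D.K k * ((u D.K (n - k)) ^ (1 - γ) *
              ((phi (D.w h ω) 0 k) ^ γ * (G D.K (D.w h ω) k n) ^ γ)) ≤
          (u D.K n) ^ (1 - γ) * (G D.K (D.w h ω) 0 n) ^ γ
        have h2 := holder (Ioc 0 n) (fun k => D.K k * u D.K (n - k))
          (fun k => D.K k * (phi (D.w h ω) 0 k * G D.K (D.w h ω) k n)) hγ hγ1
          (fun k _ => mul_nonneg (K_nonneg D k) (u_nonneg (K_nonneg D) _))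
          (fun k _ => mul_nonneg (K_nonneg D k) (mul_nonneg (phi_nonneg _ _ _) (G_nn D h ω k n)))
        rw [← u_eq D.K h0] at h2
        have e2 : ∑ k ∈ Ioc 0 n, D.K k * (phi (D.w h ω) 0 k * G D.K (D.w h ω) k n) =
            G D.K (D.w h ω) 0 n := by
          rw [G_eq D.K (D.w h ω) 0 n, if_neg (by omega)]
          refine Finset.sum_congr rfl fun k _ => ?_
          simp only [Nat.sub_zero]
          ring
        rw [e2] at h2
        refine le_trans (le_of_eq ?_) h2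
        refine Finset.sum_congr rfl fun k _ => ?_
        rw [hol_mul hγ hγ1 (K_nonneg D k) (u_nonneg (K_nonneg D) _)
          (mul_nonneg (phi_nonneg _ _ _) (G_nn D h ω k n))]
        unfold hol
        rw [Real.mul_rpow (phi_nonneg _ _ _) (G_nn D h ω k n)]
      refine le_trans (Finset.sum_le_sum fun k hk => ?_) h1
      rw [Finset.mem_Ioc] at hk
      have h2 := ih (n - k) (by omega)
      have h3 := mul_le_mul_of_nonneg_left h2 (KA_nonneg D h γ k)
      refine h3.trans (le_of_eq ?_)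
      unfold KA
      ring

theorem V_le_exp (D : Cop764.Data) {c : ℝ} (hA : ∀ k : ℕ, AA D h γ k ≤ Real.exp (c * k)) (n : ℕ) :
    u (KA D h γ) n ≤ Real.exp (c * n) * u D.K n := by
  induction n using Nat.strong_induction_on with
  | _ n ih =>
    rcases Nat.eq_zero_or_pos n with h0 | h0
    · subst h0
      rw [u_zero, u_zero]
      simp
    · rw [u_eq (KA D h γ) h0, u_eq D.K h0, Finset.mul_sum]
      refine Finset.sum_le_sum fun k hk => ?_
      rw [Finset.mem_Ioc] at hk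
      have h2 := ih (n - k) (by omega)
      unfold KA
      calc D.K k * AA D h γ k * u (KA D h γ) (n - k) ≤
          D.K k * Real.exp (c * k) * (Real.exp (c * ((n - k : ℕ) : ℝ)) * u D.K (n - k)) := by
            refine mul_le_mul ?_ h2 (u_nonneg (KA_nonneg D h γ) _) ?_
            · exact mul_le_mul_of_nonneg_left (hA k) (K_nonneg D k)
            · exact mul_nonneg (K_nonneg D k) (Real.exp_pos _).le
        _ = (Real.exp (c * k) * Real.exp (c * ((n - k : ℕ) : ℝ))) *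
            (D.K k * u D.K (n - k)) := by ring
        _ = _ := by
            rw [← Real.exp_add]
            congr 2
            rw [Nat.cast_sub hk.2]
            ring

/-- the mixture of the single scale contributions -/
noncomputable def HHj (D : Cop764.Data) (h γ : ℝ) (L j : ℕ) (ω : ℕ → ℝ) : ℝ :=
  ∑ i ∈ range (L + 1), hol γ (u D.K i * D.K (j - i))
    (G D.K (D.w h ω) 0 i * (D.K (j - i) * phi (D.w h ω) i j))

theorem HHj_eq (D : Cop764.Data) (hγ : 0 < γ) (hγ1 : γ < 1) (L j : ℕ) (ω : ℕ → ℝ) :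
    HHj D h γ L j ω = ∑ i ∈ range (L + 1), D.K (j - i) * ((u D.K i) ^ (1 - γ) *
      ((G D.K (D.w h ω) 0 i) ^ γ * (phi (D.w h ω) i j) ^ γ)) := by
  unfold HHj
  refine Finset.sum_congr rfl fun i _ => ?_
  have e1 : u D.K i * D.K (j - i) = D.K (j - i) * u D.K i := mul_comm _ _
  have e2 : G D.K (D.w h ω) 0 i * (D.K (j - i) * phi (D.w h ω) i j) =
      D.K (j - i) * (G D.K (D.w h ω) 0 i * phi (D.w h ω) i j) := by ring
  rw [e1, e2, hol_mul hγ hγ1 (K_nonneg D _) (u_nonneg (K_nonneg D) _)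
    (mul_nonneg (G_nn D h ω 0 i) (phi_nonneg _ _ _))]
  unfold hol
  rw [Real.mul_rpow (G_nn D h ω 0 i) (phi_nonneg _ _ _)]

theorem HHj_moment (D : Cop764.Data) {h : ℝ} (hh : 0 ≤ h) (hγ : 0 < γ) (hγ1 : γ < 1) {L j : ℕ}
    (hLj : L < j) : Integrable (fun ω : ℕ → ℝ => HHj D h γ L j ω) D.P ∧
    bj (KA D h γ) L j ≤ ∫ ω : ℕ → ℝ, HHj D h γ L j ω ∂D.P := by
  simp only [HHj_eq D hγ hγ1]
  have hterm : ∀ i ∈ range (L + 1), Integrable (fun ω : ℕ → ℝ => D.K (j - i) *
      ((u D.K i) ^ (1 - γ) * ((G D.K (D.w h ω) 0 i) ^ γ * (phi (D.w h ω) i j) ^ γ))) D.P := by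
    intro i hi
    rw [Finset.mem_range] at hi
    exact ((prod_moment2 D hh hγ hγ1.le (show i ≤ j by omega)).1.const_mul _).const_mul _
  refine ⟨integrable_finsetSum _ hterm, ?_⟩
  rw [integral_finsetSum _ hterm]
  unfold bj
  refine Finset.sum_le_sum fun i hi => ?_
  rw [Finset.mem_range] at hi
  rw [integral_const_mul, integral_const_mul,
    (prod_moment2 D hh hγ hγ1.le (show i ≤ j by omega)).2]
  have h1 := mul_le_mul_of_nonneg_right (V_le D hh hγ hγ1 i) (KA_nonneg D h γ (j - i))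
  refine h1.trans (le_of_eq ?_)
  unfold KA
  ring

theorem TT_anti {K : ℕ → ℝ} (hK : ∀ n, 0 ≤ K n) {n m : ℕ} (h : n ≤ m) : TT K m ≤ TT K n := by
  have h1 := TT_sub K h
  have h2 : 0 ≤ ∑ k ∈ Ioc n m, K k := Finset.sum_nonneg fun k _ => hK k
  linarith

/-- total mass of the tilted overshoot -/
theorem tilted_mass (D : Cop764.Data) {L M : ℕ} (hLM : L ≤ M) {τ UV : ℝ}
    (hτ0 : 0 ≤ τ) (hτ : TT (KA D h γ) (M - L) ≤ τ)
    (hUV : ∑ i ∈ range (L + 1), u (KA D h γ) i ≤ UV) :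
    1 - τ * UV ≤ ∑ j ∈ Ioc L M, bj (KA D h γ) L j := by
  rw [over_mass _ hLM]
  have h1 : ∑ i ∈ range (L + 1), u (KA D h γ) i * TT (KA D h γ) (M - i) ≤
      ∑ i ∈ range (L + 1), u (KA D h γ) i * τ := by
    refine Finset.sum_le_sum fun i hi => ?_
    rw [Finset.mem_range] at hi
    refine mul_le_mul_of_nonneg_left ?_ (u_nonneg (KA_nonneg D h γ) i)
    exact (TT_anti (KA_nonneg D h γ) (by omega)).trans hτ
  rw [← Finset.sum_mul] at h1
  have h2 := mul_le_mul_of_nonneg_right hUV hτ0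
  linarith

theorem Icc_eq_Ioc (n : ℕ) : Icc 1 n = Ioc 0 n := by
  ext a
  simp only [Finset.mem_Icc, Finset.mem_Ioc]
  omega

/-- tail of the tilted kernel -/
theorem tilted_tail (D : Cop764.Data) (hA : ∀ k : ℕ, AA D h γ k ≤ 2) {N : ℕ}
    (hN : 1 < ∑ k ∈ Ioc 0 N, KA D h γ k) (n : ℕ) : TT (KA D h γ) n ≤ 2 * TT D.K n := by
  have hTN : TT (KA D h γ) N ≤ 0 := by
    unfold TT
    rw [Icc_eq_Ioc]
    linarith
  rcases le_or_gt N n with hn | hn
  · have h1 := TT_anti (KA_nonneg D h γ) hn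
    have h2 := TT_nn D n
    linarith
  · have h1 := TT_sub (KA D h γ) hn.le
    have h2 := TT_sub D.K hn.le
    have h3 : ∑ k ∈ Ioc n N, KA D h γ k ≤ 2 * ∑ k ∈ Ioc n N, D.K k := by
      rw [Finset.mul_sum]
      refine Finset.sum_le_sum fun k _ => ?_
      unfold KA
      rw [mul_comm 2]
      exact mul_le_mul_of_nonneg_left (hA k) (K_nonneg D k)
    have h4 := TT_nn D N
    linarith

end Pool.Agent.U260.CS
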