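import Pool.Agent.U260.CU3

set_option autoImplicit false
set_option maxHeartbeats 4000000

open Finset MeasureTheory ProbabilityTheory

namespace Pool.Agent.U260.CS

open Cop764 (G S phi G_eq)

/-- mass of a group of last renewal points -/
noncomputable def PP (K : ℕ → ℝ) (j : ℕ) (I : Finset ℕ) : ℝ := ∑ i ∈ I, u K i * K (j - i)

/-- weight of a group of last renewal points -/
noncomputable def YY (K w : ℕ → ℝ) (j : ℕ) (I : Finset ℕ) : ℝ :=
  ∑ i ∈ I, G K w 0 i * (K (j - i) * phi w i j)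

noncomputable def al (K w : ℕ → ℝ) (j : ℕ) (I : Finset ℕ) : ℝ := ∑ i ∈ I, G K w 0 i * K (j - i)

noncomputable def be (K w : ℕ → ℝ) (L j : ℕ) (I : Finset ℕ) : ℝ :=
  ∑ i ∈ I, G K w 0 i * K (j - i) * Real.exp (S w i L)

section
variable {K w : ℕ → ℝ}

theorem PP_nonneg (hK : ∀ n, 0 ≤ K n) (j : ℕ) (I : Finset ℕ) : 0 ≤ PP K j I :=
  Finset.sum_nonneg fun _ _ => mul_nonneg (u_nonneg hK _) (hK _)

theorem YY_nonneg (hK : ∀ n, 0 ≤ K n) (j : ℕ) (I : Finset ℕ) : 0 ≤ YY K w j I :=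
  Finset.sum_nonneg fun _ _ => mul_nonneg (G_nonneg hK _ _) (mul_nonneg (hK _) (phi_nonneg _ _ _))

theorem al_nonneg (hK : ∀ n, 0 ≤ K n) (j : ℕ) (I : Finset ℕ) : 0 ≤ al K w j I :=
  Finset.sum_nonneg fun _ _ => mul_nonneg (G_nonneg hK _ _) (hK _)

theorem be_nonneg (hK : ∀ n, 0 ≤ K n) (L j : ℕ) (I : Finset ℕ) : 0 ≤ be K w L j I :=
  Finset.sum_nonneg fun _ _ => mul_nonneg (mul_nonneg (G_nonneg hK _ _) (hK _)) (Real.exp_pos _).le

theorem YY_eq {L j : ℕ} (hLj : L ≤ j) {I : Finset ℕ} (hI : ∀ i ∈ I, i ≤ L) :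
    YY K w j I = (al K w j I + be K w L j I * Real.exp (S w L j)) / 2 := by
  unfold YY al be
  rw [Finset.sum_mul, ← Finset.sum_add_distrib, Finset.sum_div]
  refine Finset.sum_congr rfl fun i hi => ?_
  unfold Cop764.phi
  rw [S_add w (hI i hi) hLj, Real.exp_add]
  ring

theorem be_le (hK : ∀ n, 0 ≤ K n) {L j : ℕ} {I : Finset ℕ} {a : ℝ}
    (h : ∀ i ∈ I, S w i L ≤ a) : be K w L j I ≤ Real.exp a * al K w j I := by
  unfold be al
  rw [Finset.mul_sum]
  refine Finset.sum_le_sum fun i hi => ?_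
  rw [mul_comm (Real.exp a)]
  refine mul_le_mul_of_nonneg_left (Real.exp_le_exp.2 (h i hi)) ?_
  exact mul_nonneg (G_nonneg hK _ _) (hK _)

theorem le_be (hK : ∀ n, 0 ≤ K n) {L j : ℕ} {I : Finset ℕ} {a : ℝ}
    (h : ∀ i ∈ I, a ≤ S w i L) : Real.exp a * al K w j I ≤ be K w L j I := by
  unfold be al
  rw [Finset.mul_sum]
  refine Finset.sum_le_sum fun i hi => ?_
  rw [mul_comm (Real.exp a)]
  refine mul_le_mul_of_nonneg_left (Real.exp_le_exp.2 (h i hi)) ?_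
  exact mul_nonneg (G_nonneg hK _ _) (hK _)

theorem exp_three : (16 : ℝ) ≤ Real.exp 3 := by
  have e : (3 : ℝ) = 1 + 1 + 1 := by norm_num
  rw [e, Real.exp_add, Real.exp_add]
  have h2 := Real.exp_one_gt_d9
  have h4 : (2.7 : ℝ) * 2.7 ≤ Real.exp 1 * Real.exp 1 :=
    mul_le_mul (by linarith) (by linarith) (by norm_num) (by linarith)
  calc (16 : ℝ) ≤ (2.7 * 2.7) * 2.7 := by norm_num
    _ ≤ _ := mul_le_mul h4 (by linarith) (by norm_num) (by positivity)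

/-- the two groups have different ratios in one of the two regimes -/
theorem ratio (hK : ∀ n, 0 ≤ K n) {L j : ℕ} (hLj : L ≤ j) {I1 I2 : Finset ℕ}
    (hI1 : ∀ i ∈ I1, i ≤ L) (hI2 : ∀ i ∈ I2, i ≤ L) {a b : ℝ}
    (h1 : ∀ i ∈ I1, -1 ≤ S w 0 i) (h2 : ∀ i ∈ I2, S w 0 i ≤ -4)
    (ha : ∀ i ∈ I2, S w i L ≤ a) (hb : ∀ i ∈ I1, -b ≤ S w i L)
    (hF : (4 * (PP K j I1 * al K w j I2) ≤ al K w j I1 * PP K j I2 ∧ S w L j ≤ -a) ∨
      (al K w j I1 * PP K j I2 < 4 * (PP K j I1 * al K w j I2) ∧ b ≤ S w L j)) :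
    2 * (PP K j I1 * YY K w j I2) ≤ YY K w j I1 * PP K j I2 ∨
      2 * (YY K w j I1 * PP K j I2) ≤ PP K j I1 * YY K w j I2 := by
  have hP1 := PP_nonneg hK j I1
  have hP2 := PP_nonneg hK j I2
  have ha1 := al_nonneg (w := w) hK j I1
  have ha2 := al_nonneg (w := w) hK j I2
  have hb1 := be_nonneg (w := w) hK L j I1
  have hb2 := be_nonneg (w := w) hK L j I2
  set s := S w L j with hs
  have hes : 0 < Real.exp s := Real.exp_pos s
  rw [YY_eq hLj hI1, YY_eq hLj hI2, ← hs]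
  set A1 := al K w j I1
  set A2 := al K w j I2
  set B1 := be K w L j I1 with hB1
  set B2 := be K w L j I2 with hB2
  set P1 := PP K j I1
  set P2 := PP K j I2
  rcases hF with ⟨hc, hsa⟩ | ⟨hc, hsb⟩
  · left
    have h3 : B2 * Real.exp s ≤ A2 := by
      have h4 : B2 ≤ Real.exp a * A2 := be_le hK ha
      calc B2 * Real.exp s ≤ (Real.exp a * A2) * Real.exp s :=
            mul_le_mul_of_nonneg_right h4 hes.le
        _ = Real.exp (a + s) * A2 := by rw [Real.exp_add]; ring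
        _ ≤ 1 * A2 := by
            refine mul_le_mul_of_nonneg_right (Real.exp_le_one_iff.2 (by linarith)) ha2
        _ = A2 := one_mul _
    have h5 : P1 * ((A2 + B2 * Real.exp s) / 2) ≤ P1 * A2 :=
      mul_le_mul_of_nonneg_left (by linarith) hP1
    have h6 : A1 / 2 * P2 ≤ (A1 + B1 * Real.exp s) / 2 * P2 := by
      refine mul_le_mul_of_nonneg_right ?_ hP2
      have := mul_nonneg hb1 hes.le
      linarith
    linarith
  · right
    have hSL : ∀ i ≤ L, S w i L = S w 0 L - S w 0 i := by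
      intro i hi
      have := S_add w (Nat.zero_le i) hi
      linarith
    have h3 : A1 ≤ B1 * Real.exp s := by
      have h4 : Real.exp (-b) * A1 ≤ B1 := le_be hK hb
      have h5 : (Real.exp (-b) * A1) * Real.exp s ≤ B1 * Real.exp s :=
        mul_le_mul_of_nonneg_right h4 hes.le
      refine le_trans ?_ h5
      have e : (Real.exp (-b) * A1) * Real.exp s = Real.exp (s - b) * A1 := by
        rw [sub_eq_add_neg, Real.exp_add]
        ring
      rw [e]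
      have h6 : 1 ≤ Real.exp (s - b) := Real.one_le_exp (by linarith)
      nlinarith
    have h7 : B1 ≤ Real.exp (S w 0 L + 1) * A1 :=
      be_le hK fun i hi => by
        rw [hSL i (hI1 i hi)]
        linarith [h1 i hi]
    have h8 : Real.exp (S w 0 L + 4) * A2 ≤ B2 :=
      le_be hK fun i hi => by
        rw [hSL i (hI2 i hi)]
        linarith [h2 i hi]
    set E := Real.exp (S w 0 L + 1) with hE
    have hE0 : 0 < E := Real.exp_pos _
    have e4 : Real.exp (S w 0 L + 4) = E * Real.exp 3 := by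
      rw [hE, ← Real.exp_add]
      congr 1
      ring
    rw [e4] at h8
    have h9 : 16 * (E * A2) ≤ B2 := by
      have h10 : 16 * (E * A2) ≤ Real.exp 3 * (E * A2) :=
        mul_le_mul_of_nonneg_right exp_three (mul_nonneg hE0.le ha2)
      calc 16 * (E * A2) ≤ Real.exp 3 * (E * A2) := h10
        _ = E * Real.exp 3 * A2 := by ring
        _ ≤ B2 := h8
    -- 2 Y1 P2 ≤ 2 B1 e^s P2 ≤ 2 E A1 e^s P2 ≤ 8 E P1 A2 e^s ≤ P1 B2 e^s / 2
    have h11 : (A1 + B1 * Real.exp s) / 2 ≤ E * A1 * Real.exp s := by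
      have := mul_le_mul_of_nonneg_right h7 hes.le
      linarith
    have h12 : (A1 + B1 * Real.exp s) / 2 * P2 ≤ E * A1 * Real.exp s * P2 :=
      mul_le_mul_of_nonneg_right h11 hP2
    have h13 : E * A1 * Real.exp s * P2 ≤ E * Real.exp s * (4 * (P1 * A2)) := by
      have h14 := mul_le_mul_of_nonneg_left hc.le (mul_nonneg hE0.le hes.le)
      linarith
    have h15 : P1 * (16 * (E * A2)) * Real.exp s ≤ P1 * B2 * Real.exp s :=
      mul_le_mul_of_nonneg_right (mul_le_mul_of_nonneg_left h9 hP1) hes.le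
    have h16 : P1 * (B2 * Real.exp s / 2) ≤ P1 * ((A2 + B2 * Real.exp s) / 2) :=
      mul_le_mul_of_nonneg_left (by linarith) hP1
    linarith

theorem YY_ge (hK : ∀ n, 0 ≤ K n) {L j : ℕ} {I : Finset ℕ} {g : ℝ}
    (hI : ∀ i ∈ I, i ≤ L) (h : ∀ i ∈ I, -(2 * g) ≤ S w 0 i) :
    Real.exp (-g) / 2 * PP K j I ≤ YY K w j I := by
  unfold YY PP
  rw [Finset.mul_sum]
  refine Finset.sum_le_sum fun i hi => ?_
  have h1 := G_ge (w := w) hK i i 0 (by omega) (Nat.zero_le i)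
  rw [Nat.sub_zero] at h1
  have h2 : Real.exp (-g) * u K i ≤ G K w 0 i := by
    refine le_trans (mul_le_mul_of_nonneg_right (Real.exp_le_exp.2 ?_) (u_nonneg hK i)) h1
    linarith [h i hi]
  have h3 : K (j - i) * (1 / 2) ≤ K (j - i) * phi w i j :=
    mul_le_mul_of_nonneg_left (half_le_phi w i j) (hK _)
  calc Real.exp (-g) / 2 * (u K i * K (j - i)) =
      (Real.exp (-g) * u K i) * (K (j - i) * (1 / 2)) := by ring
    _ ≤ _ := mul_le_mul h2 h3 (mul_nonneg (hK _) (by norm_num)) (G_nonneg hK _ _)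

/-- Hölder within one group -/
theorem hol_group (hK : ∀ n, 0 ≤ K n) {γ : ℝ} (hγ : 0 < γ) (hγ1 : γ < 1) (j : ℕ) (I : Finset ℕ) :
    ∑ i ∈ I, hol γ (u K i * K (j - i)) (G K w 0 i * (K (j - i) * phi w i j)) ≤
      hol γ (PP K j I) (YY K w j I) :=
  holder I _ _ hγ hγ1 (fun i _ => mul_nonneg (u_nonneg hK i) (hK _))
    (fun i _ => mul_nonneg (G_nonneg hK _ _) (mul_nonneg (hK _) (phi_nonneg _ _ _)))

/-- the three groups -/
theorem split3 {L1 L2 L : ℕ} (h12 : L1 ≤ L2) (h2L : L2 ≤ L) (g : ℕ → ℝ) :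
    ∑ i ∈ range (L + 1), g i = ∑ i ∈ range (L1 + 1), g i + ∑ i ∈ Ico (L2 + 1) (L + 1), g i +
      ∑ i ∈ Ico (L1 + 1) (L2 + 1), g i := by
  rw [Finset.range_eq_Ico, Finset.range_eq_Ico,
    ← Finset.sum_Ico_consecutive g (Nat.zero_le (L1 + 1)) (show L1 + 1 ≤ L + 1 by omega),
    ← Finset.sum_Ico_consecutive g (show L1 + 1 ≤ L2 + 1 by omega) (show L2 + 1 ≤ L + 1 by omega)]
  ring

theorem mixture_le (hK : ∀ n, 0 ≤ K n) {γ : ℝ} (hγ : 0 < γ) (hγ1 : γ < 1) (L j : ℕ) :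
    ∑ i ∈ range (L + 1), hol γ (u K i * K (j - i)) (G K w 0 i * (K (j - i) * phi w i j)) ≤
      hol γ (bj K L j) (Bj K w L j) := hol_group hK hγ hγ1 j (range (L + 1))

/-- pointwise gain -/
theorem mixture_gain (hK : ∀ n, 0 ≤ K n) {γ : ℝ} (hγ : 1 / 2 ≤ γ) (hγ1 : γ < 1) {L1 L2 L j : ℕ}
    (h12 : L1 ≤ L2) (h2L : L2 ≤ L) (hLj : L ≤ j) {a b g c : ℝ} (hc : 0 < c)
    (hg : 0 ≤ g)
    (hP1 : 0 < PP K j (range (L1 + 1))) (hP2 : 0 < PP K j (Ico (L2 + 1) (L + 1)))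
    (hc1 : c * (PP K j (range (L1 + 1)) + PP K j (Ico (L2 + 1) (L + 1))) ≤
      PP K j (range (L1 + 1)))
    (hc2 : c * (PP K j (range (L1 + 1)) + PP K j (Ico (L2 + 1) (L + 1))) ≤
      PP K j (Ico (L2 + 1) (L + 1)))
    (h0 : ∀ i ≤ L, -(2 * g) ≤ S w 0 i)
    (h1 : ∀ i ≤ L1, -1 ≤ S w 0 i) (h2 : ∀ i, L2 < i → i ≤ L → S w 0 i ≤ -4)
    (ha : ∀ i ≤ L, S w i L ≤ a) (hb : ∀ i ≤ L, -b ≤ S w i L)
    (hF : (4 * (PP K j (range (L1 + 1)) * al K w j (Ico (L2 + 1) (L + 1))) ≤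
        al K w j (range (L1 + 1)) * PP K j (Ico (L2 + 1) (L + 1)) ∧ S w L j ≤ -a) ∨
      (al K w j (range (L1 + 1)) * PP K j (Ico (L2 + 1) (L + 1)) <
        4 * (PP K j (range (L1 + 1)) * al K w j (Ico (L2 + 1) (L + 1))) ∧ b ≤ S w L j)) :
    ∑ i ∈ range (L + 1), hol γ (u K i * K (j - i)) (G K w 0 i * (K (j - i) * phi w i j)) +
      (1 - γ) * (c ^ 2 / 64) * (Real.exp (-g) / 2) * PP K j (Ico (L2 + 1) (L + 1)) ≤
      hol γ (bj K L j) (Bj K w L j) := by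
  have hγ0 : 0 < γ := by linarith
  set I1 := range (L1 + 1) with hI1
  set I2 := Ico (L2 + 1) (L + 1) with hI2
  set I3 := Ico (L1 + 1) (L2 + 1) with hI3
  have m1 : ∀ i ∈ I1, i ≤ L := fun i hi => by
    rw [hI1, Finset.mem_range] at hi
    omega
  have m1' : ∀ i ∈ I1, i ≤ L1 := fun i hi => by
    rw [hI1, Finset.mem_range] at hi
    omega
  have m2 : ∀ i ∈ I2, i ≤ L := fun i hi => by
    rw [hI2, Finset.mem_Ico] at hi
    omega
  have m2' : ∀ i ∈ I2, L2 < i := fun i hi => by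
    rw [hI2, Finset.mem_Ico] at hi
    omega
  have hr := ratio hK hLj m1 m2 (fun i hi => h1 i (m1' i hi)) (fun i hi => h2 i (m2' i hi) (m2 i hi))
    (fun i hi => ha i (m2 i hi)) (fun i hi => hb i (m1 i hi)) hF
  have y1 := YY_ge (j := j) hK m1 (fun i hi => h0 i (m1 i hi))
  have y2 := YY_ge (j := j) hK m2 (fun i hi => h0 i (m2 i hi))
  set P1 := PP K j I1
  set P2 := PP K j I2
  set Y1 := YY K w j I1
  set Y2 := YY K w j I2
  have he : 0 < Real.exp (-g) / 2 := by positivity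
  have hY1 : 0 < Y1 := lt_of_lt_of_le (by positivity) y1
  have hY2 : 0 < Y2 := lt_of_lt_of_le (by positivity) y2
  have hgap := gap_ineq hγ hγ1 hc hP1 hP2 hY1 hY2 hc1 hc2 hr
  have hB : Bj K w L j = (Y1 + Y2) + YY K w j I3 := split3 h12 h2L _
  have hb' : bj K L j = (P1 + P2) + PP K j I3 := split3 h12 h2L _
  have hP3 := PP_nonneg hK j I3
  have hY3 := YY_nonneg (w := w) hK j I3
  have h3 := holder2 hγ0 hγ1 (add_nonneg hP1.le hP2.le) hP3 (add_nonneg hY1.le hY2.le) hY3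
  rw [hB, hb', split3 h12 h2L]
  have g1 := hol_group (w := w) hK hγ0 hγ1 j I1
  have g2 := hol_group (w := w) hK hγ0 hγ1 j I2
  have g3 := hol_group (w := w) hK hγ0 hγ1 j I3
  -- lower bound of the common weight
  have h4 : (Real.exp (-g) / 2) * P2 ≤ hol γ (P1 + P2) (Y1 + Y2) := by
    have h5 : hol γ ((Real.exp (-g) / 2) * (P1 + P2)) ((Real.exp (-g) / 2) * (P1 + P2)) ≤
        hol γ (P1 + P2) (Y1 + Y2) := by
      refine hol_mono hγ0 hγ1 (by positivity) (by positivity) ?_ (by linarith)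
      have h6 : Real.exp (-g) / 2 ≤ 1 := by
        have : Real.exp (-g) ≤ 1 := Real.exp_le_one_iff.2 (by linarith)
        linarith
      have h7 : 0 ≤ P1 + P2 := by positivity
      nlinarith
    rw [hol_self hγ0 hγ1 (by positivity)] at h5
    have h6 : 0 ≤ (Real.exp (-g) / 2) * P1 := by positivity
    linarith
  have h8 : 0 ≤ (1 - γ) * (c ^ 2 / 64) := mul_nonneg (by linarith) (by positivity)
  have h9 := mul_le_mul_of_nonneg_left h4 h8
  have e9 : (1 - γ) * (c ^ 2 / 64) * (Real.exp (-g) / 2) * P2 =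
      (1 - γ) * (c ^ 2 / 64) * ((Real.exp (-g) / 2) * P2) := by ring
  rw [e9]
  linarith

end

end Pool.Agent.U260.CS
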