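import Pool.Agent.U260.CU4

set_option autoImplicit false
set_option maxHeartbeats 4000000

open Finset Filter Topology

namespace Pool.Agent.U260.CS

open Cop764 (G S phi G_eq)

/-- `UU(n) TT(n) ≤ 1` -/
theorem UU_TT {K : ℕ → ℝ} (hK : ∀ n, 0 ≤ K n) (n : ℕ) : UU K n * TT K n ≤ 1 := by
  rw [← renewal_identity K n]
  unfold UU
  rw [Finset.sum_mul]
  refine Finset.sum_le_sum fun j _ => ?_
  exact mul_le_mul_of_nonneg_left (TT_anti hK (Nat.sub_le n j)) (u_nonneg hK j)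

/-- bounds for the gap law and its renewal function -/
theorem ren_bounds (κ : PMF ℕ) (h0 : κ 0 = 0) {α cK : ℝ} (hα : 0 < α) (hα1 : α < 1)
    (hcK : 0 < cK)
    (htail : Tendsto (fun n : ℕ => (n : ℝ) ^ (1 + α) * (κ n).toReal) atTop (𝓝 cK)) :
    ∃ n1 : ℕ, 1 ≤ n1 ∧ ∀ n, n1 ≤ n →
      (cK / 2 * (n : ℝ) ^ (-(1 + α)) ≤ (κ n).toReal ∧
        (κ n).toReal ≤ 2 * cK * (n : ℝ) ^ (-(1 + α))) ∧
      TT (fun n => (κ n).toReal) n ≤ 8 * cK / α * (n : ℝ) ^ (-α) ∧
      (α * (1 - α) / 16) / cK * (n : ℝ) ^ α ≤ UU (fun n => (κ n).toReal) n ∧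
      UU (fun n => (κ n).toReal) n ≤ 8 / cK * (n : ℝ) ^ α := by
  obtain ⟨n1, hn1, htb⟩ := tail_bounds (κ := κ) h0 hα hα1 hcK htail
  have hev2 : ∀ᶠ n : ℕ in atTop, (n : ℝ) ^ (1 + α) * (κ n).toReal < 2 * cK :=
    htail.eventually (gt_mem_nhds (by linarith))
  obtain ⟨k1, hk1⟩ := eventually_atTop.mp hev2
  set k0 := max n1 k1 with hk0
  have hk0n : n1 ≤ k0 := le_max_left _ _
  have hk01 : 1 ≤ k0 := hn1.trans hk0n
  have hKup : ∀ n, k0 ≤ n → (κ n).toReal ≤ 2 * cK * (n : ℝ) ^ (-(1 + α)) := by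
    intro n hn
    have hnpos : (0 : ℝ) < n := by
      have : 1 ≤ n := hk01.trans hn
      exact_mod_cast this
    have h1 := hk1 n ((le_max_right _ _).trans hn)
    rw [Real.rpow_neg hnpos.le, ← div_eq_mul_inv, le_div_iff₀ (Real.rpow_pos_of_pos hnpos _)]
    linarith
  have hKnn : ∀ n, 0 ≤ (fun n => (κ n).toReal) n := fun n => ENNReal.toReal_nonneg
  refine ⟨k0, hk01, fun n hn => ?_⟩
  have hnr : (1 : ℝ) ≤ n := by
    have : 1 ≤ n := hk01.trans hn
    exact_mod_cast this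
  have hnpos : (0 : ℝ) < n := by linarith
  refine ⟨⟨(htb n (hk0n.trans hn)).1, hKup n hn⟩, ?_, ?_, ?_⟩
  · have h1 := TT_le κ h0 hα hα1 hcK hk01 hKup hn
    refine h1.trans ?_
    refine mul_le_mul_of_nonneg_left ?_ (by positivity)
    exact Real.rpow_le_rpow_of_nonpos hnpos (by linarith) (by linarith)
  · have h1 := (htb n (hk0n.trans hn)).2
    refine le_trans (le_of_eq ?_) h1
    congr 1
    rw [div_div]
  · have hTl : cK / 8 * (n : ℝ) ^ (-α) ≤ TT (fun n => (κ n).toReal) n := by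
      have h1 := TT_sub (fun n => (κ n).toReal) (show n ≤ 2 * n by omega)
      have h2 : 0 ≤ TT (fun n => (κ n).toReal) (2 * n) := TT_nonneg κ h0 _
      have h3 : ∑ k ∈ Ioc n (2 * n), cK / 2 * (2 * (n : ℝ)) ^ (-(1 + α)) ≤
          ∑ k ∈ Ioc n (2 * n), (κ k).toReal := by
        refine Finset.sum_le_sum fun k hk => ?_
        rw [Finset.mem_Ioc] at hk
        refine le_trans ?_ (htb k (by omega)).1
        refine mul_le_mul_of_nonneg_left ?_ (by linarith)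
        have hkr : (k : ℝ) ≤ 2 * n := by exact_mod_cast hk.2
        have hkp : (0 : ℝ) < k := by
          have : 0 < k := by omega
          exact_mod_cast this
        exact Real.rpow_le_rpow_of_nonpos hkp hkr (by linarith)
      rw [Finset.sum_const, Nat.card_Ioc, nsmul_eq_mul] at h3
      have e1 : ((2 * n - n : ℕ) : ℝ) = n := by
        have : 2 * n - n = n := by omega
        rw [this]
      rw [e1] at h3
      have e2 : (n : ℝ) * (cK / 2 * (2 * (n : ℝ)) ^ (-(1 + α))) =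
          cK / 2 * 2 ^ (-(1 + α)) * (n : ℝ) ^ (-α) := by
        rw [Real.mul_rpow (by norm_num) hnpos.le]
        have e3 : (n : ℝ) * (n : ℝ) ^ (-(1 + α)) = (n : ℝ) ^ (-α) := by
          have e4 : (-α) = 1 + (-(1 + α)) := by ring
          rw [e4, Real.rpow_add hnpos, Real.rpow_one]
        calc (n : ℝ) * (cK / 2 * (2 ^ (-(1 + α)) * (n : ℝ) ^ (-(1 + α)))) =
            cK / 2 * 2 ^ (-(1 + α)) * ((n : ℝ) * (n : ℝ) ^ (-(1 + α))) := by ring
          _ = _ := by rw [e3]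
      rw [e2] at h3
      have h5 : (1 : ℝ) / 4 ≤ 2 ^ (-(1 + α)) := by
        have e5 : (1 : ℝ) / 4 = 2 ^ (-(2 : ℝ)) := by
          rw [Real.rpow_neg (by norm_num)]
          norm_num
        rw [e5]
        exact Real.rpow_le_rpow_of_exponent_le (by norm_num) (by linarith)
      have h6 : 0 ≤ (n : ℝ) ^ (-α) := Real.rpow_nonneg hnpos.le _
      have h7 : cK / 8 * (n : ℝ) ^ (-α) ≤ cK / 2 * 2 ^ (-(1 + α)) * (n : ℝ) ^ (-α) := by
        refine mul_le_mul_of_nonneg_right ?_ h6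
        nlinarith
      linarith
    have h1 := UU_TT hKnn n
    have hUnn : 0 ≤ UU (fun n => (κ n).toReal) n :=
      Finset.sum_nonneg fun k _ => u_nonneg hKnn k
    have h2 : UU (fun n => (κ n).toReal) n * (cK / 8 * (n : ℝ) ^ (-α)) ≤ 1 :=
      (mul_le_mul_of_nonneg_left hTl hUnn).trans h1
    have h3 : 0 < cK / 8 * (n : ℝ) ^ (-α) := by positivity
    have h4 : UU (fun n => (κ n).toReal) n ≤ 1 / (cK / 8 * (n : ℝ) ^ (-α)) := by
      rw [le_div_iff₀ h3]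
      exact h2
    refine h4.trans (le_of_eq ?_)
    rw [Real.rpow_neg hnpos.le]
    field_simp

theorem PP_lower {K : ℕ → ℝ} (hK : ∀ n, 0 ≤ K n) {L j : ℕ} {I : Finset ℕ} {v : ℝ}
    (hv : ∀ i ∈ I, v ≤ K (j - i)) : v * ∑ i ∈ I, u K i ≤ PP K j I := by
  unfold PP
  rw [Finset.mul_sum]
  refine Finset.sum_le_sum fun i hi => ?_
  rw [mul_comm]
  exact mul_le_mul_of_nonneg_left (hv i hi) (u_nonneg hK i)

theorem PP_upper {K : ℕ → ℝ} (hK : ∀ n, 0 ≤ K n) {j : ℕ} {I : Finset ℕ} {v : ℝ}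
    (hv : ∀ i ∈ I, K (j - i) ≤ v) : PP K j I ≤ v * ∑ i ∈ I, u K i := by
  unfold PP
  rw [Finset.mul_sum]
  refine Finset.sum_le_sum fun i hi => ?_
  rw [mul_comm v]
  exact mul_le_mul_of_nonneg_left (hv i hi) (u_nonneg hK i)

theorem group_bounds {K : ℕ → ℝ} (hK : ∀ n, 0 ≤ K n) {α cK cl : ℝ} (hα : 0 < α) (hα1 : α < 1)
    (hcK : 0 < cK) (hcl : 0 < cl) {n1 : ℕ}
    (hKb : ∀ n, n1 ≤ n → cK / 2 * (n : ℝ) ^ (-(1 + α)) ≤ K n ∧
      K n ≤ 2 * cK * (n : ℝ) ^ (-(1 + α)))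
    (hU : ∀ n, n1 ≤ n → cl / cK * (n : ℝ) ^ α ≤ UU K n ∧ UU K n ≤ 8 / cK * (n : ℝ) ^ α)
    {L1 L2 L j : ℕ} (hn1 : 1 ≤ n1) (hL1n : n1 ≤ L1) (h12 : L1 ≤ L2) (h2L : L2 ≤ L)
    {η : ℝ} (hη : 0 < η) (hη1 : η ≤ 1) (hηL : η * L ≤ L1)
    (hL2 : 16 * (L2 : ℝ) ^ α ≤ cl * (L : ℝ) ^ α) (hj1 : 2 * L < j) (hj2 : j ≤ 3 * L) :
    cl / 36 / L ≤ PP K j (Ico (L2 + 1) (L + 1)) ∧ 0 < PP K j (range (L1 + 1)) ∧
    cl * η / 1152 * (PP K j (range (L1 + 1)) + PP K j (Ico (L2 + 1) (L + 1))) ≤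
      PP K j (range (L1 + 1)) ∧
    cl * η / 1152 * (PP K j (range (L1 + 1)) + PP K j (Ico (L2 + 1) (L + 1))) ≤
      PP K j (Ico (L2 + 1) (L + 1)) := by
  have hLpos : (0 : ℝ) < L := by
    have : 0 < L := by omega
    exact_mod_cast this
  have hL1pos : (0 : ℝ) < L1 := by
    have : 0 < L1 := by omega
    exact_mod_cast this
  set v := cK / 2 * (3 * (L : ℝ)) ^ (-(1 + α)) with hv
  set V := 2 * cK * (L : ℝ) ^ (-(1 + α)) with hV
  have hv0 : 0 < v := by positivity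
  have hV0 : 0 < V := by positivity
  have hrange : ∀ i, i ≤ L → v ≤ K (j - i) ∧ K (j - i) ≤ V := by
    intro i hi
    have h1 : L ≤ j - i := by omega
    have h2 : j - i ≤ 3 * L := by omega
    have h3 := hKb (j - i) (by omega)
    have h1r : (L : ℝ) ≤ ((j - i : ℕ) : ℝ) := by exact_mod_cast h1
    have h2r : ((j - i : ℕ) : ℝ) ≤ 3 * L := by exact_mod_cast h2
    have hp : (0 : ℝ) < ((j - i : ℕ) : ℝ) := by linarith
    constructor
    · refine le_trans ?_ h3.1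
      exact mul_le_mul_of_nonneg_left
        (Real.rpow_le_rpow_of_nonpos hp h2r (by linarith)) (by linarith)
    · refine h3.2.trans ?_
      exact mul_le_mul_of_nonneg_left
        (Real.rpow_le_rpow_of_nonpos hLpos h1r (by linarith)) (by linarith)
  -- renewal masses
  have m1 : ∀ i ∈ range (L1 + 1), i ≤ L := fun i hi => by
    rw [Finset.mem_range] at hi
    omega
  have m2 : ∀ i ∈ Ico (L2 + 1) (L + 1), i ≤ L := fun i hi => by
    rw [Finset.mem_Ico] at hi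
    omega
  have hU1 : ∑ i ∈ range (L1 + 1), u K i = UU K L1 := rfl
  have hU2 : ∑ i ∈ Ico (L2 + 1) (L + 1), u K i = UU K L - UU K L2 := by
    unfold UU
    rw [Finset.range_eq_Ico, Finset.range_eq_Ico,
      ← Finset.sum_Ico_consecutive (fun i => u K i) (Nat.zero_le (L2 + 1))
        (show L2 + 1 ≤ L + 1 by omega)]
    ring
  have p1 := PP_lower (L := L) hK (j := j) fun i hi => (hrange i (m1 i hi)).1
  have p1' := PP_upper hK (j := j) fun i hi => (hrange i (m1 i hi)).2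
  have p2 := PP_lower (L := L) hK (j := j) fun i hi => (hrange i (m2 i hi)).1
  have p2' := PP_upper hK (j := j) fun i hi => (hrange i (m2 i hi)).2
  rw [hU1] at p1 p1'
  rw [hU2] at p2 p2'
  set P1 := PP K j (range (L1 + 1))
  set P2 := PP K j (Ico (L2 + 1) (L + 1))
  have uL := hU L (by omega)
  have uL1 := hU L1 hL1n
  have uL2 := hU L2 (by omega)
  have hUL2nn : 0 ≤ UU K L2 := Finset.sum_nonneg fun k _ => u_nonneg hK k
  have hLα : 0 < (L : ℝ) ^ α := Real.rpow_pos_of_pos hLpos _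
  -- mass of the second group
  have hm2 : cl / 2 / cK * (L : ℝ) ^ α ≤ UU K L - UU K L2 := by
    have h1 : 8 / cK * (L2 : ℝ) ^ α ≤ cl / 2 / cK * (L : ℝ) ^ α := by
      rw [div_mul_eq_mul_div, div_mul_eq_mul_div, div_le_div_iff_of_pos_right hcK]
      linarith
    have e : cl / cK * (L : ℝ) ^ α = cl / 2 / cK * (L : ℝ) ^ α + cl / 2 / cK * (L : ℝ) ^ α := by
      ring
    linarith [uL.1, uL2.2]
  have e3 : (1 : ℝ) / 9 ≤ 3 ^ (-(1 + α)) := by
    have e5 : (1 : ℝ) / 9 = 3 ^ (-(2 : ℝ)) := by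
      rw [Real.rpow_neg (by norm_num)]
      norm_num
    rw [e5]
    exact Real.rpow_le_rpow_of_exponent_le (by norm_num) (by linarith)
  have eL : (L : ℝ) ^ (-(1 + α)) * (L : ℝ) ^ α = 1 / L := by
    rw [← Real.rpow_add hLpos, show -(1 + α) + α = -1 by ring, Real.rpow_neg_one, one_div]
  have hvlow : cK / 18 * (L : ℝ) ^ (-(1 + α)) ≤ v := by
    rw [hv, Real.mul_rpow (by norm_num) hLpos.le]
    have h1 : 0 ≤ (L : ℝ) ^ (-(1 + α)) := Real.rpow_nonneg hLpos.le _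
    have h2 : (1 : ℝ) / 9 * (L : ℝ) ^ (-(1 + α)) ≤ 3 ^ (-(1 + α)) * (L : ℝ) ^ (-(1 + α)) :=
      mul_le_mul_of_nonneg_right e3 h1
    have h3 := mul_le_mul_of_nonneg_left h2 (show 0 ≤ cK / 2 by linarith)
    linarith
  -- lower bound for P2
  have hP2low : cl / 36 / L ≤ P2 := by
    refine le_trans ?_ p2
    have h1 : (cK / 18 * (L : ℝ) ^ (-(1 + α))) * (cl / 2 / cK * (L : ℝ) ^ α) ≤
        v * (UU K L - UU K L2) := by
      refine mul_le_mul hvlow hm2 (by positivity) hv0.le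
    refine le_trans (le_of_eq ?_) h1
    have e : (cK / 18 * (L : ℝ) ^ (-(1 + α))) * (cl / 2 / cK * (L : ℝ) ^ α) =
        (cK / 18 * (cl / 2 / cK)) * ((L : ℝ) ^ (-(1 + α)) * (L : ℝ) ^ α) := by ring
    rw [e, eL]
    field_simp
    norm_num
  -- lower bound for P1
  have hηα : η * (L : ℝ) ^ α ≤ (L1 : ℝ) ^ α := by
    have h1 : (η * L) ^ α ≤ (L1 : ℝ) ^ α := Real.rpow_le_rpow (by positivity) hηL hα.le
    rw [Real.mul_rpow hη.le hLpos.le] at h1
    have h2 : η ≤ η ^ α := by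
      calc η = η ^ (1 : ℝ) := (Real.rpow_one η).symm
        _ ≤ η ^ α := Real.rpow_le_rpow_of_exponent_ge hη hη1 hα1.le
    exact (mul_le_mul_of_nonneg_right h2 hLα.le).trans h1
  have hP1low : cl * η / 18 / L ≤ P1 := by
    refine le_trans ?_ p1
    have h1 : (cK / 18 * (L : ℝ) ^ (-(1 + α))) * (cl / cK * (η * (L : ℝ) ^ α)) ≤
        v * UU K L1 := by
      refine mul_le_mul hvlow ?_ (by positivity) hv0.le
      refine le_trans ?_ uL1.1
      exact mul_le_mul_of_nonneg_left hηα (by positivity)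
    refine le_trans (le_of_eq ?_) h1
    have e : (cK / 18 * (L : ℝ) ^ (-(1 + α))) * (cl / cK * (η * (L : ℝ) ^ α)) =
        (cK / 18 * (cl / cK * η)) * ((L : ℝ) ^ (-(1 + α)) * (L : ℝ) ^ α) := by ring
    rw [e, eL]
    field_simp
  -- upper bound
  have hup : P1 + P2 ≤ 32 / L := by
    have h1 : UU K L1 ≤ UU K L := UU_mono hK (h12.trans h2L)
    have h2 : V * UU K L1 ≤ V * UU K L := mul_le_mul_of_nonneg_left h1 hV0.le
    have h3 : V * (UU K L - UU K L2) ≤ V * UU K L :=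
      mul_le_mul_of_nonneg_left (by linarith) hV0.le
    have h4 : V * UU K L ≤ V * (8 / cK * (L : ℝ) ^ α) := mul_le_mul_of_nonneg_left uL.2 hV0.le
    have e : V * (8 / cK * (L : ℝ) ^ α) = 16 / L := by
      rw [hV]
      have e' : 2 * cK * (L : ℝ) ^ (-(1 + α)) * (8 / cK * (L : ℝ) ^ α) =
          (2 * cK * (8 / cK)) * ((L : ℝ) ^ (-(1 + α)) * (L : ℝ) ^ α) := by ring
      rw [e', eL]
      field_simp
      norm_num
    rw [e] at h4
    have e2 : (32 : ℝ) / L = 16 / L + 16 / L := by ring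
    rw [e2]
    linarith
  have hcη : 0 < cl * η / 1152 := by positivity
  have h5 : cl * η / 1152 * (P1 + P2) ≤ cl * η / 36 / L := by
    have h6 := mul_le_mul_of_nonneg_left hup hcη.le
    refine h6.trans (le_of_eq ?_)
    ring
  have hcl1 : cl * η / 36 / L ≤ cl / 36 / L := by
    rw [div_le_div_iff_of_pos_right hLpos]
    nlinarith
  have hcl2 : cl * η / 36 / L ≤ cl * η / 18 / L := by
    rw [div_le_div_iff_of_pos_right hLpos]
    have : 0 ≤ cl * η := by positivity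
    linarith
  refine ⟨hP2low, lt_of_lt_of_le (by positivity) hP1low, ?_, ?_⟩
  · linarith
  · linarith

end Pool.Agent.U260.CS
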