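import Pool.Agent.U260.CU5

set_option autoImplicit false
set_option maxHeartbeats 4000000

open Finset MeasureTheory ProbabilityTheory

namespace Pool.Agent.U260.CS

open Cop764 (G S phi G_eq)


theorem max_walk (D : Cop764.Data) (n : ℕ) {x : ℝ} (hx : 0 < x) :
    D.P.real {ω : ℕ → ℝ | ∃ t ≤ n, x ≤ |2 * D.lam * ∑ i ∈ Ioc 0 t, ω i|} ≤
      4 * (D.lam ^ 2 * n) / x ^ 2 := by
  have hlam := D.hlam
  have h1 := Pool.Agent.Y944.LIS.maximal_sq (walk_disorder D) n (x / (2 * D.lam)) (by positivity)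
  rw [vr_disorder, mul_one] at h1
  have e : {ω : ℕ → ℝ | ∃ t ≤ n, x ≤ |2 * D.lam * ∑ i ∈ Ioc 0 t, ω i|} =
      {ω | ∃ t ≤ n, x / (2 * D.lam) ≤
        |Pool.Agent.W844.LIS.S (fun (i : ℕ) (ω : ℕ → ℝ) => ω (i + 1)) t ω|} := by
    ext ω
    simp only [Set.mem_ofPred_eq]
    refine exists_congr fun t => and_congr_right fun _ => ?_
    rw [sum_disorder, abs_mul, abs_of_pos (show 0 < 2 * D.lam by linarith),
      div_le_iff₀ (by linarith), mul_comm]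
  rw [e]
  unfold Measure.real
  refine ENNReal.toReal_le_of_le_ofReal (by positivity) (h1.trans (ENNReal.ofReal_le_ofReal ?_))
  refine le_of_eq ?_
  field_simp
  norm_num

theorem paley {Ω : Type*} [MeasurableSpace Ω] (μ : Measure Ω) [IsProbabilityMeasure μ]
    (Z : Ω → ℝ) (hm : Measurable Z) (hi : Integrable Z μ)
    (hi2 : Integrable (fun ω => Z ω ^ 2) μ) (hpos : 0 < ∫ ω, Z ω ∂μ)
    (hpos2 : 0 < ∫ ω, Z ω ^ 2 ∂μ) :
    (∫ ω, Z ω ∂μ) ^ 2 ≤ 4 * (∫ ω, Z ω ^ 2 ∂μ) * μ.real {ω | (∫ ω, Z ω ∂μ) / 2 ≤ Z ω} := by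
  set m := ∫ ω, Z ω ∂μ with hmdef
  set V := ∫ ω, Z ω ^ 2 ∂μ with hV
  set t := m / (2 * V) with ht
  have ht0 : 0 < t := by positivity
  have hms : MeasurableSet {ω | m / 2 ≤ Z ω} := measurableSet_le measurable_const hm
  have hind : Integrable (Set.indicator {ω | m / 2 ≤ Z ω} (fun _ => (1 : ℝ))) μ :=
    (integrable_const (1 : ℝ)).indicator hms
  have hindE : ∫ ω, Set.indicator {ω | m / 2 ≤ Z ω} (fun _ => (1 : ℝ)) ω ∂μ =
      μ.real {ω | m / 2 ≤ Z ω} := integral_indicator_one hms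
  have hpt : ∀ ω, Z ω ≤ (m / 2 + t / 2 * Z ω ^ 2) +
      1 / (2 * t) * Set.indicator {ω | m / 2 ≤ Z ω} (fun _ => (1 : ℝ)) ω := by
    intro ω
    by_cases h : m / 2 ≤ Z ω
    · rw [Set.indicator_of_mem (by exact h)]
      have h1 : Z ω ≤ t / 2 * Z ω ^ 2 + 1 / (2 * t) := by
        have h2 : t / 2 * Z ω ^ 2 + 1 / (2 * t) - Z ω = (t * Z ω - 1) ^ 2 / (2 * t) := by
          field_simp
          ring
        have h3 : 0 ≤ (t * Z ω - 1) ^ 2 / (2 * t) := by positivity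
        linarith
      linarith
    · rw [Set.indicator_of_notMem (by exact h)]
      push Not at h
      have : 0 ≤ t / 2 * Z ω ^ 2 := by positivity
      linarith
  have k1 : Integrable (fun ω => m / 2 + t / 2 * Z ω ^ 2) μ :=
    (integrable_const _).add (hi2.const_mul _)
  have h1 := integral_mono hi (k1.add (hind.const_mul (1 / (2 * t)))) hpt
  have e1 : ∫ ω, ((m / 2 + t / 2 * Z ω ^ 2) +
      1 / (2 * t) * Set.indicator {ω | m / 2 ≤ Z ω} (fun _ => (1 : ℝ)) ω) ∂μ =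
      (m / 2 + t / 2 * V) + 1 / (2 * t) * μ.real {ω | m / 2 ≤ Z ω} := by
    rw [integral_add k1 (hind.const_mul _), integral_add (integrable_const _) (hi2.const_mul _),
      integral_const_mul, integral_const_mul, hindE, integral_const, ← hV]
    simp only [probReal_univ, one_smul]
  have h2 : m ≤ (m / 2 + t / 2 * V) + 1 / (2 * t) * μ.real {ω | m / 2 ≤ Z ω} := by
    rw [← e1]
    exact h1
  have e2 : t / 2 * V = m / 4 := by
    rw [ht]
    field_simp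
    norm_num
  have e3 : 1 / (2 * t) = V / m := by
    rw [ht]
    field_simp
  rw [e2, e3] at h2
  set p := μ.real {ω | m / 2 ≤ Z ω}
  have h3 : m / 4 ≤ V / m * p := by linarith
  have h4 : m * (m / 4) ≤ m * (V / m * p) := mul_le_mul_of_nonneg_left h3 hpos.le
  have e4 : m * (V / m * p) = V * p := by field_simp
  rw [e4] at h4
  nlinarith

theorem prob_A (D : Cop764.Data) {h : ℝ} (hm1 : D.lam / 2 ≤ h) {θ a : ℝ} {n : ℕ}
    (hn1 : θ ≤ D.lam ^ 2 * n) (hn2 : D.lam ^ 2 * n ≤ 4 * θ) (hθ : 128 ≤ θ) (ha : a ≤ θ / 2) :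
    1 / 2 ≤ D.P.real {ω : ℕ → ℝ | S (D.w h ω) 0 n ≤ -a} := by
  have hlam := D.hlam
  have h1 := max_walk D n (x := θ / 2) (by linarith)
  set B : Set (ℕ → ℝ) := {ω : ℕ → ℝ | ∃ t ≤ n, θ / 2 ≤ |2 * D.lam * ∑ i ∈ Ioc 0 t, ω i|} with hB
  have h2 : D.P.real B ≤ 1 / 2 := by
    refine h1.trans ?_
    rw [div_le_iff₀ (by positivity)]
    nlinarith
  have h3 : Bᶜ ⊆ {ω : ℕ → ℝ | S (D.w h ω) 0 n ≤ -a} := by
    intro ω hω
    simp only [hB, Set.mem_compl_iff, Set.mem_ofPred_eq, not_exists, not_and, not_le] at hω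
    show S (D.w h ω) 0 n ≤ -a
    rw [S_eq]
    have h4 := hω n le_rfl
    rw [abs_lt] at h4
    have h5 : D.lam ^ 2 * n ≤ 2 * D.lam * h * n := by
      have : D.lam ^ 2 ≤ 2 * D.lam * h := by nlinarith
      exact mul_le_mul_of_nonneg_right this (Nat.cast_nonneg n)
    nlinarith [h4.1, h4.2]
  have h4 : D.P.real Bᶜ ≤ D.P.real {ω : ℕ → ℝ | S (D.w h ω) 0 n ≤ -a} :=
    measureReal_mono h3 (measure_ne_top _ _)
  have h5 : 1 ≤ D.P.real B + D.P.real Bᶜ := by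
    have h6 : D.P.real (B ∪ Bᶜ) ≤ D.P.real B + D.P.real Bᶜ := measureReal_union_le _ _
    rw [Set.union_compl_self, probReal_univ] at h6
    exact h6
  linarith

theorem exp_S (D : Cop764.Data) (h t : ℝ) (n : ℕ) :
    Integrable (fun ω : ℕ → ℝ => Real.exp (t * S (D.w h ω) 0 n)) D.P ∧
    ∫ ω : ℕ → ℝ, Real.exp (t * S (D.w h ω) 0 n) ∂D.P = psi D h t ^ n := by
  obtain ⟨x1, x2⟩ := exp_sum D h (Ioc 0 n) (fun _ => t)
  have e1 : ∀ ω : ℕ → ℝ, Real.exp (∑ i ∈ Ioc 0 n, t * D.w h ω i) =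
      Real.exp (t * S (D.w h ω) 0 n) := by
    intro ω
    unfold Cop764.S
    rw [Finset.mul_sum]
  simp only [e1] at x1 x2
  rw [Finset.prod_const, Nat.card_Ioc, Nat.sub_zero] at x2
  exact ⟨x1, x2⟩

theorem psi_bounds' (D : Cop764.Data) {ε s0 : ℝ}
    (hs0 : ∀ s : ℝ, |s| ≤ s0 →
      Real.exp ((1 - ε) * (s ^ 2 / 2)) ≤ ∫ x, Real.exp (s * x) ∂D.ν ∧
      ∫ x, Real.exp (s * x) ∂D.ν ≤ Real.exp ((1 + ε) * (s ^ 2 / 2)))
    {h θ : ℝ} (hθ0 : 0 ≤ θ) (hθ : 2 * D.lam * θ ≤ s0) :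
    Real.exp (2 * D.lam ^ 2 * θ ^ 2 * (1 - ε) - 2 * D.lam * h * θ) ≤ psi D h θ ∧
    psi D h θ ≤ Real.exp (2 * D.lam ^ 2 * θ ^ 2 * (1 + ε) - 2 * D.lam * h * θ) := by
  have hlam := D.hlam
  have h1 := psi_bounds D hs0 (m := h / D.lam) hθ0 hθ
  have e : h / D.lam * D.lam = h := by field_simp
  rw [e] at h1
  constructor
  · refine le_trans (le_of_eq ?_) h1.1
    congr 1
    field_simp
  · refine le_trans h1.2 (le_of_eq ?_)
    congr 1
    field_simp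

theorem prob_B (D : Cop764.Data) {h : ℝ} (hh : 0 ≤ h) (hm2 : h ≤ 2 * D.lam) {s0 : ℝ}
    (hs0 : ∀ s : ℝ, |s| ≤ s0 →
      Real.exp ((1 - 1 / 2) * (s ^ 2 / 2)) ≤ ∫ x, Real.exp (s * x) ∂D.ν ∧
      ∫ x, Real.exp (s * x) ∂D.ν ≤ Real.exp ((1 + 1 / 2) * (s ^ 2 / 2)))
    (hlam2 : 56 * D.lam ≤ s0) {θ b : ℝ} {n : ℕ}
    (hn1 : θ ≤ D.lam ^ 2 * n) (hn2 : D.lam ^ 2 * n ≤ 4 * θ) (hθ : 1 ≤ θ) (hb : b ≤ 9 * θ) :
    Real.exp (-(9408 * θ)) / 4 ≤ D.P.real {ω : ℕ → ℝ | b ≤ S (D.w h ω) 0 n} := by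
  have hlam := D.hlam
  have hx : 0 < D.lam ^ 2 := by positivity
  obtain ⟨z1, z2⟩ := exp_S D h 14 n
  obtain ⟨y1, y2⟩ := exp_S D h 28 n
  have hsq : ∀ ω : ℕ → ℝ, Real.exp (14 * S (D.w h ω) 0 n) ^ 2 =
      Real.exp (28 * S (D.w h ω) 0 n) := by
    intro ω
    rw [← Real.exp_nat_mul]
    congr 1
    push_cast
    ring
  have b1 := (psi_bounds' D hs0 (h := h) (θ := 14) (by norm_num) (by linarith)).1
  have b2 := (psi_bounds' D hs0 (h := h) (θ := 28) (by norm_num) (by linarith)).2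
  have hlh : D.lam * h ≤ 2 * D.lam ^ 2 := by nlinarith
  have hlh0 : 0 ≤ D.lam * h := by positivity
  have c1 : Real.exp (140 * D.lam ^ 2) ≤ psi D h 14 := by
    refine le_trans (Real.exp_le_exp.2 ?_) b1
    nlinarith
  have c2 : psi D h 28 ≤ Real.exp (2352 * D.lam ^ 2) := by
    refine b2.trans (Real.exp_le_exp.2 ?_)
    nlinarith
  have d1 : Real.exp (140 * θ) ≤ psi D h 14 ^ n := by
    refine le_trans ?_ (pow_le_pow_left₀ (Real.exp_pos _).le c1 n)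
    rw [← Real.exp_nat_mul]
    apply Real.exp_le_exp.2
    nlinarith
  have d2 : psi D h 28 ^ n ≤ Real.exp (9408 * θ) := by
    refine (pow_le_pow_left₀ (psi_pos D h 28).le c2 n).trans ?_
    rw [← Real.exp_nat_mul]
    apply Real.exp_le_exp.2
    nlinarith
  have hmZ : Measurable (fun ω : ℕ → ℝ => Real.exp (14 * S (D.w h ω) 0 n)) := by
    have := (Cop764.M_meas.J_meas D h 0 n).2.2
    fun_prop
  have hp := paley D.P (fun ω : ℕ → ℝ => Real.exp (14 * S (D.w h ω) 0 n)) hmZ z1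
    (by simp only [hsq]; exact y1) (by rw [z2]; exact pow_pos (psi_pos D h 14) n)
    (by simp only [hsq]; rw [y2]; exact pow_pos (psi_pos D h 28) n)
  simp only [hsq] at hp
  rw [z2, y2] at hp
  set p := D.P.real {ω : ℕ → ℝ | psi D h 14 ^ n / 2 ≤ Real.exp (14 * S (D.w h ω) 0 n)} with hpdef
  have hp0 : 0 ≤ p := measureReal_nonneg
  have h1 : (1 : ℝ) ≤ (psi D h 14 ^ n) ^ 2 := by
    have : (1 : ℝ) ≤ psi D h 14 ^ n := (Real.one_le_exp (by linarith)).trans d1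
    nlinarith
  have h2 : 1 ≤ 4 * Real.exp (9408 * θ) * p := by
    refine h1.trans (hp.trans ?_)
    refine mul_le_mul_of_nonneg_right ?_ hp0
    linarith
  have h3 : Real.exp (-(9408 * θ)) / 4 ≤ p := by
    rw [Real.exp_neg, inv_eq_one_div, div_div, div_le_iff₀ (by positivity)]
    linarith
  refine h3.trans ?_
  refine measureReal_mono ?_ (measure_ne_top _ _)
  intro ω hω
  simp only [Set.mem_ofPred_eq] at hω ⊢
  have h4 : Real.exp (14 * (9 * θ)) ≤ Real.exp (14 * S (D.w h ω) 0 n) := by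
    refine le_trans ?_ hω
    rw [le_div_iff₀ (by norm_num)]
    refine le_trans ?_ d1
    have h5 : (2 : ℝ) ≤ Real.exp (14 * θ) := by
      have := Real.add_one_le_exp (14 * θ)
      linarith
    calc Real.exp (14 * (9 * θ)) * 2 ≤ Real.exp (14 * (9 * θ)) * Real.exp (14 * θ) :=
          mul_le_mul_of_nonneg_left h5 (Real.exp_pos _).le
      _ = Real.exp (140 * θ) := by
          rw [← Real.exp_add]
          congr 1
          ring
  rw [Real.exp_le_exp] at h4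
  linarith

theorem shift_prob (D : Cop764.Data) (h : ℝ) {L j : ℕ} (hLj : L ≤ j) {s : Set ℝ}
    (hs : MeasurableSet s) :
    D.P.real {ω : ℕ → ℝ | S (D.w h ω) L j ∈ s} = D.P.real {ω : ℕ → ℝ | S (D.w h ω) 0 (j - L) ∈ s} := by
  have hmp : MeasurePreserving (fun (ω : ℕ → ℝ) (m : ℕ) => ω (m + L)) D.P D.P :=
    Cop764.M_stat.J_stat D.ν L
  have hms : MeasurableSet {ω : ℕ → ℝ | S (D.w h ω) 0 (j - L) ∈ s} :=
    (Cop764.M_meas.J_meas D h 0 (j - L)).2.2 hs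
  have h1 := hmp.measure_preimage hms.nullMeasurableSet
  unfold Measure.real
  rw [← h1]
  congr 2
  ext ω
  simp only [Set.mem_ofPred_eq, Set.mem_preimage]
  have := Cop764.M_loc.J_loc.2.2.1 (D.w h ω) L 0 (j - L)
  rw [Nat.zero_add, Nat.sub_add_cancel hLj] at this
  rw [← this]
  rfl

end Pool.Agent.U260.CS
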