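import Pool.Agent.U260.CU6

set_option autoImplicit false
set_option maxHeartbeats 4000000

open Finset MeasureTheory ProbabilityTheory

namespace Pool.Agent.U260.CS

open Cop764 (G S phi G_eq)


/-- the typical environment in the first block -/
def EE (D : Cop764.Data) (ρ : ℝ) (L1 L : ℕ) : Set (ℕ → ℝ) :=
  {ω | (∀ t ∈ range (L + 1), |2 * D.lam * ∑ i ∈ Ioc 0 t, ω i| < ρ) ∧
    ∀ t ∈ range (L1 + 1), |2 * D.lam * ∑ i ∈ Ioc 0 t, ω i| < 1 / 2}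

theorem meas_EE (D : Cop764.Data) (ρ : ℝ) (L1 L : ℕ) : MeasurableSet (EE D ρ L1 L) := by
  have hm : ∀ t : ℕ, Measurable (fun ω : ℕ → ℝ => |2 * D.lam * ∑ i ∈ Ioc 0 t, ω i|) := by
    intro t
    have h1 : Measurable (fun ω : ℕ → ℝ => 2 * D.lam * ∑ i ∈ Ioc 0 t, ω i) :=
      (Finset.measurable_sum _ fun i _ => measurable_pi_apply i).const_mul _
    exact h1.abs
  have e : EE D ρ L1 L =
      (⋂ t ∈ range (L + 1), {ω : ℕ → ℝ | |2 * D.lam * ∑ i ∈ Ioc 0 t, ω i| < ρ}) ∩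
      ⋂ t ∈ range (L1 + 1), {ω : ℕ → ℝ | |2 * D.lam * ∑ i ∈ Ioc 0 t, ω i| < 1 / 2} := by
    ext ω
    simp only [EE, Set.mem_ofPred_eq, Set.mem_inter_iff, Set.mem_iInter]
  rw [e]
  refine MeasurableSet.inter ?_ ?_
  · exact Finset.measurableSet_biInter _ fun t _ => measurableSet_lt (hm t) measurable_const
  · exact Finset.measurableSet_biInter _ fun t _ => measurableSet_lt (hm t) measurable_const

theorem EE_congr (D : Cop764.Data) {ρ : ℝ} {L1 L : ℕ} (h12 : L1 ≤ L) {ω ω' : ℕ → ℝ}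
    (hω : ∀ n ∈ Ioc 0 L, ω n = ω' n) : ω ∈ EE D ρ L1 L ↔ ω' ∈ EE D ρ L1 L := by
  have h1 : ∀ t, t ≤ L → ∑ i ∈ Ioc 0 t, ω i = ∑ i ∈ Ioc 0 t, ω' i := by
    intro t ht
    refine Finset.sum_congr rfl fun i hi => hω i ?_
    rw [Finset.mem_Ioc] at hi ⊢
    omega
  have h2 : (∀ t ∈ range (L + 1), |2 * D.lam * ∑ i ∈ Ioc 0 t, ω i| < ρ) ↔
      (∀ t ∈ range (L + 1), |2 * D.lam * ∑ i ∈ Ioc 0 t, ω' i| < ρ) := by
    refine forall₂_congr fun t ht => ?_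
    rw [Finset.mem_range] at ht
    rw [h1 t (by omega)]
  have h3 : (∀ t ∈ range (L1 + 1), |2 * D.lam * ∑ i ∈ Ioc 0 t, ω i| < 1 / 2) ↔
      (∀ t ∈ range (L1 + 1), |2 * D.lam * ∑ i ∈ Ioc 0 t, ω' i| < 1 / 2) := by
    refine forall₂_congr fun t ht => ?_
    rw [Finset.mem_range] at ht
    rw [h1 t (by omega)]
  unfold EE
  simp only [Set.mem_ofPred_eq]
  rw [h2, h3]

theorem prob_EE (D : Cop764.Data) {ρ : ℝ} (hρ : 0 < ρ) {L1 L : ℕ}
    (h1 : 4 * (D.lam ^ 2 * L) / ρ ^ 2 ≤ 1 / 8) (h2 : D.lam ^ 2 * L1 ≤ 1 / 128) :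
    3 / 4 ≤ D.P.real (EE D ρ L1 L) := by
  have m1 := max_walk D L hρ
  have m2 := max_walk D L1 (x := 1 / 2) (by norm_num)
  set B1 : Set (ℕ → ℝ) := {ω : ℕ → ℝ | ∃ t ≤ L, ρ ≤ |2 * D.lam * ∑ i ∈ Ioc 0 t, ω i|} with hB1
  set B2 : Set (ℕ → ℝ) := {ω : ℕ → ℝ | ∃ t ≤ L1, 1 / 2 ≤ |2 * D.lam * ∑ i ∈ Ioc 0 t, ω i|} with hB2
  have h3 : (EE D ρ L1 L)ᶜ ⊆ B1 ∪ B2 := by
    intro ω hω
    by_contra hcon
    apply hω
    simp only [hB1, hB2, Set.mem_union, Set.mem_ofPred_eq, not_or, not_exists, not_and,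
      not_le] at hcon
    refine ⟨fun t ht => ?_, fun t ht => ?_⟩
    · rw [Finset.mem_range] at ht
      exact hcon.1 t (by omega)
    · rw [Finset.mem_range] at ht
      exact hcon.2 t (by omega)
  have h4 : D.P.real (EE D ρ L1 L)ᶜ ≤ D.P.real B1 + D.P.real B2 :=
    (measureReal_mono h3 (measure_ne_top _ _)).trans (measureReal_union_le _ _)
  have h5 : 1 ≤ D.P.real (EE D ρ L1 L) + D.P.real (EE D ρ L1 L)ᶜ := by
    have h6 : D.P.real (EE D ρ L1 L ∪ (EE D ρ L1 L)ᶜ) ≤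
        D.P.real (EE D ρ L1 L) + D.P.real (EE D ρ L1 L)ᶜ := measureReal_union_le _ _
    rw [Set.union_compl_self, probReal_univ] at h6
    exact h6
  have h7 : 4 * (D.lam ^ 2 * L1) / (1 / 2) ^ 2 ≤ 1 / 8 := by
    rw [div_le_iff₀ (by norm_num)]
    linarith
  linarith

theorem meas_al (D : Cop764.Data) (h : ℝ) (j : ℕ) (I : Finset ℕ) :
    Measurable (fun ω : ℕ → ℝ => al D.K (D.w h ω) j I) := by
  unfold al
  exact Finset.measurable_sum _ fun i _ => (meas_G D h 0 i).mul_const _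

theorem loc_al (K : ℕ → ℝ) {w w' : ℕ → ℝ} {L j : ℕ} {I : Finset ℕ} (hI : ∀ i ∈ I, i ≤ L)
    (hw : ∀ n ∈ Ioc 0 L, w n = w' n) : al K w j I = al K w' j I := by
  unfold al
  refine Finset.sum_congr rfl fun i hi => ?_
  rw [loc_G K hw le_rfl (hI i hi)]

/-- deterministic consequences of the typical environment -/
theorem EE_det (D : Cop764.Data) {h : ℝ} (hm1 : D.lam / 2 ≤ h) (hm2 : h ≤ 2 * D.lam)
    {θ ρ : ℝ} {L1 L2 L : ℕ} (_h12 : L1 ≤ L2) (_h2L : L2 ≤ L)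
    (hL : D.lam ^ 2 * L ≤ 2 * θ) (hL1 : D.lam ^ 2 * L1 ≤ 1 / 128)
    (hL2 : ρ + 4 ≤ D.lam ^ 2 * L2) {ω : ℕ → ℝ} (hω : ω ∈ EE D ρ L1 L) :
    (∀ i ≤ L, -(2 * ((ρ + 8 * θ) / 2)) ≤ S (D.w h ω) 0 i) ∧
    (∀ i ≤ L1, -1 ≤ S (D.w h ω) 0 i) ∧
    (∀ i, L2 < i → i ≤ L → S (D.w h ω) 0 i ≤ -4) ∧
    (∀ i ≤ L, S (D.w h ω) i L ≤ 2 * ρ) ∧ (∀ i ≤ L, -(2 * ρ + 8 * θ) ≤ S (D.w h ω) i L) := by
  have hlam := D.hlam
  have hdr1 : D.lam ^ 2 ≤ 2 * D.lam * h := by nlinarith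
  have hdr2 : 2 * D.lam * h ≤ 4 * D.lam ^ 2 := by nlinarith
  have hS : ∀ i, S (D.w h ω) 0 i = -(2 * D.lam * ∑ i ∈ Ioc 0 i, ω i) - 2 * D.lam * h * i := by
    intro i
    rw [S_eq]
    ring
  have hX : ∀ i ≤ L, |2 * D.lam * ∑ i ∈ Ioc 0 i, ω i| < ρ := fun i hi =>
    hω.1 i (Finset.mem_range.2 (by omega))
  have hX1 : ∀ i ≤ L1, |2 * D.lam * ∑ i ∈ Ioc 0 i, ω i| < 1 / 2 := fun i hi =>
    hω.2 i (Finset.mem_range.2 (by omega))
  have hx0 : 0 < D.lam ^ 2 := by positivity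
  have hd : ∀ i : ℕ, D.lam ^ 2 * i ≤ 2 * D.lam * h * i ∧ 2 * D.lam * h * i ≤ 4 * (D.lam ^ 2 * i) := by
    intro i
    have hi : (0 : ℝ) ≤ i := Nat.cast_nonneg i
    constructor
    · exact mul_le_mul_of_nonneg_right hdr1 hi
    · have := mul_le_mul_of_nonneg_right hdr2 hi
      linarith
  have hmono : ∀ i k : ℕ, i ≤ k → D.lam ^ 2 * (i : ℝ) ≤ D.lam ^ 2 * k := by
    intro i k hik
    exact mul_le_mul_of_nonneg_left (by exact_mod_cast hik) hx0.le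
  have hsub : ∀ i ≤ L, S (D.w h ω) i L = S (D.w h ω) 0 L - S (D.w h ω) 0 i := by
    intro i hi
    have := S_add (D.w h ω) (Nat.zero_le i) hi
    linarith
  have hXL := hX L le_rfl
  rw [abs_lt] at hXL
  refine ⟨fun i hi => ?_, fun i hi => ?_, fun i hi1 hi2 => ?_, fun i hi => ?_, fun i hi => ?_⟩
  · have h1 := hX i hi
    rw [abs_lt] at h1
    rw [hS]
    have h2 := (hd i).2
    have h3 := hmono i L hi
    linarith
  · have h1 := hX1 i hi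
    rw [abs_lt] at h1
    rw [hS]
    have h2 := (hd i).2
    have h3 := hmono i L1 hi
    linarith
  · have h1 := hX i hi2
    rw [abs_lt] at h1
    rw [hS]
    have h2 := (hd i).1
    have h3 := hmono L2 i hi1.le
    linarith
  · have h1 := hX i hi
    rw [abs_lt] at h1
    rw [hsub i hi, hS, hS]
    have h4 : 2 * D.lam * h * i ≤ 2 * D.lam * h * L := by
      refine mul_le_mul_of_nonneg_left (by exact_mod_cast hi) ?_
      linarith
    linarith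
  · have h1 := hX i hi
    rw [abs_lt] at h1
    rw [hsub i hi, hS, hS]
    have h4 : 0 ≤ 2 * D.lam * h * i := by
      have := (hd i).1
      have : 0 ≤ D.lam ^ 2 * (i : ℝ) := by positivity
      linarith
    have h2 := (hd L).2
    linarith

variable {γ : ℝ}

theorem BB_ge (D : Cop764.Data) {h : ℝ} (hh : 0 ≤ h) (hγ : 0 < γ) (hγ1 : γ < 1) {L j : ℕ}
    (hLj : L < j) : bj (KA D h γ) L j ≤ BB D h γ L j := by
  obtain ⟨i1, i2⟩ := HHj_moment D hh hγ hγ1 hLj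
  refine i2.trans ?_
  unfold BB
  refine integral_mono i1 ((Bj_rpow_integrable D hh hγ hγ1.le hLj).const_mul _) fun ω => ?_
  exact mixture_le (K_nonneg D) hγ hγ1 L j

/-- **Gain of a macroscopic step** -/
theorem BB_gain (D : Cop764.Data) {h : ℝ} (hh : 0 ≤ h) (hm1 : D.lam / 2 ≤ h)
    (hm2 : h ≤ 2 * D.lam) (hγ : 1 / 2 ≤ γ) (hγ1 : γ < 1) {s0 : ℝ}
    (hs0 : ∀ s : ℝ, |s| ≤ s0 →
      Real.exp ((1 - 1 / 2) * (s ^ 2 / 2)) ≤ ∫ x, Real.exp (s * x) ∂D.ν ∧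
      ∫ x, Real.exp (s * x) ∂D.ν ≤ Real.exp ((1 + 1 / 2) * (s ^ 2 / 2)))
    (hlam2 : 56 * D.lam ≤ s0)
    {θ ρ c : ℝ} {L1 L2 L j : ℕ} (h12 : L1 ≤ L2) (h2L : L2 ≤ L)
    (hL : D.lam ^ 2 * L ≤ 2 * θ) (hLl : θ ≤ D.lam ^ 2 * L) (hL1 : D.lam ^ 2 * L1 ≤ 1 / 128)
    (hL2 : ρ + 4 ≤ D.lam ^ 2 * L2) (hρ : 0 < ρ) (hρθ : ρ ≤ θ / 4) (hρ2 : 64 * θ ≤ ρ ^ 2)
    (hθ : 128 ≤ θ) (hc : 0 < c)
    (hP1 : 0 < PP D.K j (range (L1 + 1))) (hP2 : 0 < PP D.K j (Ico (L2 + 1) (L + 1)))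
    (hc1 : c * (PP D.K j (range (L1 + 1)) + PP D.K j (Ico (L2 + 1) (L + 1))) ≤
      PP D.K j (range (L1 + 1)))
    (hc2 : c * (PP D.K j (range (L1 + 1)) + PP D.K j (Ico (L2 + 1) (L + 1))) ≤
      PP D.K j (Ico (L2 + 1) (L + 1)))
    (hj1 : 2 * L < j) (hj2 : j ≤ 3 * L) :
    bj (KA D h γ) L j + (1 - γ) * (c ^ 2 / 64) * (Real.exp (-((ρ + 8 * θ) / 2)) / 2) *
      PP D.K j (Ico (L2 + 1) (L + 1)) * (3 / 4 * (Real.exp (-(9408 * θ)) / 4)) ≤
      BB D h γ L j := by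
  classical
  have hγ0 : 0 < γ := by linarith
  have hlam := D.hlam
  have hLj : L < j := by omega
  set P1 := PP D.K j (range (L1 + 1)) with hP1def
  set P2 := PP D.K j (Ico (L2 + 1) (L + 1)) with hP2def
  set G0 := (1 - γ) * (c ^ 2 / 64) * (Real.exp (-((ρ + 8 * θ) / 2)) / 2) * P2 with hG0
  have hG0n : 0 ≤ G0 := by
    have : 0 ≤ 1 - γ := by linarith
    positivity
  set cB := Real.exp (-(9408 * θ)) / 4 with hcB
  have hcB0 : 0 < cB := by positivity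
  have hcB1 : cB ≤ 1 / 2 := by
    have : Real.exp (-(9408 * θ)) ≤ 1 := Real.exp_le_one_iff.2 (by linarith)
    rw [hcB]
    linarith
  -- the events
  set C1 : Set (ℕ → ℝ) := {ω | 4 * (P1 * al D.K (D.w h ω) j (Ico (L2 + 1) (L + 1))) ≤
    al D.K (D.w h ω) j (range (L1 + 1)) * P2} with hC1
  have hmC1 : MeasurableSet C1 := by
    refine measurableSet_le ?_ ?_
    · exact ((meas_al D h j _).const_mul P1).const_mul 4
    · exact (meas_al D h j _).mul_const P2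
  set A : Set (ℕ → ℝ) := {ω | S (D.w h ω) L j ∈ Set.Iic (-(2 * ρ))} with hA
  set B : Set (ℕ → ℝ) := {ω | S (D.w h ω) L j ∈ Set.Ici (2 * ρ + 8 * θ)} with hB
  have hmS := (Cop764.M_meas.J_meas D h L j).2.2
  have hmA : MeasurableSet A := hmS measurableSet_Iic
  have hmB : MeasurableSet B := hmS measurableSet_Ici
  set E1 := EE D ρ L1 L with hE1
  have hmE : MeasurableSet E1 := meas_EE D ρ L1 L
  set f1 : (ℕ → ℝ) → ℝ := Set.indicator (E1 ∩ C1) (fun _ => 1) with hf1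
  set f2 : (ℕ → ℝ) → ℝ := Set.indicator (E1 ∩ C1ᶜ) (fun _ => 1) with hf2
  set gA : (ℕ → ℝ) → ℝ := Set.indicator A (fun _ => 1) with hgA
  set gB : (ℕ → ℝ) → ℝ := Set.indicator B (fun _ => 1) with hgB
  have hif1 : Integrable f1 D.P := (integrable_const (1 : ℝ)).indicator (hmE.inter hmC1)
  have hif2 : Integrable f2 D.P := (integrable_const (1 : ℝ)).indicator (hmE.inter hmC1.compl)
  have higA : Integrable gA D.P := (integrable_const (1 : ℝ)).indicator hmA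
  have higB : Integrable gB D.P := (integrable_const (1 : ℝ)).indicator hmB
  have hEf1 : ∫ ω, f1 ω ∂D.P = D.P.real (E1 ∩ C1) := integral_indicator_one (hmE.inter hmC1)
  have hEf2 : ∫ ω, f2 ω ∂D.P = D.P.real (E1 ∩ C1ᶜ) :=
    integral_indicator_one (hmE.inter hmC1.compl)
  have hEgA : ∫ ω, gA ω ∂D.P = D.P.real A := integral_indicator_one hmA
  have hEgB : ∫ ω, gB ω ∂D.P = D.P.real B := integral_indicator_one hmB
  have mI1 : ∀ i ∈ range (L1 + 1), i ≤ L := fun i hi => by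
    rw [Finset.mem_range] at hi
    omega
  have mI2 : ∀ i ∈ Ico (L2 + 1) (L + 1), i ≤ L := fun i hi => by
    rw [Finset.mem_Ico] at hi
    omega
  have hC1loc : ∀ ω ω' : ℕ → ℝ, (∀ n ∈ Ioc 0 L, ω n = ω' n) → (ω ∈ C1 ↔ ω' ∈ C1) := by
    intro ω ω' hωω
    have e1 := loc_al D.K (j := j) mI1 (w_congr D h hωω)
    have e2 := loc_al D.K (j := j) mI2 (w_congr D h hωω)
    simp only [hC1, Set.mem_ofPred_eq]
    rw [e1, e2]
  have hEloc : ∀ ω ω' : ℕ → ℝ, (∀ n ∈ Ioc 0 L, ω n = ω' n) → (ω ∈ E1 ↔ ω' ∈ E1) :=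
    fun ω ω' hωω => EE_congr D (h12.trans h2L) hωω
  have hloc1 : ∀ ω ω' : ℕ → ℝ, (∀ n ∈ Ioc 0 L, ω n = ω' n) → f1 ω = f1 ω' := by
    intro ω ω' hωω
    have hiff : ω ∈ E1 ∩ C1 ↔ ω' ∈ E1 ∩ C1 := by
      rw [Set.mem_inter_iff, Set.mem_inter_iff, hEloc ω ω' hωω, hC1loc ω ω' hωω]
    simp only [hf1, Set.indicator_apply]
    exact if_congr hiff rfl rfl
  have hloc2 : ∀ ω ω' : ℕ → ℝ, (∀ n ∈ Ioc 0 L, ω n = ω' n) → f2 ω = f2 ω' := by
    intro ω ω' hωω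
    have hiff : ω ∈ E1 ∩ C1ᶜ ↔ ω' ∈ E1 ∩ C1ᶜ := by
      rw [Set.mem_inter_iff, Set.mem_inter_iff, Set.mem_compl_iff, Set.mem_compl_iff,
        hEloc ω ω' hωω, hC1loc ω ω' hωω]
    simp only [hf2, Set.indicator_apply]
    exact if_congr hiff rfl rfl
  have hSloc : ∀ ω ω' : ℕ → ℝ, (∀ n ∈ Ioc L j, ω n = ω' n) →
      S (D.w h ω) L j = S (D.w h ω') L j := fun ω ω' hωω =>
    loc_S (w_congr D h hωω) le_rfl le_rfl
  have hlocA : ∀ ω ω' : ℕ → ℝ, (∀ n ∈ Ioc L j, ω n = ω' n) → gA ω = gA ω' := by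
    intro ω ω' hωω
    have hiff : ω ∈ A ↔ ω' ∈ A := by
      simp only [hA, Set.mem_ofPred_eq]
      rw [hSloc ω ω' hωω]
    simp only [hgA, Set.indicator_apply]
    exact if_congr hiff rfl rfl
  have hlocB : ∀ ω ω' : ℕ → ℝ, (∀ n ∈ Ioc L j, ω n = ω' n) → gB ω = gB ω' := by
    intro ω ω' hωω
    have hiff : ω ∈ B ↔ ω' ∈ B := by
      simp only [hB, Set.mem_ofPred_eq]
      rw [hSloc ω ω' hωω]
    simp only [hgB, Set.indicator_apply]
    exact if_congr hiff rfl rfl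
  have hdisj : Disjoint (Ioc 0 L) (Ioc L j) := by
    rw [Finset.disjoint_left]
    intro a ha hb
    rw [Finset.mem_Ioc] at ha hb
    omega
  have mf1 : Measurable f1 := measurable_const.indicator (hmE.inter hmC1)
  have mf2 : Measurable f2 := measurable_const.indicator (hmE.inter hmC1.compl)
  have mgA : Measurable gA := measurable_const.indicator hmA
  have mgB : Measurable gB := measurable_const.indicator hmB
  have ind1 : IndepFun f1 gA D.P :=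
    Cop764.M_indep.J_indep D.ν (Ioc 0 L) (Ioc L j) hdisj _ _ mf1 mgA hloc1 hlocA
  have ind2 : IndepFun f2 gB D.P :=
    Cop764.M_indep.J_indep D.ν (Ioc 0 L) (Ioc L j) hdisj _ _ mf2 mgB hloc2 hlocB
  have i1 : Integrable (fun ω => f1 ω * gA ω) D.P := ind1.integrable_mul hif1 higA
  have i2 : Integrable (fun ω => f2 ω * gB ω) D.P := ind2.integrable_mul hif2 higB
  have E1' : ∫ ω, f1 ω * gA ω ∂D.P = D.P.real (E1 ∩ C1) * D.P.real A := by
    rw [ind1.integral_fun_mul_eq_mul_integral hif1.aestronglyMeasurable higA.aestronglyMeasurable,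
      hEf1, hEgA]
  have E2' : ∫ ω, f2 ω * gB ω ∂D.P = D.P.real (E1 ∩ C1ᶜ) * D.P.real B := by
    rw [ind2.integral_fun_mul_eq_mul_integral hif2.aestronglyMeasurable higB.aestronglyMeasurable,
      hEf2, hEgB]
  -- probabilities
  have hn : ((j - L : ℕ) : ℝ) = (j : ℝ) - L := by
    rw [Nat.cast_sub hLj.le]
  have hj1r : 2 * (L : ℝ) ≤ j := by exact_mod_cast hj1.le
  have hj2r : (j : ℝ) ≤ 3 * L := by exact_mod_cast hj2
  have hx0 : 0 < D.lam ^ 2 := by positivity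
  have hn1 : θ ≤ D.lam ^ 2 * ((j - L : ℕ) : ℝ) := by
    rw [hn]
    refine hLl.trans (mul_le_mul_of_nonneg_left (by linarith) hx0.le)
  have hn2 : D.lam ^ 2 * ((j - L : ℕ) : ℝ) ≤ 4 * θ := by
    rw [hn]
    have : D.lam ^ 2 * ((j : ℝ) - L) ≤ D.lam ^ 2 * (2 * L) :=
      mul_le_mul_of_nonneg_left (by linarith) hx0.le
    linarith
  have pA : 1 / 2 ≤ D.P.real A := by
    rw [hA, shift_prob D h hLj.le measurableSet_Iic]
    exact prob_A D hm1 (a := 2 * ρ) hn1 hn2 hθ (by linarith)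
  have pB : cB ≤ D.P.real B := by
    rw [hB, shift_prob D h hLj.le measurableSet_Ici]
    exact prob_B D hh hm2 hs0 hlam2 (b := 2 * ρ + 8 * θ) hn1 hn2 (by linarith) (by linarith)
  have pE : 3 / 4 ≤ D.P.real E1 := by
    refine prob_EE D hρ ?_ hL1
    rw [div_le_iff₀ (by positivity)]
    linarith
  have pE2 : D.P.real (E1 ∩ C1) + D.P.real (E1 ∩ C1ᶜ) = D.P.real E1 := by
    have := measureReal_inter_add_sdiff (μ := D.P) (s := E1) hmC1
    rw [← this]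
    rfl
  have hgain : 3 / 4 * cB ≤ ∫ ω, (f1 ω * gA ω + f2 ω * gB ω) ∂D.P := by
    rw [integral_add i1 i2, E1', E2']
    have q1 : 0 ≤ D.P.real (E1 ∩ C1) := measureReal_nonneg
    have q2 : 0 ≤ D.P.real (E1 ∩ C1ᶜ) := measureReal_nonneg
    have r1 : D.P.real (E1 ∩ C1) * cB ≤ D.P.real (E1 ∩ C1) * D.P.real A :=
      mul_le_mul_of_nonneg_left (by linarith) q1
    have r2 : D.P.real (E1 ∩ C1ᶜ) * cB ≤ D.P.real (E1 ∩ C1ᶜ) * D.P.real B :=
      mul_le_mul_of_nonneg_left pB q2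
    have r3 : 3 / 4 * cB ≤ D.P.real E1 * cB := mul_le_mul_of_nonneg_right pE hcB0.le
    rw [← pE2] at r3
    linarith
  -- pointwise inequality
  obtain ⟨k1, k2⟩ := HHj_moment D hh hγ0 hγ1 hLj
  have hpt : ∀ ω : ℕ → ℝ, HHj D h γ L j ω + G0 * (f1 ω * gA ω + f2 ω * gB ω) ≤
      hol γ (bj D.K L j) (Bj D.K (D.w h ω) L j) := by
    intro ω
    have hbase : HHj D h γ L j ω ≤ hol γ (bj D.K L j) (Bj D.K (D.w h ω) L j) :=
      mixture_le (K_nonneg D) hγ0 hγ1 L j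
    by_cases hE : ω ∈ E1
    · obtain ⟨d0, d1, d2, d3, d4⟩ := EE_det D hm1 hm2 h12 h2L hL hL1 hL2 hE
      have hg0 : 0 ≤ (ρ + 8 * θ) / 2 := by linarith
      by_cases hc : ω ∈ C1
      · have e1 : f1 ω = 1 := Set.indicator_of_mem (show ω ∈ E1 ∩ C1 from ⟨hE, hc⟩) _
        have e2 : f2 ω = 0 := Set.indicator_of_notMem (fun hx => hx.2 hc) _
        by_cases hAA : ω ∈ A
        · have e3 : gA ω = 1 := Set.indicator_of_mem hAA _
          rw [e1, e2, e3, zero_mul, add_zero, mul_one, mul_one]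
          exact mixture_gain (K_nonneg D) hγ hγ1 h12 h2L hLj.le ‹0 < c› hg0 hP1 hP2 hc1 hc2 d0 d1 d2
            d3 d4 (Or.inl ⟨hc, hAA⟩)
        · have e3 : gA ω = 0 := Set.indicator_of_notMem hAA _
          rw [e2, e3]
          simpa using hbase
      · have e1 : f1 ω = 0 := Set.indicator_of_notMem (fun hx => hc hx.2) _
        have e2 : f2 ω = 1 := Set.indicator_of_mem (show ω ∈ E1 ∩ C1ᶜ from ⟨hE, hc⟩) _
        by_cases hBB : ω ∈ B
        · have e3 : gB ω = 1 := Set.indicator_of_mem hBB _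
          rw [e1, e2, e3, zero_mul, zero_add, mul_one, mul_one]
          have hc' : al D.K (D.w h ω) j (range (L1 + 1)) * P2 <
              4 * (P1 * al D.K (D.w h ω) j (Ico (L2 + 1) (L + 1))) := not_le.1 hc
          exact mixture_gain (K_nonneg D) hγ hγ1 h12 h2L hLj.le ‹0 < c› hg0 hP1 hP2 hc1 hc2 d0 d1 d2
            d3 d4 (Or.inr ⟨hc', hBB⟩)
        · have e3 : gB ω = 0 := Set.indicator_of_notMem hBB _
          rw [e1, e3]
          simpa using hbase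
    · have e1 : f1 ω = 0 := Set.indicator_of_notMem (fun hx => hE hx.1) _
      have e2 : f2 ω = 0 := Set.indicator_of_notMem (fun hx => hE hx.1) _
      rw [e1, e2]
      simpa using hbase
  have i12 : Integrable (fun ω => f1 ω * gA ω + f2 ω * gB ω) D.P := i1.add i2
  have i13 : Integrable (fun ω => G0 * (f1 ω * gA ω + f2 ω * gB ω)) D.P := i12.const_mul G0
  have hint : Integrable (fun ω => HHj D h γ L j ω + G0 * (f1 ω * gA ω + f2 ω * gB ω)) D.P :=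
    k1.add i13
  have hmono := integral_mono hint
    ((Bj_rpow_integrable D hh hγ0 hγ1.le hLj).const_mul ((bj D.K L j) ^ (1 - γ))) hpt
  have e0 : ∫ ω, (HHj D h γ L j ω + G0 * (f1 ω * gA ω + f2 ω * gB ω)) ∂D.P =
      ∫ ω, HHj D h γ L j ω ∂D.P + G0 * ∫ ω, (f1 ω * gA ω + f2 ω * gB ω) ∂D.P := by
    rw [integral_add k1 i13, integral_const_mul]
  rw [e0] at hmono
  have h9 := mul_le_mul_of_nonneg_left hgain hG0n
  have h10 : BB D h γ L j = ∫ ω : ℕ → ℝ, (bj D.K L j) ^ (1 - γ) *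
      (Bj D.K (D.w h ω) L j) ^ γ ∂D.P := rfl
  rw [h10]
  linarith

end Pool.Agent.U260.CS
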