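import Pool.Agent.U260.CU7
import Pool.Agent.Helper764.Cop_fanti

set_option autoImplicit false
set_option maxHeartbeats 4000000

open Finset MeasureTheory ProbabilityTheory Filter Topology

namespace Pool.Agent.U260.CS

open Cop764 (G S phi G_eq)


section
variable {K w : ℕ → ℝ} {δ : ℝ}

theorem S_drop (w : ℕ → ℝ) (δ : ℝ) {i j : ℕ} (hij : i ≤ j) :
    S (fun n => w n - δ) i j = S w i j - δ * ((j : ℝ) - i) := by
  unfold Cop764.S
  rw [Finset.sum_sub_distrib, Finset.sum_const, Nat.card_Ioc, nsmul_eq_mul, Nat.cast_sub hij]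
  ring

theorem phi_drop (w : ℕ → ℝ) (hδ : 0 ≤ δ) {i j : ℕ} (hij : i ≤ j) :
    Real.exp (-(δ * ((j : ℝ) - i))) * phi w i j ≤ phi (fun n => w n - δ) i j := by
  unfold Cop764.phi
  have e : Real.exp (S w i j - δ * ((j : ℝ) - i)) =
      Real.exp (S w i j) * Real.exp (-(δ * ((j : ℝ) - i))) := by
    rw [← Real.exp_add]
    rfl
  rw [S_drop w δ hij, e]
  have hji : (0 : ℝ) ≤ (j : ℝ) - i := by
    have : (i : ℝ) ≤ j := by exact_mod_cast hij
    linarith
  have h1 : Real.exp (-(δ * ((j : ℝ) - i))) ≤ 1 := by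
    apply Real.exp_le_one_iff.2
    have := mul_nonneg hδ hji
    linarith
  linarith

theorem G_drop (hK : ∀ n, 0 ≤ K n) (hδ : 0 ≤ δ) (w : ℕ → ℝ) (j : ℕ) : ∀ n i : ℕ, j - i = n →
    i ≤ j → Real.exp (-(δ * ((j : ℝ) - i))) * G K w i j ≤ G K (fun n => w n - δ) i j := by
  intro n
  induction n using Nat.strong_induction_on with
  | _ n ih =>
    intro i hn hij
    rcases eq_or_lt_of_le hij with rfl | hlt
    · rw [G_self, G_self]
      simp
    · rw [G_eq K w i j, if_neg (by omega), G_eq K _ i j, if_neg (by omega), Finset.mul_sum]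
      refine Finset.sum_le_sum fun k hk => ?_
      rw [Finset.mem_Ioc] at hk
      have h1 := ih (j - k) (by omega) k rfl hk.2
      have h2 := phi_drop w hδ hk.1.le
      have e : Real.exp (-(δ * ((j : ℝ) - i))) = Real.exp (-(δ * ((k : ℝ) - i))) *
          Real.exp (-(δ * ((j : ℝ) - k))) := by
        rw [← Real.exp_add]
        congr 1
        ring
      rw [e]
      have h3 : 0 ≤ Real.exp (-(δ * ((j : ℝ) - k))) * G K w k j :=
        mul_nonneg (Real.exp_pos _).le (G_nonneg hK _ _)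
      calc Real.exp (-(δ * ((k : ℝ) - i))) * Real.exp (-(δ * ((j : ℝ) - k))) *
            (K (k - i) * phi w i k * G K w k j)
          = K (k - i) * (Real.exp (-(δ * ((k : ℝ) - i))) * phi w i k) *
            (Real.exp (-(δ * ((j : ℝ) - k))) * G K w k j) := by ring
        _ ≤ K (k - i) * phi (fun n => w n - δ) i k *
            (Real.exp (-(δ * ((j : ℝ) - k))) * G K w k j) := by
            refine mul_le_mul_of_nonneg_right ?_ h3
            exact mul_le_mul_of_nonneg_left h2 (hK _)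
        _ ≤ _ := mul_le_mul_of_nonneg_left h1 (mul_nonneg (hK _) (phi_nonneg _ _ _))

theorem Bj_drop (hK : ∀ n, 0 ≤ K n) (hδ : 0 ≤ δ) (w : ℕ → ℝ) {L j : ℕ} (hLj : L ≤ j) :
    Real.exp (-(δ * j)) * Bj K w L j ≤ Bj K (fun n => w n - δ) L j := by
  unfold Bj
  rw [Finset.mul_sum]
  refine Finset.sum_le_sum fun i hi => ?_
  rw [Finset.mem_range] at hi
  have h1 := G_drop hK hδ w i i 0 (by omega) (Nat.zero_le i)
  have h2 := phi_drop w hδ (show i ≤ j by omega)
  have e : Real.exp (-(δ * j)) = Real.exp (-(δ * ((i : ℝ) - (0 : ℕ)))) *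
      Real.exp (-(δ * ((j : ℝ) - i))) := by
    rw [← Real.exp_add]
    congr 1
    push_cast
    ring
  rw [e]
  calc Real.exp (-(δ * ((i : ℝ) - (0 : ℕ)))) * Real.exp (-(δ * ((j : ℝ) - i))) *
        (G K w 0 i * (K (j - i) * phi w i j))
      = (Real.exp (-(δ * ((i : ℝ) - (0 : ℕ)))) * G K w 0 i) *
        (K (j - i) * (Real.exp (-(δ * ((j : ℝ) - i))) * phi w i j)) := by ring
    _ ≤ _ := by
        refine mul_le_mul h1 (mul_le_mul_of_nonneg_left h2 (hK _)) ?_ (G_nonneg hK _ _)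
        exact mul_nonneg (hK _) (mul_nonneg (Real.exp_pos _).le (phi_nonneg _ _ _))

end

variable {γ : ℝ}

theorem BB_drop (D : Cop764.Data) {h h' : ℝ} (hh : 0 ≤ h) (hhh : h ≤ h') (hγ : 0 < γ)
    (hγ1 : γ < 1) {L j : ℕ} (hLj : L < j) :
    Real.exp (-(2 * D.lam * (h' - h) * j)) * BB D h γ L j ≤ BB D h' γ L j := by
  have hlam := D.hlam
  have hδ : 0 ≤ 2 * D.lam * (h' - h) := by
    have : 0 ≤ h' - h := by linarith
    positivity
  unfold BB
  rw [← integral_const_mul]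
  refine integral_mono (((Bj_rpow_integrable D hh hγ hγ1.le hLj).const_mul _).const_mul _)
    ((Bj_rpow_integrable D (hh.trans hhh) hγ hγ1.le hLj).const_mul _) fun ω => ?_
  show Real.exp (-(2 * D.lam * (h' - h) * j)) * hol γ (bj D.K L j) (Bj D.K (D.w h ω) L j) ≤
    hol γ (bj D.K L j) (Bj D.K (D.w h' ω) L j)
  have hw : D.w h' ω = fun n => D.w h ω n - 2 * D.lam * (h' - h) := by
    funext n
    unfold Cop764.Data.w
    ring
  have h1 := Bj_drop (K_nonneg D) hδ (D.w h ω) hLj.le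
  rw [← hw] at h1
  set E := Real.exp (-(2 * D.lam * (h' - h) * j)) with hE
  have hE0 : 0 < E := Real.exp_pos _
  have hE1 : E ≤ 1 := by
    apply Real.exp_le_one_iff.2
    have : 0 ≤ 2 * D.lam * (h' - h) * j := mul_nonneg hδ (Nat.cast_nonneg j)
    linarith
  have hB := Bj_nonneg (w := D.w h ω) (K_nonneg D) L j
  have hb := bj_nonneg (K_nonneg D) L j
  rw [← hol_mul hγ hγ1 hE0.le hb hB]
  refine hol_mono hγ hγ1 (mul_nonneg hE0.le hb) (mul_nonneg hE0.le hB) ?_ h1
  nlinarith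

theorem AA_le_mean (D : Cop764.Data) (h : ℝ) (hγ : 0 ≤ γ) (hγ1 : γ ≤ 1) (n : ℕ) :
    AA D h γ n ≤ γ * ((1 + psi D h 1 ^ n) / 2) + (1 - γ) := by
  obtain ⟨z1, z2⟩ := exp_S D h 1 n
  simp only [one_mul] at z1 z2
  unfold AA
  have hpt : ∀ ω : ℕ → ℝ, (phi (D.w h ω) 0 n) ^ γ ≤
      γ * ((1 + Real.exp (S (D.w h ω) 0 n)) / 2) + (1 - γ) := by
    intro ω
    have := Real.geom_mean_le_arith_mean2_weighted (w₁ := γ) (w₂ := 1 - γ)
      (p₁ := phi (D.w h ω) 0 n) (p₂ := 1) hγ (by linarith) (phi_nonneg _ _ _) zero_le_one (by ring)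
    rw [Real.one_rpow, mul_one, mul_one] at this
    exact this
  have k1 : Integrable (fun ω : ℕ → ℝ => (1 + Real.exp (S (D.w h ω) 0 n)) / 2) D.P :=
    ((integrable_const 1).add z1).div_const 2
  have k2 : Integrable (fun ω : ℕ → ℝ => γ * ((1 + Real.exp (S (D.w h ω) 0 n)) / 2) + (1 - γ)) D.P :=
    (k1.const_mul γ).add (integrable_const _)
  refine (integral_mono (phi_rpow_integrable D h hγ hγ1 n) k2 hpt).trans (le_of_eq ?_)
  rw [integral_add (k1.const_mul γ) (integrable_const _), integral_const_mul, integral_div,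
    integral_add (integrable_const 1) z1, z2, integral_const, integral_const]
  simp only [probReal_univ, one_smul]

theorem AA_le_exp (D : Cop764.Data) (h : ℝ) (hγ : 0 ≤ γ) (hγ1 : γ ≤ 1) {x : ℝ} (hx : 0 ≤ x)
    (hpsi : psi D h 1 ≤ Real.exp x) (n : ℕ) : AA D h γ n ≤ Real.exp (x * n) := by
  have h1 : psi D h 1 ^ n ≤ Real.exp (x * n) := by
    refine (pow_le_pow_left₀ (psi_pos D h 1).le hpsi n).trans (le_of_eq ?_)
    rw [← Real.exp_nat_mul]
    congr 1
    ring
  have h2 : 1 ≤ Real.exp (x * n) := Real.one_le_exp (by positivity)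
  refine (AA_le_mean D h hγ hγ1 n).trans ?_
  nlinarith

theorem AA_le_one (D : Cop764.Data) (h : ℝ) (hγ : 0 ≤ γ) (hγ1 : γ ≤ 1)
    (hpsi : psi D h 1 ≤ 1) (n : ℕ) : AA D h γ n ≤ 1 := by
  have := AA_le_exp D h hγ hγ1 (x := 0) le_rfl (by simpa using hpsi) n
  simpa using this

theorem AA_le_two (D : Cop764.Data) (h : ℝ) (hγ : 0 ≤ γ) (hγ1 : γ ≤ 1)
    (hpsi : psi D h γ ≤ 1) (n : ℕ) : AA D h γ n ≤ 2 := by
  obtain ⟨z1, z2⟩ := exp_S D h γ n
  unfold AA
  have hpt : ∀ ω : ℕ → ℝ, (phi (D.w h ω) 0 n) ^ γ ≤ 1 + Real.exp (γ * S (D.w h ω) 0 n) := by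
    intro ω
    have h1 : phi (D.w h ω) 0 n ≤ max 1 (Real.exp (S (D.w h ω) 0 n)) := by
      unfold Cop764.phi
      have h2 := le_max_left 1 (Real.exp (S (D.w h ω) 0 n))
      have h3 := le_max_right 1 (Real.exp (S (D.w h ω) 0 n))
      linarith
    have h2 := Real.rpow_le_rpow (phi_nonneg _ _ _) h1 hγ
    refine h2.trans ?_
    rcases le_total 1 (Real.exp (S (D.w h ω) 0 n)) with h3 | h3
    · rw [max_eq_right h3, ← Real.exp_mul, mul_comm]
      linarith [Real.exp_pos (γ * S (D.w h ω) 0 n)]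
    · rw [max_eq_left h3, Real.one_rpow]
      linarith [Real.exp_pos (γ * S (D.w h ω) 0 n)]
  have k1 : Integrable (fun ω : ℕ → ℝ => 1 + Real.exp (γ * S (D.w h ω) 0 n)) D.P :=
    (integrable_const 1).add z1
  refine (integral_mono (phi_rpow_integrable D h hγ hγ1 n) k1 hpt).trans ?_
  rw [integral_add (integrable_const 1) z1, z2, integral_const]
  simp only [probReal_univ, one_smul]
  have : psi D h γ ^ n ≤ 1 := pow_le_one₀ (psi_pos D h γ).le hpsi
  linarith

end Pool.Agent.U260.CS
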