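import Pool.Agent.U260.CU8

set_option autoImplicit false
set_option maxHeartbeats 4000000

open Finset MeasureTheory ProbabilityTheory Filter Topology

namespace Pool.Agent.U260.CS

open Cop764 (G S phi G_eq)


/-- sum of the macroscopic weights at scale `L` -/
theorem macro_sum (D : Cop764.Data) {h γ : ℝ} (hh : 0 ≤ h) (hγ : 1 / 2 ≤ γ) (hγ1 : γ < 1)
    {L M : ℕ} (hLM : 3 * L ≤ M) {τ UV gj Γ : ℝ} (hτ0 : 0 ≤ τ)
    (hτ : TT (KA D h γ) (M - L) ≤ τ) (hUV : ∑ i ∈ range (L + 1), u (KA D h γ) i ≤ UV)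
    (hg : ∀ j, 2 * L < j → j ≤ 3 * L → bj (KA D h γ) L j + gj ≤ BB D h γ L j)
    (hΓ : Γ ≤ L * gj) :
    1 - τ * UV + Γ ≤ ∑ j ∈ Ioc L M, BB D h γ L j := by
  have hγ0 : 0 < γ := by linarith
  have h1 := tilted_mass D (show L ≤ M by omega) hτ0 hτ hUV
  have h2 : ∑ j ∈ Ioc L M, (bj (KA D h γ) L j + if 2 * L < j ∧ j ≤ 3 * L then gj else 0) ≤
      ∑ j ∈ Ioc L M, BB D h γ L j := by
    refine Finset.sum_le_sum fun j hj => ?_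
    rw [Finset.mem_Ioc] at hj
    split_ifs with hc
    · exact hg j hc.1 hc.2
    · rw [add_zero]
      exact BB_ge D hh hγ0 hγ1 hj.1
  rw [Finset.sum_add_distrib] at h2
  have h3 : ∑ j ∈ Ioc L M, (if 2 * L < j ∧ j ≤ 3 * L then gj else 0) = L * gj := by
    rw [← Finset.sum_filter]
    have e : (Ioc L M).filter (fun j => 2 * L < j ∧ j ≤ 3 * L) = Ioc (2 * L) (3 * L) := by
      ext a
      simp only [Finset.mem_filter, Finset.mem_Ioc]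
      omega
    rw [e, Finset.sum_const, Nat.card_Ioc, nsmul_eq_mul]
    have : 3 * L - 2 * L = L := by omega
    rw [this]
  linarith

/-- choice of the constants -/
theorem consts {α γ m0 : ℝ} (hα : 0 < α) (hα1 : α < 1) (hγ2 : 1 / 2 < γ) (hγ1 : γ < 1)
    (hm0 : γ < m0) : ∃ cl η2 θ ρ η Γ gc cB c ε : ℝ, ∃ Q : ℕ,
    cl = α * (1 - α) / 16 ∧ 0 < cl ∧ cl ≤ 1 ∧ 0 < η2 ∧ η2 ≤ 1 ∧ η2 ^ α = cl / 16 ∧
    1024 ≤ θ ∧ 0 < ρ ∧ 256 ≤ ρ ∧ η2 * θ = 4 * ρ ∧ ρ ≤ θ / 4 ∧ 64 * θ ≤ ρ ^ 2 ∧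
    η * (512 * θ) = 1 ∧ 0 < η ∧ η ≤ 1 ∧ c = cl * η / 1152 ∧ 0 < c ∧
    gc = (1 - γ) * (c ^ 2 / 64) * (Real.exp (-((ρ + 8 * θ) / 2)) / 2) ∧ 0 < gc ∧
    cB = 3 / 4 * (Real.exp (-(9408 * θ)) / 4) ∧ 0 < cB ∧
    Γ = gc * (cl / 36) * cB ∧ 0 < Γ ∧ Γ ≤ 1 ∧
    2 ≤ Q ∧ 128 / α * Real.exp (6 * θ) * (Q : ℝ) ^ (-α) ≤ Γ / 4 ∧
    0 < ε ∧ ε ≤ (m0 - γ) / 2 ∧ ε * (16 * ((Q : ℝ) + 1) * θ) ≤ Γ := by
  have hγ0 : 0 < γ := by linarith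
  have h1α : 0 < 1 - α := by linarith
  obtain ⟨cl, hcl⟩ : ∃ cl : ℝ, cl = α * (1 - α) / 16 := ⟨_, rfl⟩
  have hcl0 : 0 < cl := by rw [hcl]; positivity
  have hcl1 : cl ≤ 1 := by
    rw [hcl]
    nlinarith
  obtain ⟨η2, hη2⟩ : ∃ η2 : ℝ, η2 = (cl / 16) ^ (1 / α) := ⟨_, rfl⟩
  have hη20 : 0 < η2 := by rw [hη2]; positivity
  have hη21 : η2 ≤ 1 := by
    rw [hη2]
    apply Real.rpow_le_one (by positivity) (by linarith) (by positivity)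
  have hη2α : η2 ^ α = cl / 16 := by
    rw [hη2, ← Real.rpow_mul (by positivity), one_div_mul_cancel hα.ne', Real.rpow_one]
  obtain ⟨θ, hθ⟩ : ∃ θ : ℝ, θ = 1024 / η2 ^ 2 := ⟨_, rfl⟩
  have hη2sq : η2 ^ 2 ≤ 1 := by nlinarith
  have hθ1 : 1024 ≤ θ := by
    rw [hθ, le_div_iff₀ (by positivity)]
    linarith
  obtain ⟨ρ, hρ⟩ : ∃ ρ : ℝ, ρ = 256 / η2 := ⟨_, rfl⟩
  have hρ0 : 0 < ρ := by rw [hρ]; positivity
  have hρeq : η2 * θ = 1024 / η2 := by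
    rw [hθ]
    field_simp
  have hρ256 : 256 ≤ ρ := by
    rw [hρ, le_div_iff₀ hη20]
    linarith
  have hη2θ : η2 * θ = 4 * ρ := by
    rw [hρeq, hρ]
    ring
  have hρθ : ρ ≤ θ / 4 := by
    have : η2 * θ ≤ 1 * θ := mul_le_mul_of_nonneg_right hη21 (by linarith)
    linarith
  have hρ2 : 64 * θ ≤ ρ ^ 2 := by
    rw [hθ, hρ]
    apply le_of_eq
    field_simp
    norm_num
  have hθ0 : 0 < θ := by linarith
  obtain ⟨η, hη⟩ : ∃ η : ℝ, η = 1 / (512 * θ) := ⟨_, rfl⟩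
  have hη0 : 0 < η := by rw [hη]; positivity
  have hη1 : η ≤ 1 := by
    rw [hη, div_le_one (by positivity)]
    linarith
  have hηeq : η * (512 * θ) = 1 := by
    rw [hη]
    field_simp
  obtain ⟨c, hc⟩ : ∃ c : ℝ, c = cl * η / 1152 := ⟨_, rfl⟩
  have hc0 : 0 < c := by rw [hc]; positivity
  have hc1 : c ≤ 1 := by
    have : cl * η ≤ 1 * 1 := mul_le_mul hcl1 hη1 hη0.le (by norm_num)
    rw [hc]
    linarith
  obtain ⟨gc, hgc⟩ : ∃ gc : ℝ, gc = (1 - γ) * (c ^ 2 / 64) *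
    (Real.exp (-((ρ + 8 * θ) / 2)) / 2) := ⟨_, rfl⟩
  have h1γ : 0 < 1 - γ := by linarith
  have hgc0 : 0 < gc := by rw [hgc]; positivity
  obtain ⟨cB, hcB⟩ : ∃ cB : ℝ, cB = 3 / 4 * (Real.exp (-(9408 * θ)) / 4) := ⟨_, rfl⟩
  have hcB0 : 0 < cB := by rw [hcB]; positivity
  obtain ⟨Γ, hΓ⟩ : ∃ Γ : ℝ, Γ = gc * (cl / 36) * cB := ⟨_, rfl⟩
  have hΓ0 : 0 < Γ := by rw [hΓ]; positivity
  have hΓ1 : Γ ≤ 1 := by
    have h1 : gc ≤ 1 := by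
      have e1 : Real.exp (-((ρ + 8 * θ) / 2)) ≤ 1 := Real.exp_le_one_iff.2 (by linarith)
      have e2 : c ^ 2 ≤ 1 := by nlinarith
      have e3 : (1 - γ) * (c ^ 2 / 64) ≤ 1 * 1 :=
        mul_le_mul (by linarith) (by linarith) (by positivity) (by norm_num)
      have e4 : (1 - γ) * (c ^ 2 / 64) * (Real.exp (-((ρ + 8 * θ) / 2)) / 2) ≤ 1 * 1 := by
        refine mul_le_mul (by linarith) (by linarith) (by positivity) (by norm_num)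
      rw [hgc]
      linarith
    have h2 : cB ≤ 1 := by
      have e1 : Real.exp (-(9408 * θ)) ≤ 1 := Real.exp_le_one_iff.2 (by linarith)
      rw [hcB]
      linarith
    have h3 : gc * (cl / 36) ≤ 1 * 1 :=
      mul_le_mul h1 (by linarith) (by positivity) (by norm_num)
    have h4 : gc * (cl / 36) * cB ≤ 1 * 1 :=
      mul_le_mul (by linarith) h2 hcB0.le (by norm_num)
    rw [hΓ]
    linarith
  obtain ⟨A, hA⟩ : ∃ A : ℝ, A = 128 / α * Real.exp (6 * θ) := ⟨_, rfl⟩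
  obtain ⟨Q, hQ2, hQ⟩ : ∃ Q : ℕ, 2 ≤ Q ∧ A * (Q : ℝ) ^ (-α) ≤ Γ / 4 := by
    have h1 : Tendsto (fun n : ℕ => A * (n : ℝ) ^ (-α)) atTop (𝓝 (A * 0)) :=
      ((tendsto_rpow_neg_atTop hα).comp tendsto_natCast_atTop_atTop).const_mul A
    rw [mul_zero] at h1
    have h2 := h1.eventually (gt_mem_nhds (show (0 : ℝ) < Γ / 4 by positivity))
    obtain ⟨Q, hQ, hQ2⟩ := (h2.and (eventually_ge_atTop 2)).exists
    exact ⟨Q, hQ2, hQ.le⟩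
  have hQr : (2 : ℝ) ≤ Q := by exact_mod_cast hQ2
  obtain ⟨ε, hε⟩ : ∃ ε : ℝ, ε = min ((m0 - γ) / 2) (Γ / (16 * ((Q : ℝ) + 1) * θ)) := ⟨_, rfl⟩
  have hm0γ : 0 < m0 - γ := by linarith
  have hε0 : 0 < ε := by
    rw [hε]
    refine lt_min (by linarith) (by positivity)
  have hε2 : ε * (16 * ((Q : ℝ) + 1) * θ) ≤ Γ := by
    rw [← le_div_iff₀ (by positivity), hε]
    exact min_le_right _ _
  refine ⟨cl, η2, θ, ρ, η, Γ, gc, cB, c, ε, Q, hcl, hcl0, hcl1, hη20, hη21, hη2α, hθ1, hρ0,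
    hρ256, hη2θ, hρθ, hρ2, hηeq, hη0, hη1, hc, hc0, hgc, hgc0, hcB, hcB0, hΓ, hΓ0, hΓ1, hQ2,
    ?_, hε0, ?_, hε2⟩
  · rw [← hA]
    exact hQ
  · rw [hε]
    exact min_le_left _ _

/-- choice of the scales -/
theorem scale_facts {α cl η2 θ ρ η x : ℝ} (hα : 0 < α) (hη20 : 0 < η2) (hη21 : η2 ≤ 1)
    (hη2α : η2 ^ α = cl / 16) (hθ1 : 1024 ≤ θ) (hρ256 : 256 ≤ ρ) (hη2θ : η2 * θ = 4 * ρ)
    (hηeq : η * (512 * θ) = 1) (hη0 : 0 < η) (hx : 0 < x) (hx1 : x ≤ 1 / 256) {n1 : ℕ}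
    (_hn1 : 1 ≤ n1) (hxn : 256 * (n1 : ℝ) * x ≤ 1) :
    ∃ L L1 L2 : ℕ, θ ≤ x * L ∧ x * L ≤ 2 * θ ∧ x * L1 ≤ 1 / 128 ∧ n1 ≤ L1 ∧
      ρ + 4 ≤ x * L2 ∧ L1 ≤ L2 ∧ L2 ≤ L ∧ η * L ≤ L1 ∧ 16 * (L2 : ℝ) ^ α ≤ cl * (L : ℝ) ^ α := by
  have a1 : θ / x ≤ (⌈θ / x⌉₊ : ℝ) := Nat.le_ceil _
  have a2 : (⌈θ / x⌉₊ : ℝ) < θ / x + 1 := Nat.ceil_lt_add_one (by positivity)
  obtain ⟨L, hL⟩ : ∃ L : ℕ, L = ⌈θ / x⌉₊ := ⟨_, rfl⟩
  rw [← hL] at a1 a2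
  have b1 : (⌊1 / (128 * x)⌋₊ : ℝ) ≤ 1 / (128 * x) := Nat.floor_le (by positivity)
  have b2 : 1 / (128 * x) < (⌊1 / (128 * x)⌋₊ : ℝ) + 1 := Nat.lt_floor_add_one _
  obtain ⟨L1, hL1⟩ : ∃ L1 : ℕ, L1 = ⌊1 / (128 * x)⌋₊ := ⟨_, rfl⟩
  rw [← hL1] at b1 b2
  have c1 : (⌊η2 * L⌋₊ : ℝ) ≤ η2 * L := Nat.floor_le (by positivity)
  have c2 : η2 * (L : ℝ) < (⌊η2 * L⌋₊ : ℝ) + 1 := Nat.lt_floor_add_one _
  obtain ⟨L2, hL2⟩ : ∃ L2 : ℕ, L2 = ⌊η2 * L⌋₊ := ⟨_, rfl⟩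
  rw [← hL2] at c1 c2
  have hLl : θ ≤ x * L := by
    rw [div_le_iff₀ hx] at a1
    linarith
  have hLu : x * L ≤ 2 * θ := by
    have h1 : x * (L : ℝ) ≤ x * (θ / x + 1) := mul_le_mul_of_nonneg_left a2.le hx.le
    have h2 : x * (θ / x + 1) = θ + x := by field_simp
    linarith
  have hL1u : x * L1 ≤ 1 / 128 := by
    rw [le_div_iff₀ (by positivity)] at b1
    linarith
  have hL1l : 1 / 256 ≤ x * L1 := by
    rw [div_lt_iff₀ (by positivity)] at b2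
    linarith
  have hL1n : n1 ≤ L1 := by
    have h1 : (n1 : ℝ) * x ≤ L1 * x := by linarith
    have h2 : (n1 : ℝ) ≤ L1 := le_of_mul_le_mul_right h1 hx
    exact_mod_cast h2
  have hL2l : 4 * ρ - 1 ≤ x * L2 := by
    have h1 : η2 * θ ≤ η2 * (x * L) := mul_le_mul_of_nonneg_left hLl hη20.le
    have h2 : x * (η2 * (L : ℝ)) ≤ x * ((L2 : ℝ) + 1) := mul_le_mul_of_nonneg_left c2.le hx.le
    linarith
  have h12 : L1 ≤ L2 := by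
    have h1 : (L1 : ℝ) * x ≤ L2 * x := by linarith
    have h2 : (L1 : ℝ) ≤ L2 := le_of_mul_le_mul_right h1 hx
    exact_mod_cast h2
  have hLnn : (0 : ℝ) ≤ L := Nat.cast_nonneg L
  have h2L : L2 ≤ L := by
    have h1 : (L2 : ℝ) ≤ L := c1.trans (by nlinarith)
    exact_mod_cast h1
  have hηL : η * L ≤ L1 := by
    have h1 : η * L * x ≤ L1 * x := by
      have h2 : η * (x * L) ≤ η * (2 * θ) := mul_le_mul_of_nonneg_left hLu hη0.le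
      have h3 : η * (2 * θ) = 1 / 256 := by linarith
      linarith
    exact le_of_mul_le_mul_right h1 hx
  have hL2α : 16 * (L2 : ℝ) ^ α ≤ cl * (L : ℝ) ^ α := by
    have h1 : (L2 : ℝ) ^ α ≤ (η2 * L) ^ α := Real.rpow_le_rpow (Nat.cast_nonneg _) c1 hα.le
    rw [Real.mul_rpow hη20.le hLnn, hη2α] at h1
    linarith
  exact ⟨L, L1, L2, hLl, hLu, hL1u, hL1n, by linarith, h12, h2L, hηL, hL2α⟩

end Pool.Agent.U260.CS
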