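import Pool.Agent.U260.CU10

set_option autoImplicit false
set_option maxHeartbeats 4000000

open Finset MeasureTheory ProbabilityTheory Filter Topology

namespace Pool.Agent.U260.CS

open Cop764 (G phi G_eq)

/-- the averaged criterion implies localization -/
theorem ave_pos (D : Cop764.Data) {h : ℝ} (hh : 0 ≤ h)
    (hN : ∃ N : ℕ, 1 < ∑ k ∈ Ioc 0 N, D.K k * AA D h (1 / (1 + D.α)) k) : 0 < D.f h := by
  obtain ⟨N, hN⟩ := hN
  have hα := D.hα
  exact pos_of_sum D (γ := 1 / (1 + D.α)) hh (by field_simp) hN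

/-- the supremum of an eventually dominated set -/
theorem sSup_add_le {A : Set ℝ} {c b : ℝ} (h0 : c ≤ b) (h : ∀ x ∈ A, x + c ≤ b) :
    sSup A + c ≤ b := by
  rcases A.eq_empty_or_nonempty with rfl | hne
  · rw [Real.sSup_empty, zero_add]
    exact h0
  · have : sSup A ≤ b - c := csSup_le hne fun x hx => by linarith [h x hx]
    linarith

end Pool.Agent.U260.CS
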