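import Pool.Agent.U260.CV1

set_option autoImplicit false
set_option maxHeartbeats 4000000

open Finset MeasureTheory ProbabilityTheory Filter Topology

namespace Pool.Agent.U260.CS

open Cop764 (G S phi G_eq)

/-- `cosh δ - c sinh δ ≤ e^{-cδ}` for `c ≥ 1`, `δ ≥ 0` -/
theorem cosh_sub_le {c : ℝ} (hc : 1 ≤ c) {d : ℝ} (hd : 0 ≤ d) :
    Real.cosh d - c * Real.sinh d ≤ Real.exp (-(c * d)) := by
  -- K(x) = e^{cx} (cosh x - c sinh x) is antitone
  have hK : AntitoneOn (fun x : ℝ => Real.exp (c * x) * (Real.cosh x - c * Real.sinh x))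
      (Set.Ici 0) := by
    refine antitoneOn_of_deriv_nonpos (convex_Ici 0) (by fun_prop) (by fun_prop) ?_
    intro x hx
    rw [interior_Ici] at hx
    have hx0 : 0 < x := hx
    have h1 : HasDerivAt (fun x : ℝ => Real.exp (c * x) * (Real.cosh x - c * Real.sinh x))
        (Real.exp (c * x) * (c * 1) * (Real.cosh x - c * Real.sinh x) +
          Real.exp (c * x) * (Real.sinh x - c * Real.cosh x)) x := by
      have e1 : HasDerivAt (fun x : ℝ => Real.exp (c * x)) (Real.exp (c * x) * (c * 1)) x :=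
        ((hasDerivAt_id x).const_mul c).exp
      have e2 : HasDerivAt (fun x : ℝ => Real.cosh x - c * Real.sinh x)
          (Real.sinh x - c * Real.cosh x) x :=
        (Real.hasDerivAt_cosh x).sub ((Real.hasDerivAt_sinh x).const_mul c)
      exact e1.mul e2
    rw [h1.deriv]
    have h2 : Real.exp (c * x) * (c * 1) * (Real.cosh x - c * Real.sinh x) +
          Real.exp (c * x) * (Real.sinh x - c * Real.cosh x) =
          -(Real.exp (c * x) * ((c ^ 2 - 1) * Real.sinh x)) := by ring
    rw [h2]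
    have h3 : 0 ≤ Real.sinh x := (Real.sinh_pos_iff.2 hx0).le
    have h4 : 0 ≤ c ^ 2 - 1 := by nlinarith
    have := Real.exp_pos (c * x)
    have h5 : 0 ≤ Real.exp (c * x) * ((c ^ 2 - 1) * Real.sinh x) := by positivity
    linarith
  have h := hK (Set.mem_Ici.2 le_rfl) (Set.mem_Ici.2 hd) hd
  simp only [mul_zero, Real.exp_zero, Real.cosh_zero, Real.sinh_zero, sub_zero, one_mul] at h
  have h2 := mul_le_mul_of_nonneg_left h (Real.exp_pos (-(c * d))).le
  rw [← mul_assoc, ← Real.exp_add, mul_one] at h2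
  simpa using h2

/-- `(2 cosh s)^{1-q} sinh(q s) ≤ sinh s` for `q ∈ [0,1]`, `s ≥ 0` -/
theorem sinh_ineq {q s : ℝ} (_hq : 0 ≤ q) (hq1 : q ≤ 1) (hs : 0 < s) :
    (2 * Real.cosh s) ^ (1 - q) * Real.sinh (q * s) ≤ Real.sinh s := by
  have hsp : 0 < Real.sinh s := Real.sinh_pos_iff.2 hs
  have hcp : 0 < Real.cosh s := Real.cosh_pos s
  obtain ⟨c, hc⟩ : ∃ c : ℝ, c = Real.cosh s / Real.sinh s := ⟨_, rfl⟩
  have hcs : c * Real.sinh s = Real.cosh s := by
    rw [hc]
    field_simp
  have hes : 0 < Real.exp (-s) := Real.exp_pos _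
  have hc1 : 1 ≤ c := by
    rw [hc, le_div_iff₀ hsp, one_mul, Real.cosh_eq, Real.sinh_eq]
    linarith
  -- tangent inequality
  have h1 : Real.sinh (q * s) ≤ Real.sinh s * Real.exp (-(c * ((1 - q) * s))) := by
    have h2 := cosh_sub_le hc1 (d := (1 - q) * s) (by nlinarith)
    have h3 := mul_le_mul_of_nonneg_left h2 hsp.le
    have h4 : Real.sinh (q * s) = Real.sinh s * (Real.cosh ((1 - q) * s) -
        c * Real.sinh ((1 - q) * s)) := by
      have e : q * s = s - (1 - q) * s := by ring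
      rw [e, Real.sinh_sub]
      have : Real.sinh s * (Real.cosh ((1 - q) * s) - c * Real.sinh ((1 - q) * s)) =
        Real.sinh s * Real.cosh ((1 - q) * s) - (c * Real.sinh s) * Real.sinh ((1 - q) * s) := by
        ring
      rw [this, hcs]
    rw [h4]
    exact h3
  -- 2 cosh s ≤ e^{c s}
  have h5 : 2 * Real.cosh s ≤ Real.exp (c * s) := by
    have h6 : Real.exp (-(2 * s)) ≤ s * (c - 1) := by
      have h7 : c - 1 = Real.exp (-s) / Real.sinh s := by
        rw [hc, eq_div_iff hsp.ne', sub_mul, div_mul_cancel₀ _ hsp.ne', one_mul, Real.cosh_eq,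
          Real.sinh_eq]
        ring
      rw [h7, mul_div_assoc', le_div_iff₀ hsp]
      -- e^{-2s} sinh s ≤ s e^{-s}
      have h8 : Real.exp (-(2 * s)) * Real.sinh s =
          Real.exp (-s) * ((1 - Real.exp (-(2 * s))) / 2) := by
        rw [Real.sinh_eq]
        have e1 : Real.exp (-(2 * s)) * Real.exp s = Real.exp (-s) := by
          rw [← Real.exp_add]
          congr 1
          ring
        have e2 : Real.exp (-(2 * s)) = Real.exp (-s) * Real.exp (-s) := by
          rw [← Real.exp_add]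
          congr 1
          ring
        have e3 : Real.exp (-(2 * s)) * ((Real.exp s - Real.exp (-s)) / 2) =
            (Real.exp (-(2 * s)) * Real.exp s - Real.exp (-(2 * s)) * Real.exp (-s)) / 2 := by ring
        rw [e3, e1, e2]
        ring
      rw [h8, mul_comm s]
      refine mul_le_mul_of_nonneg_left ?_ hes.le
      have := Real.add_one_le_exp (-(2 * s))
      linarith
    have h9 : 2 * Real.cosh s = Real.exp s * (1 + Real.exp (-(2 * s))) := by
      rw [Real.cosh_eq, mul_add, mul_one, ← Real.exp_add]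
      have : s + -(2 * s) = -s := by ring
      rw [this]
      ring
    rw [h9]
    have h10 : 1 + Real.exp (-(2 * s)) ≤ Real.exp (s * (c - 1)) := by
      have := Real.add_one_le_exp (s * (c - 1))
      linarith
    calc Real.exp s * (1 + Real.exp (-(2 * s))) ≤ Real.exp s * Real.exp (s * (c - 1)) :=
          mul_le_mul_of_nonneg_left h10 (Real.exp_pos _).le
      _ = Real.exp (c * s) := by
          rw [← Real.exp_add]
          congr 1
          ring
  have h11 : (2 * Real.cosh s) ^ (1 - q) ≤ Real.exp (c * ((1 - q) * s)) := by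
    calc (2 * Real.cosh s) ^ (1 - q) ≤ (Real.exp (c * s)) ^ (1 - q) :=
          Real.rpow_le_rpow (by positivity) h5 (by linarith)
      _ = Real.exp (c * ((1 - q) * s)) := by
          rw [← Real.exp_mul]
          congr 1
          ring
  have h12 : 0 ≤ (2 * Real.cosh s) ^ (1 - q) := Real.rpow_nonneg (by positivity) _
  calc (2 * Real.cosh s) ^ (1 - q) * Real.sinh (q * s) ≤
      (2 * Real.cosh s) ^ (1 - q) * (Real.sinh s * Real.exp (-(c * ((1 - q) * s)))) :=
        mul_le_mul_of_nonneg_left h1 h12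
    _ ≤ Real.exp (c * ((1 - q) * s)) * (Real.sinh s * Real.exp (-(c * ((1 - q) * s)))) := by
        refine mul_le_mul_of_nonneg_right h11 ?_
        positivity
    _ = Real.sinh s * (Real.exp (c * ((1 - q) * s)) * Real.exp (-(c * ((1 - q) * s)))) := by ring
    _ = Real.sinh s := by
        rw [← Real.exp_add]
        simp

/-- `2 cosh(γ s) - (2 - 2^γ) ≤ (2 cosh s)^γ` -/
theorem cosh_rpow {γ : ℝ} (hγ : 0 < γ) (hγ1 : γ ≤ 1) (s : ℝ) :
    2 * Real.cosh (γ * s) - (2 - 2 ^ γ) ≤ (2 * Real.cosh s) ^ γ := by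
  have key : ∀ s : ℝ, 0 ≤ s → 2 * Real.cosh (γ * s) - (2 - 2 ^ γ) ≤ (2 * Real.cosh s) ^ γ := by
    intro s hs
    have hpos : ∀ x : ℝ, 0 < 2 * Real.cosh x := fun x => by
      have := Real.cosh_pos x
      linarith
    have hder : ∀ x : ℝ, HasDerivAt (fun x : ℝ => (2 * Real.cosh x) ^ γ - 2 * Real.cosh (γ * x))
        ((2 * Real.sinh x) * γ * (2 * Real.cosh x) ^ (γ - 1) - 2 * (Real.sinh (γ * x) * (γ * 1)))
        x := by
      intro x
      have e1 : HasDerivAt (fun x : ℝ => (2 * Real.cosh x) ^ γ)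
          ((2 * Real.sinh x) * γ * (2 * Real.cosh x) ^ (γ - 1)) x :=
        ((Real.hasDerivAt_cosh x).const_mul 2).rpow_const (Or.inl (hpos x).ne')
      have e2 : HasDerivAt (fun x : ℝ => 2 * Real.cosh (γ * x))
          (2 * (Real.sinh (γ * x) * (γ * 1))) x :=
        (((hasDerivAt_id x).const_mul γ).cosh).const_mul 2
      exact e1.sub e2
    have hM : MonotoneOn (fun x : ℝ => (2 * Real.cosh x) ^ γ - 2 * Real.cosh (γ * x))
        (Set.Ici 0) := by
      refine monotoneOn_of_deriv_nonneg (convex_Ici 0)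
        (fun x _ => (hder x).continuousAt.continuousWithinAt)
        (fun x _ => (hder x).differentiableAt.differentiableWithinAt) ?_
      intro x hx
      rw [interior_Ici] at hx
      have hx0 : 0 < x := hx
      rw [(hder x).deriv]
      have h1 := sinh_ineq hγ.le hγ1 hx0
      have h2 : (2 * Real.cosh x) ^ (γ - 1) * (2 * Real.cosh x) ^ (1 - γ) = 1 := by
        rw [← Real.rpow_add (hpos x)]
        simp
      have h3 : 0 < (2 * Real.cosh x) ^ (γ - 1) := Real.rpow_pos_of_pos (hpos x) _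
      have h4 : Real.sinh (γ * x) ≤ (2 * Real.cosh x) ^ (γ - 1) * Real.sinh x := by
        have h5 := mul_le_mul_of_nonneg_left h1 h3.le
        rw [← mul_assoc, h2, one_mul] at h5
        exact h5
      have h6 : 0 ≤ γ * ((2 * Real.cosh x) ^ (γ - 1) * Real.sinh x - Real.sinh (γ * x)) :=
        mul_nonneg hγ.le (by linarith)
      nlinarith
    have h := hM (Set.mem_Ici.2 le_rfl) (Set.mem_Ici.2 hs) hs
    simp only [mul_zero, Real.cosh_zero, mul_one] at h
    linarith
  rcases le_total 0 s with hs | hs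
  · exact key s hs
  · have := key (-s) (by linarith)
    rw [mul_neg, Real.cosh_neg, Real.cosh_neg] at this
    exact this

/-- pointwise bound: `φ^γ ≥ 2^{-γ} (1 + e^{γ s} - (2 - 2^γ) e^{γ s/2})` -/
theorem phi_rpow_three {γ : ℝ} (hγ : 0 < γ) (hγ1 : γ ≤ 1) (s : ℝ) :
    2 ^ (-γ) * (1 + Real.exp (γ * s) - (2 - 2 ^ γ) * Real.exp (γ / 2 * s)) ≤
      ((1 + Real.exp s) / 2) ^ γ := by
  have h1 := cosh_rpow hγ hγ1 (s / 2)
  have hE : 0 < Real.exp (γ / 2 * s) := Real.exp_pos _
  have h2 := mul_le_mul_of_nonneg_left h1 hE.le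
  have e1 : Real.exp (γ / 2 * s) * (2 * Real.cosh (s / 2)) ^ γ = (1 + Real.exp s) ^ γ := by
    have e2 : Real.exp (γ / 2 * s) = (Real.exp (s / 2)) ^ γ := by
      rw [← Real.exp_mul]
      congr 1
      ring
    rw [e2, ← Real.mul_rpow (Real.exp_pos _).le (by have := Real.cosh_pos (s / 2); linarith)]
    congr 1
    rw [Real.cosh_eq]
    have e3 : Real.exp (s / 2) * Real.exp (s / 2) = Real.exp s := by
      rw [← Real.exp_add]
      congr 1
      ring
    have e4 : Real.exp (s / 2) * Real.exp (-(s / 2)) = 1 := by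
      rw [← Real.exp_add]
      simp
    calc Real.exp (s / 2) * (2 * ((Real.exp (s / 2) + Real.exp (-(s / 2))) / 2)) =
        Real.exp (s / 2) * Real.exp (s / 2) + Real.exp (s / 2) * Real.exp (-(s / 2)) := by ring
      _ = 1 + Real.exp s := by rw [e3, e4]; ring
  have e5 : Real.exp (γ / 2 * s) * (2 * Real.cosh (γ * (s / 2)) - (2 - 2 ^ γ)) =
      1 + Real.exp (γ * s) - (2 - 2 ^ γ) * Real.exp (γ / 2 * s) := by
    rw [Real.cosh_eq]
    have e3 : Real.exp (γ / 2 * s) * Real.exp (γ * (s / 2)) = Real.exp (γ * s) := by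
      rw [← Real.exp_add]
      congr 1
      ring
    have e4 : Real.exp (γ / 2 * s) * Real.exp (-(γ * (s / 2))) = 1 := by
      rw [← Real.exp_add, Real.exp_eq_one_iff]
      ring
    calc Real.exp (γ / 2 * s) * (2 * ((Real.exp (γ * (s / 2)) + Real.exp (-(γ * (s / 2)))) / 2) -
          (2 - 2 ^ γ)) = Real.exp (γ / 2 * s) * Real.exp (γ * (s / 2)) +
          Real.exp (γ / 2 * s) * Real.exp (-(γ * (s / 2))) -
          (2 - 2 ^ γ) * Real.exp (γ / 2 * s) := by ring
      _ = _ := by rw [e3, e4]; ring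
  rw [e1, e5] at h2
  have e6 : ((1 + Real.exp s) / 2) ^ γ = 2 ^ (-γ) * (1 + Real.exp s) ^ γ := by
    rw [Real.div_rpow (by positivity) (by norm_num), Real.rpow_neg (by norm_num)]
    rw [div_eq_inv_mul]
  rw [e6]
  exact mul_le_mul_of_nonneg_left h2 (Real.rpow_nonneg (by norm_num) _)

end Pool.Agent.U260.CS
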