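import Mathlib

set_option autoImplicit false
set_option maxHeartbeats 4000000

open Finset Filter Topology

namespace Pool.Agent.U260.CS

/-- `f(y) = y^{-(1+α)} (1 - e^{-y})` -/
noncomputable def fR (α y : ℝ) : ℝ := y ^ (-(1 + α)) * (1 - Real.exp (-y))

theorem one_sub_exp_nonneg {y : ℝ} (hy : 0 ≤ y) : 0 ≤ 1 - Real.exp (-y) := by
  have : Real.exp (-y) ≤ 1 := Real.exp_le_one_iff.2 (by linarith)
  linarith

theorem one_sub_exp_le {y : ℝ} : 1 - Real.exp (-y) ≤ y := by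
  have := Real.add_one_le_exp (-y)
  linarith

theorem fR_nonneg {α y : ℝ} (hy : 0 < y) : 0 ≤ fR α y :=
  mul_nonneg (Real.rpow_nonneg hy.le _) (one_sub_exp_nonneg hy.le)

theorem fR_anti {α : ℝ} (hα : 0 ≤ α) {x y : ℝ} (hx : 0 < x) (hxy : x ≤ y) :
    fR α y ≤ fR α x := by
  have hy : 0 < y := lt_of_lt_of_le hx hxy
  have key : x * (1 - Real.exp (-y)) ≤ y * (1 - Real.exp (-x)) := by
    obtain ⟨d, hd⟩ : ∃ d, d = y - x := ⟨_, rfl⟩
    have hd0 : 0 ≤ d := by rw [hd]; linarith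
    have hyd : y = x + d := by rw [hd]; ring
    have e1 : Real.exp (-y) = Real.exp (-x) * Real.exp (-d) := by
      rw [← Real.exp_add, hyd]; congr 1; ring
    rw [e1, hyd]
    have h1 : 1 - Real.exp (-d) ≤ d := one_sub_exp_le
    have h1' : 0 ≤ 1 - Real.exp (-d) := one_sub_exp_nonneg hd0
    have h2 : x * Real.exp (-x) ≤ 1 - Real.exp (-x) := by
      have h3 := Real.add_one_le_exp x
      have h4 := mul_le_mul_of_nonneg_right h3 (Real.exp_pos (-x)).le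
      rw [← Real.exp_add, add_neg_cancel, Real.exp_zero] at h4
      nlinarith
    have h5 : 0 ≤ x * Real.exp (-x) := by positivity
    have h6 : x * Real.exp (-x) * (1 - Real.exp (-d)) ≤ (1 - Real.exp (-x)) * d :=
      mul_le_mul h2 h1 h1' (h5.trans h2)
    nlinarith
  have h1 : y ^ (-α) ≤ x ^ (-α) := Real.rpow_le_rpow_of_nonpos hx hxy (by linarith)
  have h2 : y⁻¹ * (1 - Real.exp (-y)) ≤ x⁻¹ * (1 - Real.exp (-x)) := by
    rw [inv_mul_le_iff₀ hy, mul_comm x⁻¹, ← mul_assoc, ← div_eq_mul_inv, le_div_iff₀ hx]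
    linarith
  have e : ∀ z : ℝ, 0 < z → fR α z = z ^ (-α) * (z⁻¹ * (1 - Real.exp (-z))) := by
    intro z hz
    unfold fR
    rw [← mul_assoc]
    congr 1
    rw [← Real.rpow_neg_one z, ← Real.rpow_add hz]
    congr 1
    ring
  rw [e y hy, e x hx]
  exact mul_le_mul h1 h2 (mul_nonneg (inv_nonneg.2 hy.le) (one_sub_exp_nonneg hy.le))
    (Real.rpow_nonneg hx.le _)

/-- `F(μ) = Σ_{n ≥ 1} n^{-(1+α)} (1 - e^{-μ n})` -/
noncomputable def FR (α μ : ℝ) : ℝ :=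
  ∑' n : ℕ, ((n : ℝ) + 1) ^ (-(1 + α)) * (1 - Real.exp (-(μ * ((n : ℝ) + 1))))

theorem w_summable {α : ℝ} (hα : 0 < α) :
    Summable (fun n : ℕ => ((n : ℝ) + 1) ^ (-(1 + α))) := by
  have h := (summable_nat_add_iff (f := fun n : ℕ => (n : ℝ) ^ (-(1 + α))) 1).2
    (Real.summable_nat_rpow.2 (by linarith))
  refine h.congr fun n => ?_
  push_cast
  rfl

theorem FR_summable {α : ℝ} (hα : 0 < α) {μ : ℝ} (hμ : 0 ≤ μ) :
    Summable (fun n : ℕ => ((n : ℝ) + 1) ^ (-(1 + α)) *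
      (1 - Real.exp (-(μ * ((n : ℝ) + 1))))) := by
  refine Summable.of_nonneg_of_le (fun n => ?_) (fun n => ?_) (w_summable hα)
  · exact mul_nonneg (Real.rpow_nonneg (by positivity) _) (one_sub_exp_nonneg (by positivity))
  · have h1 : 0 ≤ ((n : ℝ) + 1) ^ (-(1 + α)) := Real.rpow_nonneg (by positivity) _
    have h2 : 1 - Real.exp (-(μ * ((n : ℝ) + 1))) ≤ 1 := by
      have := Real.exp_pos (-(μ * ((n : ℝ) + 1)))
      linarith
    nlinarith

theorem FR_mono {α : ℝ} (hα : 0 < α) {x y : ℝ} (hx : 0 ≤ x) (hxy : x ≤ y) : FR α x ≤ FR α y := by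
  refine Summable.tsum_le_tsum (fun n => ?_) (FR_summable hα hx) (FR_summable hα (hx.trans hxy))
  refine mul_le_mul_of_nonneg_left ?_ (Real.rpow_nonneg (by positivity) _)
  have h1 : x * ((n : ℝ) + 1) ≤ y * ((n : ℝ) + 1) := mul_le_mul_of_nonneg_right hxy (by positivity)
  have : Real.exp (-(y * ((n : ℝ) + 1))) ≤ Real.exp (-(x * ((n : ℝ) + 1))) :=
    Real.exp_le_exp.2 (by linarith)
  linarith

theorem FR_nonneg {α : ℝ} {μ : ℝ} (hμ : 0 ≤ μ) : 0 ≤ FR α μ := by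
  refine tsum_nonneg fun n => ?_
  exact mul_nonneg (Real.rpow_nonneg (by positivity) _) (one_sub_exp_nonneg (by positivity))

/-- the term in terms of `fR` -/
theorem term_eq {α : ℝ} {μ : ℝ} (hμ : 0 < μ) {t : ℝ} (ht : 0 < t) :
    t ^ (-(1 + α)) * (1 - Real.exp (-(μ * t))) = μ ^ (1 + α) * fR α (μ * t) := by
  unfold fR
  rw [Real.mul_rpow hμ.le ht.le]
  have : μ ^ (1 + α) * μ ^ (-(1 + α)) = 1 := by
    rw [← Real.rpow_add hμ]
    simp
  calc t ^ (-(1 + α)) * (1 - Real.exp (-(μ * t))) =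
      (μ ^ (1 + α) * μ ^ (-(1 + α))) * (t ^ (-(1 + α)) * (1 - Real.exp (-(μ * t)))) := by
        rw [this, one_mul]
    _ = _ := by ring

theorem fR_summable {α : ℝ} (hα : 0 < α) {μ : ℝ} (hμ : 0 < μ) :
    Summable (fun n : ℕ => fR α (μ * ((n : ℝ) + 1))) := by
  have h := (FR_summable hα hμ.le).mul_left ((μ ^ (1 + α))⁻¹)
  refine h.congr fun n => ?_
  rw [term_eq hμ (by positivity), ← mul_assoc, inv_mul_cancel₀ (Real.rpow_pos_of_pos hμ _).ne',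
    one_mul]

theorem FR_eq {α : ℝ} {μ : ℝ} (hμ : 0 < μ) :
    FR α μ = μ ^ (1 + α) * ∑' n : ℕ, fR α (μ * ((n : ℝ) + 1)) := by
  unfold FR
  rw [← tsum_mul_left]
  exact tsum_congr fun n => term_eq hμ (by positivity)

theorem block {α : ℝ} (hα : 0 < α) {μ : ℝ} (hμ : 0 < μ) {k : ℕ} [NeZero k] (hk : 0 < k) :
    (k : ℝ) * ∑' n : ℕ, fR α ((k * μ) * ((n : ℝ) + 1)) ≤ ∑' n : ℕ, fR α (μ * ((n : ℝ) + 1)) ∧
    ∑' n : ℕ, fR α (μ * ((n : ℝ) + 1)) ≤
      (k : ℝ) * ∑' n : ℕ, fR α ((k * μ) * ((n : ℝ) + 1)) +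
        ∑ j : ZMod k, fR α (μ * ((j.val : ℝ) + 1)) := by
  have hs := fR_summable hα hμ
  have hkr : (0 : ℝ) < k := by exact_mod_cast hk
  have hs2 := fR_summable hα (mul_pos hkr hμ)
  have hsj : ∀ j : ZMod k, Summable (fun m : ℕ => fR α (μ * (((j.val + k * m : ℕ) : ℝ) + 1))) := by
    intro j
    refine hs.comp_injective (i := fun m : ℕ => j.val + k * m) ?_
    intro a b hab
    have : k * a = k * b := by
      have : j.val + k * a = j.val + k * b := hab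
      omega
    exact Nat.eq_of_mul_eq_mul_left hk this
  rw [Nat.sumByResidueClasses hs k]
  have hcard : (k : ℝ) * ∑' n : ℕ, fR α ((k * μ) * ((n : ℝ) + 1)) =
      ∑ j : ZMod k, ∑' n : ℕ, fR α ((k * μ) * ((n : ℝ) + 1)) := by
    rw [Finset.sum_const, Finset.card_univ, ZMod.card, nsmul_eq_mul]
  rw [hcard]
  constructor
  · refine Finset.sum_le_sum fun j _ => ?_
    refine Summable.tsum_le_tsum (fun m => ?_) hs2 (hsj j)
    have hjv : ((j.val : ℕ) : ℝ) + 1 ≤ k := by exact_mod_cast ZMod.val_lt j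
    refine fR_anti hα.le (by positivity) ?_
    push_cast
    have : ((j.val : ℕ) : ℝ) + k * m + 1 ≤ k * ((m : ℝ) + 1) := by linarith
    calc μ * (((j.val : ℕ) : ℝ) + k * m + 1) ≤ μ * (k * ((m : ℝ) + 1)) :=
          mul_le_mul_of_nonneg_left this hμ.le
      _ = k * μ * ((m : ℝ) + 1) := by ring
  · rw [← Finset.sum_add_distrib]
    refine Finset.sum_le_sum fun j _ => ?_
    rw [(hsj j).tsum_eq_zero_add]
    have h0 : fR α (μ * (((j.val + k * 0 : ℕ) : ℝ) + 1)) = fR α (μ * ((j.val : ℝ) + 1)) := by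
      simp
    rw [h0, add_comm]
    refine add_le_add ?_ le_rfl
    refine Summable.tsum_le_tsum (fun m => ?_) ((summable_nat_add_iff 1).2 (hsj j)) hs2
    refine fR_anti hα.le (by positivity) ?_
    push_cast
    have hj0 : (0 : ℝ) ≤ ((j.val : ℕ) : ℝ) := Nat.cast_nonneg _
    have : k * ((m : ℝ) + 1) ≤ ((j.val : ℕ) : ℝ) + k * ((m : ℝ) + 1) + 1 := by linarith
    calc k * μ * ((m : ℝ) + 1) = μ * (k * ((m : ℝ) + 1)) := by ring
      _ ≤ μ * (((j.val : ℕ) : ℝ) + k * ((m : ℝ) + 1) + 1) := mul_le_mul_of_nonneg_left this hμ.le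

/-- `F(kμ) ≤ k^α F(μ)` -/
theorem FR_mul_le {α : ℝ} (hα : 0 < α) {μ : ℝ} (hμ : 0 < μ) {k : ℕ} (hk : 0 < k) :
    FR α (k * μ) ≤ (k : ℝ) ^ α * FR α μ := by
  have hkr : (0 : ℝ) < k := by exact_mod_cast hk
  have : NeZero k := ⟨hk.ne'⟩
  rw [FR_eq hμ, FR_eq (mul_pos hkr hμ)]
  have h := (block hα hμ hk).1
  have e1 : ((k : ℝ) * μ) ^ (1 + α) = (k : ℝ) ^ α * μ ^ (1 + α) * k := by
    rw [Real.mul_rpow hkr.le hμ.le, Real.rpow_add hkr, Real.rpow_one]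
    ring
  rw [e1]
  calc (k : ℝ) ^ α * μ ^ (1 + α) * k * ∑' n : ℕ, fR α ((k * μ) * ((n : ℝ) + 1)) =
      (k : ℝ) ^ α * μ ^ (1 + α) * ((k : ℝ) * ∑' n : ℕ, fR α ((k * μ) * ((n : ℝ) + 1))) := by ring
    _ ≤ (k : ℝ) ^ α * μ ^ (1 + α) * ∑' n : ℕ, fR α (μ * ((n : ℝ) + 1)) :=
        mul_le_mul_of_nonneg_left h (by positivity)
    _ = _ := by ring

/-- `k^α (F(μ) - kμ) ≤ F(kμ)` -/
theorem FR_mul_ge {α : ℝ} (hα : 0 < α) {μ : ℝ} (hμ : 0 < μ) {k : ℕ} (hk : 0 < k) :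
    (k : ℝ) ^ α * (FR α μ - k * μ) ≤ FR α (k * μ) := by
  have : NeZero k := ⟨hk.ne'⟩
  have hkr : (0 : ℝ) < k := by exact_mod_cast hk
  have h := (block hα hμ hk).2
  have h2 : μ ^ (1 + α) * ∑ j : ZMod k, fR α (μ * ((j.val : ℝ) + 1)) ≤ k * μ := by
    rw [Finset.mul_sum]
    have : ∀ j ∈ (Finset.univ : Finset (ZMod k)),
        μ ^ (1 + α) * fR α (μ * ((j.val : ℝ) + 1)) ≤ μ := by
      intro j _
      rw [← term_eq hμ (by positivity)]
      have hj : (0 : ℝ) < (j.val : ℝ) + 1 := by positivity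
      have h3 : 1 - Real.exp (-(μ * ((j.val : ℝ) + 1))) ≤ μ * ((j.val : ℝ) + 1) := one_sub_exp_le
      calc ((j.val : ℝ) + 1) ^ (-(1 + α)) * (1 - Real.exp (-(μ * ((j.val : ℝ) + 1)))) ≤
          ((j.val : ℝ) + 1) ^ (-(1 + α)) * (μ * ((j.val : ℝ) + 1)) :=
            mul_le_mul_of_nonneg_left h3 (Real.rpow_nonneg hj.le _)
        _ = μ * ((j.val : ℝ) + 1) ^ (-α) := by
            have : ((j.val : ℝ) + 1) ^ (-(1 + α)) * ((j.val : ℝ) + 1) =
                ((j.val : ℝ) + 1) ^ (-α) := by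
              nth_rewrite 2 [← Real.rpow_one ((j.val : ℝ) + 1)]
              rw [← Real.rpow_add hj]
              congr 1
              ring
            rw [← this]
            ring
        _ ≤ μ * 1 := by
            refine mul_le_mul_of_nonneg_left ?_ hμ.le
            exact Real.rpow_le_one_of_one_le_of_nonpos
              (by have : (0 : ℝ) ≤ (j.val : ℝ) := Nat.cast_nonneg _; linarith) (by linarith)
        _ = μ := mul_one _
    calc ∑ j : ZMod k, μ ^ (1 + α) * fR α (μ * ((j.val : ℝ) + 1)) ≤ ∑ _j : ZMod k, μ :=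
          Finset.sum_le_sum this
      _ = k * μ := by rw [Finset.sum_const, Finset.card_univ, ZMod.card, nsmul_eq_mul]
  have hμp : 0 < μ ^ (1 + α) := Real.rpow_pos_of_pos hμ _
  have h3 := mul_le_mul_of_nonneg_left h hμp.le
  rw [← FR_eq hμ, mul_add] at h3
  have h4 : FR α μ - k * μ ≤
      μ ^ (1 + α) * ((k : ℝ) * ∑' n : ℕ, fR α ((k * μ) * ((n : ℝ) + 1))) := by linarith
  have h5 := mul_le_mul_of_nonneg_left h4 (Real.rpow_nonneg hkr.le α)
  refine h5.trans (le_of_eq ?_)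
  rw [FR_eq (mul_pos hkr hμ), Real.mul_rpow hkr.le hμ.le, Real.rpow_add hkr, Real.rpow_one]
  ring

/-- `F(μ) ≥ (1 - e^{-1/2}) μ^α` for `0 < μ ≤ 1` -/
theorem FR_lower {α : ℝ} (hα : 0 < α) {μ : ℝ} (hμ : 0 < μ) (hμ1 : μ ≤ 1) :
    (1 - Real.exp (-(1 / 2))) * μ ^ α ≤ FR α μ := by
  obtain ⟨k, hk⟩ : ∃ k : ℕ, k = ⌊1 / μ⌋₊ := ⟨_, rfl⟩
  have h1μ : 1 ≤ 1 / μ := by rw [le_div_iff₀ hμ]; linarith
  have hk1 : 1 ≤ k := by
    rw [hk]
    exact Nat.le_floor (by simpa using h1μ)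
  have hkr1 : (1 : ℝ) ≤ k := by exact_mod_cast hk1
  have hkr : (0 : ℝ) < k := by linarith
  have hkle : (k : ℝ) ≤ 1 / μ := by rw [hk]; exact Nat.floor_le (by positivity)
  have hkge : 1 / μ < k + 1 := by rw [hk]; exact Nat.lt_floor_add_one _
  have hkμ1 : (k : ℝ) * μ ≤ 1 := by rwa [le_div_iff₀ hμ] at hkle
  have hkμ2 : 1 / 2 ≤ (k : ℝ) * μ := by
    rw [div_lt_iff₀ hμ] at hkge
    nlinarith
  have h1 := FR_mul_le hα hμ (k := k) (by omega)
  have h2 : 1 - Real.exp (-(1 / 2)) ≤ FR α (k * μ) := by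
    have hs := FR_summable hα (mul_pos hkr hμ).le
    have h3 := hs.sum_le_tsum (Finset.range 1) (fun n _ =>
      mul_nonneg (Real.rpow_nonneg (by positivity) _) (one_sub_exp_nonneg (by positivity)))
    rw [Finset.sum_range_one] at h3
    refine le_trans ?_ h3
    simp only [Nat.cast_zero, zero_add, Real.one_rpow, one_mul, mul_one]
    have : Real.exp (-(k * μ)) ≤ Real.exp (-(1 / 2)) := Real.exp_le_exp.2 (by linarith)
    linarith
  have h4 : μ ^ α * (k : ℝ) ^ α ≤ 1 := by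
    rw [← Real.mul_rpow hμ.le hkr.le, mul_comm μ]
    exact Real.rpow_le_one (by positivity) hkμ1 hα.le
  have h5 : 0 ≤ FR α μ := FR_nonneg hμ.le
  have h6 : 0 ≤ μ ^ α := Real.rpow_nonneg hμ.le _
  calc (1 - Real.exp (-(1 / 2))) * μ ^ α ≤ ((k : ℝ) ^ α * FR α μ) * μ ^ α :=
        mul_le_mul_of_nonneg_right (h2.trans h1) h6
    _ = (μ ^ α * (k : ℝ) ^ α) * FR α μ := by ring
    _ ≤ 1 * FR α μ := mul_le_mul_of_nonneg_right h4 h5
    _ = FR α μ := one_mul _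

/-- `F(Rμ) ≥ R^α F(μ) - Cμ` for rational `R = P/Q` -/
theorem FR_rat {α : ℝ} (hα : 0 < α) {P Q : ℕ} (hP : 0 < P) (hQ : 0 < Q) {μ : ℝ} (hμ : 0 < μ) :
    ((P : ℝ) / Q) ^ α * FR α μ - (P : ℝ) ^ α * (P : ℝ) * (μ / Q) ≤ FR α ((P : ℝ) / Q * μ) := by
  have hPr : (0 : ℝ) < P := by exact_mod_cast hP
  have hQr : (0 : ℝ) < Q := by exact_mod_cast hQ
  have hη : 0 < μ / Q := by positivity
  have h1 := FR_mul_ge hα hη hP
  have h2 := FR_mul_le hα hη hQ
  have e1 : (Q : ℝ) * (μ / Q) = μ := by field_simp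
  have e2 : (P : ℝ) * (μ / Q) = (P : ℝ) / Q * μ := by ring
  rw [e1] at h2
  rw [e2] at h1
  have h3 : ((P : ℝ) / Q) ^ α * FR α μ ≤ (P : ℝ) ^ α * FR α (μ / Q) := by
    rw [Real.div_rpow hPr.le hQr.le]
    have hQα : 0 < (Q : ℝ) ^ α := Real.rpow_pos_of_pos hQr _
    calc (P : ℝ) ^ α / (Q : ℝ) ^ α * FR α μ ≤
        (P : ℝ) ^ α / (Q : ℝ) ^ α * ((Q : ℝ) ^ α * FR α (μ / Q)) :=
          mul_le_mul_of_nonneg_left h2 (by positivity)
      _ = (P : ℝ) ^ α * FR α (μ / Q) := by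
          field_simp
  have h4 : (P : ℝ) ^ α * (FR α (μ / Q) - (P : ℝ) / Q * μ) =
      (P : ℝ) ^ α * FR α (μ / Q) - (P : ℝ) ^ α * P * (μ / Q) := by ring
  linarith

end Pool.Agent.U260.CS
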