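import Pool.Agent.U260.CX1

set_option autoImplicit false
set_option maxHeartbeats 4000000

open Finset Filter Topology

namespace Pool.Agent.U260.CS

theorem psi_summable {K : ℕ → ℝ} (hK : ∀ n, 0 ≤ K n) (hs : Summable K) {μ : ℝ} (hμ : 0 ≤ μ) :
    Summable (fun n : ℕ => K n * (1 - Real.exp (-(μ * n)))) := by
  refine Summable.of_nonneg_of_le (fun n => ?_) (fun n => ?_) hs
  · exact mul_nonneg (hK n) (one_sub_exp_nonneg (by positivity))
  · have := Real.exp_pos (-(μ * n))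
    have := hK n
    nlinarith

/-- `|Ψ(μ) - c F(μ)| ≤ δ F(μ) + C μ` -/
theorem psi_F {α : ℝ} (hα : 0 < α) {K : ℕ → ℝ} (hK : ∀ n, 0 ≤ K n) (hs : Summable K)
    {cK : ℝ} (hcK : 0 < cK)
    (htail : Tendsto (fun n : ℕ => (n : ℝ) ^ (1 + α) * K n) atTop (𝓝 cK))
    {δ : ℝ} (hδ : 0 < δ) : ∃ C : ℝ, 0 ≤ C ∧ ∀ μ : ℝ, 0 < μ →
      |∑' n : ℕ, K n * (1 - Real.exp (-(μ * n))) - cK * FR α μ| ≤ δ * FR α μ + C * μ := by
  obtain ⟨n0, hn0⟩ : ∃ n0 : ℕ, ∀ n : ℕ, n0 ≤ n → |(n : ℝ) ^ (1 + α) * K n - cK| ≤ δ := by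
    have h := (Metric.tendsto_atTop.1 htail) δ hδ
    obtain ⟨n0, hn0⟩ := h
    exact ⟨n0, fun n hn => by
      have := hn0 n hn
      rw [Real.dist_eq] at this
      exact this.le⟩
  obtain ⟨w, hw⟩ : ∃ w : ℕ → ℝ, w = fun n : ℕ => ((n : ℝ) + 1) ^ (-(1 + α)) := ⟨_, rfl⟩
  have hw0 : ∀ n, 0 < w n := fun n => by
    rw [hw]
    exact Real.rpow_pos_of_pos (by positivity) _
  refine ⟨∑ n ∈ range n0, (K (n + 1) + cK * w n) * ((n : ℝ) + 1), ?_, ?_⟩
  · refine Finset.sum_nonneg fun n _ => ?_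
    have := hK (n + 1)
    have := hw0 n
    positivity
  intro μ hμ
  have hsum := psi_summable hK hs hμ.le
  have e0 : ∑' n : ℕ, K n * (1 - Real.exp (-(μ * n))) =
      ∑' n : ℕ, K (n + 1) * (1 - Real.exp (-(μ * ((n : ℝ) + 1)))) := by
    rw [hsum.tsum_eq_zero_add]
    simp
  have hsum1 : Summable (fun n : ℕ => K (n + 1) * (1 - Real.exp (-(μ * ((n : ℝ) + 1))))) := by
    have := (summable_nat_add_iff 1).2 hsum
    refine this.congr fun n => ?_
    push_cast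
    rfl
  have hF := FR_summable hα hμ.le
  have e1 : ∑' n : ℕ, K (n + 1) * (1 - Real.exp (-(μ * ((n : ℝ) + 1)))) - cK * FR α μ =
      ∑' n : ℕ, (K (n + 1) * (1 - Real.exp (-(μ * ((n : ℝ) + 1)))) -
        cK * (((n : ℝ) + 1) ^ (-(1 + α)) * (1 - Real.exp (-(μ * ((n : ℝ) + 1)))))) := by
    rw [hsum1.tsum_sub (hF.mul_left cK), tsum_mul_left]
    rfl
  rw [e0, e1, ← Real.norm_eq_abs]
  have hb1 : HasSum (fun n : ℕ => δ * (((n : ℝ) + 1) ^ (-(1 + α)) *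
      (1 - Real.exp (-(μ * ((n : ℝ) + 1)))))) (δ * FR α μ) := hF.hasSum.mul_left δ
  have hb2 : HasSum (fun n : ℕ => if n < n0 then
      (K (n + 1) + cK * w n) * ((n : ℝ) + 1) * μ else 0)
      (∑ n ∈ range n0, if n < n0 then (K (n + 1) + cK * w n) * ((n : ℝ) + 1) * μ else 0) := by
    refine hasSum_sum_of_ne_finset_zero fun n hn => ?_
    rw [if_neg]
    simpa using hn
  have hb3 : (∑ n ∈ range n0, if n < n0 then (K (n + 1) + cK * w n) * ((n : ℝ) + 1) * μ else 0) =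
      (∑ n ∈ range n0, (K (n + 1) + cK * w n) * ((n : ℝ) + 1)) * μ := by
    rw [Finset.sum_mul]
    refine Finset.sum_congr rfl fun n hn => ?_
    rw [if_pos (Finset.mem_range.1 hn)]
  rw [hb3] at hb2
  refine tsum_of_norm_bounded (hb1.add hb2) fun n => ?_
  obtain ⟨g, hg⟩ : ∃ g, g = 1 - Real.exp (-(μ * ((n : ℝ) + 1))) := ⟨_, rfl⟩
  have hg0 : 0 ≤ g := by rw [hg]; exact one_sub_exp_nonneg (by positivity)
  have hg1 : g ≤ μ * ((n : ℝ) + 1) := by rw [hg]; exact one_sub_exp_le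
  have hwn : ((n : ℝ) + 1) ^ (-(1 + α)) = w n := by rw [hw]
  rw [← hg, hwn, Real.norm_eq_abs]
  have e2 : K (n + 1) * g - cK * (w n * g) = (K (n + 1) - cK * w n) * g := by ring
  rw [e2, abs_mul, abs_of_nonneg hg0]
  have hKn := hK (n + 1)
  have hwp := hw0 n
  by_cases hn : n < n0
  · rw [if_pos hn]
    have h1 : |K (n + 1) - cK * w n| ≤ K (n + 1) + cK * w n := by
      rw [abs_le]
      constructor <;> nlinarith [mul_pos hcK hwp]
    have h2 : |K (n + 1) - cK * w n| * g ≤ (K (n + 1) + cK * w n) * (μ * ((n : ℝ) + 1)) :=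
      mul_le_mul h1 hg1 hg0 (by positivity)
    have h3 : 0 ≤ δ * (w n * g) := by positivity
    calc |K (n + 1) - cK * w n| * g ≤ (K (n + 1) + cK * w n) * (μ * ((n : ℝ) + 1)) := h2
      _ = (K (n + 1) + cK * w n) * ((n : ℝ) + 1) * μ := by ring
      _ ≤ _ := by linarith
  · rw [if_neg hn, add_zero]
    have h1 := hn0 (n + 1) (by omega)
    have hpos : (0 : ℝ) < (((n + 1 : ℕ) : ℝ)) ^ (1 + α) :=
      Real.rpow_pos_of_pos (by positivity) _
    have hwe : w n = ((((n + 1 : ℕ) : ℝ)) ^ (1 + α))⁻¹ := by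
      rw [hw, ← Real.rpow_neg (by positivity)]
      push_cast
      rfl
    have h2 : |K (n + 1) - cK * w n| ≤ δ * w n := by
      have e3 : K (n + 1) - cK * w n =
          ((((n + 1 : ℕ) : ℝ)) ^ (1 + α) * K (n + 1) - cK) * w n := by
        rw [hwe]
        field_simp
      rw [e3, abs_mul, abs_of_pos hwp]
      exact mul_le_mul_of_nonneg_right h1 hwp.le
    calc |K (n + 1) - cK * w n| * g ≤ δ * w n * g := mul_le_mul_of_nonneg_right h2 hg0
      _ = δ * (w n * g) := by ring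

/-- comparison of the two Laplace type sums -/
theorem psi_compare {α : ℝ} (hα : 0 < α) (hα1 : α < 1) {K : ℕ → ℝ} (hK : ∀ n, 0 ≤ K n)
    (hs : Summable K) {cK : ℝ} (hcK : 0 < cK)
    (htail : Tendsto (fun n : ℕ => (n : ℝ) ^ (1 + α) * K n) atTop (𝓝 cK))
    {a b β : ℝ} (ha : 0 < a) (hb : 0 < b) (hβ : 0 < β) (hab : a ^ α < β * b ^ α) :
    ∃ μ0 : ℝ, 0 < μ0 ∧ ∀ μ : ℝ, 0 < μ → μ < μ0 →
      ∑' n : ℕ, K n * (1 - Real.exp (-(a * μ * n))) <
        β * ∑' n : ℕ, K n * (1 - Real.exp (-(b * μ * n))) := by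
  -- the rational ratio
  have hβi : 0 < β ^ (-(1 / α)) := Real.rpow_pos_of_pos hβ _
  have hlt : β ^ (-(1 / α)) < b / a := by
    have h1 : 1 < β * (b / a) ^ α := by
      rw [Real.div_rpow hb.le ha.le, mul_div_assoc', lt_div_iff₀ (Real.rpow_pos_of_pos ha _)]
      linarith
    have h2 : β⁻¹ < (b / a) ^ α := by
      rw [inv_lt_iff_one_lt_mul₀ hβ]
      linarith
    have h3 := Real.rpow_lt_rpow (inv_pos.2 hβ).le h2 (show 0 < 1 / α by positivity)
    rw [← Real.rpow_mul (by positivity), mul_one_div_cancel hα.ne', Real.rpow_one,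
      Real.inv_rpow hβ.le, ← Real.rpow_neg hβ.le] at h3
    exact h3
  obtain ⟨q, hq1, hq2⟩ := exists_rat_btwn hlt
  have hq0 : (0 : ℝ) < (q : ℝ) := hβi.trans hq1
  have hq0' : 0 < q := by exact_mod_cast hq0
  obtain ⟨P, hP⟩ : ∃ P : ℕ, P = q.num.toNat := ⟨_, rfl⟩
  obtain ⟨Q, hQ⟩ : ∃ Q : ℕ, Q = q.den := ⟨_, rfl⟩
  have hnum : 0 < q.num := Rat.num_pos.2 hq0'
  have hP0 : 0 < P := by
    rw [hP]
    omega
  have hQ0 : 0 < Q := by
    rw [hQ]
    exact q.den_pos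
  have hPQ : (q : ℝ) = (P : ℝ) / Q := by
    have h1 : ((P : ℕ) : ℤ) = q.num := by
      rw [hP]
      exact Int.toNat_of_nonneg hnum.le
    have h2 : (P : ℝ) = (q.num : ℝ) := by
      rw [← h1]
      norm_cast
    rw [h2, hQ, Rat.cast_def]
  have hRβ : 1 < β * ((P : ℝ) / Q) ^ α := by
    rw [← hPQ]
    have h3 := Real.rpow_lt_rpow hβi.le hq1 hα
    rw [← Real.rpow_mul hβ.le] at h3
    have e : -(1 / α) * α = -1 := by field_simp
    rw [e, Real.rpow_neg_one, inv_lt_iff_one_lt_mul₀ hβ] at h3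
    linarith
  obtain ⟨t, ht⟩ : ∃ t, t = β * ((P : ℝ) / Q) ^ α := ⟨_, rfl⟩
  rw [← ht] at hRβ
  obtain ⟨δ, hδ⟩ : ∃ δ, δ = cK * (t - 1) / (2 * (t + 1)) := ⟨_, rfl⟩
  have ht1 : 0 < t - 1 := by linarith
  have htp : 0 < t + 1 := by linarith
  have hδ0 : 0 < δ := by rw [hδ]; positivity
  have hδe : t * (cK - δ) - (cK + δ) = cK * (t - 1) / 2 := by
    rw [hδ]
    field_simp
    ring
  have hδc : δ < cK := by
    rw [hδ, div_lt_iff₀ (by positivity)]
    nlinarith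
  obtain ⟨C, hC0, hC⟩ := psi_F hα hK hs hcK htail hδ0
  have hPr : (0 : ℝ) < P := by exact_mod_cast hP0
  have hQr : (0 : ℝ) < Q := by exact_mod_cast hQ0
  obtain ⟨C1, hC1⟩ : ∃ C1 : ℝ, C1 = β * (cK - δ) * ((P : ℝ) ^ α * P * (a / Q)) + β * (C * b) + C * a :=
    ⟨_, rfl⟩
  have hcd : 0 < cK - δ := by linarith
  have hC1p : 0 ≤ C1 := by
    rw [hC1]
    positivity
  obtain ⟨A, hA⟩ : ∃ A : ℝ, A = cK * (t - 1) / 2 * ((1 - Real.exp (-(1 / 2))) * a ^ α) := ⟨_, rfl⟩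
  have hexp : 0 < 1 - Real.exp (-(1 / 2 : ℝ)) := by
    have : Real.exp (-(1 / 2 : ℝ)) < 1 :=
      (Real.exp_lt_exp.2 (show -(1 / 2 : ℝ) < 0 by norm_num)).trans_eq Real.exp_zero
    linarith
  have haα : 0 < a ^ α := Real.rpow_pos_of_pos ha _
  have hA0 : 0 < A := by
    rw [hA]
    positivity
  have h1α : 0 < 1 - α := by linarith
  refine ⟨min (1 / a) ((A / (C1 + 1)) ^ (1 / (1 - α))), by positivity, ?_⟩
  intro μ hμ hμ0
  have hμa : μ < 1 / a := hμ0.trans_le (min_le_left _ _)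
  have hμA : μ < (A / (C1 + 1)) ^ (1 / (1 - α)) := hμ0.trans_le (min_le_right _ _)
  have haμ : 0 < a * μ := by positivity
  have hbμ : 0 < b * μ := by positivity
  have haμ1 : a * μ ≤ 1 := by
    rw [lt_div_iff₀ ha] at hμa
    linarith
  have hA1 : C1 * μ < A * μ ^ α := by
    have h1 := Real.rpow_lt_rpow hμ.le hμA h1α
    rw [← Real.rpow_mul (by positivity), one_div_mul_cancel h1α.ne', Real.rpow_one,
      lt_div_iff₀ (by positivity)] at h1
    have h2 : μ = μ ^ (1 - α) * μ ^ α := by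
      rw [← Real.rpow_add hμ]
      simp
    have hμα : 0 < μ ^ α := Real.rpow_pos_of_pos hμ _
    have hμ1α : 0 < μ ^ (1 - α) := Real.rpow_pos_of_pos hμ _
    calc C1 * μ = (C1 * μ ^ (1 - α)) * μ ^ α := by
          nth_rewrite 1 [h2]
          ring
      _ < A * μ ^ α := by
          refine mul_lt_mul_of_pos_right ?_ hμα
          nlinarith
  have hup := (abs_le.1 (hC (a * μ) haμ)).2
  have hlo := (abs_le.1 (hC (b * μ) hbμ)).1
  have hrat := FR_rat hα hP0 hQ0 haμ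
  have hmon : FR α ((P : ℝ) / Q * (a * μ)) ≤ FR α (b * μ) := by
    refine FR_mono hα (by positivity) ?_
    rw [← hPQ]
    rw [lt_div_iff₀ ha] at hq2
    nlinarith
  have hlow := FR_lower hα haμ haμ1
  rw [Real.mul_rpow ha.le hμ.le] at hlow
  have hF1 : ((P : ℝ) / Q) ^ α * FR α (a * μ) - (P : ℝ) ^ α * P * (a * μ / Q) ≤ FR α (b * μ) :=
    hrat.trans hmon
  have hF2 := mul_le_mul_of_nonneg_left hF1 (show 0 ≤ β * (cK - δ) by positivity)
  have hF3 : β * (cK - δ) * (((P : ℝ) / Q) ^ α * FR α (a * μ) - (P : ℝ) ^ α * P * (a * μ / Q)) =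
      t * (cK - δ) * FR α (a * μ) - β * (cK - δ) * ((P : ℝ) ^ α * P * (a / Q)) * μ := by
    rw [ht]
    ring
  rw [hF3] at hF2
  have hF4 := mul_le_mul_of_nonneg_left hlow (show 0 ≤ cK * (t - 1) / 2 by positivity)
  have hF5 : cK * (t - 1) / 2 * ((1 - Real.exp (-(1 / 2))) * (a ^ α * μ ^ α)) = A * μ ^ α := by
    rw [hA]
    ring
  rw [hF5] at hF4
  have hF6 : cK * (t - 1) / 2 * FR α (a * μ) =
      t * (cK - δ) * FR α (a * μ) - (cK + δ) * FR α (a * μ) := by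
    rw [← hδe]
    ring
  have hlo2 : (cK - δ) * FR α (b * μ) - C * (b * μ) ≤
      ∑' n : ℕ, K n * (1 - Real.exp (-(b * μ * n))) := by linarith
  have hlo3 := mul_le_mul_of_nonneg_left hlo2 hβ.le
  have hC1e : C1 * μ = β * (cK - δ) * ((P : ℝ) ^ α * P * (a / Q)) * μ + β * (C * (b * μ)) +
      C * (a * μ) := by
    rw [hC1]
    ring
  have e9 : β * ((cK - δ) * FR α (b * μ) - C * (b * μ)) =
      β * (cK - δ) * FR α (b * μ) - β * (C * (b * μ)) := by ring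
  rw [e9] at hlo3
  linarith

end Pool.Agent.U260.CS
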