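import Pool.Agent.U260.CW1
import Pool.Agent.U260.CX2

set_option autoImplicit false
set_option maxHeartbeats 4000000

open Finset MeasureTheory ProbabilityTheory Filter Topology

namespace Pool.Agent.U260.CS

open Cop764 (G S phi G_eq)

/-- `Ψ(μ) = Σ K(n) (1 - e^{-μ n})` -/
noncomputable def PsiK (K : ℕ → ℝ) (μ : ℝ) : ℝ := ∑' n : ℕ, K n * (1 - Real.exp (-(μ * n)))

theorem PsiK_nonneg {K : ℕ → ℝ} (hK : ∀ n, 0 ≤ K n) {μ : ℝ} (hμ : 0 ≤ μ) : 0 ≤ PsiK K μ :=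
  tsum_nonneg fun n => mul_nonneg (hK n) (one_sub_exp_nonneg (by positivity))

section
variable {α : ℝ} {K : ℕ → ℝ} {cK : ℝ}

theorem PsiK_compare (hα : 0 < α) (hα1 : α < 1) (hK : ∀ n, 0 ≤ K n)
    (hs : Summable K) (hcK : 0 < cK)
    (htail : Tendsto (fun n : ℕ => (n : ℝ) ^ (1 + α) * K n) atTop (𝓝 cK))
    {a b β : ℝ} (ha : 0 < a) (hb : 0 < b) (hβ : 0 < β) (hab : a ^ α < β * b ^ α) :
    ∀ᶠ μ in 𝓝[>] (0 : ℝ), PsiK K (a * μ) < β * PsiK K (b * μ) := by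
  obtain ⟨μ0, h0, h⟩ := psi_compare hα hα1 hK hs hcK htail ha hb hβ hab
  have hev : ∀ᶠ μ in 𝓝[>] (0 : ℝ), μ < μ0 := nhdsWithin_le_nhds (gt_mem_nhds h0)
  filter_upwards [hev, self_mem_nhdsWithin] with μ h1 h2
  exact h μ h2 h1

theorem PsiK_pos (hα : 0 < α) (hα1 : α < 1) (hK : ∀ n, 0 ≤ K n)
    (hs : Summable K) (hcK : 0 < cK)
    (htail : Tendsto (fun n : ℕ => (n : ℝ) ^ (1 + α) * K n) atTop (𝓝 cK)) :
    ∀ᶠ μ in 𝓝[>] (0 : ℝ), 0 < PsiK K μ := by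
  have h1 : ((1 : ℝ) / 2) ^ α < 1 * (1 : ℝ) ^ α := by
    rw [Real.one_rpow, one_mul]
    exact Real.rpow_lt_one (by norm_num) (by norm_num) hα
  filter_upwards [PsiK_compare hα hα1 hK hs hcK htail (by norm_num) one_pos one_pos h1,
    self_mem_nhdsWithin] with μ h2 h3
  have h3' : (0 : ℝ) < μ := h3
  have h4 : 0 ≤ PsiK K (1 / 2 * μ) := PsiK_nonneg hK (by positivity)
  rw [one_mul, one_mul] at h2
  linarith

/-- regular variation at `0` -/
theorem PsiK_rv (hα : 0 < α) (hα1 : α < 1) (hK : ∀ n, 0 ≤ K n)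
    (hs : Summable K) (hcK : 0 < cK)
    (htail : Tendsto (fun n : ℕ => (n : ℝ) ^ (1 + α) * K n) atTop (𝓝 cK))
    {a : ℝ} (ha : 0 ≤ a) {δ : ℝ} (hδ : 0 < δ) :
    ∀ᶠ μ in 𝓝[>] (0 : ℝ), |PsiK K (a * μ) - a ^ α * PsiK K μ| ≤ δ * PsiK K μ := by
  rcases ha.eq_or_lt with h0 | h0
  · subst h0
    filter_upwards [self_mem_nhdsWithin] with μ h3
    have h3' : (0 : ℝ) < μ := h3
    have h4 : 0 ≤ PsiK K μ := PsiK_nonneg hK h3'.le
    have h5 : PsiK K (0 * μ) = 0 := by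
      unfold PsiK
      simp
    rw [h5, Real.zero_rpow hα.ne', zero_mul, sub_zero, abs_zero]
    positivity
  · have haα : 0 < a ^ α := Real.rpow_pos_of_pos h0 _
    obtain ⟨d, hd⟩ : ∃ d, d = min δ (a ^ α / 2) := ⟨_, rfl⟩
    have hd0 : 0 < d := by rw [hd]; positivity
    have hdδ : d ≤ δ := by rw [hd]; exact min_le_left _ _
    have hda : d ≤ a ^ α / 2 := by rw [hd]; exact min_le_right _ _
    have hpd : 0 < a ^ α - d := by linarith
    have h1 : a ^ α < (a ^ α + d) * (1 : ℝ) ^ α := by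
      rw [Real.one_rpow, mul_one]
      linarith
    have h2 : (1 : ℝ) ^ α < (a ^ α - d)⁻¹ * a ^ α := by
      rw [Real.one_rpow, ← div_eq_inv_mul, lt_div_iff₀ hpd]
      linarith
    filter_upwards [PsiK_compare hα hα1 hK hs hcK htail h0 one_pos (by positivity) h1,
      PsiK_compare hα hα1 hK hs hcK htail one_pos h0 (inv_pos.2 hpd) h2,
      self_mem_nhdsWithin] with μ h3 h4 h5
    have h5' : (0 : ℝ) < μ := h5
    have h6 : 0 ≤ PsiK K μ := PsiK_nonneg hK h5'.le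
    rw [one_mul] at h3 h4
    have h7 : (a ^ α - d) * PsiK K μ < PsiK K (a * μ) := by
      rw [← div_eq_inv_mul, lt_div_iff₀ hpd] at h4
      linarith
    have h8 : d * PsiK K μ ≤ δ * PsiK K μ := mul_le_mul_of_nonneg_right hdδ h6
    rw [abs_le]
    constructor <;> nlinarith

theorem PsiK_comb (hα : 0 < α) (hα1 : α < 1) (hK : ∀ n, 0 ≤ K n)
    (hs : Summable K) (hcK : 0 < cK)
    (htail : Tendsto (fun n : ℕ => (n : ℝ) ^ (1 + α) * K n) atTop (𝓝 cK))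
    {ι : Type} (s : Finset ι) (c a : ι → ℝ) (ha : ∀ j ∈ s, 0 ≤ a j)
    (hneg : ∑ j ∈ s, c j * a j ^ α < 0) :
    ∀ᶠ μ in 𝓝[>] (0 : ℝ), ∑ j ∈ s, c j * PsiK K (a j * μ) < 0 := by
  obtain ⟨T, hT⟩ : ∃ T, T = ∑ j ∈ s, c j * a j ^ α := ⟨_, rfl⟩
  obtain ⟨B, hB⟩ : ∃ B, B = ∑ j ∈ s, |c j| := ⟨_, rfl⟩
  have hB0 : 0 ≤ B := by
    rw [hB]
    exact Finset.sum_nonneg fun j _ => abs_nonneg _
  rw [← hT] at hneg
  obtain ⟨δ, hδ⟩ : ∃ δ, δ = -T / (2 * (B + 1)) := ⟨_, rfl⟩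
  have hδ0 : 0 < δ := by
    rw [hδ]
    have : 0 < -T := by linarith
    positivity
  have hall : ∀ᶠ μ in 𝓝[>] (0 : ℝ), ∀ j ∈ s,
      |PsiK K (a j * μ) - a j ^ α * PsiK K μ| ≤ δ * PsiK K μ :=
    (Filter.eventually_all_finset s).2 fun j hj =>
      PsiK_rv hα hα1 hK hs hcK htail (ha j hj) hδ0
  filter_upwards [hall, PsiK_pos hα hα1 hK hs hcK htail] with μ h1 h2
  have h3 : ∑ j ∈ s, c j * PsiK K (a j * μ) ≤
      ∑ j ∈ s, (c j * a j ^ α * PsiK K μ + |c j| * (δ * PsiK K μ)) := by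
    refine Finset.sum_le_sum fun j hj => ?_
    have h4 := h1 j hj
    have h5 : c j * (PsiK K (a j * μ) - a j ^ α * PsiK K μ) ≤
        |c j| * (δ * PsiK K μ) := by
      refine (le_abs_self _).trans ?_
      rw [abs_mul]
      exact mul_le_mul_of_nonneg_left h4 (abs_nonneg _)
    linarith
  have h6 : ∑ j ∈ s, (c j * a j ^ α * PsiK K μ + |c j| * (δ * PsiK K μ)) =
      (T + δ * B) * PsiK K μ := by
    rw [Finset.sum_add_distrib, ← Finset.sum_mul, ← Finset.sum_mul, ← hT, ← hB]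
    ring
  rw [h6] at h3
  have h7 : T + δ * B < 0 := by
    have : δ * (2 * (B + 1)) = -T := by
      rw [hδ]
      field_simp
    nlinarith
  exact lt_of_le_of_lt h3 (mul_neg_of_neg_of_pos h7 h2)

end

/-- **Exponential minorants of `φ^γ` give lower bounds for the slope.** -/
theorem crit_of_minorant {α : ℝ} (hα : 0 < α) (hα1 : α < 1) {ι : Type} (s : Finset ι)
    (c θ : ι → ℝ) {m : ℝ} (hm : 0 < m) (hθ0 : ∀ j ∈ s, 0 ≤ θ j) (hθm : ∀ j ∈ s, θ j < m)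
    (hsum : ∑ j ∈ s, c j = 1)
    (hmin : ∀ x : ℝ, ∑ j ∈ s, c j * Real.exp (θ j * x) ≤ ((1 + Real.exp x) / 2) ^ (1 / (1 + α)))
    (hneg : ∑ j ∈ s, c j * (2 * θ j * (m - θ j)) ^ α < 0) :
    ∀ (κ : PMF ℕ), κ 0 = 0 → ∀ cK : ℝ, 0 < cK →
      Tendsto (fun n : ℕ => (n : ℝ) ^ (1 + α) * (κ n).toReal) atTop (𝓝 cK) →
    ∀ (ν : Measure ℝ) [IsProbabilityMeasure ν], ∫ x, x ∂ν = 0 → ∫ x, x ^ 2 ∂ν = 1 →
      (∀ t : ℝ, Integrable (fun x => Real.exp (t * x)) ν) →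
    ∃ lam0 : ℝ, 0 < lam0 ∧ ∀ D : Cop764.Data, D.κ = κ → D.α = α → D.ν = ν → D.lam < lam0 →
      ∃ N : ℕ, 1 < ∑ k ∈ Ioc 0 N, D.K k * AA D (m * D.lam) (1 / (1 + α)) k := by
  intro κ hκ0 cK hcK htail ν hν mean var expm
  -- choose ε
  obtain ⟨bb, hbb⟩ : ∃ bb : ℝ → ι → ℝ, bb = fun ε j =>
      if 0 ≤ c j then 2 * θ j * (m - θ j * (1 - ε)) else 2 * θ j * (m - θ j * (1 + ε)) := ⟨_, rfl⟩
  have hcont : Continuous (fun ε : ℝ => ∑ j ∈ s, c j * (bb ε j) ^ α) := by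
    refine continuous_finsetSum _ fun j _ => continuous_const.mul ?_
    refine Continuous.rpow_const ?_ fun x => Or.inr hα.le
    by_cases hj : 0 ≤ c j
    · have : (fun ε => bb ε j) = fun ε => 2 * θ j * (m - θ j * (1 - ε)) := by
        funext ε
        rw [hbb]
        simp only [if_pos hj]
      rw [this]
      fun_prop
    · have : (fun ε => bb ε j) = fun ε => 2 * θ j * (m - θ j * (1 + ε)) := by
        funext ε
        rw [hbb]
        simp only [if_neg hj]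
      rw [this]
      fun_prop
  have hbb0 : ∀ j, bb 0 j = 2 * θ j * (m - θ j) := by
    intro j
    rw [hbb]
    simp
  have hev1 : ∀ᶠ ε in 𝓝 (0 : ℝ), ∑ j ∈ s, c j * (bb ε j) ^ α < 0 := by
    refine hcont.continuousAt.eventually_lt continuousAt_const ?_
    simp only [hbb0]
    exact hneg
  have hev2 : ∀ᶠ ε in 𝓝 (0 : ℝ), ∀ j ∈ s, θ j * (1 + ε) < m := by
    refine (Filter.eventually_all_finset s).2 fun j hj => ?_
    have hc1 : ContinuousAt (fun ε : ℝ => θ j * (1 + ε)) 0 := by fun_prop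
    refine hc1.eventually_lt continuousAt_const ?_
    simpa using hθm j hj
  have hev3 : ∀ᶠ ε in 𝓝[>] (0 : ℝ), ε < 1 := nhdsWithin_le_nhds (gt_mem_nhds one_pos)
  have hev1' : ∀ᶠ ε in 𝓝[>] (0 : ℝ), ∑ j ∈ s, c j * (bb ε j) ^ α < 0 := nhdsWithin_le_nhds hev1
  have hev2' : ∀ᶠ ε in 𝓝[>] (0 : ℝ), ∀ j ∈ s, θ j * (1 + ε) < m := nhdsWithin_le_nhds hev2
  have hev4 : ∀ᶠ ε in 𝓝[>] (0 : ℝ), 0 < ε := self_mem_nhdsWithin
  obtain ⟨ε, he1, he2, he3, hε0⟩ := (hev1'.and (hev2'.and (hev3.and hev4))).exists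
  obtain ⟨s0, hs0, hmgf⟩ := mgf_gauss ν mean var expm hε0 he3.le
  have hK : ∀ n, 0 ≤ (κ n).toReal := fun n => ENNReal.toReal_nonneg
  have hKs : HasSum (fun n => (κ n).toReal) 1 := PMF_hasSum κ
  have hb0 : ∀ j ∈ s, 0 ≤ bb ε j := by
    intro j hj
    have h1 := hθ0 j hj
    have h2 := he2 j hj
    rw [hbb]
    simp only
    split_ifs with h
    · have : 0 ≤ m - θ j * (1 - ε) := by nlinarith
      positivity
    · have : 0 ≤ m - θ j * (1 + ε) := by linarith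
      positivity
  have hcomb := PsiK_comb hα hα1 hK hKs.summable hcK htail s c (bb ε) hb0 he1
  obtain ⟨μ0, hμ0, hμ⟩ : ∃ μ0 : ℝ, 0 < μ0 ∧ ∀ μ : ℝ, 0 < μ → μ < μ0 →
      ∑ j ∈ s, c j * PsiK (fun n => (κ n).toReal) (bb ε j * μ) < 0 := by
    rw [eventually_nhdsWithin_iff, Metric.eventually_nhds_iff] at hcomb
    obtain ⟨μ0, h0, h⟩ := hcomb
    refine ⟨μ0, h0, fun μ h1 h2 => h ?_ h1⟩
    rw [Real.dist_eq, sub_zero, abs_of_pos h1]
    exact h2
  refine ⟨min (min 1 μ0) (s0 / (2 * m)), by positivity, ?_⟩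
  intro D hDκ hDα hDν hDlam
  subst hDκ hDα hDν
  have hlam := D.hlam
  have hl1 : D.lam < 1 := hDlam.trans_le ((min_le_left _ _).trans (min_le_left _ _))
  have hl2 : D.lam < μ0 := hDlam.trans_le ((min_le_left _ _).trans (min_le_right _ _))
  have hl3 : D.lam < s0 / (2 * m) := hDlam.trans_le (min_le_right _ _)
  have hμpos : 0 < D.lam ^ 2 := by positivity
  have hμlt : D.lam ^ 2 < μ0 := by nlinarith
  have hneg2 := hμ (D.lam ^ 2) hμpos hμlt
  -- bound of the moments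
  have hθs : ∀ j ∈ s, 2 * D.lam * θ j ≤ s0 := by
    intro j hj
    have h1 := hθm j hj
    rw [lt_div_iff₀ (by positivity)] at hl3
    nlinarith [hθ0 j hj]
  have hmom : ∀ n : ℕ, ∑ j ∈ s, c j * Real.exp (-(bb ε j * D.lam ^ 2 * n)) ≤
      AA D (m * D.lam) (1 / (1 + D.α)) n := by
    intro n
    have hγ0 : 0 ≤ 1 / (1 + D.α) := by
      have := D.hα
      positivity
    have hγ1 : 1 / (1 + D.α) ≤ 1 := by
      have := D.hα
      rw [div_le_one (by linarith)]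
      linarith
    have h1 : ∫ ω : ℕ → ℝ, ∑ j ∈ s, c j * Real.exp (θ j * S (D.w (m * D.lam) ω) 0 n) ∂D.P ≤
        AA D (m * D.lam) (1 / (1 + D.α)) n := by
      refine integral_mono ?_ (phi_rpow_integrable D (m * D.lam) hγ0 hγ1 n) fun ω => ?_
      · exact integrable_finset_sum _ fun j _ => ((exp_S D (m * D.lam) (θ j) n).1).const_mul _
      · exact hmin (S (D.w (m * D.lam) ω) 0 n)
    refine le_trans ?_ h1
    rw [integral_finset_sum _ fun j _ => ((exp_S D (m * D.lam) (θ j) n).1).const_mul _]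
    refine Finset.sum_le_sum fun j hj => ?_
    rw [integral_const_mul, (exp_S D (m * D.lam) (θ j) n).2]
    have hpb := psi_bounds' D hmgf (h := m * D.lam) (hθ0 j hj) (hθs j hj)
    have hexp : ∀ x : ℝ, Real.exp (-(x * D.lam ^ 2 * n)) = Real.exp (-(x * D.lam ^ 2)) ^ n := by
      intro x
      rw [← Real.exp_nat_mul]
      congr 1
      ring
    rw [hexp]
    by_cases hj0 : 0 ≤ c j
    · refine mul_le_mul_of_nonneg_left ?_ hj0
      refine pow_le_pow_left₀ (Real.exp_pos _).le ?_ n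
      refine le_trans (le_of_eq ?_) hpb.1
      congr 1
      rw [hbb]
      simp only [if_pos hj0]
      ring
    · refine mul_le_mul_of_nonpos_left ?_ (not_le.1 hj0).le
      have hp0 : 0 ≤ psi D (m * D.lam) (θ j) := (Real.exp_pos _).le.trans hpb.1
      refine pow_le_pow_left₀ hp0 ?_ n
      refine le_trans hpb.2 (le_of_eq ?_)
      congr 1
      rw [hbb]
      simp only [if_neg hj0]
      ring
  -- sum
  have hKs' : HasSum D.K 1 := hKs
  have hKn : ∀ n, 0 ≤ D.K n := fun n => K_nonneg D n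
  have hHS : HasSum (fun n : ℕ => D.K n * ∑ j ∈ s, c j * Real.exp (-(bb ε j * D.lam ^ 2 * n)))
      (1 - ∑ j ∈ s, c j * PsiK D.K (bb ε j * D.lam ^ 2)) := by
    have h1 : ∀ j ∈ s, HasSum (fun n : ℕ => c j * (D.K n *
        (1 - Real.exp (-(bb ε j * D.lam ^ 2 * n))))) (c j * PsiK D.K (bb ε j * D.lam ^ 2)) := by
      intro j hj
      refine HasSum.mul_left _ ?_
      exact (psi_summable hKn hKs'.summable
        (mul_nonneg (hb0 j hj) hμpos.le)).hasSum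
    have h2 := hKs'.sub (hasSum_sum h1)
    refine h2.congr_fun ?_
    intro n
    have h3 : ∑ j ∈ s, c j * (D.K n * (1 - Real.exp (-(bb ε j * D.lam ^ 2 * n)))) =
        D.K n * (∑ j ∈ s, c j) - D.K n * ∑ j ∈ s, c j * Real.exp (-(bb ε j * D.lam ^ 2 * n)) := by
      rw [Finset.mul_sum, Finset.mul_sum, ← Finset.sum_sub_distrib]
      refine Finset.sum_congr rfl fun j _ => ?_
      ring
    rw [h3, hsum]
    ring
  have hgt : 1 < 1 - ∑ j ∈ s, c j * PsiK D.K (bb ε j * D.lam ^ 2) := by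
    have : ∑ j ∈ s, c j * PsiK D.K (bb ε j * D.lam ^ 2) < 0 := hneg2
    linarith
  obtain ⟨N, hN⟩ := ((hHS.tendsto_sum_nat).eventually (lt_mem_nhds hgt)).exists_forall_of_atTop
  have hN1 := hN (N + 1) (by omega)
  refine ⟨N, hN1.trans_le ?_⟩
  have h0 : D.K 0 = 0 := by
    show (D.κ 0).toReal = 0
    rw [hκ0]
    rfl
  have hsub : ∑ n ∈ range (N + 1), D.K n * ∑ j ∈ s, c j * Real.exp (-(bb ε j * D.lam ^ 2 * n)) =
      ∑ n ∈ Ioc 0 N, D.K n * ∑ j ∈ s, c j * Real.exp (-(bb ε j * D.lam ^ 2 * n)) := by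
    symm
    refine Finset.sum_subset ?_ ?_
    · intro x hx
      rw [Finset.mem_Ioc] at hx
      rw [Finset.mem_range]
      omega
    · intro x hx hx2
      rw [Finset.mem_range] at hx
      rw [Finset.mem_Ioc] at hx2
      have : x = 0 := by omega
      rw [this, h0, zero_mul]
  rw [hsub]
  exact Finset.sum_le_sum fun n _ => mul_le_mul_of_nonneg_left (hmom n) (hKn n)

end Pool.Agent.U260.CS
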