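import Pool.Agent.U260.CX3

set_option autoImplicit false
set_option maxHeartbeats 4000000

open Finset MeasureTheory ProbabilityTheory Filter Topology

namespace Pool.Agent.U260.CS

/-- the polynomial `E` -/
theorem E_nonneg {t : ℝ} (ht : 0 ≤ t) : 0 ≤ (11817 / 2500) * t ^ 0 + (441177837 / 25000000) * t ^ 1 + ((-31520861867481 / 250000000000)) * t ^ 2 + (6407487445539 / 125000000000) * t ^ 3 + (1873609496619 / 10000000000) * t ^ 4 + (1474390028611 / 12500000000) * t ^ 5 + (307123569921 / 10000000000) * t ^ 6 + (387503119659 / 125000000000) * t ^ 7 + (72051101 / 250000000000) * t ^ 8 := by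
  rcases le_total t (1 / 4) with h1 | h1
  · have hu : 0 ≤ t - 0 := by linarith
    have hv : 0 ≤ (1 / 4) - t := by linarith
    have e : (11817 / 2500) * t ^ 0 + (441177837 / 25000000) * t ^ 1 + ((-31520861867481 / 250000000000)) * t ^ 2 + (6407487445539 / 125000000000) * t ^ 3 + (1873609496619 / 10000000000) * t ^ 4 + (1474390028611 / 12500000000) * t ^ 5 + (307123569921 / 10000000000) * t ^ 6 + (387503119659 / 125000000000) * t ^ 7 + (72051101 / 250000000000) * t ^ 8 = (193609728 / 625) * (t - 0) ^ 0 * ((1 / 4) - t) ^ 8 + (1080990166272 / 390625) * (t - 0) ^ 1 * ((1 / 4) - t) ^ 7 + (2485642129970076 / 244140625) * (t - 0) ^ 2 * ((1 / 4) - t) ^ 6 + (4973884622391534 / 244140625) * (t - 0) ^ 3 * ((1 / 4) - t) ^ 5 + (4759316087168319 / 195312500) * (t - 0) ^ 4 * ((1 / 4) - t) ^ 4 + (3488778169330831 / 195312500) * (t - 0) ^ 5 * ((1 / 4) - t) ^ 3 + (24483472103128629 / 3125000000) * (t - 0) ^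 6 * ((1 / 4) - t) ^ 2 + (58794999648734127 / 31250000000) * (t - 0) ^ 7 * ((1 / 4) - t) ^ 1 + (47743821633302149 / 250000000000) * (t - 0) ^ 8 * ((1 / 4) - t) ^ 0 := by ring
    rw [e]
    positivity
  · rcases le_total t (1 / 2) with h2 | h2
    · have hu : 0 ≤ t - (1 / 4) := by linarith
      have hv : 0 ≤ (1 / 2) - t := by linarith
      have e : (11817 / 2500) * t ^ 0 + (441177837 / 25000000) * t ^ 1 + ((-31520861867481 / 250000000000)) * t ^ 2 + (6407487445539 / 125000000000) * t ^ 3 + (1873609496619 / 10000000000) * t ^ 4 + (1474390028611 / 12500000000) * t ^ 5 + (307123569921 / 10000000000) * t ^ 6 + (387503119659 / 125000000000) * t ^ 7 + (72051101 / 250000000000) * t ^ 8 = (47743821633302149 / 250000000000) * (t - (1 / 4)) ^ 0 * ((1 / 2) - t) ^ 8 + (36692643617870171 / 31250000000) * (t - (1 / 4)) ^ 1 * ((1 / 2) - t) ^ 7 + (45059114407619299 / 15625000000) * (t - (1 / 4)) ^ 2 * ((1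 / 2) - t) ^ 6 + (28671546563439049 / 7812500000) * (t - (1 / 4)) ^ 3 * ((1 / 2) - t) ^ 5 + (4553194595576207 / 1562500000) * (t - (1 / 4)) ^ 4 * ((1 / 2) - t) ^ 4 + (4378667735399389 / 1953125000) * (t - (1 / 4)) ^ 5 * ((1 / 2) - t) ^ 3 + (1948166854694919 / 976562500) * (t - (1 / 4)) ^ 6 * ((1 / 2) - t) ^ 2 + (577130321147391 / 488281250) * (t - (1 / 4)) ^ 7 * ((1 / 2) - t) ^ 1 + (277575513102909 / 976562500) * (t - (1 / 4)) ^ 8 * ((1 / 2) - t) ^ 0 := by ring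
      rw [e]
      positivity
    · have hu : 0 ≤ t - 1 / 2 := by linarith
      have e : (11817 / 2500) * t ^ 0 + (441177837 / 25000000) * t ^ 1 + ((-31520861867481 / 250000000000)) * t ^ 2 + (6407487445539 / 125000000000) * t ^ 3 + (1873609496619 / 10000000000) * t ^ 4 + (1474390028611 / 12500000000) * t ^ 5 + (307123569921 / 10000000000) * t ^ 6 + (387503119659 / 125000000000) * t ^ 7 + (72051101 / 250000000000) * t ^ 8 = (277575513102909 / 64000000000000) * (t - 1 / 2) ^ 0 + (106634346252849 / 1600000000000) * (t - 1 / 2) ^ 1 + (1640456725512897 / 4000000000000) * (t - 1 / 2) ^ 2 + (1608845012084603 / 2000000000000) * (t - 1 / 2) ^ 3 + (244389665674723 / 400000000000) * (t - 1 / 2) ^ 4 + (113182710860843 / 500000000000) * (t - 1 / 2) ^ 5 + (2078223088669 / 50000000000) * (t - 1 / 2) ^ 6 + (387647221861 / 125000000000) * (t - 1 / 2) ^ 7 + (72051101 / 250000000000) * (t - 1 / 2) ^ 8 + 0 *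 (t - 1 / 2) ^ 9 := by ring
      rw [e]
      positivity

/-- `4 P(y)^3 ≤ (1 + y^9)^2` -/
theorem P_cube {y : ℝ} (hy : 0 < y) :
    4 * (6299 / 10000 * (1 + y ^ 6) - 65 / 100 * (y + y ^ 5) + 3287 / 1000 * (y ^ 2 + y ^ 4) -
      27669 / 5000 * y ^ 3) ^ 3 ≤ (1 + y ^ 9) ^ 2 := by
  have h := E_nonneg (t := (y - 1) ^ 2 / y) (by positivity)
  have h2 : 0 ≤ (y - 1) ^ 2 * ((11817 / 2500) * (y - 1) ^ 0 * y ^ 8 + (441177837 / 25000000) * (y - 1) ^ 2 * y ^ 7 + ((-31520861867481 / 250000000000)) * (y - 1) ^ 4 * y ^ 6 + (6407487445539 / 125000000000) * (y - 1) ^ 6 * y ^ 5 + (1873609496619 / 10000000000) * (y - 1) ^ 8 * y ^ 4 + (1474390028611 / 12500000000) * (y - 1) ^ 10 * y ^ 3 + (307123569921 / 10000000000) * (y - 1) ^ 12 * y ^ 2 + (387503119659 / 125000000000) * (y - 1) ^ 14 * y ^ 1 + (72051101 / 250000000000) * (y - 1) ^ 16 * y ^ 0) := by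
    have h3 := mul_nonneg (show 0 ≤ (y - 1) ^ 2 * y ^ 8 by positivity) h
    refine h3.trans (le_of_eq ?_)
    field_simp
  have e : (1 + y ^ 9) ^ 2 - 4 * (6299 / 10000 * (1 + y ^ 6) - 65 / 100 * (y + y ^ 5) +
      3287 / 1000 * (y ^ 2 + y ^ 4) - 27669 / 5000 * y ^ 3) ^ 3 = (y - 1) ^ 2 * ((11817 / 2500) * (y - 1) ^ 0 * y ^ 8 + (441177837 / 25000000) * (y - 1) ^ 2 * y ^ 7 + ((-31520861867481 / 250000000000)) * (y - 1) ^ 4 * y ^ 6 + (6407487445539 / 125000000000) * (y - 1) ^ 6 * y ^ 5 + (1873609496619 / 10000000000) * (y - 1) ^ 8 * y ^ 4 + (1474390028611 / 12500000000) * (y - 1) ^ 10 * y ^ 3 + (307123569921 / 10000000000) * (y - 1) ^ 12 * y ^ 2 + (387503119659 / 125000000000) * (y - 1) ^ 14 * y ^ 1 + (72051101 / 250000000000) * (y - 1) ^ 16 * y ^ 0) := by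
    ring
  linarith

/-- coefficients -/
noncomputable def cc : ℕ → ℝ
  | 0 => 6299 / 10000
  | 1 => -(65 / 100)
  | 2 => 3287 / 1000
  | 3 => -(27669 / 5000)
  | 4 => 3287 / 1000
  | 5 => -(65 / 100)
  | 6 => 6299 / 10000
  | _ => 0

theorem cc_sum : ∑ j ∈ range 7, cc j = 1 := by
  simp only [Finset.sum_range_succ, Finset.sum_range_zero, cc]
  norm_num

theorem cc_min (x : ℝ) : ∑ j ∈ range 7, cc j * Real.exp ((j : ℝ) / 9 * x) ≤
    ((1 + Real.exp x) / 2) ^ (1 / (1 + 1 / 2 : ℝ)) := by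
  obtain ⟨y, hy⟩ : ∃ y, y = Real.exp (x / 9) := ⟨_, rfl⟩
  have hy0 : 0 < y := by rw [hy]; exact Real.exp_pos _
  have hpow : ∀ j : ℕ, Real.exp ((j : ℝ) / 9 * x) = y ^ j := by
    intro j
    rw [hy, ← Real.exp_nat_mul]
    congr 1
    ring
  have hx : Real.exp x = y ^ 9 := by
    rw [hy, ← Real.exp_nat_mul]
    congr 1
    push_cast
    ring
  simp only [hpow]
  rw [hx]
  obtain ⟨P, hP⟩ : ∃ P, P = ∑ j ∈ range 7, cc j * y ^ j := ⟨_, rfl⟩
  rw [← hP]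
  have hP2 : P = 6299 / 10000 * (1 + y ^ 6) - 65 / 100 * (y + y ^ 5) +
      3287 / 1000 * (y ^ 2 + y ^ 4) - 27669 / 5000 * y ^ 3 := by
    rw [hP]
    simp only [Finset.sum_range_succ, Finset.sum_range_zero, cc]
    ring
  have hc := P_cube hy0
  rw [← hP2] at hc
  have hR : 0 ≤ (1 + y ^ 9) / 2 := by positivity
  rcases le_or_gt P 0 with h0 | h0
  · exact h0.trans (Real.rpow_nonneg hR _)
  · have h1 : P ^ (3 : ℕ) ≤ ((1 + y ^ 9) / 2) ^ (2 : ℕ) := by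
      rw [div_pow]
      linarith
    have h2 := Real.rpow_le_rpow (by positivity) h1 (show (0 : ℝ) ≤ 1 / 3 by norm_num)
    rw [← Real.rpow_natCast, ← Real.rpow_natCast, ← Real.rpow_mul h0.le, ← Real.rpow_mul hR] at h2
    have e1 : ((3 : ℕ) : ℝ) * (1 / 3) = 1 := by norm_num
    have e2 : ((2 : ℕ) : ℝ) * (1 / 3) = 1 / (1 + 1 / 2 : ℝ) := by norm_num
    rw [e1, e2, Real.rpow_one] at h2
    exact h2

theorem cc_neg : ∑ j ∈ range 7, cc j *
    (2 * ((j : ℝ) / 9) * (71 / 100 - (j : ℝ) / 9)) ^ (1 / 2 : ℝ) < 0 := by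
  simp only [← Real.sqrt_eq_rpow]
  simp only [Finset.sum_range_succ, Finset.sum_range_zero, cc]
  have h1 : 3648 / 10000 ≤ Real.sqrt (2 * (((1 : ℕ) : ℝ) / 9) * (71 / 100 - ((1 : ℕ) : ℝ) / 9)) :=
    Real.le_sqrt_of_sq_le (by norm_num)
  have h2 : Real.sqrt (2 * (((2 : ℕ) : ℝ) / 9) * (71 / 100 - ((2 : ℕ) : ℝ) / 9)) ≤ 46561 / 100000 :=
    Real.sqrt_le_iff.2 ⟨by norm_num, by norm_num⟩
  have h3 : 5011 / 10000 ≤ Real.sqrt (2 * (((3 : ℕ) : ℝ) / 9) * (71 / 100 - ((3 : ℕ) : ℝ) / 9)) :=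
    Real.le_sqrt_of_sq_le (by norm_num)
  have h4 : Real.sqrt (2 * (((4 : ℕ) : ℝ) / 9) * (71 / 100 - ((4 : ℕ) : ℝ) / 9)) ≤ 48585 / 100000 :=
    Real.sqrt_le_iff.2 ⟨by norm_num, by norm_num⟩
  have h5 : 41425 / 100000 ≤
      Real.sqrt (2 * (((5 : ℕ) : ℝ) / 9) * (71 / 100 - ((5 : ℕ) : ℝ) / 9)) :=
    Real.le_sqrt_of_sq_le (by norm_num)
  have h6 : Real.sqrt (2 * (((6 : ℕ) : ℝ) / 9) * (71 / 100 - ((6 : ℕ) : ℝ) / 9)) ≤ 24038 / 100000 :=
    Real.sqrt_le_iff.2 ⟨by norm_num, by norm_num⟩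
  have h0 : Real.sqrt (2 * (((0 : ℕ) : ℝ) / 9) * (71 / 100 - ((0 : ℕ) : ℝ) / 9)) = 0 := by
    simp
  rw [h0]
  linarith

/-- **`α = 1/2`: the slope is larger than `0.71`** -/
theorem half_slope : ∃ ε : ℝ, 0 < ε ∧
    ∀ (κ : PMF ℕ), κ 0 = 0 → ∀ cK : ℝ, 0 < cK →
      Tendsto (fun n : ℕ => (n : ℝ) ^ (1 + (1 / 2 : ℝ)) * (κ n).toReal) atTop (𝓝 cK) →
    ∀ (ν : Measure ℝ) [IsProbabilityMeasure ν], ∫ x, x ∂ν = 0 → ∫ x, x ^ 2 ∂ν = 1 →
      (∀ t : ℝ, Integrable (fun x => Real.exp (t * x)) ν) →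
    ∃ lam0 : ℝ, 0 < lam0 ∧ ∀ D : Cop764.Data, D.κ = κ → D.α = 1 / 2 → D.ν = ν → D.lam < lam0 →
      0 < D.f ((71 / 100 + ε) * D.lam) := by
  obtain ⟨ε, hε, hs⟩ := strict (α := 1 / 2) (by norm_num) (by norm_num)
  refine ⟨ε, hε, fun κ hκ0 cK hcK htail ν hν mean var expm => ?_⟩
  obtain ⟨l1, hl1, h1⟩ := hs κ hκ0 cK hcK htail ν mean var expm
  obtain ⟨l2, hl2, h2⟩ := crit_of_minorant (α := 1 / 2) (by norm_num) (by norm_num) (range 7)
    cc (fun j : ℕ => (j : ℝ) / 9) (m := 71 / 100) (by norm_num) (fun j _ => by positivity)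
    (fun j hj => by
      have : j ≤ 6 := by
        rw [Finset.mem_range] at hj
        omega
      have : (j : ℝ) ≤ 6 := by exact_mod_cast this
      show (j : ℝ) / 9 < 71 / 100
      linarith) cc_sum cc_min cc_neg κ hκ0 cK hcK htail ν mean var expm
  refine ⟨min l1 l2, lt_min hl1 hl2, fun D hκ hα hν' hlam => ?_⟩
  have h3 := h2 D hκ hα hν' (hlam.trans_le (min_le_right _ _))
  have hl := D.hlam
  have h4 := h1 D hκ hα hν' (hlam.trans_le (min_le_left _ _)) (71 / 100 * D.lam) (by positivity) h3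
  rw [← add_mul] at h4
  exact h4

end Pool.Agent.U260.CS
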