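import Pool.Agent.U260.CX3

set_option autoImplicit false
set_option maxHeartbeats 4000000

open Finset MeasureTheory ProbabilityTheory Filter Topology

namespace Pool.Agent.U260.CS

/-- facts about the closed form bound -/
theorem closed_facts {α : ℝ} (hα : 0 < α) (_hα1 : α < 1) :
    0 < (2 - (2 : ℝ) ^ (1 / (1 + α))) ^ (1 / α) ∧ (2 - (2 : ℝ) ^ (1 / (1 + α))) ^ (1 / α) < 1 ∧
    0 < 2 - (2 : ℝ) ^ (1 / (1 + α)) := by
  have h1 : (2 : ℝ) ^ (1 / (1 + α)) < 2 := by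
    calc (2 : ℝ) ^ (1 / (1 + α)) < (2 : ℝ) ^ (1 : ℝ) := by
          refine Real.rpow_lt_rpow_of_exponent_lt (by norm_num) ?_
          rw [div_lt_one (by linarith)]
          linarith
      _ = 2 := Real.rpow_one _
  have h2 : 1 < (2 : ℝ) ^ (1 / (1 + α)) := Real.one_lt_rpow (by norm_num) (by positivity)
  have h3 : 0 < 2 - (2 : ℝ) ^ (1 / (1 + α)) := by linarith
  exact ⟨Real.rpow_pos_of_pos h3 _,
    Real.rpow_lt_one h3.le (by linarith) (by positivity), h3⟩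

/-- three coefficients -/
noncomputable def c3 (γ : ℝ) : ℕ → ℝ
  | 0 => 2 ^ (-γ)
  | 1 => -(2 ^ (-γ) * (2 - 2 ^ γ))
  | 2 => 2 ^ (-γ)
  | _ => 0

/-- **Closed form lower bound of the slope.** -/
theorem closed_slope {α : ℝ} (hα : 0 < α) (hα1 : α < 1) {γ k μ : ℝ} (hγ : γ = 1 / (1 + α))
    (hk : k = (2 - (2 : ℝ) ^ γ) ^ (1 / α)) (hμ : μ = γ * (4 - k) / (4 - 2 * k)) :
    γ < μ ∧ ∃ ε : ℝ, 0 < ε ∧
    ∀ (κ : PMF ℕ), κ 0 = 0 → ∀ cK : ℝ, 0 < cK →
      Tendsto (fun n : ℕ => (n : ℝ) ^ (1 + α) * (κ n).toReal) atTop (𝓝 cK) →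
    ∀ (ν : Measure ℝ) [IsProbabilityMeasure ν], ∫ x, x ∂ν = 0 → ∫ x, x ^ 2 ∂ν = 1 →
      (∀ t : ℝ, Integrable (fun x => Real.exp (t * x)) ν) →
    ∃ lam0 : ℝ, 0 < lam0 ∧ ∀ D : Cop764.Data, D.κ = κ → D.α = α → D.ν = ν → D.lam < lam0 →
      0 < D.f ((μ + ε) * D.lam) := by
  obtain ⟨k0, k1, kb⟩ := closed_facts hα hα1
  rw [← hγ] at k0 k1 kb
  rw [← hk] at k0 k1
  obtain ⟨β, hβ⟩ : ∃ β, β = 2 - (2 : ℝ) ^ γ := ⟨_, rfl⟩
  rw [← hβ] at hk kb
  have hγ0 : 0 < γ := by rw [hγ]; positivity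
  have hγ1 : γ < 1 := by
    rw [hγ, div_lt_one (by linarith)]
    linarith
  have hγμ : γ < μ := by
    rw [hμ, lt_div_iff₀ (by linarith)]
    nlinarith
  refine ⟨hγμ, ?_⟩
  obtain ⟨ε, hε, hs⟩ := strict hα hα1
  obtain ⟨m, hm⟩ : ∃ m, m = max ((γ + μ) / 2) (μ - ε / 2) := ⟨_, rfl⟩
  have hm1 : γ < m := by
    rw [hm]
    exact lt_of_lt_of_le (by linarith) (le_max_left _ _)
  have hm2 : m < μ := by
    rw [hm]
    exact max_lt (by linarith) (by linarith)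
  have hm3 : μ - ε / 2 ≤ m := by
    rw [hm]
    exact le_max_right _ _
  have hm0 : 0 < m := by linarith
  refine ⟨m + ε - μ, by linarith, fun κ hκ0 cK hcK htail ν hν mean var expm => ?_⟩
  obtain ⟨l1, hl1, h1⟩ := hs κ hκ0 cK hcK htail ν mean var expm
  have hc : (0 : ℝ) < 2 ^ (-γ) := Real.rpow_pos_of_pos (by norm_num) _
  have hcg : (2 : ℝ) ^ (-γ) * 2 ^ γ = 1 := by
    rw [← Real.rpow_add (by norm_num)]
    simp
  have hsum : ∑ j ∈ range 3, c3 γ j = 1 := by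
    simp only [Finset.sum_range_succ, Finset.sum_range_zero, c3]
    linarith
  have hmin : ∀ x : ℝ, ∑ j ∈ range 3, c3 γ j * Real.exp ((j : ℝ) * (γ / 2) * x) ≤
      ((1 + Real.exp x) / 2) ^ (1 / (1 + α)) := by
    intro x
    have h2 := phi_rpow_three hγ0 hγ1.le x
    rw [← hγ]
    refine le_trans (le_of_eq ?_) h2
    simp only [Finset.sum_range_succ, Finset.sum_range_zero, c3]
    have e0 : Real.exp (((0 : ℕ) : ℝ) * (γ / 2) * x) = 1 := by simp
    have e1 : Real.exp (((1 : ℕ) : ℝ) * (γ / 2) * x) = Real.exp (γ / 2 * x) := by simp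
    have e2 : Real.exp (((2 : ℕ) : ℝ) * (γ / 2) * x) = Real.exp (γ * x) := by
      congr 1
      push_cast
      ring
    rw [e0, e1, e2]
    ring
  have hneg : ∑ j ∈ range 3, c3 γ j *
      (2 * ((j : ℝ) * (γ / 2)) * (m - (j : ℝ) * (γ / 2))) ^ α < 0 := by
    simp only [Finset.sum_range_succ, Finset.sum_range_zero, c3]
    have e0 : (2 * (((0 : ℕ) : ℝ) * (γ / 2)) * (m - ((0 : ℕ) : ℝ) * (γ / 2))) ^ α = 0 := by
      simp [Real.zero_rpow hα.ne']
    have e1 : 2 * (((1 : ℕ) : ℝ) * (γ / 2)) * (m - ((1 : ℕ) : ℝ) * (γ / 2)) =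
        γ * (m - γ / 2) := by
      push_cast
      ring
    have e2 : 2 * (((2 : ℕ) : ℝ) * (γ / 2)) * (m - ((2 : ℕ) : ℝ) * (γ / 2)) =
        2 * γ * (m - γ) := by
      push_cast
      ring
    rw [e0, e1, e2]
    have hkα : k ^ α = β := by
      rw [hk, ← Real.rpow_mul kb.le, one_div_mul_cancel hα.ne', Real.rpow_one]
    have h3 : (2 * γ * (m - γ)) ^ α < β * (γ * (m - γ / 2)) ^ α := by
      rw [← hkα, ← Real.mul_rpow k0.le (mul_nonneg hγ0.le (by linarith))]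
      refine Real.rpow_lt_rpow (mul_nonneg (by linarith) (by linarith)) ?_ hα
      have h4 : m * (4 - 2 * k) < γ * (4 - k) := by
        rw [hμ, lt_div_iff₀ (by linarith)] at hm2
        exact hm2
      have h5 : γ * (m * (4 - 2 * k)) < γ * (γ * (4 - k)) := mul_lt_mul_of_pos_left h4 hγ0
      nlinarith
    rw [← hβ]
    have h6 := mul_lt_mul_of_pos_left h3 hc
    linarith
  obtain ⟨l2, hl2, h2⟩ := crit_of_minorant hα hα1 (range 3)
    (c3 γ) (fun j : ℕ => (j : ℝ) * (γ / 2)) hm0 (fun j _ => by positivity)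
    (fun j hj => by
      have : j ≤ 2 := by
        rw [Finset.mem_range] at hj
        omega
      have : (j : ℝ) ≤ 2 := by exact_mod_cast this
      show (j : ℝ) * (γ / 2) < m
      nlinarith) hsum hmin hneg κ hκ0 cK hcK htail ν mean var expm
  refine ⟨min l1 l2, lt_min hl1 hl2, fun D hκ hα hν' hlam => ?_⟩
  have h3 := h2 D hκ hα hν' (hlam.trans_le (min_le_right _ _))
  have hl := D.hlam
  have h4 := h1 D hκ hα hν' (hlam.trans_le (min_le_left _ _)) (m * D.lam) (by positivity) h3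
  have e : (μ + (m + ε - μ)) * D.lam = m * D.lam + ε * D.lam := by ring
  rw [e]
  exact h4

end Pool.Agent.U260.CS
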