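import Pool.Agent.U260.CX3

set_option autoImplicit false
set_option maxHeartbeats 4000000

open Finset MeasureTheory ProbabilityTheory Filter Topology

namespace Pool.Agent.U260.CS

/-- coefficients of `-3 + 16 v - 25 v² + 16 v³ - 3 v⁴` -/
noncomputable def c5 : ℕ → ℝ
  | 0 => -3
  | 1 => 16
  | 2 => -25
  | 3 => 16
  | 4 => -3
  | _ => 0

/-- minorant of the square root with contact of second order -/
theorem c5_sqrt {v : ℝ} (hv : 0 < v) (hP : 0 ≤ -3 + 16 * v - 25 * v ^ 2 + 16 * v ^ 3 - 3 * v ^ 4) :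
    (-3 + 16 * v - 25 * v ^ 2 + 16 * v ^ 3 - 3 * v ^ 4) ^ 2 ≤ (1 + v ^ 8) / 2 := by
  obtain ⟨t, ht⟩ : ∃ t, t = (v - 1) ^ 2 / v := ⟨_, rfl⟩
  have ht0 : 0 ≤ t := by rw [ht]; positivity
  have e1 : -3 + 16 * v - 25 * v ^ 2 + 16 * v ^ 3 - 3 * v ^ 4 =
      v ^ 2 * (1 + 4 * t - 3 * t ^ 2) := by
    rw [ht]
    field_simp
    ring
  have e2 : (1 + v ^ 8) / 2 - (-3 + 16 * v - 25 * v ^ 2 + 16 * v ^ 3 - 3 * v ^ 4) ^ 2 =
      v ^ 4 * (t ^ 3 * (28 - 17 / 2 * t)) := by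
    rw [ht]
    field_simp
    ring
  have hv2 : 0 < v ^ 2 := by positivity
  have h1 : 0 ≤ 1 + 4 * t - 3 * t ^ 2 := by
    rw [e1] at hP
    exact nonneg_of_mul_nonneg_right hP hv2
  have h2 : t ≤ 2 := by
    by_contra h
    rw [not_le] at h
    nlinarith
  have h3 : 0 ≤ v ^ 4 * (t ^ 3 * (28 - 17 / 2 * t)) := by
    have : 0 ≤ 28 - 17 / 2 * t := by linarith
    positivity
  linarith

/-- coefficients for the exponent `γ ≥ 1/2` -/
noncomputable def c5g (γ : ℝ) (j : ℕ) : ℝ := if j = 0 then 1 + 2 * γ * (c5 0 - 1) else 2 * γ * c5 j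

theorem c5g_sum (γ : ℝ) : ∑ j ∈ range 5, c5g γ j = 1 := by
  simp [Finset.sum_range_succ, c5g, c5]
  ring

theorem c5g_min {γ : ℝ} (hγ : 1 / 2 ≤ γ) (x : ℝ) :
    ∑ j ∈ range 5, c5g γ j * Real.exp ((j : ℝ) / 8 * x) ≤ ((1 + Real.exp x) / 2) ^ γ := by
  obtain ⟨v, hv⟩ : ∃ v, v = Real.exp (x / 8) := ⟨_, rfl⟩
  have hv0 : 0 < v := by rw [hv]; exact Real.exp_pos _
  have hpow : ∀ j : ℕ, Real.exp ((j : ℝ) / 8 * x) = v ^ j := by
    intro j
    rw [hv, ← Real.exp_nat_mul]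
    congr 1
    ring
  have hx : Real.exp x = v ^ 8 := by
    rw [hv, ← Real.exp_nat_mul]
    congr 1
    push_cast
    ring
  simp only [hpow]
  rw [hx]
  obtain ⟨P, hP⟩ : ∃ P, P = -3 + 16 * v - 25 * v ^ 2 + 16 * v ^ 3 - 3 * v ^ 4 := ⟨_, rfl⟩
  have e1 : ∑ j ∈ range 5, c5g γ j * v ^ j = 1 + 2 * γ * (P - 1) := by
    rw [hP]
    simp [Finset.sum_range_succ, c5g, c5]
    ring
  rw [e1]
  have hR : 0 ≤ (1 + v ^ 8) / 2 := by positivity
  rcases le_or_gt 0 P with h0 | h0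
  · have h1 : P ^ 2 ≤ (1 + v ^ 8) / 2 := by
      rw [hP]
      exact c5_sqrt hv0 (by rw [← hP]; exact h0)
    have h2 : 1 + 2 * γ * (P - 1) ≤ P ^ (2 * γ) := by
      have h3 := one_add_mul_self_le_rpow_one_add (s := P - 1) (by linarith) (p := 2 * γ)
        (by linarith)
      rwa [add_sub_cancel] at h3
    refine h2.trans ?_
    rw [Real.rpow_mul h0, Real.rpow_two]
    exact Real.rpow_le_rpow (by positivity) h1 (by linarith)
  · have h1 : 1 + 2 * γ * (P - 1) ≤ 0 := by nlinarith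
    exact h1.trans (Real.rpow_nonneg hR _)

/-- **The slope near `α = 1`.** -/
theorem slope_near_one {m : ℝ} (hm0 : 1 / 2 < m) (hm : m < 3 / 4) : ∃ α0 : ℝ, 0 < α0 ∧ α0 < 1 ∧
    ∀ α : ℝ, α0 < α → α < 1 → ∀ (κ : PMF ℕ), κ 0 = 0 → ∀ cK : ℝ, 0 < cK →
      Tendsto (fun n : ℕ => (n : ℝ) ^ (1 + α) * (κ n).toReal) atTop (𝓝 cK) →
    ∀ (ν : Measure ℝ) [IsProbabilityMeasure ν], ∫ x, x ∂ν = 0 → ∫ x, x ^ 2 ∂ν = 1 →
      (∀ t : ℝ, Integrable (fun x => Real.exp (t * x)) ν) →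
    ∃ lam0 : ℝ, 0 < lam0 ∧ ∀ D : Cop764.Data, D.κ = κ → D.α = α → D.ν = ν → D.lam < lam0 →
      0 < D.f (m * D.lam) := by
  have hcont : ContinuousAt (fun α : ℝ => ∑ j ∈ range 4, c5 (j + 1) *
      (2 * (((j + 1 : ℕ) : ℝ) / 8) * (m - ((j + 1 : ℕ) : ℝ) / 8)) ^ α) 1 := by
    refine tendsto_finsetSum _ fun j hj => ?_
    refine ContinuousAt.mul continuousAt_const ?_
    refine Real.continuousAt_const_rpow ?_
    have hj' : j ≤ 3 := by
      rw [Finset.mem_range] at hj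
      omega
    have : ((j + 1 : ℕ) : ℝ) ≤ 4 := by exact_mod_cast Nat.succ_le_succ hj'
    have h1 : (0 : ℝ) < ((j + 1 : ℕ) : ℝ) := by positivity
    have h2 : 0 < m - ((j + 1 : ℕ) : ℝ) / 8 := by linarith
    positivity
  have hval : ∑ j ∈ range 4, c5 (j + 1) *
      (2 * (((j + 1 : ℕ) : ℝ) / 8) * (m - ((j + 1 : ℕ) : ℝ) / 8)) ^ (1 : ℝ) < 0 := by
    simp only [Real.rpow_one, Finset.sum_range_succ, Finset.sum_range_zero, c5]
    push_cast
    linarith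
  have hev : ∀ᶠ α in 𝓝 (1 : ℝ), ∑ j ∈ range 4, c5 (j + 1) *
      (2 * (((j + 1 : ℕ) : ℝ) / 8) * (m - ((j + 1 : ℕ) : ℝ) / 8)) ^ α < 0 :=
    hcont.eventually_lt continuousAt_const hval
  obtain ⟨r, hr, hball⟩ := Metric.eventually_nhds_iff.1 hev
  refine ⟨max (1 / 2) (1 - r), by positivity, max_lt (by norm_num) (by linarith), ?_⟩
  intro α hα0 hα1 κ hκ0 cK hcK htail ν hν mean var expm
  have hα12 : 1 / 2 < α := (le_max_left _ _).trans_lt hα0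
  have hαr : 1 - r < α := (le_max_right _ _).trans_lt hα0
  have hα : 0 < α := by linarith
  have hneg := hball (y := α) (by rw [Real.dist_eq, abs_lt]; constructor <;> linarith)
  have hγ : 1 / 2 ≤ 1 / (1 + α) := by
    rw [div_le_div_iff₀ (by norm_num) (by linarith)]
    linarith
  obtain ⟨γ, hγe⟩ : ∃ γ, γ = 1 / (1 + α) := ⟨_, rfl⟩
  have hγ0 : 0 < γ := by rw [hγe]; positivity
  have hneg2 : ∑ j ∈ range 5, c5g γ j * (2 * ((j : ℝ) / 8) * (m - (j : ℝ) / 8)) ^ α < 0 := by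
    rw [Finset.sum_range_succ']
    have e0 : c5g γ 0 * (2 * (((0 : ℕ) : ℝ) / 8) * (m - ((0 : ℕ) : ℝ) / 8)) ^ α = 0 := by
      simp [Real.zero_rpow hα.ne']
    rw [e0, add_zero]
    have e1 : ∑ j ∈ range 4, c5g γ (j + 1) *
        (2 * (((j + 1 : ℕ) : ℝ) / 8) * (m - ((j + 1 : ℕ) : ℝ) / 8)) ^ α =
        2 * γ * ∑ j ∈ range 4, c5 (j + 1) *
        (2 * (((j + 1 : ℕ) : ℝ) / 8) * (m - ((j + 1 : ℕ) : ℝ) / 8)) ^ α := by
      rw [Finset.mul_sum]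
      refine Finset.sum_congr rfl fun j _ => ?_
      unfold c5g
      rw [if_neg (Nat.succ_ne_zero j)]
      ring
    rw [e1]
    exact mul_neg_of_pos_of_neg (by positivity) hneg
  obtain ⟨l2, hl2, h2⟩ := crit_of_minorant hα hα1 (range 5)
    (c5g γ) (fun j : ℕ => (j : ℝ) / 8) (m := m) (by linarith) (fun j _ => by positivity)
    (fun j hj => by
      have : j ≤ 4 := by
        rw [Finset.mem_range] at hj
        omega
      have : (j : ℝ) ≤ 4 := by exact_mod_cast this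
      show (j : ℝ) / 8 < m
      linarith) (c5g_sum γ) (by rw [← hγe]; exact c5g_min (by rw [hγe]; exact hγ)) hneg2
      κ hκ0 cK hcK htail ν mean var expm
  refine ⟨l2, hl2, fun D hκ hα' hν' hlam => ?_⟩
  have h3 := h2 D hκ hα' hν' hlam
  have hl := D.hlam
  refine ave_pos D (by positivity) ?_
  rw [hα']
  exact h3

end Pool.Agent.U260.CS
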